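import Pool.Agent.Lib.MP_458f0b_nt.Pois.WIc

open Finset Filter Topology

namespace Pool.Agent.Lib.MP_458f0b_nt.Pois

/-- a summatory function with a mean value is uniformly close to the linear function -/
theorem pnta_unif {a : ℕ → ℝ} {A : ℝ}
    (h : Tendsto (fun x : ℝ => (∑ n ∈ Icc 1 ⌊x⌋₊, a n) / x) atTop (𝓝 A)) {ε : ℝ} (hε : 0 < ε) :
    ∀ᶠ X : ℕ in atTop, ∀ y : ℕ, y ≤ X → |∑ n ∈ Icc 1 y, a n - y * A| ≤ ε * X := by
  have h1 : Tendsto (fun y : ℕ => (∑ n ∈ Icc 1 y, a n) / (y : ℝ)) atTop (𝓝 A) := by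
    have := h.comp tendsto_natCast_atTop_atTop
    simpa only [Function.comp_def, Nat.floor_natCast] using this
  obtain ⟨y₀, hy₀⟩ := eventually_atTop.1 ((Metric.tendsto_nhds.1 h1 ε hε).and (eventually_gt_atTop 0))
  set K : ℝ := ∑ y ∈ range y₀, |∑ n ∈ Icc 1 y, a n - y * A| with hK
  have h2 : ∀ᶠ X : ℕ in atTop, K / ε ≤ (X : ℝ) :=
    tendsto_natCast_atTop_atTop.eventually_ge_atTop _
  filter_upwards [h2] with X hX y hy
  rcases lt_or_ge y y₀ with h3 | h3
  · have h4 : |∑ n ∈ Icc 1 y, a n - y * A| ≤ K :=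
      single_le_sum (f := fun y : ℕ => |∑ n ∈ Icc 1 y, a n - y * A|) (fun _ _ => abs_nonneg _)
        (mem_range.2 h3)
    rw [div_le_iff₀ hε] at hX
    linarith
  · obtain ⟨h4, h5⟩ := hy₀ y h3
    have h6 : (0 : ℝ) < y := by exact_mod_cast h5
    rw [Real.dist_eq] at h4
    have h7 : ∑ n ∈ Icc 1 y, a n - y * A = y * ((∑ n ∈ Icc 1 y, a n) / (y : ℝ) - A) := by
      field_simp
    have h8 : (y : ℝ) ≤ X := by exact_mod_cast hy
    rw [h7, abs_mul, abs_of_pos h6]
    nlinarith [abs_nonneg ((∑ n ∈ Icc 1 y, a n) / (y : ℝ) - A)]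

/-- the logarithms of most primes up to `X` are close to `log X` -/
theorem pnta_log {ε : ℝ} (hε : 0 < ε) : ∀ᶠ X : ℕ in atTop,
    ∑ p ∈ (Icc 1 X).filter Nat.Prime, (Real.log X - Real.log p) ≤ ε * X := by
  obtain ⟨C, hC0, hC⟩ := Chebyshev.primeCounting_sub_theta_div_log_isBigO.exists_pos
  have h1 := tendsto_natCast_atTop_atTop.eventually hC.bound
  have h2 : ∀ᶠ X : ℕ in atTop, C / ε ≤ Real.log X :=
    (Real.tendsto_log_atTop.comp tendsto_natCast_atTop_atTop).eventually_ge_atTop _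
  filter_upwards [h1, h2, eventually_ge_atTop 2] with X hX hL h2X
  have hX1 : (1 : ℝ) < X := by exact_mod_cast h2X
  have hl : 0 < Real.log X := Real.log_pos hX1
  have e1 : (Icc 1 X).filter Nat.Prime = Nat.primesLE X := by
    ext p
    simp only [mem_filter, mem_Icc, Nat.mem_primesLE]
    exact ⟨fun h => ⟨h.1.2, h.2⟩, fun h => ⟨⟨h.2.one_lt.le, h.1⟩, h.2⟩⟩
  rw [e1, sum_sub_distrib, sum_const, Nat.primesLE_card_eq_primeCounting, nsmul_eq_mul,
    ← Chebyshev.theta_eq_sum_primesLE_log]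
  rw [Nat.floor_natCast, Real.norm_eq_abs, Real.norm_eq_abs,
    abs_of_nonneg (show 0 ≤ (X : ℝ) / Real.log X ^ 2 by positivity)] at hX
  have h3 := (abs_le.1 hX).2
  have h4 : (Nat.primeCounting X : ℝ) * Real.log X - Chebyshev.theta X
      = ((Nat.primeCounting X : ℝ) - Chebyshev.theta X / Real.log X) * Real.log X := by
    field_simp
  have h5 : C * ((X : ℝ) / Real.log X ^ 2) * Real.log X = C / Real.log X * X := by
    field_simp
  have h6 : C / Real.log X ≤ ε := by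
    rw [div_le_iff₀ hε] at hL
    rw [div_le_iff₀ hl]
    linarith
  rw [h4]
  calc _ ≤ C * ((X : ℝ) / Real.log X ^ 2) * Real.log X := mul_le_mul_of_nonneg_right h3 hl.le
    _ = C / Real.log X * X := h5
    _ ≤ ε * X := mul_le_mul_of_nonneg_right h6 (by positivity)

theorem pnta_sqrt (C : ℝ) {ε : ℝ} (hε : 0 < ε) : ∀ᶠ X : ℕ in atTop, C * √(X : ℝ) ≤ ε * X := by
  have h2 : ∀ᶠ X : ℕ in atTop, C / ε ≤ √(X : ℝ) :=
    (Real.tendsto_sqrt_atTop.comp tendsto_natCast_atTop_atTop).eventually_ge_atTop _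
  filter_upwards [h2] with X hX
  rw [div_le_iff₀ hε] at hX
  have h3 : √(X : ℝ) * √(X : ℝ) = X := Real.mul_self_sqrt (by positivity)
  nlinarith [Real.sqrt_nonneg (X : ℝ)]

/-- prime powers and small primes are negligible -/
theorem pnta_small {ε : ℝ} (hε : 0 < ε) : ∀ᶠ X : ℕ in atTop,
    ∑ n ∈ (Icc 1 X).filter (fun n => ¬n.Prime), ArithmeticFunction.vonMangoldt n
      + ∑ p ∈ (Icc 1 X).filter (fun p => p.Prime ∧ p ^ 2 ≤ X), Real.log p ≤ ε * X := by
  obtain ⟨C, hC⟩ := Chebyshev.psi_sub_theta_le_mul_sqrt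
  filter_upwards [pnta_sqrt (C + Real.log 4) hε] with X hX
  have h1 := hC X
  rw [Chebyshev.psi_sub_theta_eq_sum_not_prime, Nat.floor_natCast] at h1
  have e0 : Icc 1 X = Ioc 0 X := by
    ext n
    simp only [mem_Icc, mem_Ioc]
    omega
  have h2 := Chebyshev.theta_le_log4_mul_x (x := (Nat.sqrt X : ℝ)) (by positivity)
  rw [Chebyshev.theta_eq_sum_primesLE_log] at h2
  have e1 : (Icc 1 X).filter (fun p => p.Prime ∧ p ^ 2 ≤ X) = Nat.primesLE (Nat.sqrt X) := by
    ext p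
    simp only [mem_filter, mem_Icc, Nat.mem_primesLE, Nat.le_sqrt']
    exact ⟨fun h => ⟨h.2.2, h.2.1⟩,
      fun h => ⟨⟨h.2.one_lt.le, (Nat.le_self_pow two_ne_zero p).trans h.1⟩, h.2, h.1⟩⟩
  have h3 : Real.log 4 * (Nat.sqrt X : ℝ) ≤ Real.log 4 * √(X : ℝ) :=
    mul_le_mul_of_nonneg_left Real.nat_sqrt_le_real_sqrt (Real.log_nonneg (by norm_num))
  rw [e1, e0]
  linarith

/-- prime number theorem in progressions, uniform counting form -/
theorem pnt_unif (q : ℕ) (hq : 0 < q) (b : ℕ) (hb : Nat.Coprime b q) (ε : ℝ) (hε : 0 < ε) :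
    ∀ᶠ X : ℕ in atTop, ∀ y : ℕ, y ≤ X →
      |Real.log X * (((Icc 1 y).filter
          (fun p => p.Prime ∧ X < p ^ 2 ∧ p ≡ b [MOD q])).card : ℝ) - y / q.totient| ≤ ε * X := by
  have : NeZero q := ⟨hq.ne'⟩
  have hε' : 0 < ε / 2 := half_pos hε
  have hu : IsUnit (b : ZMod q) := (ZMod.isUnit_iff_coprime b q).2 hb
  filter_upwards [pnta_unif (psi_ap q (b : ZMod q) hu) hε', pnta_log hε', pnta_small hε']
    with X h1 h2 h3 y hy
  have h4 := abs_le.1 (h1 y hy)
  have hsub : Icc 1 y ⊆ Icc 1 X := Icc_subset_Icc_right hy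
  have hcard : Real.log X * (((Icc 1 y).filter
      (fun p => p.Prime ∧ X < p ^ 2 ∧ p ≡ b [MOD q])).card : ℝ)
      = ∑ n ∈ Icc 1 y, if n.Prime ∧ X < n ^ 2 ∧ n ≡ b [MOD q] then Real.log X else 0 := by
    rw [← sum_filter, sum_const, nsmul_eq_mul, mul_comm]
  have hrc : ∀ n : ℕ, ArithmeticFunction.vonMangoldt.residueClass (b : ZMod q) n
      = if n ≡ b [MOD q] then ArithmeticFunction.vonMangoldt n else 0 := by
    intro n
    simp only [ArithmeticFunction.vonMangoldt.residueClass, Set.indicator_apply, Set.mem_ofPred_eq,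
      ZMod.natCast_eq_natCast_iff]
  have hlog : ∀ n ∈ Icc 1 X, 0 ≤ Real.log n ∧ Real.log n ≤ Real.log X := by
    intro n hn
    obtain ⟨hn1, hn2⟩ := mem_Icc.1 hn
    have h5 : (1 : ℝ) ≤ n := by exact_mod_cast hn1
    exact ⟨Real.log_nonneg h5, Real.log_le_log (by linarith) (by exact_mod_cast hn2)⟩
  have hup : (∑ n ∈ Icc 1 y, if n.Prime ∧ X < n ^ 2 ∧ n ≡ b [MOD q] then Real.log X else 0)
      - ∑ n ∈ Icc 1 y, ArithmeticFunction.vonMangoldt.residueClass (b : ZMod q) n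
      ≤ ε / 2 * X := by
    refine le_trans ?_ h2
    rw [← sum_sub_distrib, sum_filter]
    refine le_trans (sum_le_sum fun n hn => ?_) (sum_le_sum_of_subset_of_nonneg hsub
      fun n hn _ => ?_)
    · have h5 := hlog n (hsub hn)
      have h6 : 0 ≤ ArithmeticFunction.vonMangoldt n := ArithmeticFunction.vonMangoldt_nonneg
      rw [hrc]
      by_cases hp : n.Prime
      · rw [ArithmeticFunction.vonMangoldt_apply_prime hp]
        by_cases hm : n ≡ b [MOD q] <;> by_cases hx : X < n ^ 2 <;> simp [hp, hm, hx] <;> linarith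
      · by_cases hm : n ≡ b [MOD q] <;> simp [hp, hm, h6]
    · have h5 := hlog n hn
      split_ifs
      · linarith
      · exact le_rfl
  have hlo : ∑ n ∈ Icc 1 y, ArithmeticFunction.vonMangoldt.residueClass (b : ZMod q) n
      - (∑ n ∈ Icc 1 y, if n.Prime ∧ X < n ^ 2 ∧ n ≡ b [MOD q] then Real.log X else 0)
      ≤ ε / 2 * X := by
    refine le_trans ?_ h3
    rw [← sum_sub_distrib, sum_filter, sum_filter, ← sum_add_distrib]
    refine le_trans (sum_le_sum fun n hn => ?_) (sum_le_sum_of_subset_of_nonneg hsub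
      fun n hn _ => ?_)
    · have h5 := hlog n (hsub hn)
      have h6 : 0 ≤ ArithmeticFunction.vonMangoldt n := ArithmeticFunction.vonMangoldt_nonneg
      rw [hrc]
      by_cases hp : n.Prime
      · rw [ArithmeticFunction.vonMangoldt_apply_prime hp]
        rcases lt_or_ge X (n ^ 2) with hx | hx
        · by_cases hm : n ≡ b [MOD q] <;> simp [hp, hm, hx, hx.not_ge, h5.2]
        · by_cases hm : n ≡ b [MOD q] <;> simp [hp, hm, hx, hx.not_gt, h5.1]
      · by_cases hm : n ≡ b [MOD q] <;> simp [hp, hm, h6]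
    · have h5 := hlog n hn
      have h6 : 0 ≤ ArithmeticFunction.vonMangoldt n := ArithmeticFunction.vonMangoldt_nonneg
      split_ifs <;> linarith
  rw [hcard, div_eq_mul_inv, abs_le]
  constructor <;> linarith

end Pool.Agent.Lib.MP_458f0b_nt.Pois
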