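import Pool.Agent.Lib.MP_458f0b_nt.Pois.Count

open Finset Filter Topology

namespace Pool.Agent.Lib.MP_458f0b_nt.Pois

lemma model_card_le (X d : ℕ) (hd : 1 ≤ d) (a : ℤ) :
    ((Icc (1 : ℤ) X).filter (fun n => (d : ℤ) ∣ n - a)).card ≤ X / d + 1 := by
  have hd' : (0 : ℤ) < d := by exact_mod_cast hd
  have h : ((Icc (1 : ℤ) X).filter (fun n => (d : ℤ) ∣ n - a)).card ≤
      (Icc (0 : ℤ) ((X / d : ℕ) : ℤ)).card := by
    refine Finset.card_le_card_of_injOn (fun n => n / (d : ℤ)) ?_ ?_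
    · intro n hn
      have hn' := Finset.mem_Icc.mp (Finset.mem_filter.mp (Finset.mem_coe.mp hn)).1
      refine Finset.mem_coe.mpr (Finset.mem_Icc.mpr ⟨Int.ediv_nonneg (by linarith [hn'.1]) hd'.le, ?_⟩)
      rw [Int.natCast_div]
      exact Int.ediv_le_ediv hd' hn'.2
    · intro n hn m hm hnm
      have h1 := (Finset.mem_filter.mp (Finset.mem_coe.mp hn)).2
      have h2 := (Finset.mem_filter.mp (Finset.mem_coe.mp hm)).2
      have h3 : (d : ℤ) ∣ n - m := by
        have := dvd_sub h1 h2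
        simpa using this
      have h4 : n % (d : ℤ) = m % (d : ℤ) := (Int.emod_emod_of_dvd n (dvd_refl _)).symm.trans
        ((Int.emod_emod_of_dvd n (dvd_refl _)).trans (Int.emod_eq_emod_iff_emod_sub_eq_zero.mpr
          (Int.emod_eq_zero_of_dvd h3)))
      have h5 : n / (d : ℤ) = m / (d : ℤ) := hnm
      rw [← Int.mul_ediv_add_emod n d, ← Int.mul_ediv_add_emod m d, h4, h5]
  rw [Int.card_Icc] at h
  refine h.trans (le_of_eq ?_)
  generalize X / d = m
  omega

lemma model_fiber (k X d : ℕ) (a : ℕ) (ha : a < d) :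
    (tupSet (Fin (k + 1)) X d).filter (fun n => ((n 0) % (d : ℤ)).toNat = a) =
      (Fintype.piFinset fun _ : Fin (k + 1) =>
        (Icc (1 : ℤ) X).filter (fun n => (d : ℤ) ∣ n - a)).filter
          (fun n => Function.Injective n) := by
  classical
  have hd' : (0 : ℤ) < d := by exact_mod_cast (lt_of_le_of_lt (Nat.zero_le a) ha)
  have key : ∀ m : ℤ, (m % (d : ℤ)).toNat = a ↔ (d : ℤ) ∣ m - a := by
    intro m
    have h0 : 0 ≤ m % (d : ℤ) := Int.emod_nonneg m hd'.ne'
    have h1 : (a : ℤ) % (d : ℤ) = a := Int.emod_eq_of_lt (by positivity) (by exact_mod_cast ha)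
    rw [Int.dvd_iff_emod_eq_zero, ← Int.emod_eq_emod_iff_emod_sub_eq_zero, h1]
    omega
  ext n
  simp only [Finset.mem_filter, mem_tupSet, Fintype.mem_piFinset, Finset.mem_Icc, key]
  constructor
  · rintro ⟨⟨h1, h2, h3⟩, h4⟩
    refine ⟨fun i => ⟨h1 i, ?_⟩, h2⟩
    have := dvd_add (h3 i 0) h4
    simpa using this
  · rintro ⟨h1, h2⟩
    refine ⟨⟨fun i => (h1 i).1, h2, fun i j => ?_⟩, (h1 0).2⟩
    have := dvd_sub (h1 i).2 (h1 j).2
    simpa using this

open Classical in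
lemma model_class (w k : ℕ) (S : Finset ℤ) (B : ℝ) (hB : (S.card : ℝ) ≤ B) :
    |∑ n ∈ (Fintype.piFinset fun _ : Fin (k + 1) => S).filter (fun n => Function.Injective n),
        ∏ i, nu0 w (n i) - (∑ n ∈ S, nu0 w n) ^ (k + 1)| ≤
      kap w ^ (k + 1) * ((k + 1) ^ 2 * B ^ k) := by
  have h1 : (∑ n ∈ S, nu0 w n) ^ (k + 1) =
      ∑ n ∈ (Fintype.piFinset fun _ : Fin (k + 1) => S), ∏ i, nu0 w (n i) := by
    rw [← Finset.prod_univ_sum]
    simp
  rw [h1, ← Finset.sum_filter_add_sum_filter_not (Fintype.piFinset fun _ : Fin (k + 1) => S)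
    (fun n => Function.Injective n), sub_add_cancel_left, abs_neg,
    abs_of_nonneg (Finset.sum_nonneg fun n _ => Finset.prod_nonneg fun i _ => nu0_nonneg w _)]
  have h2 : ∑ n ∈ (Fintype.piFinset fun _ : Fin (k + 1) => S).filter
      (fun n => ¬ Function.Injective n), ∏ i, nu0 w (n i) ≤
      ((Fintype.piFinset fun _ : Fin (k + 1) => S).filter
        (fun n => ¬ Function.Injective n)).card • kap w ^ (k + 1) := by
    refine Finset.sum_le_card_nsmul _ _ _ fun n _ => ?_
    calc ∏ i, nu0 w (n i) ≤ ∏ _i : Fin (k + 1), kap w :=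
          Finset.prod_le_prod (fun i _ => nu0_nonneg w _) fun i _ => nu0_le w _
      _ = kap w ^ (k + 1) := by simp
  have h3 : ((Fintype.piFinset fun _ : Fin (k + 1) => S).filter
        (fun n => ¬ Function.Injective n)).card ≤ (k + 1) ^ 2 * S.card ^ k := by
    rcases Nat.eq_zero_or_pos S.card with h0 | h0
    · have hS : S = ∅ := Finset.card_eq_zero.mp h0
      subst hS
      simp
    · have := card_noninj (κ := Fin (k + 1)) S
      rw [Fintype.card_fin, pow_succ S.card k, ← mul_assoc] at this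
      exact Nat.le_of_mul_le_mul_right (by convert this) h0
  have h4 : (((Fintype.piFinset fun _ : Fin (k + 1) => S).filter
        (fun n => ¬ Function.Injective n)).card : ℝ) ≤ (k + 1) ^ 2 * B ^ k := by
    calc _ ≤ (((k + 1) ^ 2 * S.card ^ k : ℕ) : ℝ) := by exact_mod_cast h3
      _ = (k + 1) ^ 2 * (S.card : ℝ) ^ k := by push_cast; ring
      _ ≤ (k + 1) ^ 2 * B ^ k := by gcongr
  refine h2.trans ?_
  rw [nsmul_eq_mul, mul_comm]
  exact mul_le_mul_of_nonneg_left h4 (pow_nonneg (kap_pos w).le _)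

/-- evaluation of the model tuple sum -/
theorem model_eval (w k : ℕ) : ∃ C : ℝ, 0 ≤ C ∧ ∀ D X d : ℕ, 1 ≤ D → 1 ≤ X / D → D ≤ d →
    |∑ n ∈ tupSet (Fin (k + 1)) X d, ∏ i, (ind X (n i) * nu0 w (n i)) -
      d * om w d * (X / (d * om w d)) ^ (k + 1)| ≤ C * d * ((X / D : ℕ) : ℝ) ^ k := by
  classical
  have hk := kap_pos w
  refine ⟨kap w ^ (k + 1) * ((k + 1) ^ 2 * 2 ^ k) +
    kap w * (w.factorial + 1) * (k + 1) * (2 * kap w) ^ k, by positivity, ?_⟩
  intro D X d hD hQ hDd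
  have hd : 1 ≤ d := hD.trans hDd
  have hdz : (1 : ℤ) ≤ d := by exact_mod_cast hd
  have hdr : (0 : ℝ) < d := by exact_mod_cast hd
  set Q : ℝ := ((X / D : ℕ) : ℝ) with hQdef
  have hQ1 : 1 ≤ Q := by rw [hQdef]; exact_mod_cast hQ
  have hXd : X / d ≤ X / D := Nat.div_le_div_left hDd hD
  have hXd' : ((X / d : ℕ) : ℝ) + 1 ≤ 2 * Q := by
    have : ((X / d : ℕ) : ℝ) ≤ Q := by rw [hQdef]; exact_mod_cast hXd
    linarith
  have hXr : (X : ℝ) / d ≤ 2 * Q := by
    refine le_trans ?_ hXd'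
    rw [div_le_iff₀ hdr]
    have h := Nat.lt_mul_div_succ X hd
    have h' : (X : ℝ) < d * (((X / d : ℕ) : ℝ) + 1) := by exact_mod_cast h
    linarith
  have e1 : ∑ n ∈ tupSet (Fin (k + 1)) X d, ∏ i, (ind X (n i) * nu0 w (n i)) =
      ∑ a ∈ range d, ∑ n ∈ (Fintype.piFinset fun _ : Fin (k + 1) =>
        (Icc (1 : ℤ) X).filter (fun n => (d : ℤ) ∣ n - (a : ℕ))).filter
          (fun n => Function.Injective n), ∏ i, nu0 w (n i) := by
    rw [← Finset.sum_fiberwise_of_maps_to (s := tupSet (Fin (k + 1)) X d) (t := range d)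
      (g := fun n => ((n 0) % (d : ℤ)).toNat)]
    · refine Finset.sum_congr rfl fun a ha => ?_
      rw [model_fiber k X d a (Finset.mem_range.mp ha)]
      refine Finset.sum_congr (by convert rfl) fun n hn => ?_
      refine Finset.prod_congr rfl fun i _ => ?_
      have := (Fintype.mem_piFinset.mp (Finset.mem_filter.mp hn).1) i
      rw [ind_of_mem (Finset.mem_filter.mp this).1, one_mul]
    · intro n _
      have h0 : 0 ≤ n 0 % (d : ℤ) := Int.emod_nonneg _ (by omega)
      have h1 : n 0 % (d : ℤ) < d := Int.emod_lt_of_pos _ (by omega)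
      rw [Finset.mem_range]
      omega
  have e2 : (d : ℝ) * om w d * (X / (d * om w d)) ^ (k + 1) =
      ∑ a ∈ range d, (if Cop w d (a : ℕ) then (X : ℝ) / (d * om w d) else 0) ^ (k + 1) := by
    rw [← card_Ad w d, Ad]
    simp only [ite_pow, zero_pow (Nat.succ_ne_zero k)]
    rw [← Finset.sum_filter, Finset.sum_const, nsmul_eq_mul]
  rw [e1, e2, ← Finset.sum_sub_distrib]
  refine (Finset.abs_sum_le_sum_abs _ _).trans ?_
  refine (Finset.sum_le_card_nsmul _ _ ((kap w ^ (k + 1) * ((k + 1) ^ 2 * 2 ^ k) +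
    kap w * (w.factorial + 1) * (k + 1) * (2 * kap w) ^ k) * Q ^ k) fun a _ => ?_).trans
    (le_of_eq (by rw [Finset.card_range, nsmul_eq_mul]; ring))
  set S := (Icc (1 : ℤ) X).filter (fun n => (d : ℤ) ∣ n - (a : ℕ)) with hS
  have hcard : (S.card : ℝ) ≤ 2 * Q := by
    refine le_trans ?_ hXd'
    exact_mod_cast model_card_le X d hd a
  have b1 := model_class w k S (2 * Q) hcard
  have b2 := class_sum w X hdz (a : ℕ)
  rw [Int.cast_natCast, ← hS] at b2
  set s := ∑ n ∈ S, nu0 w n with hs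
  set t := (if Cop w d (a : ℕ) then (X : ℝ) / (d * om w d) else 0) with ht
  have hs0 : 0 ≤ s := Finset.sum_nonneg fun n _ => nu0_nonneg w n
  have hs1 : s ≤ 2 * kap w * Q := by
    have := Finset.sum_le_card_nsmul S (fun n => nu0 w n) (kap w) fun n _ => nu0_le w n
    rw [nsmul_eq_mul] at this
    nlinarith
  have hom := om_pos w d
  have ht0 : 0 ≤ t := by rw [ht]; split_ifs <;> positivity
  have ht1 : t ≤ 2 * kap w * Q := by
    rw [ht]
    split_ifs
    · rw [← div_div, div_eq_mul_inv]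
      calc (X : ℝ) / d * (om w d)⁻¹ ≤ 2 * Q * kap w :=
            mul_le_mul hXr (inv_om_le w d) (by positivity) (by positivity)
        _ = 2 * kap w * Q := by ring
    · positivity
  have b3 : |s ^ (k + 1) - t ^ (k + 1)| ≤
      kap w * (w.factorial + 1) * (k + 1) * (2 * kap w * Q) ^ k := by
    refine (abs_pow_sub_pow_le s t (k + 1)).trans ?_
    rw [abs_of_nonneg hs0, abs_of_nonneg ht0, Nat.add_sub_cancel]
    push_cast
    have hm : max s t ≤ 2 * kap w * Q := max_le hs1 ht1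
    have hm0 : 0 ≤ max s t := le_max_of_le_left hs0
    gcongr
  calc _ ≤ _ := abs_sub_le _ (s ^ (k + 1)) _
    _ ≤ kap w ^ (k + 1) * ((k + 1) ^ 2 * (2 * Q) ^ k) +
        kap w * (w.factorial + 1) * (k + 1) * (2 * kap w * Q) ^ k := add_le_add (by convert b1) b3
    _ = _ := by rw [mul_pow, mul_pow (2 * kap w)]; ring

end Pool.Agent.Lib.MP_458f0b_nt.Pois
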