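import Pool.Agent.Lib.MP_458f0b_nt.Pois.Defs

open Finset Filter Topology

namespace Pool.Agent.Lib.MP_458f0b_nt.Pois

lemma tup_abs_le {D X : ℕ} (hD : 0 < D) {d q : ℤ} (hd : (D : ℤ) ≤ d) (h1 : -(X : ℤ) ≤ q * d)
    (h2 : q * d ≤ X) : -((X / D : ℕ) : ℤ) ≤ q ∧ q ≤ ((X / D : ℕ) : ℤ) := by
  have hD' : (0 : ℤ) < D := by exact_mod_cast hD
  have key : ∀ r : ℤ, r * d ≤ X → r ≤ ((X / D : ℕ) : ℤ) := by
    intro r hr
    rcases le_or_gt r 0 with h | h
    · exact h.trans (Int.natCast_nonneg _)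
    · rw [Int.natCast_div, Int.le_ediv_iff_mul_le hD']
      nlinarith
  refine ⟨?_, key q h2⟩
  have := key (-q) (by linarith)
  linarith

lemma tup_fixed {κ : Type} [Fintype κ] [DecidableEq κ] (i0 : κ) {D : ℕ} (hD : 0 < D) (X : ℕ)
    (g : κ → ℤ → ℝ) (hg : ∀ i, i ≠ i0 → ∀ n, n ∉ Icc (1 : ℤ) X → g i n = 0) {d : ℤ}
    (hd : (D : ℤ) ≤ d) :
    ∑ n ∈ tupSet κ X d, ∏ i, g i (n i) =
      ∑ m ∈ Icc (1 : ℤ) X, g i0 m *
        ∑ q ∈ inj {i // i ≠ i0} (X / D), ∏ i : {i // i ≠ i0}, g i (m + q i * d) := by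
  classical
  have hd0 : 0 < d := lt_of_lt_of_le (by exact_mod_cast hD) hd
  simp only [Finset.mul_sum]
  rw [← Finset.sum_product']
  rw [← Finset.sum_filter_of_ne (s := Icc (1 : ℤ) X ×ˢ inj {i // i ≠ i0} (X / D))
    (p := fun x => ∀ i, x.1 + x.2 i * d ∈ Icc (1 : ℤ) X)]
  swap
  · intro x _ hx i
    by_contra hi
    apply hx
    rw [Finset.prod_eq_zero (Finset.mem_univ i) (hg i i.2 _ hi), mul_zero]
  refine Finset.sum_nbij' (fun n => (n i0, fun i => (n i - n i0) / d))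
    (fun x => fun i => if h : i = i0 then x.1 else x.1 + x.2 ⟨i, h⟩ * d) ?_ ?_ ?_ ?_ ?_
  · intro n hn
    obtain ⟨h1, h2, h3⟩ := mem_tupSet.mp hn
    have e : ∀ i, (n i - n i0) / d * d = n i - n i0 := fun i => Int.ediv_mul_cancel (h3 i i0)
    refine Finset.mem_filter.mpr ⟨Finset.mem_product.mpr ⟨Finset.mem_Icc.mpr (h1 i0),
      mem_inj.mpr ⟨fun i => ?_, fun i j hij => ?_, fun i hi => ?_⟩⟩, fun i => ?_⟩
    · refine tup_abs_le hD hd ?_ ?_
      · rw [e]
        have := h1 i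
        have := h1 i0
        omega
      · rw [e]
        have := h1 i
        have := h1 i0
        omega
    · have h4 : (n i - n i0) / d * d = (n j - n i0) / d * d := congrArg (· * d) hij
      rw [e, e] at h4
      exact Subtype.ext (h2 (by omega))
    · have h4 : (n i - n i0) / d * d = 0 * d := congrArg (· * d) hi
      rw [e] at h4
      exact i.2 (h2 (by omega))
    · show n i0 + (n i - n i0) / d * d ∈ _
      rw [e, add_sub_cancel]
      exact Finset.mem_Icc.mpr (h1 i)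
  · intro x hx
    obtain ⟨hx1, hx2⟩ := Finset.mem_filter.mp hx
    obtain ⟨hx3, hx4⟩ := Finset.mem_product.mp hx1
    obtain ⟨-, h2, h3⟩ := mem_inj.mp hx4
    refine mem_tupSet.mpr ⟨fun i => ?_, fun i j hij => ?_, fun i j => ?_⟩
    · by_cases h : i = i0
      · rw [dif_pos h]
        exact Finset.mem_Icc.mp hx3
      · rw [dif_neg h]
        exact Finset.mem_Icc.mp (hx2 ⟨i, h⟩)
    · by_cases hi : i = i0 <;> by_cases hj : j = i0
      · rw [hi, hj]
      · simp only [dif_pos hi, dif_neg hj] at hij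
        have : x.2 ⟨j, hj⟩ * d = 0 := by linarith
        exact absurd ((mul_eq_zero.mp this).resolve_right hd0.ne') (h3 _)
      · simp only [dif_neg hi, dif_pos hj] at hij
        have : x.2 ⟨i, hi⟩ * d = 0 := by linarith
        exact absurd ((mul_eq_zero.mp this).resolve_right hd0.ne') (h3 _)
      · simp only [dif_neg hi, dif_neg hj] at hij
        have : x.2 ⟨i, hi⟩ * d = x.2 ⟨j, hj⟩ * d := by linarith
        exact congrArg Subtype.val (h2 (mul_right_cancel₀ hd0.ne' this))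
    · by_cases hi : i = i0 <;> by_cases hj : j = i0
      · simp [hi, hj]
      · rw [dif_pos hi, dif_neg hj]
        exact ⟨-x.2 ⟨j, hj⟩, by ring⟩
      · rw [dif_neg hi, dif_pos hj]
        exact ⟨x.2 ⟨i, hi⟩, by ring⟩
      · rw [dif_neg hi, dif_neg hj]
        exact ⟨x.2 ⟨i, hi⟩ - x.2 ⟨j, hj⟩, by ring⟩
  · intro n hn
    obtain ⟨-, -, h3⟩ := mem_tupSet.mp hn
    funext i
    by_cases h : i = i0
    · rw [dif_pos h, h]
    · rw [dif_neg h]
      show n i0 + (n i - n i0) / d * d = n i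
      rw [Int.ediv_mul_cancel (h3 i i0), add_sub_cancel]
  · intro x _
    refine Prod.ext (by simp) (funext fun i => ?_)
    show ((if h : (i : κ) = i0 then x.1 else x.1 + x.2 ⟨i, h⟩ * d) -
      (if h : i0 = i0 then x.1 else x.1 + x.2 ⟨i0, h⟩ * d)) / d = x.2 i
    rw [dif_neg i.2, dif_pos rfl, add_sub_cancel_left, Int.mul_ediv_cancel _ hd0.ne']
  · intro n hn
    obtain ⟨-, -, h3⟩ := mem_tupSet.mp hn
    rw [Fintype.prod_eq_mul_prod_subtype_ne _ i0]
    congr 1
    refine Finset.prod_congr rfl fun i _ => ?_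
    show g i (n i) = g i (n i0 + (n i - n i0) / d * d)
    rw [Int.ediv_mul_cancel (h3 i i0), add_sub_cancel]

/-- singling out one point of the tuple -/
theorem tup_eq {κ : Type} [Fintype κ] [DecidableEq κ] (i0 : κ) {D : ℕ} (hD : 0 < D) (X : ℕ)
    (a : ℤ → ℝ) (g : κ → ℤ → ℝ) (hg : ∀ i, i ≠ i0 → ∀ n, n ∉ Icc (1 : ℤ) X → g i n = 0) :
    tup D X a g =
      ∑ n ∈ Icc (1 : ℤ) X, g i0 n * line D X a (fun i : {i // i ≠ i0} => g i) n := by
  unfold tup line
  simp only [Finset.mul_sum (s := Ico (D : ℤ) (2 * D))]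
  rw [Finset.sum_comm]
  refine Finset.sum_congr rfl fun d hd => ?_
  rw [tup_fixed i0 hD X g hg (Finset.mem_Ico.mp hd).1, Finset.mul_sum]
  exact Finset.sum_congr rfl fun n _ => by ring

lemma tup_fiber (X k : ℕ) {d : ℕ} (a : ℕ) :
    (((tupSet (Fin (k + 1)) X d).filter
      (fun n => ∀ i, (n i).natAbs.Prime ∧ (X : ℤ) < n i ^ 2)).filter
        (fun n => (n 0).toNat % d = a)).card = (cnt X d a).descFactorial (k + 1) := by
  classical
  set S := (Icc 1 X).filter (fun p => p.Prime ∧ X < p ^ 2 ∧ p % d = a) with hS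
  have hc : (cnt X d a).descFactorial (k + 1) =
      (Finset.univ : Finset (Fin (k + 1) ↪ S)).card := by
    rw [Finset.card_univ, Fintype.card_embedding_eq, Fintype.card_fin, Fintype.card_coe]
    rfl
  rw [hc]
  symm
  have hmem : ∀ p : ℕ, p ∈ S ↔ (1 ≤ p ∧ p ≤ X) ∧ p.Prime ∧ X < p ^ 2 ∧ p % d = a := by
    intro p
    rw [hS, Finset.mem_filter, Finset.mem_Icc]
  refine Finset.card_bij (fun e _ => fun i => ((e i : ℕ) : ℤ)) ?_ ?_ ?_
  · intro e _
    have he := fun i => (hmem _).mp (e i).2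
    refine Finset.mem_filter.mpr ⟨Finset.mem_filter.mpr ⟨mem_tupSet.mpr
      ⟨fun i => ?_, fun i j hij => ?_, fun i j => ?_⟩, fun i => ⟨?_, ?_⟩⟩, ?_⟩
    · exact ⟨by exact_mod_cast (he i).1.1, by exact_mod_cast (he i).1.2⟩
    · exact e.injective (Subtype.ext (Int.natCast_inj.mp hij))
    · exact (Nat.modEq_iff_dvd.mp ((he j).2.2.2.trans (he i).2.2.2.symm))
    · simpa using (he i).2.1
    · beta_reduce
      exact_mod_cast (he i).2.2.1
    · simpa using (he 0).2.2.2
  · intro e _ e' _ h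
    ext i
    exact Int.natCast_inj.mp (congrFun h i)
  · intro n hn
    obtain ⟨hn1, hn2⟩ := Finset.mem_filter.mp hn
    obtain ⟨hn3, hn4⟩ := Finset.mem_filter.mp hn1
    obtain ⟨h1, h2, h3⟩ := mem_tupSet.mp hn3
    have e : ∀ i, (((n i).toNat : ℕ) : ℤ) = n i := fun i =>
      Int.toNat_of_nonneg (by have := (h1 i).1; omega)
    have hin : ∀ i, (n i).toNat ∈ S := by
      intro i
      refine (hmem _).mpr ⟨⟨?_, ?_⟩, ?_, ?_, ?_⟩
      · have := (h1 i).1
        omega
      · have := (h1 i).2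
        omega
      · have := (hn4 i).1
        rw [← e i, Int.natAbs_natCast] at this
        exact this
      · have := (hn4 i).2
        rw [← e i] at this
        exact_mod_cast this
      · rw [← hn2]
        refine Nat.modEq_iff_dvd.mpr ?_
        rw [e, e]
        exact h3 0 i
    refine ⟨⟨fun i => ⟨(n i).toNat, hin i⟩, fun i j hij => h2 ?_⟩, Finset.mem_univ _,
      funext fun i => e i⟩
    rw [← e i, ← e j]
    exact congrArg (fun x : S => ((x : ℕ) : ℤ)) hij

/-- tuples of primes give the factorial moments -/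
theorem tup_pr (X k : ℕ) {d : ℕ} (hd : 1 ≤ d) :
    ∑ n ∈ tupSet (Fin (k + 1)) X d, ∏ i, pr X (n i) =
      Real.log X ^ (k + 1) * (Mom X d (k + 1) : ℝ) := by
  classical
  have h1 : ∀ n ∈ tupSet (Fin (k + 1)) X d, ∏ i, pr X (n i) =
      if ∀ i, (n i).natAbs.Prime ∧ (X : ℤ) < n i ^ 2 then Real.log X ^ (k + 1) else 0 := by
    intro n hn
    obtain ⟨h1, -, -⟩ := mem_tupSet.mp hn
    split_ifs with h
    · rw [Finset.prod_congr rfl (g := fun _ => Real.log X)]
      · simp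
      · intro i _
        exact if_pos ⟨(h1 i).1, (h1 i).2, h i⟩
    · obtain ⟨i, hi⟩ := not_forall.mp h
      exact Finset.prod_eq_zero (Finset.mem_univ i) (if_neg fun h' => hi h'.2.2)
  rw [Finset.sum_congr rfl h1, ← Finset.sum_filter, Finset.sum_const, nsmul_eq_mul, mul_comm]
  congr 2
  rw [Finset.card_eq_sum_card_fiberwise (f := fun n => (n 0).toNat % d) (t := range d)
    (fun n _ => Finset.mem_coe.mpr (Finset.mem_range.mpr (Nat.mod_lt _ hd)))]
  exact Finset.sum_congr rfl fun a _ => tup_fiber X k a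

end Pool.Agent.Lib.MP_458f0b_nt.Pois
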