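import Pool.Agent.Lib.MP_458f0b_nt.Pois.Defs

open Finset Filter Topology

namespace Pool.Agent.Lib.MP_458f0b_nt.Pois

lemma bonf_desc (N k i : ℕ) : (N.descFactorial (k + i) : ℝ) / (k.factorial * i.factorial) =
    N.choose k * (N - k).choose i := by
  have h := Nat.descFactorial_mul_descFactorial (n := N) (Nat.le_add_right k i)
  rw [Nat.add_sub_cancel_left, Nat.descFactorial_eq_factorial_mul_choose (N - k),
    Nat.descFactorial_eq_factorial_mul_choose N k] at h
  rw [← h]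
  push_cast
  field_simp

lemma bonf_point (N k m : ℕ) :
    |(if N = k then (1 : ℝ) else 0) - ∑ i ∈ range (m + 1),
      (-1) ^ i * ((N.descFactorial (k + i) : ℝ) / (k.factorial * i.factorial))| ≤
      (N.descFactorial (k + (m + 1)) : ℝ) / (k.factorial * (m + 1).factorial) := by
  simp only [bonf_desc]
  rcases lt_trichotomy N k with h | h | h
  · rw [if_neg h.ne, Nat.choose_eq_zero_of_lt h]
    simp
  · subst h
    rw [if_pos rfl, Finset.sum_range_succ']
    simp
  · obtain ⟨M, rfl⟩ : ∃ M, N = k + (M + 1) := ⟨N - k - 1, by omega⟩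
    rw [if_neg h.ne', Nat.add_sub_cancel_left]
    have h1 : (∑ i ∈ range (m + 1), ((-1) ^ i * (M + 1).choose i : ℝ)) = (-1) ^ m * M.choose m := by
      exact_mod_cast Int.alternating_sum_range_choose_eq_choose (n := M) (m := m)
    have h2 : ∑ i ∈ range (m + 1), (-1 : ℝ) ^ i * ((k + (M + 1)).choose k * (M + 1).choose i) =
        (k + (M + 1)).choose k * ((-1) ^ m * M.choose m) := by
      rw [← h1, Finset.mul_sum]
      exact Finset.sum_congr rfl fun i _ => by ring
    rw [h2, zero_sub, abs_neg, abs_mul, abs_mul, abs_pow, abs_neg, abs_one, one_pow, one_mul,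
      Nat.abs_cast, Nat.abs_cast, Nat.choose_succ_succ' M m]
    push_cast
    have h3 : (0 : ℝ) ≤ M.choose (m + 1) := by positivity
    exact mul_le_mul_of_nonneg_left (by linarith) (by positivity)

lemma bonf_exp {μ B : ℝ} (h0 : 0 ≤ μ) (hB : μ ≤ B) {n : ℕ} (hn : 2 * B ≤ n) :
    |Real.exp (-μ) - ∑ i ∈ range n, (-μ) ^ i / i.factorial| ≤ B ^ n / n.factorial * 2 := by
  have hx : ‖((-μ : ℝ) : ℂ)‖ = μ := by
    rw [Complex.norm_real, norm_neg, Real.norm_of_nonneg h0]
  have h := Complex.exp_bound' (x := ((-μ : ℝ) : ℂ)) (n := n) (by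
    rw [hx, div_le_iff₀ (by positivity)]
    push_cast
    linarith)
  rw [hx] at h
  have h2 : Complex.exp ((-μ : ℝ) : ℂ) - ∑ m ∈ range n, ((-μ : ℝ) : ℂ) ^ m / m.factorial =
      ((Real.exp (-μ) - ∑ i ∈ range n, (-μ) ^ i / i.factorial : ℝ) : ℂ) := by
    push_cast
    rfl
  rw [h2, Complex.norm_real, Real.norm_eq_abs] at h
  refine h.trans ?_
  gcongr

lemma bonf_one_le (k i : ℕ) : (1 : ℝ) ≤ k.factorial * i.factorial := by
  have h1 : 1 ≤ k.factorial * i.factorial := Nat.mul_pos k.factorial_pos i.factorial_pos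
  exact_mod_cast h1

lemma bonf_main {α : Type} (A : Finset α) (N : α → ℕ) (k m : ℕ) {μ B : ℝ} (h0 : 0 ≤ μ)
    (hB : μ ≤ B) (hm : 2 * B ≤ (m + 1 : ℕ)) :
    |((A.filter (fun a => N a = k)).card : ℝ) - A.card * pois μ k| ≤
      3 * (B ^ k * (B ^ (m + 1) / (m + 1).factorial)) * A.card + ∑ i ∈ range (m + 2),
        |((∑ a ∈ A, (N a).descFactorial (k + i) : ℕ) : ℝ) - A.card * μ ^ (k + i)| := by
  set n : ℝ := (A.card : ℝ) with hn
  have hn0 : 0 ≤ n := Nat.cast_nonneg _
  set M : ℕ → ℝ := fun i => ((∑ a ∈ A, (N a).descFactorial (k + i) : ℕ) : ℝ) with hM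
  set τ : ℝ := B ^ k * (B ^ (m + 1) / (m + 1).factorial) with hτ
  have hB0 : 0 ≤ B := h0.trans hB
  have hk : (1 : ℝ) ≤ k.factorial := by exact_mod_cast k.factorial_pos
  have e1 : |((A.filter (fun a => N a = k)).card : ℝ) -
      ∑ i ∈ range (m + 1), (-1) ^ i * (M i / (k.factorial * i.factorial))| ≤
      M (m + 1) / (k.factorial * (m + 1).factorial) := by
    have h1 : ((A.filter (fun a => N a = k)).card : ℝ) -
        ∑ i ∈ range (m + 1), (-1) ^ i * (M i / (k.factorial * i.factorial)) =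
        ∑ a ∈ A, ((if N a = k then (1 : ℝ) else 0) - ∑ i ∈ range (m + 1),
          (-1) ^ i * (((N a).descFactorial (k + i) : ℝ) / (k.factorial * i.factorial))) := by
      rw [Finset.sum_sub_distrib, Finset.sum_boole, Finset.sum_comm]
      congr 1
      refine Finset.sum_congr rfl fun i _ => ?_
      rw [← Finset.mul_sum, ← Finset.sum_div, hM]
      push_cast
      rfl
    rw [h1]
    refine (Finset.abs_sum_le_sum_abs _ _).trans ?_
    refine (Finset.sum_le_sum fun a _ => bonf_point (N a) k m).trans (le_of_eq ?_)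
    rw [← Finset.sum_div, hM]
    push_cast
    rfl
  have e2 : M (m + 1) / (k.factorial * (m + 1).factorial) ≤
      τ * n + |M (m + 1) - n * μ ^ (k + (m + 1))| := by
    have h1 : M (m + 1) ≤ n * μ ^ (k + (m + 1)) + |M (m + 1) - n * μ ^ (k + (m + 1))| := by
      linarith [le_abs_self (M (m + 1) - n * μ ^ (k + (m + 1)))]
    refine (div_le_div_of_nonneg_right h1 (by positivity)).trans ?_
    rw [add_div]
    refine add_le_add ?_ (div_le_self (abs_nonneg _) (bonf_one_le _ _))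
    have h2 : n * μ ^ (k + (m + 1)) / (k.factorial * (m + 1).factorial) =
        μ ^ k / k.factorial * (μ ^ (m + 1) / (m + 1).factorial) * n := by
      rw [pow_add]
      field_simp
    rw [h2, hτ]
    have h3 : μ ^ k / k.factorial ≤ B ^ k :=
      (div_le_self (by positivity) hk).trans (by gcongr)
    gcongr
  have e3 : |∑ i ∈ range (m + 1), (-1) ^ i * (M i / (k.factorial * i.factorial)) -
      ∑ i ∈ range (m + 1), (-1) ^ i * (n * μ ^ (k + i) / (k.factorial * i.factorial))| ≤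
      ∑ i ∈ range (m + 1), |M i - n * μ ^ (k + i)| := by
    rw [← Finset.sum_sub_distrib]
    refine (Finset.abs_sum_le_sum_abs _ _).trans (Finset.sum_le_sum fun i _ => ?_)
    rw [← mul_sub, ← sub_div, abs_mul, abs_pow, abs_neg, abs_one, one_pow, one_mul, abs_div,
      abs_of_pos (by positivity : (0 : ℝ) < k.factorial * i.factorial)]
    exact div_le_self (abs_nonneg _) (bonf_one_le _ _)
  have e4 : |∑ i ∈ range (m + 1), (-1) ^ i * (n * μ ^ (k + i) / (k.factorial * i.factorial)) -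
      n * pois μ k| ≤ 2 * τ * n := by
    have h1 : ∑ i ∈ range (m + 1), (-1) ^ i * (n * μ ^ (k + i) / (k.factorial * i.factorial)) -
        n * pois μ k = -(n * (μ ^ k / k.factorial)) *
          (Real.exp (-μ) - ∑ i ∈ range (m + 1), (-μ) ^ i / i.factorial) := by
      rw [mul_sub, Finset.mul_sum, pois]
      have : ∀ i : ℕ, (-1) ^ i * (n * μ ^ (k + i) / (k.factorial * i.factorial)) =
          -(-(n * (μ ^ k / k.factorial)) * ((-μ) ^ i / i.factorial)) := fun i => by
        rw [neg_pow μ, pow_add]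
        field_simp
      simp only [this, Finset.sum_neg_distrib]
      ring
    have h3 : μ ^ k / k.factorial ≤ B ^ k :=
      (div_le_self (by positivity) hk).trans (by gcongr)
    rw [h1, abs_mul, abs_neg, abs_of_nonneg (by positivity)]
    refine (mul_le_mul (mul_le_mul_of_nonneg_left h3 hn0) (bonf_exp h0 hB hm) (abs_nonneg _)
      (by positivity)).trans (le_of_eq ?_)
    rw [hτ]
    ring
  rw [Finset.sum_range_succ _ (m + 1)]
  have t1 := abs_sub_le ((A.filter (fun a => N a = k)).card : ℝ)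
    (∑ i ∈ range (m + 1), (-1) ^ i * (M i / (k.factorial * i.factorial))) (n * pois μ k)
  have t2 := abs_sub_le (∑ i ∈ range (m + 1), (-1) ^ i * (M i / (k.factorial * i.factorial)))
    (∑ i ∈ range (m + 1), (-1) ^ i * (n * μ ^ (k + i) / (k.factorial * i.factorial)))
    (n * pois μ k)
  linarith

lemma bonf_dyadic (F : ℕ → ℝ) (h0 : ∀ d, 0 ≤ F d) (h1 : ∀ d, F d ≤ 1) {ε : ℝ} (hε : 0 < ε)
    {D0 : ℕ} (h : ∀ D, D0 ≤ D → ∑ d ∈ Ico D (2 * D), F d ≤ ε * D) (n : ℕ) :
    ∑ d ∈ range n, F d ≤ (2 * D0 + 3 : ℕ) + 2 * ε * n := by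
  induction n using Nat.strong_induction_on with
  | _ n ih =>
    by_cases hn : n < 2 * D0 + 3
    · have h2 : ∑ d ∈ range n, F d ≤ n := by
        refine (Finset.sum_le_sum fun d _ => h1 d).trans ?_
        simp
      have h3 : (n : ℝ) ≤ (2 * D0 + 3 : ℕ) := by exact_mod_cast hn.le
      have h4 : 0 ≤ 2 * ε * n := by positivity
      linarith
    · obtain ⟨r, hr, hr'⟩ : ∃ r, n ≤ 2 * r ∧ 2 * r ≤ n + 1 := ⟨(n + 1) / 2, by omega, by omega⟩
      have h2 : ∑ d ∈ range n, F d ≤ ∑ d ∈ range (2 * r), F d :=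
        Finset.sum_le_sum_of_subset_of_nonneg (Finset.range_mono hr) fun d _ _ => h0 d
      have h3 : ∑ d ∈ range r, F d + ∑ d ∈ Ico r (2 * r), F d = ∑ d ∈ range (2 * r), F d :=
        Finset.sum_range_add_sum_Ico F (by omega)
      have h4 := ih r (by omega)
      have h5 := h r (by omega)
      have h6 : (3 * r : ℝ) ≤ 2 * n := by exact_mod_cast (by omega : 3 * r ≤ 2 * n)
      nlinarith

/-- method of factorial moments -/
theorem pois_moments (k : ℕ) (B ε : ℝ) (hε : 0 < ε) : ∃ J : ℕ,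
    ∀ {α : Type} (A : Finset α) (N : α → ℕ) (μ : ℝ), 0 ≤ μ → μ ≤ B →
      |((A.filter (fun a => N a = k)).card : ℝ) - A.card * pois μ k| ≤
        ε * A.card + ∑ j ∈ range J,
          |((∑ a ∈ A, (N a).descFactorial (j + 1) : ℕ) : ℝ) - A.card * μ ^ (j + 1)| := by
  have ht : Tendsto (fun n : ℕ => 3 * (B ^ k * (B ^ n / n.factorial))) atTop (𝓝 0) := by
    simpa using ((FloorSemiring.tendsto_pow_div_factorial_atTop B).const_mul (B ^ k)).const_mul 3
  obtain ⟨n, hn1, hn2, hn3⟩ := ((ht.eventually (gt_mem_nhds hε)).and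
    ((tendsto_natCast_atTop_atTop.eventually_ge_atTop (2 * B)).and (eventually_ge_atTop 1))).exists
  obtain ⟨m, rfl⟩ : ∃ m, n = m + 1 := ⟨n - 1, by omega⟩
  refine ⟨k + m + 1, fun A N μ h0 hB => (bonf_main A N k m h0 hB hn2).trans (add_le_add ?_ ?_)⟩
  · exact mul_le_mul_of_nonneg_right hn1.le (Nat.cast_nonneg _)
  · have h1 := Finset.sum_range_succ' (fun j =>
      |((∑ a ∈ A, (N a).descFactorial j : ℕ) : ℝ) - A.card * μ ^ j|) (k + m + 1)
    have h2 := Finset.sum_range_add (fun j =>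
      |((∑ a ∈ A, (N a).descFactorial j : ℕ) : ℝ) - A.card * μ ^ j|) k (m + 2)
    have h3 : 0 ≤ ∑ j ∈ range k,
        |((∑ a ∈ A, (N a).descFactorial j : ℕ) : ℝ) - A.card * μ ^ j| :=
      Finset.sum_nonneg fun _ _ => abs_nonneg _
    have h4 : |((∑ a ∈ A, (N a).descFactorial 0 : ℕ) : ℝ) - A.card * μ ^ 0| = 0 := by simp
    rw [show k + (m + 2) = k + m + 1 + 1 by ring] at h2
    linarith

lemma pois_nonneg {μ : ℝ} (hμ : 0 ≤ μ) (k : ℕ) : 0 ≤ pois μ k := by
  unfold pois
  positivity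

lemma pois_le_one {μ : ℝ} (hμ : 0 ≤ μ) (k : ℕ) : pois μ k ≤ 1 := by
  unfold pois
  have h := Real.pow_div_factorial_le_exp μ hμ k
  rw [mul_div_assoc, Real.exp_neg, inv_mul_le_iff₀ (Real.exp_pos μ), mul_one]
  exact h

lemma pois_continuous (k : ℕ) : Continuous fun μ => pois μ k := by
  unfold pois
  fun_prop

/-- dyadic decomposition -/
theorem dyadic (F : ℕ → ℝ) (h0 : ∀ d, 0 ≤ F d) (h1 : ∀ d, F d ≤ 1)
    (h : ∀ ε : ℝ, 0 < ε → ∀ᶠ D : ℕ in atTop, ∑ d ∈ Ico D (2 * D), F d ≤ ε * D) :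
    Tendsto (fun D : ℕ => (∑ d ∈ Icc 1 D, F d) / D) atTop (𝓝 0) := by
  rw [tendsto_order]
  refine ⟨fun a ha => Eventually.of_forall fun D => ha.trans_le
    (div_nonneg (Finset.sum_nonneg fun d _ => h0 d) (Nat.cast_nonneg _)), fun a ha => ?_⟩
  have hε : 0 < a / 4 := by positivity
  obtain ⟨D0, hD0⟩ := eventually_atTop.1 (h _ hε)
  have hb := bonf_dyadic F h0 h1 hε hD0
  filter_upwards [tendsto_natCast_atTop_atTop.eventually_gt_atTop
    ((((2 * D0 + 3 : ℕ) : ℝ) + a) / (a / 2)), eventually_gt_atTop 0] with D hD hD1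
  have hD' : (0 : ℝ) < D := by exact_mod_cast hD1
  rw [div_lt_iff₀ hD']
  rw [div_lt_iff₀ (by positivity)] at hD
  have h2 : ∑ d ∈ Icc 1 D, F d ≤ ∑ d ∈ range (D + 1), F d :=
    Finset.sum_le_sum_of_subset_of_nonneg
      (fun d hd => Finset.mem_range.2 (by have := (Finset.mem_Icc.1 hd).2; omega)) fun d _ _ => h0 d
  have h3 := hb (D + 1)
  rw [Nat.cast_add D 1, Nat.cast_one] at h3
  nlinarith

end Pool.Agent.Lib.MP_458f0b_nt.Pois
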