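import Pool.Agent.Lib.MP_458f0b_nt.Pois.Step
import Pool.Agent.Lib.MP_458f0b_nt.Pois.Tup

open Finset Filter Topology

namespace Pool.Agent.Lib.MP_458f0b_nt.Pois

lemma ind_pr_zero {X : ℕ} {n : ℤ} (h : n ∉ Icc (1 : ℤ) X) : pr X n = 0 :=
  if_neg fun h' => h (Finset.mem_Icc.mpr ⟨h'.1, h'.2.1⟩)

lemma ind_supp {κ : Type} [Fintype κ] [DecidableEq κ] {w X : ℕ} {g : κ → ℤ → ℝ}
    (hg : ∀ i n, |g i n| ≤ ind X n * nu0 w n) (s : Finset κ) (i : κ) (n : ℤ)
    (hn : n ∉ Icc (1 : ℤ) X) : sp X s g i n = 0 ∧ md w X s g i n = 0 := by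
  have h0 : g i n = 0 := by
    have := hg i n
    rw [ind_of_not_mem hn, zero_mul] at this
    exact abs_nonpos_iff.mp this
  unfold sp md
  split_ifs
  · exact ⟨ind_pr_zero hn, by simp [ind_of_not_mem hn]⟩
  · exact ⟨h0, h0⟩

lemma ind_tup_av {κ : Type} [Fintype κ] [DecidableEq κ] (i0 : κ) {D X : ℕ} (hD : 0 < D)
    (hQ : 1 ≤ X / D) (a : ℤ → ℝ) (g : κ → ℤ → ℝ)
    (hg : ∀ i, i ≠ i0 → ∀ n, n ∉ Icc (1 : ℤ) X → g i n = 0) :
    tup D X a g = (X * D * ((X / D : ℕ) : ℝ) ^ (Fintype.card κ - 1)) *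
      av X (fun n => g i0 n * dual D X a (fun i : {i // i ≠ i0} => g i) n) := by
  have hX : 0 < X := by
    rcases Nat.eq_zero_or_pos X with h | h
    · subst h; simp at hQ
    · exact h
  have hc : Fintype.card {i // i ≠ i0} = Fintype.card κ - 1 := by simp
  have hX' : (0 : ℝ) < X := by exact_mod_cast hX
  have hD' : (0 : ℝ) < D := by exact_mod_cast hD
  have hQ' : (0 : ℝ) < ((X / D : ℕ) : ℝ) := by exact_mod_cast hQ
  rw [tup_eq i0 hD X a g hg]
  unfold av dual
  rw [hc, Finset.sum_div, Finset.mul_sum]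
  refine Finset.sum_congr rfl fun n _ => ?_
  field_simp

/-- the primes may be replaced by the model in any set of positions -/
theorem tup_model (κ : Type) [Fintype κ] [DecidableEq κ] (s : Finset κ) (ε : ℝ) (hε : 0 < ε) :
    ∀ᶠ w : ℕ in atTop, ∀ᶠ x in reg, ∀ (a : ℤ → ℝ) (g : κ → ℤ → ℝ),
      (∀ d, |a d| ≤ om w d ^ (Fintype.card κ - 1)) → (∀ i n, |g i n| ≤ ind x.2 n * nu0 w n) →
      |tup x.1 x.2 a (sp x.2 s g) - tup x.1 x.2 a (md w x.2 s g)| ≤
        ε * x.2 * x.1 * ((x.2 / x.1 : ℕ) : ℝ) ^ (Fintype.card κ - 1) := by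
  induction s using Finset.induction_on generalizing ε with
  | empty =>
    refine Eventually.of_forall fun w => Eventually.of_forall fun x a g _ _ => ?_
    have : sp x.2 ∅ g = md w x.2 ∅ g := by funext i; simp [sp, md]
    rw [this, sub_self, abs_zero]; positivity
  | insert i0 s hi0 ih =>
    have hc : Fintype.card {i // i ≠ i0} = Fintype.card κ - 1 := by simp
    have hsp : ∀ (X : ℕ) (t : Finset κ) (g : κ → ℤ → ℝ), (∀ i, i ≠ i0 → (i ∈ t ↔ i ∈ s)) →
        (fun i : {i // i ≠ i0} => sp X t g i) =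
          sp X (s.subtype (· ≠ i0)) (fun i : {i // i ≠ i0} => g i) := by
      intro X t g ht; funext i; simp [sp, ht i i.2]
    have hmd : ∀ (w X : ℕ) (t : Finset κ) (g : κ → ℤ → ℝ), (∀ i, i ≠ i0 → (i ∈ t ↔ i ∈ s)) →
        (fun i : {i // i ≠ i0} => md w X t g i) =
          md w X (s.subtype (· ≠ i0)) (fun i : {i // i ≠ i0} => g i) := by
      intro w X t g ht; funext i; simp [md, ht i i.2]
    have hcore := step_core {i // i ≠ i0} (s.subtype (· ≠ i0)) (fun η hη => by
      filter_upwards [ih η hη] with w hw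
      filter_upwards [hw, reg_basic] with x hx hb a g τ hA hτ
      obtain ⟨D, X⟩ := x
      simp only at *
      set G : κ → ℤ → ℝ := fun i => if h : i = i0 then τ else g ⟨i, h⟩ with hG
      have hG0 : G i0 = τ := by simp [hG]
      have hG1 : (fun i : {i // i ≠ i0} => G i) = g := by funext i; simp [hG, i.2]
      have hGb : ∀ i n, |G i n| ≤ ind X n * nu0 w n := by
        intro i n
        by_cases h : i = i0
        · subst h; rw [hG0]; exact hτ n
        · have := hA.2 ⟨i, h⟩ n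
          simpa [hG, h] using this
      have key := hx a G (fun d => hc ▸ hA.1 d) hGb
      rw [ind_tup_av i0 hb.1 hb.2.1 a _ (fun i _ n hn => (ind_supp hGb s i n hn).1),
        ind_tup_av i0 hb.1 hb.2.1 a _ (fun i _ n hn => (ind_supp hGb s i n hn).2),
        hsp X s G (fun _ _ => Iff.rfl), hmd w X s G (fun _ _ => Iff.rfl), hG1, ← mul_sub,
        ← step_av_sub] at key
      have hpos : (0 : ℝ) < X * D * ((X / D : ℕ) : ℝ) ^ (Fintype.card κ - 1) := by
        have h1 : (0 : ℝ) < D := by exact_mod_cast hb.1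
        have h2 : (0 : ℝ) < ((X / D : ℕ) : ℝ) := by exact_mod_cast hb.2.1
        have h3 : (0 : ℝ) < X := lt_of_lt_of_le (mul_pos h2 h1) hb.2.2.1
        positivity
      rw [abs_mul, abs_of_pos hpos] at key
      have e1 : sp X s G i0 = τ := by simp [sp, hi0, hG0]
      have e2 : md w X s G i0 = τ := by simp [md, hi0, hG0]
      rw [e1, e2] at key
      have key2 : |av X (fun n => τ n * dual D X a (sp X (s.subtype (· ≠ i0)) g) n -
          τ n * dual D X a (md w X (s.subtype (· ≠ i0)) g) n)| ≤ η :=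
        le_of_mul_le_mul_left (key.trans (le_of_eq (by ring))) hpos
      simpa only [mul_sub] using key2) ε hε
    filter_upwards [hcore] with w hw
    filter_upwards [hw, reg_basic] with x hx hb a g ha hg
    obtain ⟨D, X⟩ := x
    simp only at *
    have hins : ∀ i, i ≠ i0 → (i ∈ insert i0 s ↔ i ∈ s) := fun i hi => by simp [hi]
    have key := hx a (fun i : {i // i ≠ i0} => g i) ⟨fun d => hc ▸ ha d, fun i n => by
      simpa using hg i n⟩
    rw [ind_tup_av i0 hb.1 hb.2.1 a _ (fun i _ n hn => (ind_supp hg _ i n hn).1),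
      ind_tup_av i0 hb.1 hb.2.1 a _ (fun i _ n hn => (ind_supp hg _ i n hn).2),
      hsp X _ g hins, hmd w X _ g hins, ← mul_sub, abs_mul, abs_of_nonneg (by positivity)]
    have e1 : sp X (insert i0 s) g i0 = pr X := by simp [sp]
    have e2 : av X (fun n => md w X (insert i0 s) g i0 n *
        dual D X a (md w X (s.subtype (· ≠ i0)) fun i : {i // i ≠ i0} => g i) n) =
        av X (fun n => nu0 w n *
          dual D X a (md w X (s.subtype (· ≠ i0)) fun i : {i // i ≠ i0} => g i) n) :=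
      step_av_congr X fun n hn => by simp [md, ind_of_mem hn]
    rw [e1, e2]
    calc _ ≤ (X * D * ((X / D : ℕ) : ℝ) ^ (Fintype.card κ - 1)) * ε :=
          mul_le_mul_of_nonneg_left key (by positivity)
      _ = _ := by ring

end Pool.Agent.Lib.MP_458f0b_nt.Pois
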