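import Pool.Agent.Lib.MP_458f0b_nt.Pois.BoxPer

open Finset Filter Topology

namespace Pool.Agent.Lib.MP_458f0b_nt.Pois

lemma count_range (g : ℤ → ℝ) (a : ℤ) (l : ℕ) :
    ∑ q ∈ Ico a (a + l), g q = ∑ i ∈ range l, g (a + i) := by
  refine Finset.sum_nbij' (fun q => (q - a).toNat) (fun i => a + i) ?_ ?_ ?_ ?_ ?_
  · intro q hq
    simp only [Finset.mem_Ico] at hq
    simp only [Finset.mem_range]
    omega
  · intro i hi
    simp only [Finset.mem_range] at hi
    simp only [Finset.mem_Ico]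
    omega
  · intro q hq
    simp only [Finset.mem_Ico] at hq
    omega
  · intro i _
    simp
  · intro q hq
    simp only [Finset.mem_Ico] at hq
    congr 1
    omega

lemma count_shift {g : ℤ → ℝ} {e : ℕ} (hg : ∀ q, g (q + e) = g q) (a : ℤ) :
    ∑ i ∈ range e, g (a + i) = ∑ i ∈ range e, g (0 + i) := by
  have step : ∀ b : ℤ, ∑ i ∈ range e, g (b + 1 + i) = ∑ i ∈ range e, g (b + i) := by
    intro b
    have h1 := Finset.sum_range_succ (fun i : ℕ => g (b + i)) e
    have h2 := Finset.sum_range_succ' (fun i : ℕ => g (b + i)) e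
    have h3 : ∑ i ∈ range e, g (b + ((i + 1 : ℕ) : ℤ)) = ∑ i ∈ range e, g (b + 1 + i) :=
      Finset.sum_congr rfl fun i _ => by congr 1; push_cast; ring
    rw [h3, Nat.cast_zero, add_zero] at h2
    rw [hg] at h1
    linarith
  induction a using Int.induction_on with
  | zero => rfl
  | succ n ih => rw [step, ih]
  | pred n ih =>
    rw [← ih, ← step]
    simp only [sub_add_cancel]

lemma count_blocks {g : ℤ → ℝ} {e : ℕ} (hg : ∀ q, g (q + e) = g q) (a : ℤ) (m : ℕ) :
    ∑ i ∈ range (e * m), g (a + i) = m * ∑ i ∈ range e, g (0 + i) := by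
  induction m with
  | zero => simp
  | succ m ih =>
    rw [Nat.mul_succ, Finset.sum_range_add, ih, ← count_shift hg (a + (e * m : ℕ))]
    have : ∑ x ∈ range e, g (a + ((e * m + x : ℕ) : ℤ)) =
        ∑ i ∈ range e, g (a + (e * m : ℕ) + i) :=
      Finset.sum_congr rfl fun i _ => by congr 1; push_cast; ring
    rw [this]
    push_cast
    ring

lemma count_per {g : ℤ → ℝ} {e : ℕ} (he : 0 < e) (hg : ∀ q, g (q + e) = g q) {K c : ℝ}
    (h0 : ∀ q, 0 ≤ g q) (hK : ∀ q, g q ≤ K) (hc : ∑ i ∈ range e, g (0 + i) = e * c)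
    (a : ℤ) (l : ℕ) : |∑ q ∈ Ico a (a + l), g q - l * c| ≤ K * e := by
  have he' : (0 : ℝ) < e := by exact_mod_cast he
  have hK0 : 0 ≤ K := (h0 0).trans (hK 0)
  have hb : ∀ (b : ℤ) (r : ℕ), 0 ≤ ∑ i ∈ range r, g (b + i) ∧
      ∑ i ∈ range r, g (b + i) ≤ r * K := fun b r =>
    ⟨Finset.sum_nonneg fun i _ => h0 _, by
      simpa using Finset.sum_le_card_nsmul (range r) (fun i : ℕ => g (b + i)) K fun i _ => hK _⟩
  have c0 : 0 ≤ c := by
    have := (hb 0 e).1
    rw [hc] at this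
    exact nonneg_of_mul_nonneg_right this he'
  have cK : c ≤ K := by
    have := (hb 0 e).2
    rw [hc] at this
    exact le_of_mul_le_mul_left this he'
  have hl := Nat.div_add_mod l e
  have hr : ((l % e : ℕ) : ℝ) ≤ e := by exact_mod_cast (Nat.mod_lt l he).le
  have hr0 : (0 : ℝ) ≤ ((l % e : ℕ) : ℝ) := by positivity
  generalize l / e = m at hl
  generalize l % e = r at hl hr hr0
  subst hl
  rw [count_range, Finset.sum_range_add, count_blocks hg, hc]
  have e1 : ∑ x ∈ range r, g (a + ((e * m + x : ℕ) : ℤ)) =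
      ∑ i ∈ range r, g (a + (e * m : ℕ) + i) :=
    Finset.sum_congr rfl fun i _ => by congr 1; push_cast; ring
  rw [e1]
  obtain ⟨k1, k2⟩ := hb (a + (e * m : ℕ)) r
  have k3 : (r : ℝ) * K ≤ K * e := by nlinarith
  have k4 : (r : ℝ) * c ≤ r * K := by nlinarith
  have k5 : 0 ≤ (r : ℝ) * c := by positivity
  push_cast at k1 k2 ⊢
  rw [abs_le]
  constructor <;> nlinarith

lemma count_box1 (T : ℕ) (g : ℤ → ℝ) :
    boxAv (U := Unit) T (fun t => g (t ())) = (∑ i ∈ range T, g (0 + i)) / T := by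
  rw [← count_range, zero_add, boxAv]
  congr 1
  · refine Finset.sum_nbij' (fun t => t ()) (fun q _ => q) ?_ ?_ ?_ ?_ ?_
    · intro t ht
      exact Fintype.mem_piFinset.1 ht ()
    · intro q hq
      exact Fintype.mem_piFinset.2 fun _ => hq
    · intro t _
      rfl
    · intro q _
      rfl
    · intro t _
      rfl
  · simp

lemma count_mean (S : Finset ℕ) (hS : ∀ p ∈ S, p.Prime) (n d : ℤ) :
    ∑ i ∈ range (∏ p ∈ S, p), (if ∀ p ∈ S, ¬ (p : ℤ) ∣ n + (0 + (i : ℤ)) * d then (1 : ℝ) else 0) =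
      (∏ p ∈ S, p : ℕ) * ∏ p ∈ S, (if (p : ℤ) ∣ d then (if (p : ℤ) ∣ n then 0 else 1)
        else 1 - (p : ℝ)⁻¹) := by
  have hpos : (0 : ℝ) < (∏ p ∈ S, p : ℕ) := by
    exact_mod_cast Finset.prod_pos fun p hp => (hS p hp).pos
  have h1 := count_box1 (∏ p ∈ S, p)
    (fun q => if ∀ p ∈ S, ¬ (p : ℤ) ∣ n + q * d then (1 : ℝ) else 0)
  have h2 := box_crt (U := Unit) S hS
    (fun p t => if ¬ (p : ℤ) ∣ n + t () * d then (1 : ℝ) else 0) (by
      intro p _ t t' h
      have : (p : ℤ) ∣ (n + t () * d) - (n + t' () * d) := by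
        rw [show (n + t () * d) - (n + t' () * d) = (t () - t' ()) * d by ring]
        exact (h ()).mul_right d
      simp only [dvd_iff_dvd_of_dvd_sub this])
  simp only [Finset.prod_boole] at h2
  rw [eq_div_iff hpos.ne'] at h1
  rw [← h1, mul_comm]
  congr 1
  refine Eq.trans (by convert h2) (Finset.prod_congr rfl fun p hp => ?_)
  have hp' := hS p hp
  by_cases hd : (p : ℤ) ∣ d
  · rw [if_pos hd, ← boxAv_const (U := Unit) hp'.pos (if (p : ℤ) ∣ n then (0 : ℝ) else 1)]
    congr 1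
    funext t
    simp only [dvd_add_left (hd.mul_left (t ())), ite_not]
  · have k := boxAv_sub (U := Unit) p (fun _ => (1 : ℝ))
      (fun t => if (p : ℤ) ∣ frm n (fun _ => d) t then (1 : ℝ) else 0)
    rw [box_form (U := Unit) hp' n (fun _ => d) ⟨(), hd⟩, boxAv_const hp'.pos] at k
    rw [if_neg hd, ← k]
    congr 1
    funext t
    have : frm n (fun _ : Unit => d) t = n + t () * d := by
      simp [frm, mul_comm]
    rw [this]
    by_cases h : (p : ℤ) ∣ n + t () * d <;> simp [h]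

lemma count_prod_le (w : ℕ) : (∏ p ∈ w.primesLE, p) ≤ w.factorial := by
  refine Nat.le_of_dvd w.factorial_pos ?_
  refine Finset.prod_primes_dvd _ (fun p hp => (Nat.prime_of_mem_primesLE hp).prime) ?_
  intro p hp
  exact Int.natCast_dvd_natCast.1 (dvd_fact_of_mem hp)

lemma count_factor (w : ℕ) (n d : ℤ) :
    kap w * ∏ p ∈ w.primesLE, (if (p : ℤ) ∣ d then (if (p : ℤ) ∣ n then 0 else 1)
        else 1 - (p : ℝ)⁻¹) = if Cop w d n then (om w d)⁻¹ else 0 := by
  by_cases h : Cop w d n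
  · rw [if_pos h, kap_eq_prod, ← Finset.prod_mul_distrib, om, V, ← Finset.prod_inv_distrib,
      Finset.prod_filter]
    refine Finset.prod_congr rfl fun p hp => ?_
    by_cases hd : (p : ℤ) ∣ d
    · rw [if_pos hd, if_pos hd, if_neg (h p hp hd), mul_one]
    · rw [if_neg hd, if_neg hd,
        inv_mul_cancel₀ (one_sub_inv_pos (Nat.prime_of_mem_primesLE hp)).ne']
  · rw [if_neg h]
    unfold Cop at h
    push Not at h
    obtain ⟨p, hp, hd, hn⟩ := h
    rw [Finset.prod_eq_zero hp (by rw [if_pos hd, if_pos hn]), mul_zero]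

/-- the small-prime weight along a progression -/
lemma count_nu0 (w : ℕ) (n d a : ℤ) (l : ℕ) :
    |∑ q ∈ Ico a (a + l), nu0 w (n + q * d) - l * (if Cop w d n then (om w d)⁻¹ else 0)| ≤
      kap w * w.factorial := by
  have hS : ∀ p ∈ w.primesLE, p.Prime := fun _ => Nat.prime_of_mem_primesLE
  have hnu : ∀ m : ℤ, nu0 w m =
      kap w * if ∀ p ∈ w.primesLE, ¬ (p : ℤ) ∣ m then (1 : ℝ) else 0 := by
    intro m
    unfold nu0 nu kap
    split_ifs <;> simp
  refine (count_per (g := fun q => nu0 w (n + q * d)) (e := ∏ p ∈ w.primesLE, p)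
    (Finset.prod_pos fun p hp => (hS p hp).pos) ?_ (fun q => nu0_nonneg _ _)
    (fun q => nu0_le _ _) ?_ a l).trans ?_
  · intro q
    rw [hnu, hnu]
    have : (∀ p ∈ w.primesLE, ¬ (p : ℤ) ∣ n + (q + (∏ p ∈ w.primesLE, p : ℕ)) * d) ↔
        ∀ p ∈ w.primesLE, ¬ (p : ℤ) ∣ n + q * d := by
      refine forall₂_congr fun p hp => not_congr (dvd_iff_dvd_of_dvd_sub ?_)
      have h1 : (p : ℤ) ∣ (∏ p ∈ w.primesLE, p : ℕ) :=
        Int.natCast_dvd_natCast.2 (Finset.dvd_prod_of_mem _ hp)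
      convert h1.mul_right d using 1
      ring
    simp only [this]
  · simp only [hnu]
    rw [← Finset.mul_sum, count_mean _ hS, ← count_factor]
    ring
  · exact mul_le_mul_of_nonneg_left (by exact_mod_cast count_prod_le w) (kap_pos w).le

lemma sum_nu0_le (w : ℕ) (n d a : ℤ) (l : ℕ) :
    om w d * ∑ q ∈ Ico a (a + l), nu0 w (n + q * d) ≤ l + kap w * w.factorial := by
  have h := (abs_le.1 (count_nu0 w n d a l)).2
  have h0 := om_pos w d
  have h1 := om_le_one w d
  have h2 : 0 ≤ kap w * w.factorial := mul_nonneg (kap_pos w).le (by positivity)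
  have h3 : om w d * (if Cop w d n then (om w d)⁻¹ else 0) ≤ 1 := by
    split_ifs
    · rw [mul_inv_cancel₀ h0.ne']
    · simp
  have h4 : (0 : ℝ) ≤ l := by positivity
  generalize (if Cop w d n then (om w d)⁻¹ else 0) = c at h h3
  nlinarith [mul_le_mul_of_nonneg_left h h0.le]

lemma sum_nu0_Ico (w : ℕ) (a : ℤ) (l : ℕ) :
    ∑ n ∈ Ico a (a + l), nu0 w n ≤ l + kap w * w.factorial := by
  have h := sum_nu0_le w 0 1 a l
  have h1 : om w 1 = 1 := by
    unfold om V
    refine Finset.prod_eq_one fun p hp => ?_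
    obtain ⟨hp1, hp2⟩ := Finset.mem_filter.1 hp
    have h2 : p ∣ 1 := Int.natCast_dvd_natCast.1 hp2
    exact absurd h2 (Nat.prime_of_mem_primesLE hp1).not_dvd_one
  simpa [h1] using h

lemma card_Ad (w d : ℕ) : ((Ad w d).card : ℝ) = d * om w d := by
  obtain ⟨S, hSe⟩ : ∃ S, S = w.primesLE.filter (fun p : ℕ => (p : ℤ) ∣ (d : ℤ)) := ⟨_, rfl⟩
  have hS : ∀ p ∈ S, p.Prime := fun p hp =>
    Nat.prime_of_mem_primesLE (Finset.mem_filter.1 (hSe ▸ hp)).1
  obtain ⟨m, hm⟩ : (∏ p ∈ S, p) ∣ d := by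
    refine Finset.prod_primes_dvd _ (fun p hp => (hS p hp).prime) fun p hp => ?_
    rw [hSe] at hp
    exact Int.natCast_dvd_natCast.1 (Finset.mem_filter.1 hp).2
  have h1 := count_mean S hS 0 1
  have h2 := count_blocks (g := fun q => if ∀ p ∈ S, ¬ (p : ℤ) ∣ 0 + q * 1 then (1 : ℝ) else 0)
    (e := ∏ p ∈ S, p) (by
      intro q
      have : (∀ p ∈ S, ¬ (p : ℤ) ∣ 0 + (q + (∏ p ∈ S, p : ℕ)) * 1) ↔
          ∀ p ∈ S, ¬ (p : ℤ) ∣ 0 + q * 1 := by
        refine forall₂_congr fun p hp => not_congr (dvd_iff_dvd_of_dvd_sub ?_)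
        have h1 : (p : ℤ) ∣ (∏ p ∈ S, p : ℕ) :=
          Int.natCast_dvd_natCast.2 (Finset.dvd_prod_of_mem _ hp)
        simpa using h1
      simp only [this]) 0 m
  rw [h1, ← hm] at h2
  have h3 : ∏ p ∈ S, (if (p : ℤ) ∣ 1 then (if (p : ℤ) ∣ 0 then 0 else 1)
      else 1 - (p : ℝ)⁻¹) = om w d := by
    rw [om, ← hSe, V]
    refine Finset.prod_congr rfl fun p hp => if_neg fun h => ?_
    exact (hS p hp).not_dvd_one (Int.natCast_dvd_natCast.1 h)
  have h4 : (d : ℝ) = (∏ p ∈ S, p : ℕ) * m := by exact_mod_cast hm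
  rw [h3] at h2
  rw [Ad, Finset.card_filter, Nat.cast_sum]
  refine Eq.trans (Finset.sum_congr rfl fun i _ => ?_) (h2.trans (by rw [h4]; ring))
  have : Cop w d i ↔ ∀ p ∈ S, ¬ (p : ℤ) ∣ 0 + (0 + (i : ℤ)) * 1 := by
    simp only [Cop, hSe, Finset.mem_filter, zero_add, mul_one, and_imp]
  simp only [this]
  split_ifs <;> simp

/-- the weight on a residue class inside `[1, X]` -/
lemma class_sum (w X : ℕ) {d : ℤ} (hd : 1 ≤ d) (a : ℤ) :
    |∑ n ∈ (Icc (1 : ℤ) X).filter (fun n => d ∣ n - a), nu0 w n -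
      (if Cop w d a then X / (d * om w d) else 0)| ≤ kap w * (w.factorial + 1) := by
  have hd0 : 0 < d := hd
  obtain ⟨n0, hn0⟩ : ∃ n0, n0 = 1 + (a - 1) % d := ⟨_, rfl⟩
  have a1 : 1 ≤ n0 := by have := Int.emod_nonneg (a - 1) hd0.ne'; omega
  have a2 : n0 ≤ d := by have := Int.emod_lt_of_pos (a - 1) hd0; omega
  have a3 : d ∣ n0 - a := by
    refine ⟨-((a - 1) / d), ?_⟩
    have := Int.emod_add_mul_ediv (a - 1) d
    linarith
  obtain ⟨k, hk⟩ : ∃ k, k = ((X : ℤ) - n0) / d := ⟨_, rfl⟩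
  have b1 : d * k ≤ X - n0 := hk ▸ Int.mul_ediv_self_le hd0.ne'
  have b2 : (X : ℤ) - n0 < d * k + d := hk ▸ Int.lt_mul_ediv_self_add hd0
  have b3 : 0 ≤ k + 1 := by
    by_contra h
    have : d * (k + 1) ≤ d * (-1) := mul_le_mul_of_nonneg_left (by omega) hd0.le
    have : (0 : ℤ) ≤ X := by positivity
    nlinarith
  obtain ⟨l, hl⟩ := Int.eq_ofNat_of_zero_le b3
  have hsum : ∑ n ∈ (Icc (1 : ℤ) X).filter (fun n => d ∣ n - a), nu0 w n =
      ∑ q ∈ Ico (0 : ℤ) (0 + l), nu0 w (n0 + q * d) := by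
    symm
    refine Finset.sum_bij (fun q _ => n0 + q * d) ?_ ?_ ?_ fun _ _ => rfl
    · intro q hq
      rw [Finset.mem_Ico] at hq
      have c1 : 0 ≤ q * d := mul_nonneg hq.1 hd0.le
      have c2 : q * d ≤ k * d := mul_le_mul_of_nonneg_right (by omega) hd0.le
      refine Finset.mem_filter.2 ⟨Finset.mem_Icc.2 ⟨by linarith, by linarith⟩, ?_⟩
      rw [show n0 + q * d - a = n0 - a + q * d by ring]
      exact a3.add (dvd_mul_left d q)
    · intro q _ q' _ h
      exact mul_right_cancel₀ hd0.ne' (add_left_cancel h)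
    · intro n hn
      obtain ⟨h1, h2⟩ := Finset.mem_filter.1 hn
      rw [Finset.mem_Icc] at h1
      obtain ⟨q, hq⟩ : d ∣ n - n0 := by
        rw [show n - n0 = n - a - (n0 - a) by ring]
        exact h2.sub a3
      refine ⟨q, Finset.mem_Ico.2 ⟨?_, ?_⟩, by linarith⟩
      · by_contra h
        have : d * q ≤ d * (-1) := mul_le_mul_of_nonneg_left (by omega) hd0.le
        linarith
      · by_contra h
        have : d * (k + 1) ≤ d * q := mul_le_mul_of_nonneg_left (by omega) hd0.le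
        linarith
  have hcop : Cop w d n0 ↔ Cop w d a :=
    forall₃_congr fun p _ hp => not_congr (dvd_iff_dvd_of_dvd_sub (hp.trans a3))
  have h := count_nu0 w n0 d 0 l
  rw [← hsum] at h
  simp only [hcop] at h
  have hk0 := kap_pos w
  by_cases hc : Cop w d a
  · rw [if_pos hc] at h ⊢
    have hdr : (0 : ℝ) < d := by exact_mod_cast hd0
    have e1 : |(l : ℝ) - X / d| ≤ 1 := by
      have c1 : (d : ℝ) * l ≤ X + d := by
        have : d * (l : ℤ) ≤ X + d := by rw [← hl]; linarith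
        exact_mod_cast this
      have c2 : (X : ℝ) ≤ d * l + d := by
        have : (X : ℤ) ≤ d * (l : ℤ) + d := by rw [← hl]; linarith
        exact_mod_cast this
      rw [abs_le]
      constructor
      · have : (X : ℝ) / d ≤ l + 1 := by rw [div_le_iff₀ hdr]; linarith
        linarith
      · have : (l : ℝ) - 1 ≤ X / d := by rw [le_div_iff₀ hdr]; linarith
        linarith
    have e2 : |(l : ℝ) * (om w d)⁻¹ - X / (d * om w d)| ≤ kap w := by
      have : (l : ℝ) * (om w d)⁻¹ - X / (d * om w d) = (l - X / d) * (om w d)⁻¹ := by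
        rw [← div_div]
        ring
      rw [this, abs_mul, abs_of_pos (inv_pos.2 (om_pos w d))]
      exact (mul_le_of_le_one_left (inv_pos.2 (om_pos w d)).le e1).trans (inv_om_le w d)
    refine (abs_sub_le _ (l * (om w d)⁻¹) _).trans ?_
    linarith
  · rw [if_neg hc] at h ⊢
    rw [mul_zero] at h
    linarith

lemma count_det {κ α : Type} [Fintype κ] [DecidableEq κ] (S : Finset α) (A : Finset (κ → α))
    (hA : A ⊆ Fintype.piFinset fun _ : κ => S) (i : κ)
    (h : ∀ n ∈ A, ∀ n' ∈ A, (∀ j, j ≠ i → n j = n' j) → n i = n' i) :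
    A.card * S.card ≤ S.card ^ Fintype.card κ := by
  have e : S.card ^ Fintype.card κ = (Fintype.piFinset fun _ : κ => S).card := by simp
  rw [← Finset.card_product, e]
  refine Finset.card_le_card_of_injOn (fun x => Function.update x.1 i x.2) ?_ ?_
  · intro x hx
    obtain ⟨h1, h2⟩ := Finset.mem_product.1 (Finset.mem_coe.1 hx)
    refine Finset.mem_coe.2 (Fintype.mem_piFinset.2 fun j => ?_)
    by_cases hj : j = i
    · subst hj
      simpa using h2
    · simp only [Function.update_of_ne hj]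
      exact Fintype.mem_piFinset.1 (hA h1) j
  · intro x hx y hy hxy
    obtain ⟨h1, -⟩ := Finset.mem_product.1 (Finset.mem_coe.1 hx)
    obtain ⟨h2, -⟩ := Finset.mem_product.1 (Finset.mem_coe.1 hy)
    have k1 : ∀ j, j ≠ i → x.1 j = y.1 j := fun j hj => by
      simpa [Function.update_of_ne hj] using congrFun hxy j
    refine Prod.ext (funext fun j => ?_) (by simpa using congrFun hxy i)
    by_cases hj : j = i
    · rw [hj]
      exact h _ h1 _ h2 k1
    · exact k1 j hj

open Classical in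
lemma count_noninj {κ α : Type} [Fintype κ] [DecidableEq κ] (S : Finset α) :
    (((Fintype.piFinset fun _ : κ => S).filter (fun n => ¬ Function.Injective n)).card) * S.card ≤
      Fintype.card κ ^ 2 * S.card ^ Fintype.card κ := by
  have h1 : (Fintype.piFinset fun _ : κ => S).filter (fun n => ¬ Function.Injective n) ⊆
      (univ : Finset (κ × κ)).biUnion fun p =>
        (Fintype.piFinset fun _ : κ => S).filter (fun n => p.1 ≠ p.2 ∧ n p.1 = n p.2) := by
    intro n hn
    obtain ⟨k1, k2⟩ := Finset.mem_filter.1 hn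
    obtain ⟨i, j, k3, k4⟩ := Function.not_injective_iff.1 k2
    exact Finset.mem_biUnion.2 ⟨(i, j), Finset.mem_univ _, Finset.mem_filter.2 ⟨k1, k4, k3⟩⟩
  refine (Nat.mul_le_mul_right _ ((Finset.card_le_card h1).trans Finset.card_biUnion_le)).trans ?_
  rw [Finset.sum_mul]
  refine (Finset.sum_le_card_nsmul _ _ (S.card ^ Fintype.card κ) fun p _ => ?_).trans ?_
  · refine count_det S _ (Finset.filter_subset _ _) p.1 fun n hn n' hn' h => ?_
    obtain ⟨-, k1, k2⟩ := Finset.mem_filter.1 hn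
    rw [k2, (Finset.mem_filter.1 hn').2.2]
    exact h _ k1.symm
  · simp [sq]

lemma card_not_inj (ι : Type) [Fintype ι] [DecidableEq ι] (Q : ℕ) :
    ((((Fintype.piFinset fun _ : ι => Icc (-(Q : ℤ)) Q) \ inj ι Q).card : ℕ) : ℝ) * (2 * Q + 1) ≤
      (Fintype.card ι + Fintype.card ι ^ 2) * (2 * Q + 1) ^ Fintype.card ι := by
  classical
  obtain ⟨S, hS⟩ : ∃ S, S = Icc (-(Q : ℤ)) Q := ⟨_, rfl⟩
  have hc : S.card = 2 * Q + 1 := by
    rw [hS, Int.card_Icc]
    omega
  have h1 : (Fintype.piFinset fun _ : ι => Icc (-(Q : ℤ)) Q) \ inj ι Q ⊆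
      ((univ : Finset ι).biUnion fun i =>
        (Fintype.piFinset fun _ : ι => S).filter (fun n => n i = 0)) ∪
      (Fintype.piFinset fun _ : ι => S).filter (fun n => ¬ Function.Injective n) := by
    intro n hn
    obtain ⟨k1, k2⟩ := Finset.mem_sdiff.1 hn
    rw [Finset.mem_union, hS]
    by_cases k3 : Function.Injective n
    · left
      by_contra k4
      refine k2 (mem_inj.2 ⟨fun i => Finset.mem_Icc.1 (Fintype.mem_piFinset.1 k1 i), k3, ?_⟩)
      intro i k5
      exact k4 (Finset.mem_biUnion.2 ⟨i, Finset.mem_univ _, Finset.mem_filter.2 ⟨k1, k5⟩⟩)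
    · exact Or.inr (Finset.mem_filter.2 ⟨k1, k3⟩)
  have h2 := count_noninj (κ := ι) S
  have h3 : ((univ : Finset ι).biUnion fun i =>
      (Fintype.piFinset fun _ : ι => S).filter (fun n => n i = 0)).card * S.card ≤
      Fintype.card ι * S.card ^ Fintype.card ι := by
    refine (Nat.mul_le_mul_right _ Finset.card_biUnion_le).trans ?_
    rw [Finset.sum_mul]
    refine (Finset.sum_le_card_nsmul _ _ (S.card ^ Fintype.card ι) fun i _ => ?_).trans ?_
    · refine count_det S _ (Finset.filter_subset _ _) i fun n hn n' hn' _ => ?_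
      rw [(Finset.mem_filter.1 hn).2, (Finset.mem_filter.1 hn').2]
    · simp
  have h4 := Nat.mul_le_mul_right S.card
    ((Finset.card_le_card h1).trans (Finset.card_union_le _ _))
  have h5 : ((Fintype.piFinset fun _ : ι => Icc (-(Q : ℤ)) Q) \ inj ι Q).card * (2 * Q + 1) ≤
      (Fintype.card ι + Fintype.card ι ^ 2) * (2 * Q + 1) ^ Fintype.card ι := by
    rw [← hc, add_mul]
    rw [add_mul] at h4
    refine h4.trans (Nat.add_le_add h3 ?_)
    convert h2
  exact_mod_cast h5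

open Classical in
lemma card_noninj {κ α : Type} [Fintype κ] [DecidableEq κ] (S : Finset α) :
    (((Fintype.piFinset fun _ : κ => S).filter (fun n => ¬ Function.Injective n)).card) * S.card ≤
      Fintype.card κ ^ 2 * S.card ^ Fintype.card κ := count_noninj S

end Pool.Agent.Lib.MP_458f0b_nt.Pois
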