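import Pool.Agent.Lib.MP_458f0b_nt.Pois.Defs

open Finset Filter Topology

namespace Pool.Agent.Lib.MP_458f0b_nt.Pois

lemma reg_Q : Tendsto (fun x : ℕ × ℕ => x.2 / x.1) reg atTop :=
  tendsto_comap.mono_left inf_le_left

lemma reg_pow : ∀ᶠ x in reg, (x.2 / x.1) ^ 10 ≤ x.2 :=
  mem_inf_of_right (mem_principal_self _)

lemma reg_X : Tendsto (fun x : ℕ × ℕ => x.2) reg atTop :=
  tendsto_atTop_mono (fun x => Nat.div_le_self x.2 x.1) reg_Q

lemma reg_nat {D X : ℕ} (h : 1 ≤ X / D) : 0 < D ∧ X / D * D ≤ X ∧ X ≤ 2 * (X / D) * D := by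
  have hD : 0 < D := by
    rcases Nat.eq_zero_or_pos D with rfl | h0
    · simp at h
    · exact h0
  refine ⟨hD, Nat.div_mul_le_self X D, ?_⟩
  have h1 : X < (X / D + 1) * D := by
    rw [← Nat.div_lt_iff_lt_mul hD]; exact Nat.lt_succ_self _
  have h2 : (X / D + 1) * D ≤ 2 * (X / D) * D := Nat.mul_le_mul_right _ (by omega)
  omega

lemma reg_nine : ∀ᶠ x in reg, 1 ≤ x.2 / x.1 ∧ (x.2 / x.1) ^ 9 ≤ 2 * x.1 := by
  filter_upwards [reg_pow, reg_Q.eventually_ge_atTop 1] with x h1 h2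
  refine ⟨h2, Nat.le_of_mul_le_mul_left (c := x.2 / x.1) ?_ h2⟩
  have h3 := (reg_nat h2).2.2
  calc x.2 / x.1 * (x.2 / x.1) ^ 9 = (x.2 / x.1) ^ 10 := by ring
    _ ≤ 2 * (x.2 / x.1) * x.1 := h1.trans h3
    _ = x.2 / x.1 * (2 * x.1) := by ring

lemma reg_D : Tendsto (fun x : ℕ × ℕ => x.1) reg atTop := by
  rw [tendsto_atTop]
  intro b
  filter_upwards [reg_nine, reg_Q.eventually_ge_atTop (2 * b)] with x h1 h2
  have h3 : x.2 / x.1 ≤ (x.2 / x.1) ^ 9 := Nat.le_self_pow (by norm_num) _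
  have h4 := h1.2
  omega

lemma reg_basic : ∀ᶠ x in reg, 0 < x.1 ∧ 1 ≤ x.2 / x.1 ∧
    ((x.2 / x.1 : ℕ) : ℝ) * x.1 ≤ x.2 ∧ (x.2 : ℝ) ≤ 2 * ((x.2 / x.1 : ℕ) : ℝ) * x.1 := by
  filter_upwards [reg_Q.eventually_ge_atTop 1] with x h
  obtain ⟨h1, h2, h3⟩ := reg_nat h
  exact ⟨h1, h, by exact_mod_cast h2, by exact_mod_cast h3⟩

lemma reg_cube (ε : ℝ) (hε : 0 < ε) :
    ∀ᶠ x in reg, ((x.2 / x.1 : ℕ) : ℝ) ^ 3 ≤ ε * x.1 := by
  filter_upwards [reg_nine,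
    (tendsto_natCast_atTop_atTop (R := ℝ).comp reg_Q).eventually_ge_atTop (2 / ε)] with x h1 h2
  obtain ⟨h3, h4⟩ := h1
  have h3' : (1 : ℝ) ≤ ((x.2 / x.1 : ℕ) : ℝ) := by exact_mod_cast h3
  have h4' : ((x.2 / x.1 : ℕ) : ℝ) ^ 9 ≤ 2 * x.1 := by exact_mod_cast h4
  simp only [Function.comp] at h2
  generalize ((x.2 / x.1 : ℕ) : ℝ) = Q at *
  rw [div_le_iff₀ hε] at h2
  have h5 : Q ^ 4 ≤ Q ^ 9 := pow_le_pow_right₀ h3' (by norm_num)
  have h6 : 0 ≤ Q ^ 3 := by positivity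
  have h7 : Q ^ 3 * 2 ≤ Q ^ 3 * (Q * ε) := mul_le_mul_of_nonneg_left h2 h6
  have h8 : ε * Q ^ 4 ≤ ε * (2 * x.1) := mul_le_mul_of_nonneg_left (h5.trans h4') hε.le
  nlinarith

lemma reg_sq_small (ε : ℝ) (hε : 0 < ε) :
    ∀ᶠ x in reg, ((x.2 / x.1 : ℕ) : ℝ) ^ 2 ≤ ε * x.1 := by
  filter_upwards [reg_cube ε hε, reg_basic] with x h1 h2
  have h3 : (1 : ℝ) ≤ ((x.2 / x.1 : ℕ) : ℝ) := by exact_mod_cast h2.2.1
  exact (pow_le_pow_right₀ h3 (by norm_num)).trans h1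

lemma reg_sqrt_sq (X : ℕ) : (Nat.sqrt X : ℝ) ^ 2 ≤ X := by exact_mod_cast Nat.sqrt_le' X

lemma reg_sqrt_small (ε : ℝ) (hε : 0 < ε) :
    ∀ᶠ x in reg, (Nat.sqrt x.2 : ℝ) * ((x.2 / x.1 : ℕ) : ℝ) ≤ ε * x.1 := by
  filter_upwards [reg_cube (ε ^ 2 / 2) (by positivity), reg_basic] with x h1 h2
  obtain ⟨-, -, -, h3⟩ := h2
  have h4 := (reg_sqrt_sq x.2).trans h3
  refine le_of_pow_le_pow_left₀ (n := 2) (by norm_num) (by positivity) ?_
  have hQ : (0 : ℝ) ≤ ((x.2 / x.1 : ℕ) : ℝ) := by positivity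
  have hD : (0 : ℝ) ≤ x.1 := by positivity
  generalize ((x.2 / x.1 : ℕ) : ℝ) = Q at *
  generalize (x.1 : ℝ) = D at *
  calc ((Nat.sqrt x.2 : ℝ) * Q) ^ 2 = (Nat.sqrt x.2 : ℝ) ^ 2 * Q ^ 2 := by ring
    _ ≤ 2 * Q * D * Q ^ 2 := by gcongr
    _ = 2 * D * Q ^ 3 := by ring
    _ ≤ 2 * D * (ε ^ 2 / 2 * D) := by gcongr
    _ = (ε * D) ^ 2 := by ring

lemma zz_tendsto {u : ℕ} (hu : 1 ≤ u) : Tendsto (fun X => zz X u) atTop atTop := by
  have h : (0 : ℝ) < (u : ℝ)⁻¹ := inv_pos.2 (by exact_mod_cast hu)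
  exact tendsto_nat_floor_atTop.comp ((tendsto_rpow_atTop h).comp tendsto_natCast_atTop_atTop)

lemma zz_pow_le (X : ℕ) {u : ℕ} (hu : 1 ≤ u) : zz X u ^ u ≤ X := by
  have h0 : (0 : ℝ) ≤ X := by positivity
  have h1 : (zz X u : ℝ) ≤ (X : ℝ) ^ ((u : ℝ)⁻¹) := Nat.floor_le (by positivity)
  have h2 : (zz X u : ℝ) ^ u ≤ ((X : ℝ) ^ ((u : ℝ)⁻¹)) ^ u := by gcongr
  rw [Real.rpow_inv_natCast_pow h0 (by omega)] at h2
  exact_mod_cast h2

lemma level_ok (K m u : ℕ) (hu : 4 * (8 * m + 13 + K) ≤ u) : ∀ᶠ X : ℕ in atTop,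
    2 * (K : ℝ) * (zz X u + 2) * (zz X u : ℝ) ^ (8 * m + 12 + K) * Real.exp m ≤ Nat.sqrt X := by
  have hu1 : 1 ≤ u := by omega
  filter_upwards [(zz_tendsto hu1).eventually_ge_atTop 1,
    (tendsto_natCast_atTop_atTop (R := ℝ).comp (zz_tendsto hu1)).eventually_ge_atTop
      (6 * K * Real.exp m)] with X h1 h2
  simp only [Function.comp] at h2
  have h3 : zz X u ^ (8 * m + 12 + K + 2) ≤ Nat.sqrt X := by
    rw [Nat.le_sqrt', ← pow_mul]
    exact (Nat.pow_le_pow_right h1 (by omega)).trans (zz_pow_le X hu1)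
  have h3' : (zz X u : ℝ) ^ (8 * m + 12 + K + 2) ≤ Nat.sqrt X := by exact_mod_cast h3
  have h1' : (1 : ℝ) ≤ zz X u := by exact_mod_cast h1
  refine le_trans ?_ h3'
  generalize (zz X u : ℝ) = z at *
  have h0 : 0 ≤ z := by linarith
  calc 2 * (K : ℝ) * (z + 2) * z ^ (8 * m + 12 + K) * Real.exp m
      ≤ 2 * (K : ℝ) * (3 * z) * z ^ (8 * m + 12 + K) * Real.exp m := by
        gcongr; linarith
    _ = z ^ (8 * m + 12 + K) * z * (6 * K * Real.exp m) := by ring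
    _ ≤ z ^ (8 * m + 12 + K) * z * z := by gcongr
    _ = z ^ (8 * m + 12 + K + 2) := by ring

lemma reg_irr (K u : ℕ) (hu1 : 1 ≤ u) (hu : 4 * K ≤ u) (ε : ℝ) (hε : 0 < ε) :
    ∀ᶠ x in reg, (Nat.sqrt x.2 : ℝ) * ((x.2 / x.1 : ℕ) : ℝ) * (zz x.2 u : ℝ) ^ K ≤ ε * x.2 := by
  filter_upwards [reg_pow, ((zz_tendsto hu1).comp reg_X).eventually_ge_atTop 1,
    reg_X.eventually_ge_atTop 1,
    (tendsto_natCast_atTop_atTop (R := ℝ).comp reg_X).eventually_ge_atTop (1 / ε ^ 20)]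
    with x h1 h2 h3 h4
  simp only [Function.comp] at h2 h4
  have h5 : (zz x.2 u ^ K) ^ 4 ≤ x.2 := by
    rw [← pow_mul]
    exact (Nat.pow_le_pow_right h2 (by omega)).trans (zz_pow_le x.2 hu1)
  have h5' : ((zz x.2 u : ℝ) ^ K) ^ 4 ≤ x.2 := by exact_mod_cast h5
  have h1' : ((x.2 / x.1 : ℕ) : ℝ) ^ 10 ≤ x.2 := by exact_mod_cast h1
  have h3' : (1 : ℝ) ≤ x.2 := by exact_mod_cast h3
  have h6 := reg_sqrt_sq x.2
  rw [div_le_iff₀ (by positivity)] at h4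
  refine le_of_pow_le_pow_left₀ (n := 20) (by norm_num) (by positivity) ?_
  have hQ : (0 : ℝ) ≤ ((x.2 / x.1 : ℕ) : ℝ) := by positivity
  have hZ : (0 : ℝ) ≤ (zz x.2 u : ℝ) ^ K := by positivity
  have hS : (0 : ℝ) ≤ (Nat.sqrt x.2 : ℝ) := by positivity
  generalize ((x.2 / x.1 : ℕ) : ℝ) = Q at *
  generalize (zz x.2 u : ℝ) ^ K = Z at *
  generalize (Nat.sqrt x.2 : ℝ) = S at *
  generalize (x.2 : ℝ) = X at *
  have hX : 0 ≤ X := by linarith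
  calc (S * Q * Z) ^ 20 = (S ^ 2) ^ 10 * (Q ^ 10) ^ 2 * (Z ^ 4) ^ 5 := by ring
    _ ≤ X ^ 10 * X ^ 2 * X ^ 5 := by gcongr
    _ = X ^ 17 * 1 := by ring
    _ ≤ X ^ 19 * (X * ε ^ 20) := by
        gcongr
        norm_num
    _ = (ε * X) ^ 20 := by ring

lemma reg_div (c : ℝ) {D : ℕ} (hD : 1 ≤ D) :
    ⌊c * D * Real.log D⌋₊ / D = ⌊c * Real.log D⌋₊ := by
  have h : (D : ℝ) ≠ 0 := by positivity
  rw [← Nat.floor_div_natCast]
  congr 1
  field_simp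

lemma reg_log_tendsto : Tendsto (fun D : ℕ => Real.log D) atTop atTop :=
  Real.tendsto_log_atTop.comp tendsto_natCast_atTop_atTop

lemma reg_div_tendsto (c : ℝ) (hc : 0 < c) :
    Tendsto (fun D : ℕ => ⌊c * D * Real.log D⌋₊ / D) atTop atTop := by
  refine (tendsto_nat_floor_atTop.comp (reg_log_tendsto.const_mul_atTop hc)).congr' ?_
  filter_upwards [eventually_ge_atTop 1] with D hD
  exact (reg_div c hD).symm

lemma reg_of_log (c : ℝ) (hc : 0 < c) :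
    Tendsto (fun D : ℕ => (D, ⌊c * D * Real.log D⌋₊)) atTop reg := by
  rw [reg, tendsto_inf, tendsto_comap_iff, tendsto_principal]
  refine ⟨reg_div_tendsto c hc, ?_⟩
  have h := ((Real.isLittleO_pow_log_id_atTop (n := 9)).comp_tendsto
    tendsto_natCast_atTop_atTop).bound (c := 1 / c ^ 9) (by positivity)
  filter_upwards [eventually_ge_atTop 1, h] with D hD h1
  rw [reg_div c hD]
  have hl : 0 ≤ Real.log D := Real.log_natCast_nonneg D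
  simp only [Function.comp, id, Real.norm_eq_abs] at h1
  rw [abs_of_nonneg (by positivity), abs_of_nonneg (by positivity), one_div, ← div_eq_inv_mul,
    le_div_iff₀ (by positivity)] at h1
  apply Nat.le_floor
  push_cast
  calc (⌊c * Real.log D⌋₊ : ℝ) ^ 10 ≤ (c * Real.log D) ^ 10 := by
        gcongr; exact Nat.floor_le (by positivity)
    _ = c * (Real.log D ^ 9 * c ^ 9) * Real.log D := by ring
    _ ≤ c * D * Real.log D := by gcongr

lemma log_ratio (c : ℝ) (hc : 0 < c) :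
    Tendsto (fun D : ℕ => Real.log (⌊c * D * Real.log D⌋₊ : ℕ) / Real.log D) atTop (𝓝 1) := by
  have h1 : Tendsto (fun D : ℕ => Real.log (Real.log D) / Real.log D) atTop (𝓝 0) :=
    (Real.isLittleO_log_id_atTop.comp_tendsto reg_log_tendsto).tendsto_div_nhds_zero
  have h2 : Tendsto (fun D : ℕ => Real.log c / Real.log D) atTop (𝓝 0) :=
    tendsto_const_nhds.div_atTop reg_log_tendsto
  have h3 := (h2.add h1).const_add 1
  simp only [add_zero] at h3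
  refine tendsto_of_tendsto_of_tendsto_of_le_of_le' tendsto_const_nhds h3 ?_ ?_
  · filter_upwards [(reg_div_tendsto c hc).eventually_ge_atTop 1,
      reg_log_tendsto.eventually_gt_atTop 0] with D h4 h5
    obtain ⟨h6, h7, -⟩ := reg_nat h4
    have h8 : D ≤ ⌊c * D * Real.log D⌋₊ := le_trans (Nat.le_mul_of_pos_left D h4) h7
    rw [le_div_iff₀ h5, one_mul]
    exact Real.log_le_log (by exact_mod_cast h6) (by exact_mod_cast h8)
  · filter_upwards [(reg_div_tendsto c hc).eventually_ge_atTop 1,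
      reg_log_tendsto.eventually_gt_atTop 0] with D h4 h5
    obtain ⟨h6, h7, -⟩ := reg_nat h4
    have h8 : D ≤ ⌊c * D * Real.log D⌋₊ := le_trans (Nat.le_mul_of_pos_left D h4) h7
    have hD : (0 : ℝ) < D := by exact_mod_cast h6
    have h9 : Real.log (⌊c * D * Real.log D⌋₊ : ℕ) ≤ Real.log (c * D * Real.log D) :=
      Real.log_le_log (by exact_mod_cast h6.trans_le h8) (Nat.floor_le (by positivity))
    rw [Real.log_mul (by positivity) h5.ne', Real.log_mul hc.ne' hD.ne'] at h9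
    rw [div_le_iff₀ h5]
    refine h9.trans (le_of_eq ?_)
    field_simp
    ring

end Pool.Agent.Lib.MP_458f0b_nt.Pois
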