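import Pool.Agent.Lib.MP_458f0b_nt.Pois.Arith
import Pool.Agent.Lib.MP_458f0b_nt.Pois.Count
import Pool.Agent.Lib.MP_458f0b_nt.Pois.PNTa
import Pool.Agent.Lib.MP_458f0b_nt.Pois.Reg

open Finset Filter Topology

namespace Pool.Agent.Lib.MP_458f0b_nt.Pois

lemma good_markov (w D : ℕ) (A : ℝ) (S : Finset ℕ) (hS : S ⊆ Ico D (2 * D))
    (h : ∀ d ∈ S, A ≤ Real.exp (2 * h1 w d) - 1) :
    (S.card : ℝ) * A ≤ ∑ m ∈ Icc (1 : ℤ) ((2 * D : ℕ) : ℤ), (Real.exp (2 * h1 w m) - 1) := by
  have hE : ∀ m : ℤ, 0 ≤ Real.exp (2 * h1 w m) - 1 := by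
    intro m
    have := Real.one_le_exp (mul_nonneg (by norm_num : (0 : ℝ) ≤ 2) (h1_nonneg w m))
    linarith
  have h2 : (S.card : ℝ) * A ≤ ∑ d ∈ S, (Real.exp (2 * h1 w d) - 1) := by
    have := Finset.card_nsmul_le_sum S _ A h
    rwa [nsmul_eq_mul] at this
  have h3 : ∑ d ∈ S, (Real.exp (2 * h1 w d) - 1) =
      ∑ m ∈ S.image (fun d : ℕ => (d : ℤ)), (Real.exp (2 * h1 w m) - 1) := by
    rw [Finset.sum_image]
    intro a _ b _ hab
    exact Nat.cast_injective (R := ℤ) hab
  refine h2.trans (h3.le.trans (Finset.sum_le_sum_of_subset_of_nonneg ?_ fun m _ _ => hE m))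
  intro m hm
  obtain ⟨d, hd, rfl⟩ := Finset.mem_image.mp hm
  have := Finset.mem_Ico.mp (hS hd)
  rw [Finset.mem_Icc]
  constructor <;> omega

lemma good_om_one (d : ℤ) : om 1 d = 1 := by
  unfold om V
  refine Finset.prod_eq_one fun p hp => ?_
  have h := (Finset.mem_filter.mp hp).1
  have h1 := Nat.le_of_mem_primesLE h
  have h2 := (Nat.prime_of_mem_primesLE h).two_le
  omega

/-- most moduli have a large totient -/
lemma few_small_phi (ε : ℝ) (hε : 0 < ε) : ∃ δ : ℝ, 0 < δ ∧ δ ≤ 1 ∧ ∀ D : ℕ,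
    (((Ico D (2 * D)).filter (fun d : ℕ => (d.totient : ℝ) < δ * d)).card : ℝ) ≤ ε * D := by
  obtain ⟨c, hc, hav⟩ := h1_avg 2 (by norm_num)
  have hE : 0 ≤ Real.exp (c / (1 : ℕ)) - 1 := by
    have := Real.one_le_exp (show 0 ≤ c / (1 : ℕ) by positivity)
    linarith
  set E := Real.exp (c / (1 : ℕ)) - 1 with hEdef
  set A := 2 * E / ε + 1 with hA
  have hA0 : 0 < A := by positivity
  refine ⟨(1 + A)⁻¹, by positivity, inv_le_one_of_one_le₀ (by linarith), fun D => ?_⟩
  have h1 := good_markov 1 D A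
    ((Ico D (2 * D)).filter (fun d : ℕ => (d.totient : ℝ) < (1 + A)⁻¹ * d))
    (Finset.filter_subset _ _) (by
      intro d hd
      obtain ⟨hd1, hd2⟩ := Finset.mem_filter.mp hd
      have hd3 := Finset.mem_Ico.mp hd1
      have hd4 : 1 ≤ d := by omega
      have h := totient_ge 1 hd4
      rw [good_om_one, mul_one] at h
      have hφ : (0 : ℝ) < d.totient := by exact_mod_cast Nat.totient_pos.mpr hd4
      have h5 : (1 + A) * d.totient < d := by
        rwa [inv_mul_eq_div, lt_div_iff₀ (by positivity), mul_comm] at hd2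
      have h6 := lt_of_mul_lt_mul_right (h5.trans_le h) hφ.le
      linarith)
  have h2 := h1.trans (hav 1 le_rfl (2 * D))
  have hD : (0 : ℝ) ≤ D := Nat.cast_nonneg D
  have h3 : ((2 * D : ℕ) : ℝ) * E ≤ ε * D * A := by
    have : ε * A = 2 * E + ε := by rw [hA]; field_simp
    push_cast
    nlinarith [mul_nonneg hε.le hD]
  exact le_of_mul_le_mul_right (h2.trans h3) hA0

/-- most moduli have few prime factors above `w` -/
lemma few_rough (δ ε : ℝ) (hδ : 0 < δ) (hε : 0 < ε) : ∀ᶠ w : ℕ in atTop, ∀ D : ℕ,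
    (((Ico D (2 * D)).filter (fun d : ℕ => (1 + δ) * d.totient < d * om w d)).card : ℝ) ≤
      ε * D := by
  obtain ⟨c, -, hav⟩ := h1_avg 2 (by norm_num)
  have hlim : Tendsto (fun w : ℕ => Real.exp (c / w)) atTop (𝓝 1) := by
    have h := (Real.continuous_exp.tendsto 0).comp (tendsto_const_div_atTop_nhds_zero_nat c)
    rw [Real.exp_zero] at h
    exact h
  have hpos : 1 < 1 + δ * ε / 2 := by
    have : 0 < δ * ε / 2 := by positivity
    linarith
  filter_upwards [eventually_ge_atTop 1, hlim.eventually (gt_mem_nhds hpos)] with w hw hw2 D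
  have h1 := good_markov w D δ
    ((Ico D (2 * D)).filter (fun d : ℕ => (1 + δ) * d.totient < d * om w d))
    (Finset.filter_subset _ _) (by
      intro d hd
      obtain ⟨hd1, hd2⟩ := Finset.mem_filter.mp hd
      have hd3 := Finset.mem_Ico.mp hd1
      have hd4 : 1 ≤ d := by omega
      have h := totient_ge w hd4
      have hφ : (0 : ℝ) < d.totient := by exact_mod_cast Nat.totient_pos.mpr hd4
      have h6 := lt_of_mul_lt_mul_right (hd2.trans_le h) hφ.le
      linarith)
  have h2 := h1.trans (hav w hw (2 * D))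
  have hD : (0 : ℝ) ≤ D := Nat.cast_nonneg D
  have h3 : ((2 * D : ℕ) : ℝ) * (Real.exp (c / w) - 1) ≤ ε * D * δ := by
    push_cast
    nlinarith [mul_le_mul_of_nonneg_left hw2.le hD]
  exact le_of_mul_le_mul_right (h2.trans h3) hδ

/-- changing the height and passing to the reduced classes -/
lemma compare_height (w d k X Y X' : ℕ) (hd : 1 ≤ d) (hXY : X ≤ Y) (hYX : Y ≤ X') :
    |(((range d).filter (fun a => Nat.Coprime a d ∧
        ((range (Y + 1)).filter (fun p => p.Prime ∧ p % d = a)).card = k)).card : ℝ) -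
      ((Ad w d).filter (fun a => cnt X d a = k)).card| ≤
      (d * om w d - d.totient) + ((Ioc X X').filter Nat.Prime).card + Nat.sqrt X := by
  set A1 := (range d).filter (fun a => Nat.Coprime a d ∧
    ((range (Y + 1)).filter (fun p => p.Prime ∧ p % d = a)).card = k) with hA1
  set A2 := (Ad w d).filter (fun a => cnt X d a = k) with hA2
  set R := (range d).filter (fun a => Nat.Coprime d a) with hR
  set B := ((Ioc X X').filter Nat.Prime ∪ Icc 1 (Nat.sqrt X)).image (fun p => p % d) with hB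
  have hRc : R.card = d.totient := rfl
  have hRA : R ⊆ Ad w d := by
    intro a ha
    obtain ⟨ha1, ha2⟩ := Finset.mem_filter.mp ha
    refine Finset.mem_filter.mpr ⟨ha1, fun p hp hpd hpa => ?_⟩
    have h1 : p ∣ d := Int.natCast_dvd_natCast.mp hpd
    have h2 : p ∣ a := Int.natCast_dvd_natCast.mp hpa
    exact (Nat.prime_of_mem_primesLE hp).one_lt.ne' (Nat.eq_one_of_dvd_coprimes ha2 h1 h2)
  have hBc : B.card ≤ ((Ioc X X').filter Nat.Prime).card + Nat.sqrt X := by
    refine Finset.card_image_le.trans ((Finset.card_union_le _ _).trans ?_)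
    simp
  have hgood : ∀ a, a ∉ B →
      ((range (Y + 1)).filter (fun p => p.Prime ∧ p % d = a)).card = cnt X d a := by
    intro a ha
    unfold cnt
    congr 1
    ext p
    simp only [Finset.mem_filter, Finset.mem_range, Finset.mem_Icc]
    constructor
    · rintro ⟨h1, h2, h3⟩
      have h4 : p ∉ (Ioc X X').filter Nat.Prime ∪ Icc 1 (Nat.sqrt X) := fun h =>
        ha (Finset.mem_image.mpr ⟨p, h, h3⟩)
      simp only [Finset.mem_union, Finset.mem_filter, Finset.mem_Ioc, Finset.mem_Icc, not_or,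
        not_and, not_le] at h4
      have h5 := h2.one_le
      refine ⟨⟨h5, ?_⟩, h2, Nat.sqrt_lt'.mp (h4.2 h5), h3⟩
      by_contra h6
      exact h4.1 ⟨by omega, by omega⟩ h2
    · rintro ⟨⟨-, h1⟩, h2, -, h3⟩
      exact ⟨by omega, h2, h3⟩
  have h12 : A1 ⊆ A2 ∪ B := by
    intro a ha
    obtain ⟨ha1, ha2, ha3⟩ := Finset.mem_filter.mp ha
    by_cases hb : a ∈ B
    · exact Finset.mem_union_right _ hb
    · refine Finset.mem_union_left _ (Finset.mem_filter.mpr ⟨hRA ?_, ?_⟩)
      · exact Finset.mem_filter.mpr ⟨ha1, ha2.symm⟩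
      · rw [← hgood a hb, ha3]
  have h21 : A2 ⊆ (A1 ∪ B) ∪ (Ad w d \ R) := by
    intro a ha
    obtain ⟨ha1, ha2⟩ := Finset.mem_filter.mp ha
    by_cases hr : a ∈ R
    · refine Finset.mem_union_left _ ?_
      obtain ⟨hr1, hr2⟩ := Finset.mem_filter.mp hr
      by_cases hb : a ∈ B
      · exact Finset.mem_union_right _ hb
      · refine Finset.mem_union_left _ (Finset.mem_filter.mpr ⟨hr1, hr2.symm, ?_⟩)
        rw [hgood a hb, ha2]
    · exact Finset.mem_union_right _ (Finset.mem_sdiff.mpr ⟨ha1, hr⟩)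
  have c12 : A1.card ≤ A2.card + B.card :=
    (Finset.card_le_card h12).trans (Finset.card_union_le _ _)
  have c21 : A2.card ≤ A1.card + B.card + (Ad w d \ R).card :=
    (Finset.card_le_card h21).trans ((Finset.card_union_le _ _).trans
      (Nat.add_le_add_right (Finset.card_union_le _ _) _))
  have c3 : (Ad w d \ R).card + R.card = (Ad w d).card := Finset.card_sdiff_add_card_eq_card hRA
  have c4 : ((Ad w d \ R).card : ℝ) = d * om w d - d.totient := by
    rw [← card_Ad, ← c3, hRc]; push_cast; ring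
  have c5 : (0 : ℝ) ≤ ((Ad w d \ R).card : ℝ) := Nat.cast_nonneg _
  have d12 : (A1.card : ℝ) ≤ A2.card + B.card := by exact_mod_cast c12
  have d21 : (A2.card : ℝ) ≤ A1.card + B.card + (Ad w d \ R).card := by exact_mod_cast c21
  have dB : (B.card : ℝ) ≤ ((Ioc X X').filter Nat.Prime).card + Nat.sqrt X := by
    exact_mod_cast hBc
  rw [← c4, abs_le]
  constructor <;> linarith

/-- primes between two consecutive heights -/
lemma gap_primes (η : ℝ) (hη : 0 < η) (i : ℕ) : ∀ᶠ D : ℕ in atTop,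
    (((Ioc ⌊(i : ℝ) * η * D * Real.log D⌋₊ ⌊((i : ℝ) + 1) * η * D * Real.log D⌋₊).filter
      Nat.Prime).card : ℝ) + Nat.sqrt ⌊(i : ℝ) * η * D * Real.log D⌋₊ ≤ 2 * η * D := by
  set c : ℝ := ((i : ℝ) + 1) * η with hc
  have hi : (0 : ℝ) ≤ i := Nat.cast_nonneg i
  have hc0 : 0 < c := by positivity
  have hlog : Tendsto (fun D : ℕ => Real.log D) atTop atTop :=
    Real.tendsto_log_atTop.comp tendsto_natCast_atTop_atTop
  have hX : Tendsto (fun D : ℕ => ⌊c * D * Real.log D⌋₊) atTop atTop :=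
    reg_X.comp (reg_of_log c hc0)
  have hε : 0 < η / (8 * c) := by positivity
  have hsm : ∀ᶠ D : ℕ in atTop, Real.log D ≤ η ^ 2 / (16 * c) * D := by
    have h := (Real.isLittleO_log_id_atTop.bound
      (show 0 < η ^ 2 / (16 * c) by positivity))
    filter_upwards [tendsto_natCast_atTop_atTop.eventually h] with D hD
    simp only [id, Real.norm_eq_abs, Nat.abs_cast] at hD
    exact (le_abs_self _).trans hD
  filter_upwards [hX.eventually (pnt_unif 1 one_pos 0 (by simp) _ hε),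
    hlog.eventually (eventually_ge_atTop 1), hlog.eventually (eventually_ge_atTop c⁻¹), hsm,
    (tendsto_natCast_atTop_atTop (R := ℝ)).eventually (eventually_ge_atTop (4 / η)),
    eventually_ge_atTop 1] with D hp hL1 hLc hsD hDη hD1
  set L := Real.log D with hL
  set X := ⌊(i : ℝ) * η * D * L⌋₊ with hXd
  set X' := ⌊c * D * L⌋₊ with hX'd
  have hD0 : (0 : ℝ) < D := by exact_mod_cast hD1
  have hL0 : 0 < L := by linarith
  have hXX : X ≤ X' := by
    refine Nat.floor_le_floor ?_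
    rw [hc]
    gcongr
    linarith
  have hX'le : (X' : ℝ) ≤ c * D * L := Nat.floor_le (by positivity)
  have hXge : (i : ℝ) * η * D * L < X + 1 := Nat.lt_floor_add_one _
  have hDX : D ≤ X' := by
    refine Nat.le_floor ?_
    have h1 : 1 ≤ c * L := by
      have := mul_le_mul_of_nonneg_left hLc hc0.le
      rwa [mul_inv_cancel₀ hc0.ne'] at this
    have h2 := mul_le_mul_of_nonneg_left h1 hD0.le
    linarith
  have hLX : L ≤ Real.log X' := Real.log_le_log hD0 (by exact_mod_cast hDX)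
  have hsq : (Nat.sqrt X' : ℝ) ≤ η * D / 4 := by
    have h1 : ((Nat.sqrt X' : ℝ)) ^ 2 ≤ X' := by exact_mod_cast Nat.sqrt_le' X'
    have h2 : c * D * L ≤ (η * D / 4) ^ 2 := by
      calc c * D * L ≤ c * D * (η ^ 2 / (16 * c) * D) := by gcongr
        _ = (η * D / 4) ^ 2 := by field_simp; ring
    exact le_of_sq_le_sq (h1.trans (hX'le.trans h2)) (by positivity)
  have hsq2 : (Nat.sqrt X : ℝ) ≤ Nat.sqrt X' := by exact_mod_cast Nat.sqrt_le_sqrt hXX
  set P : ℕ → Finset ℕ := fun y =>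
    (Icc 1 y).filter (fun p => p.Prime ∧ X' < p ^ 2 ∧ p ≡ 0 [MOD 1]) with hP
  set G := ((Ioc X X').filter Nat.Prime).filter (fun p => X' < p ^ 2) with hG
  have hcard : G.card + (P X).card ≤ (P X').card := by
    rw [← Finset.card_union_of_disjoint]
    · refine Finset.card_le_card fun p hp => ?_
      simp only [hP, hG, Finset.mem_union, Finset.mem_filter, Finset.mem_Ioc,
        Finset.mem_Icc] at hp ⊢
      rcases hp with ⟨⟨⟨h1, h2⟩, h3⟩, h4⟩ | ⟨⟨h1, h2⟩, h3⟩
      · exact ⟨⟨h3.one_le, h2⟩, h3, h4, Nat.modEq_one⟩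
      · exact ⟨⟨h1, h2.trans hXX⟩, h3⟩
    · rw [Finset.disjoint_left]
      intro p h1 h2
      simp only [hP, hG, Finset.mem_filter, Finset.mem_Ioc, Finset.mem_Icc] at h1 h2
      omega
  have hcard2 : ((Ioc X X').filter Nat.Prime).card ≤ G.card + Nat.sqrt X' := by
    have h1 : (Ioc X X').filter Nat.Prime ⊆ G ∪ Icc 1 (Nat.sqrt X') := by
      intro p hp
      by_cases h : X' < p ^ 2
      · exact Finset.mem_union_left _ (Finset.mem_filter.mpr ⟨hp, h⟩)
      · refine Finset.mem_union_right _ (Finset.mem_Icc.mpr ⟨?_, ?_⟩)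
        · exact (Finset.mem_filter.mp hp).2.one_le
        · exact Nat.le_sqrt'.mpr (not_lt.mp h)
    refine (Finset.card_le_card h1).trans ((Finset.card_union_le _ _).trans ?_)
    simp
  have p1 := (abs_le.mp (hp X hXX)).1
  have p2 := (abs_le.mp (hp X' le_rfl)).2
  simp only [Nat.totient_one, Nat.cast_one, div_one] at p1 p2
  have q1 : (G.card : ℝ) + (P X).card ≤ (P X').card := by exact_mod_cast hcard
  have q2 : (((Ioc X X').filter Nat.Prime).card : ℝ) ≤ G.card + Nat.sqrt X' := by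
    exact_mod_cast hcard2
  have hG0 : (0 : ℝ) ≤ G.card := Nat.cast_nonneg _
  have hη4 : 1 ≤ η * D / 4 := by
    rw [div_le_iff₀ hη] at hDη
    linarith
  have q3 : L * G.card ≤ L * (η * D + η * D / 2) := by
    have h1 : L * G.card ≤ Real.log X' * G.card := mul_le_mul_of_nonneg_right hLX hG0
    have h2 : Real.log X' * (G.card + (P X).card) ≤ Real.log X' * (P X').card :=
      mul_le_mul_of_nonneg_left q1 (hL0.le.trans hLX)
    have h3 : η / (8 * c) * X' ≤ η * D * L / 8 := by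
      calc η / (8 * c) * X' ≤ η / (8 * c) * (c * D * L) := by gcongr
        _ = η * D * L / 8 := by field_simp
    have h4 : (X' : ℝ) - X ≤ η * D * L + 1 := by
      have : c * D * L = (i : ℝ) * η * D * L + η * D * L := by rw [hc]; ring
      linarith
    have h5 : 1 ≤ η * D / 4 * L := one_le_mul_of_one_le_of_one_le hη4 hL1
    have p1' : -(η / (8 * c) * X') ≤ Real.log X' * (P X).card - X := p1
    have p2' : Real.log X' * (P X').card - X' ≤ η / (8 * c) * X' := p2
    linarith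
  have q4 : (G.card : ℝ) ≤ η * D + η * D / 2 := le_of_mul_le_mul_left q3 hL0
  linarith

/-- choice of the height -/
lemma choose_height (lam δ1 ρ : ℝ) (hlam : 0 < lam) (hδ1 : 0 < δ1) (hρ : 0 < ρ) :
    ∃ δ2 η0 : ℝ, 0 < δ2 ∧ δ2 ≤ ρ ∧ 0 < η0 ∧ ∀ η : ℝ, 0 < η → η ≤ η0 → ∃ I : ℕ,
      ∀ᶠ D : ℕ in atTop, ∀ d ∈ Ico D (2 * D), ∀ y : ℝ, δ1 * d ≤ d.totient → (d.totient : ℝ) ≤ y →
        y ≤ (1 + δ2) * d.totient → ∃ i ∈ Icc 1 I,
          ⌊(i : ℝ) * η * D * Real.log D⌋₊ ≤ ⌊lam * (d.totient : ℝ) * Real.log d⌋₊ ∧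
          ⌊lam * (d.totient : ℝ) * Real.log d⌋₊ ≤ ⌊((i : ℝ) + 1) * η * D * Real.log D⌋₊ ∧
          |(⌊(i : ℝ) * η * D * Real.log D⌋₊ : ℝ) /
            (y * Real.log (⌊(i : ℝ) * η * D * Real.log D⌋₊ : ℕ)) - lam| ≤ ρ := by
  set s : ℝ := ρ / (6 * lam + ρ + 1) with hs
  have hden : 0 < 6 * lam + ρ + 1 := by positivity
  have hs0 : 0 < s := by positivity
  have hs1 : s * (6 * lam + ρ + 1) = ρ := by rw [hs]; field_simp
  have hsl : 0 < s * lam := by positivity
  have hsr : 0 < s * ρ := by positivity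
  have hsρ : s ≤ ρ := by linarith
  have hsone : s < 1 := by
    rw [hs, div_lt_one hden]; linarith
  refine ⟨s, min (lam * δ1) (ρ * δ1 / 4), hs0, hsρ, lt_min (by positivity) (by positivity), ?_⟩
  intro η hη hη0
  have hη1 : η ≤ lam * δ1 := hη0.trans (min_le_left _ _)
  have hη2 : η ≤ ρ * δ1 / 4 := hη0.trans (min_le_right _ _)
  refine ⟨⌈4 * lam / η⌉₊, ?_⟩
  have hlog : Tendsto (fun D : ℕ => Real.log D) atTop atTop :=
    Real.tendsto_log_atTop.comp tendsto_natCast_atTop_atTop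
  have hall : ∀ᶠ D : ℕ in atTop, ∀ i ∈ Icc 1 ⌈4 * lam / η⌉₊,
      |Real.log (⌊(i : ℝ) * η * D * Real.log D⌋₊ : ℕ) / Real.log D - 1| < s := by
    rw [eventually_all_finset]
    intro i hi
    have hi1 : (0 : ℝ) < i := by exact_mod_cast (Finset.mem_Icc.mp hi).1
    have h := Metric.tendsto_nhds.mp (log_ratio ((i : ℝ) * η) (by positivity)) s hs0
    simpa only [Real.dist_eq] using h
  filter_upwards [hall, hlog.eventually (eventually_ge_atTop 1),
    hlog.eventually (eventually_ge_atTop (Real.log 2 / s)),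
    (tendsto_natCast_atTop_atTop (R := ℝ)).eventually (eventually_ge_atTop η⁻¹),
    eventually_ge_atTop 1] with D hrat hL1 hL2 hDη hD1
  intro d hd y hφ1 hy1 hy2
  obtain ⟨hd1, hd2⟩ := Finset.mem_Ico.mp hd
  set L := Real.log D with hL
  set φ : ℝ := (d.totient : ℝ) with hφ
  have hD0 : (0 : ℝ) < D := by exact_mod_cast hD1
  have hL0 : 0 < L := by linarith
  have hd1' : (D : ℝ) ≤ d := by exact_mod_cast hd1
  have hd2' : (d : ℝ) ≤ 2 * D := by exact_mod_cast hd2.le
  have hφd : φ ≤ d := by rw [hφ]; exact_mod_cast Nat.totient_le d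
  have hφD : δ1 * D ≤ φ := (mul_le_mul_of_nonneg_left hd1' hδ1.le).trans hφ1
  have hφ0 : 0 < φ := lt_of_lt_of_le (by positivity) hφD
  have hl1 : L ≤ Real.log d := Real.log_le_log hD0 hd1'
  have hl2 : Real.log d ≤ (1 + s) * L := by
    have h1 : Real.log d ≤ Real.log (2 * D) := Real.log_le_log (by linarith) hd2'
    rw [Real.log_mul (by norm_num) hD0.ne'] at h1
    rw [div_le_iff₀ hs0] at hL2
    linarith
  set x := lam * φ * Real.log d with hx
  set t := η * D * L with ht
  have ht0 : 0 < t := by positivity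
  have ht1 : 1 ≤ t := by
    have h1 : 1 ≤ η * D := by
      have := mul_le_mul_of_nonneg_left hDη hη.le
      rwa [mul_inv_cancel₀ hη.ne'] at this
    exact one_le_mul_of_one_le_of_one_le h1 hL1
  have hx1 : lam * φ * L ≤ x := by rw [hx]; gcongr
  have hx2 : x ≤ lam * φ * ((1 + s) * L) := by rw [hx]; gcongr
  have hx0 : 0 < x := lt_of_lt_of_le (by positivity) hx1
  have htx : t ≤ x := by
    calc t ≤ lam * δ1 * D * L := by rw [ht]; gcongr
      _ = lam * (δ1 * D) * L := by ring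
      _ ≤ lam * φ * L := by gcongr
      _ ≤ x := hx1
  have hx3 : x ≤ 4 * lam / η * t := by
    calc x ≤ lam * φ * ((1 + s) * L) := hx2
      _ ≤ lam * (2 * D) * (2 * L) := by
          gcongr
          · linarith
          · linarith
      _ = 4 * lam / η * t := by rw [ht]; field_simp; ring
  set i := ⌊x / t⌋₊ with hi
  have hi1 : (i : ℝ) * t ≤ x := by
    have := Nat.floor_le (show 0 ≤ x / t by positivity)
    rwa [le_div_iff₀ ht0] at this
  have hi2 : x < ((i : ℝ) + 1) * t := by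
    have := Nat.lt_floor_add_one (x / t)
    rwa [div_lt_iff₀ ht0] at this
  have hiI : i ∈ Icc 1 ⌈4 * lam / η⌉₊ := by
    refine Finset.mem_Icc.mpr ⟨Nat.le_floor ?_, ?_⟩
    · rw [Nat.cast_one, le_div_iff₀ ht0, one_mul]
      exact htx
    · refine (Nat.floor_le_floor ?_).trans (Nat.floor_le_ceil _)
      rw [div_le_iff₀ ht0]
      exact hx3
  have e1 : (i : ℝ) * η * D * L = i * t := by rw [ht]; ring
  have e2 : ((i : ℝ) + 1) * η * D * L = (i + 1) * t := by rw [ht]; ring
  refine ⟨i, hiI, Nat.floor_le_floor (e1.le.trans hi1), Nat.floor_le_floor (hi2.le.trans e2.ge), ?_⟩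
  have hr := abs_lt.mp (hrat i hiI)
  set X := ⌊(i : ℝ) * η * D * L⌋₊ with hX
  have hX1 : (X : ℝ) ≤ x := by
    have h : (X : ℝ) ≤ (i : ℝ) * η * D * L := Nat.floor_le (by positivity)
    linarith
  have hX2 : x - 2 * t ≤ X := by
    have h : (i : ℝ) * η * D * L < X + 1 := Nat.lt_floor_add_one _
    linarith
  have hX0 : (0 : ℝ) ≤ X := Nat.cast_nonneg X
  have hr1 : (1 - s) * L ≤ Real.log X := by
    have h : 1 - s ≤ Real.log X / L := by linarith [hr.1]
    rwa [le_div_iff₀ hL0] at h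
  have hr2 : Real.log X ≤ (1 + s) * L := by
    have h : Real.log X / L ≤ 1 + s := by linarith [hr.2]
    rwa [div_le_iff₀ hL0] at h
  have hs' : 0 < 1 - s := by linarith
  have hlX : 0 < Real.log X := lt_of_lt_of_le (by positivity) hr1
  have hy0 : 0 < y := hφ0.trans_le hy1
  have hB0 : 0 < y * Real.log X := by positivity
  have hφL : 0 < φ * L := by positivity
  have hB1 : (1 - s) * (φ * L) ≤ y * Real.log X := by
    calc (1 - s) * (φ * L) = φ * ((1 - s) * L) := by ring
      _ ≤ y * Real.log X := by gcongr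
  have hB2 : y * Real.log X ≤ (1 + 3 * s) * (φ * L) := by
    calc y * Real.log X ≤ (1 + s) * φ * ((1 + s) * L) := by gcongr
      _ = (1 + s) ^ 2 * (φ * L) := by ring
      _ ≤ (1 + 3 * s) * (φ * L) := by
          refine mul_le_mul_of_nonneg_right ?_ hφL.le
          have := mul_le_mul_of_nonneg_left hsone.le hs0.le
          linarith
  rw [abs_le]
  constructor
  · rw [le_sub_iff_add_le, le_div_iff₀ hB0]
    rcases le_total lam ρ with h | h
    · have : (-ρ + lam) * (y * Real.log X) ≤ 0 :=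
        mul_nonpos_of_nonpos_of_nonneg (by linarith) hB0.le
      linarith
    · have h1 : (-ρ + lam) * (y * Real.log X) ≤ (-ρ + lam) * ((1 + 3 * s) * (φ * L)) :=
        mul_le_mul_of_nonneg_left hB2 (by linarith)
      have h2 : (-ρ + lam) * (1 + 3 * s) ≤ lam - ρ / 2 := by linarith
      have h3 : 2 * t ≤ ρ / 2 * (φ * L) := by
        calc 2 * t ≤ 2 * (ρ * δ1 / 4 * D * L) := by rw [ht]; gcongr
          _ = ρ / 2 * (δ1 * D * L) := by ring
          _ ≤ ρ / 2 * (φ * L) := by gcongr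
      have h4 := mul_le_mul_of_nonneg_right h2 hφL.le
      linarith
  · rw [sub_le_iff_le_add, div_le_iff₀ hB0]
    have h1 : (ρ + lam) * ((1 - s) * (φ * L)) ≤ (ρ + lam) * (y * Real.log X) :=
      mul_le_mul_of_nonneg_left hB1 (by positivity)
    have h2 : lam * (1 + s) ≤ (ρ + lam) * (1 - s) := by linarith
    have h4 := mul_le_mul_of_nonneg_right h2 hφL.le
    linarith

end Pool.Agent.Lib.MP_458f0b_nt.Pois
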