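import Pool.Agent.Lib.MP_458f0b_nt.Pois.Ind
import Pool.Agent.Lib.MP_458f0b_nt.Pois.Model

open Finset Filter Topology

namespace Pool.Agent.Lib.MP_458f0b_nt.Pois

lemma moments_sum_cast (D : ℕ) (f : ℤ → ℝ) :
    ∑ d ∈ Ico (D : ℤ) (2 * D), f d = ∑ d ∈ Ico D (2 * D), f (d : ℕ) := by
  symm
  refine Finset.sum_nbij' (fun d : ℕ => (d : ℤ)) (fun d : ℤ => d.toNat) ?_ ?_ ?_ ?_ ?_
  · intro d hd
    simp only [Finset.mem_Ico] at hd ⊢
    omega
  · intro d hd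
    simp only [Finset.mem_Ico] at hd ⊢
    omega
  · intro d _
    simp
  · intro d hd
    simp only [Finset.mem_Ico] at hd
    omega
  · intro d _
    rfl

/-- factorial moments for almost all moduli -/
theorem moments (k : ℕ) (ε : ℝ) (hε : 0 < ε) : ∀ᶠ w : ℕ in atTop, ∀ᶠ x : ℕ × ℕ in reg,
    ∑ d ∈ Ico x.1 (2 * x.1), om w (d : ℕ) ^ k *
      |Real.log x.2 ^ (k + 1) * (Mom x.2 d (k + 1) : ℝ) -
        d * om w d * (x.2 / (d * om w d)) ^ (k + 1)| ≤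
      ε * x.2 * x.1 * ((x.2 / x.1 : ℕ) : ℝ) ^ k := by
  filter_upwards [tup_model (Fin (k + 1)) univ (ε / 2) (half_pos hε)] with w hw
  obtain ⟨C, hC0, hC⟩ := model_eval w k
  have hQ : ∀ᶠ x : ℕ × ℕ in reg, 4 * C / ε ≤ ((x.2 / x.1 : ℕ) : ℝ) :=
    (tendsto_natCast_atTop_atTop.comp reg_Q).eventually_ge_atTop (4 * C / ε)
  filter_upwards [hw, hQ, reg_basic] with x hx hQx hb
  obtain ⟨D, X⟩ := x
  obtain ⟨hD, hQ1, hQD, -⟩ := hb
  simp only at hx hQx hD hQ1 hQD ⊢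
  set Q : ℝ := ((X / D : ℕ) : ℝ) with hQdef
  have hQ0 : 0 ≤ Q := Nat.cast_nonneg _
  set P : ℤ → ℝ := fun d => ∑ n ∈ tupSet (Fin (k + 1)) X d, ∏ i, pr X (n i) with hP
  set Mo : ℤ → ℝ := fun d => ∑ n ∈ tupSet (Fin (k + 1)) X d, ∏ i, (ind X (n i) * nu0 w (n i))
    with hMo
  set Ma : ℤ → ℝ := fun d => d * om w d * (X / (d * om w d)) ^ (k + 1) with hMa
  set a : ℤ → ℝ := fun d => om w d ^ k * (if 0 ≤ P d - Ma d then 1 else -1) with ha
  have ha1 : ∀ d, |a d| ≤ om w d ^ k := by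
    intro d
    have h0 : 0 ≤ om w d ^ k := pow_nonneg (om_pos w d).le k
    simp only [ha]
    split_ifs
    · rw [mul_one, abs_of_nonneg h0]
    · rw [mul_neg, mul_one, abs_neg, abs_of_nonneg h0]
  have ha2 : ∀ d, om w d ^ k * |P d - Ma d| = a d * (P d - Ma d) := by
    intro d
    simp only [ha]
    split_ifs with h
    · rw [abs_of_nonneg h, mul_one]
    · rw [abs_of_neg (not_le.mp h)]
      ring
  have h1 := hx a (fun _ _ => 0) (by simpa using ha1) (by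
    intro i n
    rw [abs_zero]
    exact mul_nonneg (ind_nonneg X n) (nu0_nonneg w n))
  have e1 : tup D X a (sp X univ fun (_ : Fin (k + 1)) _ => 0) =
      ∑ d ∈ Ico D (2 * D), a (d : ℕ) * P (d : ℕ) := by
    rw [← moments_sum_cast D (fun d => a d * P d)]
    simp [tup, sp, hP]
  have e2 : tup D X a (md w X univ fun (_ : Fin (k + 1)) _ => 0) =
      ∑ d ∈ Ico D (2 * D), a (d : ℕ) * Mo (d : ℕ) := by
    rw [← moments_sum_cast D (fun d => a d * Mo d)]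
    simp [tup, md, hMo]
  rw [e1, e2, Fintype.card_fin, Nat.add_sub_cancel] at h1
  have h2 : ∑ d ∈ Ico D (2 * D), a (d : ℕ) * (Mo (d : ℕ) - Ma (d : ℕ)) ≤
      D * (C * (2 * D) * Q ^ k) := by
    have h3 : ∀ d ∈ Ico D (2 * D), a (d : ℕ) * (Mo (d : ℕ) - Ma (d : ℕ)) ≤
        C * (2 * D) * Q ^ k := by
      intro d hd
      obtain ⟨hd1, hd2⟩ := Finset.mem_Ico.mp hd
      have h4 : |Mo (d : ℕ) - Ma (d : ℕ)| ≤ C * d * Q ^ k := by
        have := hC D X d hD hQ1 hd1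
        simpa [hMo, hMa] using this
      have h5 : |a (d : ℕ)| ≤ 1 :=
        (ha1 _).trans (pow_le_one₀ (om_pos w _).le (om_le_one w _))
      have h6 : (d : ℝ) ≤ 2 * D := by exact_mod_cast hd2.le
      calc a (d : ℕ) * (Mo (d : ℕ) - Ma (d : ℕ)) ≤ |a (d : ℕ)| * |Mo (d : ℕ) - Ma (d : ℕ)| := by
            rw [← abs_mul]
            exact le_abs_self _
        _ ≤ 1 * (C * d * Q ^ k) := mul_le_mul h5 h4 (abs_nonneg _) zero_le_one
        _ ≤ C * (2 * D) * Q ^ k := by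
            rw [one_mul]
            gcongr
    have h7 := Finset.sum_le_card_nsmul _ _ _ h3
    rw [Nat.card_Ico, nsmul_eq_mul, show 2 * D - D = D by omega] at h7
    exact h7
  have h8 : ∑ d ∈ Ico D (2 * D), om w (d : ℕ) ^ k *
      |Real.log X ^ (k + 1) * (Mom X d (k + 1) : ℝ) -
        d * om w d * (X / (d * om w d)) ^ (k + 1)| =
      (∑ d ∈ Ico D (2 * D), a (d : ℕ) * P (d : ℕ) - ∑ d ∈ Ico D (2 * D), a (d : ℕ) * Mo (d : ℕ)) +
        ∑ d ∈ Ico D (2 * D), a (d : ℕ) * (Mo (d : ℕ) - Ma (d : ℕ)) := by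
    rw [← Finset.sum_sub_distrib, ← Finset.sum_add_distrib]
    refine Finset.sum_congr rfl fun d hd => ?_
    have hd1 : 1 ≤ d := hD.trans_le (Finset.mem_Ico.mp hd).1
    have h9 := ha2 (d : ℕ)
    have h10 : P (d : ℕ) = Real.log X ^ (k + 1) * (Mom X d (k + 1) : ℝ) := tup_pr X k hd1
    have h11 : Ma (d : ℕ) = d * om w d * (X / (d * om w d)) ^ (k + 1) := by simp [hMa]
    rw [← h10, ← h11, h9]
    ring
  have hD0 : (0 : ℝ) ≤ D := Nat.cast_nonneg _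
  have h12 : 4 * C * D ≤ ε * X := by
    have h13 : 4 * C ≤ Q * ε := (div_le_iff₀ hε).mp hQx
    calc 4 * C * D ≤ Q * ε * D := by gcongr
      _ = ε * (Q * D) := by ring
      _ ≤ ε * X := by gcongr
  have h14 : (D : ℝ) * (C * (2 * D) * Q ^ k) ≤ ε / 2 * X * D * Q ^ k := by
    have h15 : 0 ≤ (D : ℝ) * Q ^ k := by positivity
    nlinarith [mul_le_mul_of_nonneg_right h12 h15]
  rw [h8]
  have h16 := (le_abs_self _).trans h1
  linarith

end Pool.Agent.Lib.MP_458f0b_nt.Pois
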