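import Pool.Agent.Lib.MP_458f0b_nt.Pois.Defs

open Finset Filter Topology

namespace Pool.Agent.Lib.MP_458f0b_nt.Pois

lemma arith_block {z i p : ℕ} (hp : p.Prime) (hpz : p ≤ z) (h : Nat.log 2 (Nat.log p z) = i) :
    p ^ 2 ^ i ≤ z ∧ z < (p ^ 2) ^ 2 ^ i := by
  have hz : z ≠ 0 := by have := hp.pos; omega
  have hk : Nat.log p z ≠ 0 := (Nat.log_pos hp.one_lt hpz).ne'
  have h1 : 2 ^ i ≤ Nat.log p z := h ▸ Nat.pow_log_le_self 2 hk
  have h2 : Nat.log p z < 2 ^ (i + 1) := h ▸ Nat.lt_pow_succ_log_self (by norm_num) _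
  refine ⟨(Nat.pow_le_pow_right hp.pos h1).trans (Nat.pow_log_le_self p hz), ?_⟩
  calc z < p ^ (Nat.log p z + 1) := Nat.lt_pow_succ_log_self hp.one_lt _
    _ ≤ p ^ 2 ^ (i + 1) := Nat.pow_le_pow_right hp.pos h2
    _ = (p ^ 2) ^ 2 ^ i := by rw [← pow_mul, pow_succ, mul_comm]

lemma block_sum : ∃ C0 : ℝ, 0 ≤ C0 ∧ ∀ z i : ℕ,
    ∑ p ∈ z.primesLE.filter (fun p => Nat.log 2 (Nat.log p z) = i), (p : ℝ)⁻¹ ≤ C0 := by
  refine ⟨6, by norm_num, fun z i => ?_⟩
  set B := z.primesLE.filter (fun p => Nat.log 2 (Nat.log p z) = i) with hB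
  rcases B.eq_empty_or_nonempty with h | h
  · rw [h]; norm_num
  have hmem : ∀ p ∈ B, p.Prime ∧ p ^ 2 ^ i ≤ z ∧ z < (p ^ 2) ^ 2 ^ i := by
    intro p hp
    obtain ⟨h1, h2⟩ := Finset.mem_filter.mp hp
    exact ⟨Nat.prime_of_mem_primesLE h1,
      arith_block (Nat.prime_of_mem_primesLE h1) (Nat.le_of_mem_primesLE h1) h2⟩
  set n := B.max' h with hn
  have hnB : n ∈ B := B.max'_mem h
  have hn2 : 2 ≤ n := (hmem n hnB).1.two_le
  have hn2r : (2 : ℝ) ≤ n := by exact_mod_cast hn2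
  have hl2 : 0 < Real.log 2 := Real.log_pos (by norm_num)
  have hln : Real.log 2 ≤ Real.log n := Real.log_le_log (by norm_num) hn2r
  have hlpos : 0 < Real.log n := lt_of_lt_of_le hl2 hln
  have h1 : ∀ p ∈ B, (p : ℝ)⁻¹ ≤ 2 / Real.log n * (Real.log p / p) := by
    intro p hp
    have hlt : n < p ^ 2 :=
      lt_of_pow_lt_pow_left₀ (2 ^ i) (Nat.zero_le _) ((hmem n hnB).2.1.trans_lt (hmem p hp).2.2)
    have hp0 : (0 : ℝ) < p := by exact_mod_cast (hmem p hp).1.pos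
    have h2 : Real.log n ≤ 2 * Real.log p := by
      have : (n : ℝ) ≤ (p : ℝ) ^ 2 := by exact_mod_cast hlt.le
      calc Real.log n ≤ Real.log ((p : ℝ) ^ 2) := Real.log_le_log (by linarith) this
        _ = 2 * Real.log p := by rw [Real.log_pow]; norm_num
    have h3 : 2 / Real.log n * (Real.log p / p) = (2 * Real.log p / Real.log n) * (p : ℝ)⁻¹ := by
      field_simp
    rw [h3]
    have h4 : 1 ≤ 2 * Real.log p / Real.log n := by rw [le_div_iff₀ hlpos]; linarith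
    have h5 : (0 : ℝ) ≤ (p : ℝ)⁻¹ := by positivity
    nlinarith
  have hsub : B ⊆ n.primesLE := fun p hp =>
    Nat.mem_primesLE.mpr ⟨B.le_max' p hp, (hmem p hp).1⟩
  have h4 : Real.log 4 = 2 * Real.log 2 := by
    rw [show (4 : ℝ) = 2 ^ 2 by norm_num, Real.log_pow]; norm_num
  calc ∑ p ∈ B, (p : ℝ)⁻¹ ≤ ∑ p ∈ B, 2 / Real.log n * (Real.log p / p) := Finset.sum_le_sum h1
    _ = 2 / Real.log n * ∑ p ∈ B, Real.log p / p := by rw [Finset.mul_sum]
    _ ≤ 2 / Real.log n * ∑ p ∈ n.primesLE, Real.log p / p := by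
        refine mul_le_mul_of_nonneg_left ?_ (by positivity)
        exact Finset.sum_le_sum_of_subset_of_nonneg hsub fun p _ _ =>
          div_nonneg (Real.log_natCast_nonneg p) (Nat.cast_nonneg p)
    _ ≤ 2 / Real.log n * (Real.log n + Real.log 4) :=
        mul_le_mul_of_nonneg_left (sum_log_div_le (by omega)) (by positivity)
    _ ≤ 6 := by
        rw [div_mul_eq_mul_div, div_le_iff₀ hlpos, h4]
        linarith

lemma arith_tele (z : ℕ) : ∏ n ∈ Icc 2 (z + 1), (1 - (n : ℝ)⁻¹) = ((z + 1 : ℕ) : ℝ)⁻¹ := by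
  induction z with
  | zero => simp
  | succ z ih =>
    rw [Finset.prod_Icc_succ_top (by omega), ih]
    push_cast
    field_simp
    ring

lemma inv_V_le {z : ℕ} (hz : 1 ≤ z) {S : Finset ℕ} (hS : S ⊆ z.primesLE) : (V S)⁻¹ ≤ z := by
  obtain ⟨y, rfl⟩ : ∃ y, z = y + 1 := ⟨z - 1, by omega⟩
  have hsub : S ⊆ Icc 2 (y + 1) := fun p hp =>
    Finset.mem_Icc.mpr ⟨(Nat.prime_of_mem_primesLE (hS hp)).two_le, Nat.le_of_mem_primesLE (hS hp)⟩
  have h1 : ∏ n ∈ Icc 2 (y + 1), (1 - (n : ℝ)⁻¹) ≤ V S := by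
    unfold V
    refine Finset.prod_le_prod_of_subset_of_le_one hsub (fun n hn => ?_)
      fun n _ _ => one_sub_inv_le n
    have h : (1 : ℝ) ≤ n := by
      have := (Finset.mem_Icc.mp hn).1
      exact_mod_cast (by omega : 1 ≤ n)
    have := inv_le_one_of_one_le₀ h
    linarith
  rw [arith_tele] at h1
  have h2 : (0 : ℝ) < ((y + 1 : ℕ) : ℝ) := by positivity
  exact inv_le_of_inv_le₀ h2 h1

lemma nu1_le (w : ℕ) {z : ℕ} (hz : 1 ≤ z) (n : ℤ) : nu1 w z n ≤ z :=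
  (nu_le (fun _ => prime_of_mem_P1) n).trans (inv_V_le hz (Finset.filter_subset _ _))

lemma kap_pow_small (K : ℕ) (ε : ℝ) (hε : 0 < ε) : ∀ᶠ w : ℕ in atTop, kap w ^ K ≤ ε * w := by
  set C : ℝ := (2 * Real.exp 5) ^ K with hC
  have hC0 : 0 < C := by positivity
  have h1 := (Real.isLittleO_pow_log_id_atTop (n := K)).bound (div_pos hε hC0)
  have h2 := tendsto_natCast_atTop_atTop (R := ℝ) |>.eventually h1
  filter_upwards [h2, eventually_ge_atTop 3] with w hw hw3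
  have h3 : kap w ≤ 2 * Real.exp 5 * Real.log w := by
    rw [kap_eq_prod]; exact prod_primesLE_le hw3
  have h4 : Real.log w ^ K ≤ ε / C * w := by
    have h5 : ‖id (w : ℝ)‖ = w := by simp
    rw [h5] at hw
    exact (le_abs_self _).trans hw
  calc kap w ^ K ≤ (2 * Real.exp 5 * Real.log w) ^ K := pow_le_pow_left₀ (kap_pos w).le h3 K
    _ = C * Real.log w ^ K := mul_pow _ _ _
    _ ≤ C * (ε / C * w) := mul_le_mul_of_nonneg_left h4 hC0.le
    _ = ε * w := by field_simp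

lemma arith_sum_cast (Y : ℕ) (F : ℤ → ℝ) :
    ∑ m ∈ Icc (1 : ℤ) Y, F m = ∑ m ∈ Ioc 0 Y, F (m : ℕ) := by
  symm
  refine Finset.sum_bij (fun m _ => (m : ℤ)) ?_ ?_ ?_ ?_
  · intro a ha
    have := Finset.mem_Ioc.mp ha
    exact Finset.mem_Icc.mpr ⟨by omega, by omega⟩
  · intro a _ b _ h
    exact_mod_cast h
  · intro b hb
    have := Finset.mem_Icc.mp hb
    exact ⟨b.toNat, Finset.mem_Ioc.mpr ⟨by omega, by omega⟩, by omega⟩
  · intro a _
    rfl

lemma arith_exp_sub_one {x : ℝ} : Real.exp x - 1 ≤ x * Real.exp x := by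
  have h1 := Real.one_sub_le_exp_neg x
  have h2 : Real.exp (-x) * Real.exp x = 1 := by rw [← Real.exp_add]; simp
  have h3 := Real.exp_pos x
  nlinarith

lemma arith_count (Y : ℕ) (S : Finset ℕ) (hS : ∀ p ∈ S, p.Prime) (a : ℕ → ℝ)
    (ha : ∀ p, 0 ≤ a p) :
    ∑ m ∈ Ioc 0 Y, ∏ p ∈ S, (if p ∣ m then a p else 0) ≤ Y * ∏ p ∈ S, (a p / p) := by
  have h0 : 0 ≤ ∏ p ∈ S, a p := Finset.prod_nonneg fun p _ => ha p
  have h1 : ∀ m ∈ Ioc 0 Y, ∏ p ∈ S, (if p ∣ m then a p else 0) ≤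
      if (∏ p ∈ S, p) ∣ m then ∏ p ∈ S, a p else 0 := by
    intro m _
    by_cases h : ∀ p ∈ S, p ∣ m
    · rw [if_pos (Finset.prod_primes_dvd m (fun p hp => (hS p hp).prime) h)]
      exact (Finset.prod_congr rfl fun p hp => if_pos (h p hp)).le
    · push Not at h
      obtain ⟨p, hp, hpm⟩ := h
      rw [Finset.prod_eq_zero hp (if_neg hpm)]
      split_ifs
      · exact h0
      · exact le_rfl
  refine (Finset.sum_le_sum h1).trans ?_
  rw [← Finset.sum_filter, Finset.sum_const, Nat.Ioc_filter_dvd_card_eq_div, nsmul_eq_mul,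
    Finset.prod_div_distrib, ← Nat.cast_prod]
  have h2 : ((Y / ∏ p ∈ S, p : ℕ) : ℝ) ≤ Y / ((∏ p ∈ S, p : ℕ) : ℝ) := Nat.cast_div_le
  calc ((Y / ∏ p ∈ S, p : ℕ) : ℝ) * ∏ p ∈ S, a p
      ≤ Y / ((∏ p ∈ S, p : ℕ) : ℝ) * ∏ p ∈ S, a p := mul_le_mul_of_nonneg_right h2 h0
    _ = Y * ((∏ p ∈ S, a p) / ((∏ p ∈ S, p : ℕ) : ℝ)) := by ring

lemma h1_avg (K : ℝ) (hK : 0 ≤ K) : ∃ c : ℝ, 0 ≤ c ∧ ∀ w : ℕ, 1 ≤ w → ∀ Y : ℕ,
    ∑ m ∈ Icc (1 : ℤ) Y, (Real.exp (K * h1 w m) - 1) ≤ Y * (Real.exp (c / w) - 1) := by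
  refine ⟨K * Real.exp K, by positivity, fun w hw Y => ?_⟩
  set a : ℕ → ℝ := fun p => Real.exp (K * (p : ℝ)⁻¹) - 1 with ha
  have ha0 : ∀ p, 0 ≤ a p := fun p => by
    have : 1 ≤ Real.exp (K * (p : ℝ)⁻¹) := Real.one_le_exp (by positivity)
    simp only [ha]; linarith
  have h1e : ∀ m ∈ Ioc 0 Y, Real.exp (K * h1 w (m : ℕ)) =
      ∑ S ∈ (P1 w Y).powerset, ∏ p ∈ S, (if p ∣ m then a p else 0) := by
    intro m hm
    have hm' := Finset.mem_Ioc.mp hm
    rw [← Finset.prod_one_add]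
    unfold h1
    rw [Finset.mul_sum, Real.exp_sum, Int.natAbs_natCast]
    have hset : m.primeFactors.filter (fun p => w < p) = (P1 w Y).filter (fun p => p ∣ m) := by
      ext p
      simp only [Finset.mem_filter, Nat.mem_primeFactors, mem_P1]
      constructor
      · rintro ⟨⟨h1, h2, _⟩, h4⟩
        exact ⟨⟨h1, h4, (Nat.le_of_dvd hm'.1 h2).trans hm'.2⟩, h2⟩
      · rintro ⟨⟨h1, h2, _⟩, h4⟩
        exact ⟨⟨h1, h4, hm'.1.ne'⟩, h2⟩
    rw [hset, Finset.prod_filter]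
    refine Finset.prod_congr rfl fun p _ => ?_
    split_ifs
    · simp [ha]
    · simp
  have h2 : ∑ m ∈ Ioc 0 Y, Real.exp (K * h1 w (m : ℕ)) ≤ Y * Real.exp (K * Real.exp K / w) := by
    rw [Finset.sum_congr rfl h1e, Finset.sum_comm]
    calc ∑ S ∈ (P1 w Y).powerset, ∑ m ∈ Ioc 0 Y, ∏ p ∈ S, (if p ∣ m then a p else 0)
        ≤ ∑ S ∈ (P1 w Y).powerset, Y * ∏ p ∈ S, (a p / p) :=
          Finset.sum_le_sum fun S hS => arith_count Y S
            (fun p hp => prime_of_mem_P1 (Finset.mem_powerset.mp hS hp)) a ha0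
      _ = Y * ∏ p ∈ P1 w Y, (1 + a p / p) := by rw [← Finset.mul_sum, Finset.prod_one_add]
      _ ≤ Y * Real.exp (K * Real.exp K / w) := by
          refine mul_le_mul_of_nonneg_left ?_ (Nat.cast_nonneg Y)
          calc ∏ p ∈ P1 w Y, (1 + a p / p)
              ≤ ∏ p ∈ P1 w Y, Real.exp (K * Real.exp K * ((p : ℝ) ^ 2)⁻¹) := by
                refine Finset.prod_le_prod (fun p _ => ?_) fun p hp => ?_
                · have := div_nonneg (ha0 p) (Nat.cast_nonneg (α := ℝ) p)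
                  linarith
                · have hp1 : (1 : ℝ) ≤ p := by exact_mod_cast (prime_of_mem_P1 hp).one_lt.le
                  have hp0 : (0 : ℝ) < p := by linarith
                  have h3 : K * (p : ℝ)⁻¹ ≤ K :=
                    mul_le_of_le_one_right hK (inv_le_one_of_one_le₀ hp1)
                  have h4 : a p ≤ K * (p : ℝ)⁻¹ * Real.exp K :=
                    arith_exp_sub_one.trans
                      (mul_le_mul_of_nonneg_left (Real.exp_le_exp.mpr h3) (by positivity))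
                  have h5 : a p / p ≤ K * Real.exp K * ((p : ℝ) ^ 2)⁻¹ := by
                    calc a p / p ≤ K * (p : ℝ)⁻¹ * Real.exp K / p :=
                          div_le_div_of_nonneg_right h4 hp0.le
                      _ = K * Real.exp K * ((p : ℝ) ^ 2)⁻¹ := by field_simp
                  have h6 := Real.add_one_le_exp (K * Real.exp K * ((p : ℝ) ^ 2)⁻¹)
                  linarith
            _ = Real.exp (K * Real.exp K * ∑ p ∈ P1 w Y, ((p : ℝ) ^ 2)⁻¹) := by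
                rw [Finset.mul_sum, Real.exp_sum]
            _ ≤ Real.exp (K * Real.exp K / w) := by
                rw [Real.exp_le_exp, div_eq_mul_inv]
                exact mul_le_mul_of_nonneg_left
                  (sum_inv_sq_le _ hw fun p hp => (mem_P1.mp hp).2.1) (by positivity)
  rw [arith_sum_cast Y (fun m => Real.exp (K * h1 w m) - 1), Finset.sum_sub_distrib]
  simp only [Finset.sum_const, Nat.card_Ioc, Nat.sub_zero, nsmul_eq_mul, mul_one]
  linarith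

lemma arith_totient (w : ℕ) {d : ℕ} (hd : 1 ≤ d) :
    (d.totient : ℝ) = d * om w d * V (d.primeFactors.filter (fun p => w < p)) := by
  have h1 : (d.totient : ℝ) = d * ∏ p ∈ d.primeFactors, (1 - (p : ℝ)⁻¹) := by
    have h := congrArg (fun x : ℚ => (x : ℝ)) (Nat.totient_eq_mul_prod_factors d)
    simpa using h
  have hset : w.primesLE.filter (fun p : ℕ => (p : ℤ) ∣ (d : ℤ)) =
      d.primeFactors.filter (fun p => ¬ w < p) := by
    ext p
    simp only [Finset.mem_filter, Nat.mem_primeFactors, Nat.mem_primesLE, Int.natCast_dvd_natCast,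
      not_lt]
    constructor
    · rintro ⟨⟨h1, h2⟩, h3⟩
      exact ⟨⟨h2, h3, by omega⟩, h1⟩
    · rintro ⟨⟨h1, h2, _⟩, h4⟩
      exact ⟨⟨h4, h1⟩, h2⟩
  rw [h1, ← Finset.prod_filter_mul_prod_filter_not d.primeFactors (fun p => w < p)]
  unfold om V
  rw [hset]
  ring

lemma totient_ge (w : ℕ) {d : ℕ} (hd : 1 ≤ d) :
    (d : ℝ) * om w d ≤ Real.exp (2 * h1 w d) * d.totient := by
  rw [arith_totient w hd]
  have h1 : 1 ≤ Real.exp (2 * h1 w d) * V (d.primeFactors.filter (fun p => w < p)) := by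
    unfold h1 V
    rw [Finset.mul_sum, Real.exp_sum, Int.natAbs_natCast, ← Finset.prod_mul_distrib]
    refine Finset.one_le_prod fun p hp => ?_
    have hp2 : (2 : ℝ) ≤ p := by
      exact_mod_cast (Nat.prime_of_mem_primeFactors (Finset.mem_filter.mp hp).1).two_le
    have h2 : (p : ℝ)⁻¹ ≤ 2⁻¹ := inv_anti₀ (by norm_num) hp2
    have h3 : (0 : ℝ) ≤ (p : ℝ)⁻¹ := by positivity
    have h4 := Real.add_one_le_exp (2 * (p : ℝ)⁻¹)
    nlinarith
  have h2 : 0 ≤ (d : ℝ) * om w d := mul_nonneg (Nat.cast_nonneg d) (om_pos w d).le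
  nlinarith

lemma totient_le (w : ℕ) (d : ℕ) : (d.totient : ℝ) ≤ d * om w d := by
  rcases Nat.eq_zero_or_pos d with rfl | hd
  · simp
  rw [arith_totient w hd]
  exact mul_le_of_le_one_right (mul_nonneg (Nat.cast_nonneg d) (om_pos w d).le)
    (V_le_one fun p hp => Nat.prime_of_mem_primeFactors (Finset.mem_filter.mp hp).1)

lemma pr_nonneg (X : ℕ) (n : ℤ) : 0 ≤ pr X n := by
  unfold pr
  split_ifs
  · exact Real.log_natCast_nonneg X
  · exact le_rfl

lemma pr_le {w u X : ℕ} (hu : 2 ≤ u) (hw : w ≤ zz X u) (n : ℤ) :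
    pr X n ≤ u * (ind X n * nu0 w n * nu1 w (zz X u) n) := by
  unfold pr
  split_ifs with h
  swap
  · exact mul_nonneg (Nat.cast_nonneg u)
      (mul_nonneg (mul_nonneg (ind_nonneg X n) (nu0_nonneg w n)) (nu1_nonneg w _ n))
  obtain ⟨h1, h2, h3, h4⟩ := h
  set z := zz X u with hz
  have hX : (1 : ℝ) ≤ X := by exact_mod_cast (by omega : 1 ≤ X)
  have hu0 : u ≠ 0 := by omega
  have hur : (0 : ℝ) < u := by positivity
  have hroot : (0 : ℝ) ≤ (X : ℝ) ^ ((u : ℝ)⁻¹) := by positivity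
  have hzle : (z : ℝ) ≤ (X : ℝ) ^ ((u : ℝ)⁻¹) := Nat.floor_le hroot
  have hzlt : (X : ℝ) ^ ((u : ℝ)⁻¹) < z + 1 := Nat.lt_floor_add_one _
  have hzu : z ^ u ≤ X := by
    have : (z : ℝ) ^ u ≤ X := by
      calc (z : ℝ) ^ u ≤ ((X : ℝ) ^ ((u : ℝ)⁻¹)) ^ u := pow_le_pow_left₀ (Nat.cast_nonneg z) hzle u
        _ = X := Real.rpow_inv_natCast_pow (by linarith) hu0
    exact_mod_cast this
  have hz2 : z ^ 2 ≤ X := by
    rcases Nat.eq_zero_or_pos z with h0 | h0
    · rw [h0]; simp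
    · exact (Nat.pow_le_pow_right h0 hu).trans hzu
  have hzn : z < n.natAbs := by
    have h5 : (X : ℤ) < (n.natAbs : ℤ) ^ 2 := by rw [Int.natAbs_sq]; exact h4
    have h6 : X < n.natAbs ^ 2 := by exact_mod_cast h5
    exact lt_of_pow_lt_pow_left₀ 2 (Nat.zero_le _) (hz2.trans_lt h6)
  have hnd : ∀ p : ℕ, p.Prime → p ≤ z → ¬ (p : ℤ) ∣ n := by
    intro p hp hpz hd
    have := (Nat.prime_dvd_prime_iff_eq hp h3).mp (Int.natCast_dvd.mp hd)
    omega
  have e1 : ind X n = 1 := if_pos ⟨h1, h2⟩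
  have e2 : nu0 w n = (V w.primesLE)⁻¹ := if_pos fun p hp =>
    hnd p (Nat.prime_of_mem_primesLE hp) ((Nat.le_of_mem_primesLE hp).trans hw)
  have e3 : nu1 w z n = (V (P1 w z))⁻¹ := if_pos fun p hp =>
    hnd p (mem_P1.mp hp).1 (mem_P1.mp hp).2.2
  have e4 : V w.primesLE * V (P1 w z) = V z.primesLE := by
    have hset : w.primesLE = z.primesLE.filter (fun p => ¬ w < p) := by
      ext p
      simp only [Finset.mem_filter, Nat.mem_primesLE, not_lt]
      constructor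
      · rintro ⟨h5, h6⟩
        exact ⟨⟨h5.trans hw, h6⟩, h5⟩
      · rintro ⟨⟨_, h6⟩, h7⟩
        exact ⟨h7, h6⟩
    unfold V P1
    rw [hset, mul_comm, Finset.prod_filter_mul_prod_filter_not]
  have e5 : ind X n * nu0 w n * nu1 w z n = kap z := by
    rw [e1, e2, e3, one_mul, ← mul_inv, e4]; rfl
  rw [e5, kap_eq_prod]
  have h5 := log_le_prod_primesLE z
  have h6 : (u : ℝ)⁻¹ * Real.log X ≤ Real.log (z + 1) := by
    rw [← Real.log_rpow (by linarith)]
    exact Real.log_le_log (by positivity) hzlt.le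
  calc Real.log X = u * ((u : ℝ)⁻¹ * Real.log X) := by field_simp
    _ ≤ u * ∏ p ∈ z.primesLE, (1 - (p : ℝ)⁻¹)⁻¹ :=
        mul_le_mul_of_nonneg_left (h6.trans h5) hur.le

end Pool.Agent.Lib.MP_458f0b_nt.Pois
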