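import Pool.Agent.Lib.MP_458f0b_nt.Pois.Defs

open Finset Filter Topology

namespace Pool.Agent.Lib.MP_458f0b_nt.Pois

/-- symmetric polynomial whose coefficients only depend on the size of the monomial -/
noncomputable def bhPoly (B : Finset ℕ) (c : ℕ → ℝ) (r : ℕ → ℝ) : ℝ :=
  ∑ S ∈ B.powerset, c S.card * ∏ p ∈ S, r p

/-- coefficients of the truncated inclusion-exclusion sum -/
noncomputable def bhU (M j : ℕ) : ℝ := if j ≤ M then (-1) ^ j else 0

/-- coefficients of an elementary symmetric polynomial -/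
noncomputable def bhE (M j : ℕ) : ℝ := if j = M then 1 else 0

lemma bh_poly_insert {B : Finset ℕ} {a : ℕ} (ha : a ∉ B) (c r : ℕ → ℝ) :
    bhPoly (insert a B) c r = bhPoly B c r + r a * bhPoly B (fun j => c (j + 1)) r := by
  unfold bhPoly
  rw [Finset.sum_powerset_insert ha, Finset.mul_sum]
  congr 1
  refine Finset.sum_congr rfl fun S hS => ?_
  have : a ∉ S := fun h => ha (Finset.mem_powerset.mp hS h)
  rw [Finset.card_insert_of_notMem this, Finset.prod_insert this]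
  ring

lemma bh_U_succ (B : Finset ℕ) (M : ℕ) (r : ℕ → ℝ) :
    bhPoly B (fun j => bhU (M + 1) (j + 1)) r = - bhPoly B (bhU M) r := by
  unfold bhPoly
  rw [← Finset.sum_neg_distrib]
  refine Finset.sum_congr rfl fun S _ => ?_
  unfold bhU
  beta_reduce
  by_cases h : S.card ≤ M
  · rw [if_pos h, if_pos (by omega)]; ring
  · rw [if_neg h, if_neg (by omega)]; ring

lemma bh_U_zero (B : Finset ℕ) (r : ℕ → ℝ) :
    bhPoly B (fun j => bhU 0 (j + 1)) r = 0 := by
  unfold bhPoly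
  refine Finset.sum_eq_zero fun S _ => ?_
  unfold bhU
  beta_reduce
  rw [if_neg (by omega)]; ring

lemma bh_U_step (B : Finset ℕ) (M : ℕ) (r : ℕ → ℝ) :
    bhPoly B (bhU (M + 1)) r = bhPoly B (bhU M) r + (-1) ^ (M + 1) * bhPoly B (bhE (M + 1)) r := by
  unfold bhPoly
  rw [Finset.mul_sum, ← Finset.sum_add_distrib]
  refine Finset.sum_congr rfl fun S _ => ?_
  unfold bhU bhE
  by_cases h : S.card ≤ M
  · rw [if_pos h, if_pos (by omega), if_neg (by omega)]; ring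
  · by_cases h2 : S.card = M + 1
    · rw [if_neg h, if_pos (by omega), if_pos h2, h2]; ring
    · rw [if_neg h, if_neg (by omega), if_neg h2]; ring

lemma bh_sign (B : Finset ℕ) (r : ℕ → ℝ) (h0 : ∀ p ∈ B, 0 ≤ r p) (h1 : ∀ p ∈ B, r p ≤ 1) (M : ℕ) :
    0 ≤ (-1) ^ M * (bhPoly B (bhU M) r - ∏ p ∈ B, (1 - r p)) := by
  induction B using Finset.induction_on generalizing M with
  | empty => simp [bhPoly, bhU]
  | insert a B ha ih =>
    have h0' : ∀ p ∈ B, 0 ≤ r p := fun p hp => h0 p (Finset.mem_insert_of_mem hp)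
    have h1' : ∀ p ∈ B, r p ≤ 1 := fun p hp => h1 p (Finset.mem_insert_of_mem hp)
    have ha0 := h0 a (Finset.mem_insert_self _ _)
    have hP : 0 ≤ ∏ p ∈ B, (1 - r p) := Finset.prod_nonneg fun p hp => by linarith [h1' p hp]
    rw [bh_poly_insert ha, Finset.prod_insert ha]
    cases M with
    | zero =>
      rw [bh_U_zero]
      have := ih h0' h1' 0
      simp only [pow_zero, one_mul] at this ⊢
      nlinarith [mul_nonneg ha0 hP]
    | succ M =>
      rw [bh_U_succ]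
      have e1 := ih h0' h1' (M + 1)
      have e2 := mul_nonneg ha0 (ih h0' h1' M)
      have : (-1 : ℝ) ^ (M + 1) * (bhPoly B (bhU (M + 1)) r + r a * -bhPoly B (bhU M) r -
          (1 - r a) * ∏ p ∈ B, (1 - r p)) =
          (-1) ^ (M + 1) * (bhPoly B (bhU (M + 1)) r - ∏ p ∈ B, (1 - r p)) +
            r a * ((-1) ^ M * (bhPoly B (bhU M) r - ∏ p ∈ B, (1 - r p))) := by ring
      rw [this]
      linarith

lemma bh_lower (B : Finset ℕ) (r : ℕ → ℝ) (h0 : ∀ p ∈ B, 0 ≤ r p) (h1 : ∀ p ∈ B, r p ≤ 1)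
    (M : ℕ) : ∏ p ∈ B, (1 - r p) ≤ bhPoly B (bhU (2 * M)) r := by
  have := bh_sign B r h0 h1 (2 * M)
  rw [pow_mul] at this
  norm_num at this
  linarith

lemma bh_upper (B : Finset ℕ) (r : ℕ → ℝ) (h0 : ∀ p ∈ B, 0 ≤ r p) (h1 : ∀ p ∈ B, r p ≤ 1)
    (M : ℕ) : bhPoly B (bhU (2 * M)) r ≤ ∏ p ∈ B, (1 - r p) + bhPoly B (bhE (2 * M + 1)) r := by
  have := bh_sign B r h0 h1 (2 * M + 1)
  rw [bh_U_step, pow_succ, pow_mul] at this
  norm_num at this
  linarith

lemma bh_E_nonneg (B : Finset ℕ) (r : ℕ → ℝ) (h0 : ∀ p ∈ B, 0 ≤ r p) (M : ℕ) :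
    0 ≤ bhPoly B (bhE M) r := by
  unfold bhPoly
  refine Finset.sum_nonneg fun S hS => mul_nonneg ?_
    (Finset.prod_nonneg fun p hp => h0 p (Finset.mem_powerset.mp hS hp))
  unfold bhE
  split_ifs <;> norm_num

lemma bh_E_le (B : Finset ℕ) (r : ℕ → ℝ) (h0 : ∀ p ∈ B, 0 ≤ r p) (M : ℕ) (L : ℝ)
    (hL : ∑ p ∈ B, r p ≤ L) : bhPoly B (bhE M) r ≤ Real.exp (3 * L - M) := by
  have he : Real.exp 1 ≤ 3 := by linarith [Real.exp_one_lt_d9]
  have h1 : Real.exp M * bhPoly B (bhE M) r ≤ ∏ p ∈ B, (1 + Real.exp 1 * r p) := by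
    rw [Finset.prod_one_add]
    unfold bhPoly
    rw [Finset.mul_sum]
    refine Finset.sum_le_sum fun S hS => ?_
    have hp : 0 ≤ ∏ p ∈ S, r p :=
      Finset.prod_nonneg fun p hp => h0 p (Finset.mem_powerset.mp hS hp)
    rw [Finset.prod_mul_distrib, Finset.prod_const, ← Real.exp_nat_mul, mul_one]
    unfold bhE
    split_ifs with h
    · rw [h, one_mul]
    · rw [zero_mul, mul_zero]; positivity
  have h2 : ∏ p ∈ B, (1 + Real.exp 1 * r p) ≤ Real.exp (3 * L) := by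
    calc ∏ p ∈ B, (1 + Real.exp 1 * r p) ≤ ∏ p ∈ B, Real.exp (3 * r p) := by
          refine Finset.prod_le_prod (fun p hp => ?_) fun p hp => ?_
          · have := h0 p hp
            positivity
          · have := Real.add_one_le_exp (3 * r p)
            nlinarith [h0 p hp]
      _ = Real.exp (3 * ∑ p ∈ B, r p) := by rw [Finset.mul_sum, Real.exp_sum]
      _ ≤ _ := Real.exp_le_exp.mpr (by linarith)
  rw [Real.exp_sub, le_div_iff₀ (Real.exp_pos _), mul_comm]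
  exact h1.trans h2

lemma bh_V_ge (B : Finset ℕ) (r : ℕ → ℝ) (h0 : ∀ p ∈ B, 0 ≤ r p) (h1 : ∀ p ∈ B, r p ≤ 1 / 2)
    (L : ℝ) (hL : ∑ p ∈ B, r p ≤ L) : Real.exp (-(2 * L)) ≤ ∏ p ∈ B, (1 - r p) := by
  calc Real.exp (-(2 * L)) ≤ Real.exp (∑ p ∈ B, -(2 * r p)) := by
        refine Real.exp_le_exp.mpr ?_
        rw [Finset.sum_neg_distrib, ← Finset.mul_sum]
        linarith
    _ = ∏ p ∈ B, Real.exp (-(2 * r p)) := Real.exp_sum _ _
    _ ≤ _ := by
        refine Finset.prod_le_prod (fun p _ => (Real.exp_pos _).le) fun p hp => ?_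
        have h2 := Real.add_one_le_exp (2 * r p)
        have h3 := h0 p hp
        have h4 := h1 p hp
        rw [Real.exp_neg, inv_le_comm₀ (Real.exp_pos _) (by linarith), inv_eq_one_div,
          div_le_iff₀ (by linarith)]
        nlinarith

lemma bh_prod_sub {ι : Type} [DecidableEq ι] (I : Finset ι) (x U E : ι → ℝ)
    (h0 : ∀ i ∈ I, 0 ≤ x i) (h1 : ∀ i ∈ I, x i ≤ U i) (h2 : ∀ i ∈ I, U i ≤ x i + E i) :
    ∏ i ∈ I, U i - ∏ i ∈ I, x i ≤ ∑ i ∈ I, E i * ∏ l ∈ I.erase i, U l := by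
  induction I using Finset.induction_on with
  | empty => simp
  | insert a I ha ih =>
    have h0' : ∀ i ∈ I, 0 ≤ x i := fun i hi => h0 i (Finset.mem_insert_of_mem hi)
    have h1' : ∀ i ∈ I, x i ≤ U i := fun i hi => h1 i (Finset.mem_insert_of_mem hi)
    have h2' : ∀ i ∈ I, U i ≤ x i + E i := fun i hi => h2 i (Finset.mem_insert_of_mem hi)
    have ih' := ih h0' h1' h2'
    have a0 := h0 a (Finset.mem_insert_self _ _)
    have a1 := h1 a (Finset.mem_insert_self _ _)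
    have a2 := h2 a (Finset.mem_insert_self _ _)
    have hU : 0 ≤ ∏ i ∈ I, U i := Finset.prod_nonneg fun i hi => (h0' i hi).trans (h1' i hi)
    have hle : ∏ i ∈ I, x i ≤ ∏ i ∈ I, U i := Finset.prod_le_prod h0' h1'
    rw [Finset.prod_insert ha, Finset.prod_insert ha, Finset.sum_insert ha,
      Finset.erase_insert ha]
    have : ∑ i ∈ I, E i * ∏ l ∈ (insert a I).erase i, U l =
        U a * ∑ i ∈ I, E i * ∏ l ∈ I.erase i, U l := by
      rw [Finset.mul_sum]
      refine Finset.sum_congr rfl fun i hi => ?_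
      have hne : a ≠ i := fun h => ha (h ▸ hi)
      rw [Finset.erase_insert_of_ne hne, Finset.prod_insert (fun h => ha (Finset.mem_of_mem_erase h))]
      ring
    rw [this]
    have e1 : (U a - x a) * ∏ i ∈ I, U i ≤ E a * ∏ i ∈ I, U i :=
      mul_le_mul_of_nonneg_right (by linarith) hU
    have e2 : x a * (∏ i ∈ I, U i - ∏ i ∈ I, x i) ≤
        U a * ∑ i ∈ I, E i * ∏ l ∈ I.erase i, U l :=
      mul_le_mul a1 ih' (by linarith) (by linarith)
    nlinarith

lemma bh_card_le (t : Finset (Finset ℕ)) (ht : ∀ S ∈ t, ∀ p ∈ S, p.Prime) (N : ℝ) (hN : 0 ≤ N)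
    (h : ∀ S ∈ t, ((∏ p ∈ S, p : ℕ) : ℝ) ≤ N) : (t.card : ℝ) ≤ N := by
  have h1 : t.card ≤ (Icc 1 ⌊N⌋₊).card := by
    refine Finset.card_le_card_of_injOn (fun S => ∏ p ∈ S, p) (fun S hS => ?_) ?_
    · have hS' : S ∈ t := hS
      simp only [Finset.coe_Icc, Set.mem_Icc]
      exact ⟨Finset.prod_pos fun p hp => (ht S hS' p hp).pos, Nat.le_floor (h S hS')⟩
    · intro S hS S' hS' e
      have e' : ∏ p ∈ S, p = ∏ p ∈ S', p := e
      rw [← Nat.primeFactors_prod (ht S hS), ← Nat.primeFactors_prod (ht S' hS'), e']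
  rw [Nat.card_Icc, Nat.add_sub_cancel] at h1
  exact le_trans (by exact_mod_cast h1) (Nat.floor_le hN)

lemma bh_poly_filter (B : Finset ℕ) (c : ℕ → ℝ) (M : ℕ) (hc : ∀ j, M < j → c j = 0)
    (r : ℕ → ℝ) :
    bhPoly B c r = ∑ S ∈ B.powerset.filter (fun S => S.card ≤ M), c S.card * ∏ p ∈ S, r p := by
  unfold bhPoly
  rw [Finset.sum_filter]
  refine Finset.sum_congr rfl fun S _ => ?_
  split_ifs with h
  · rfl
  · rw [hc _ (by omega), zero_mul]

/-- error bound for a product of block polynomials -/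
lemma bh_err {Ω ι : Type} [Fintype ι] [DecidableEq ι] (s : Finset Ω) (P : Finset ℕ)
    (hP : ∀ p ∈ P, p.Prime) (χ : Ω → ℕ → ℝ) (ρ : ℕ → ℝ) (B : ι → Finset ℕ)
    (hB : ∀ i, B i ⊆ P) (hd : ∀ i j, i ≠ j → Disjoint (B i) (B j)) (M : ι → ℕ) (N : ι → ℝ)
    (hN0 : ∀ i, 0 ≤ N i) (hN : ∀ i, ∀ S ⊆ B i, S.card ≤ M i → ((∏ p ∈ S, p : ℕ) : ℝ) ≤ N i)
    (Z : ℕ) (hZ : ∏ i, N i ≤ Z) (R : ℝ)
    (hR : ∀ S ⊆ P, ∏ p ∈ S, p ≤ Z →
      |(∑ x ∈ s, ∏ p ∈ S, χ x p) / s.card - ∏ p ∈ S, ρ p| ≤ R)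
    (c : ι → ℕ → ℝ) (hc1 : ∀ i j, |c i j| ≤ 1) (hc : ∀ i j, M i < j → c i j = 0) :
    |(∑ x ∈ s, ∏ i, bhPoly (B i) (c i) (χ x)) / s.card - ∏ i, bhPoly (B i) (c i) ρ| ≤ Z * R := by
  classical
  set t : ι → Finset (Finset ℕ) := fun i => (B i).powerset.filter (fun S => S.card ≤ M i) with ht
  have hR0 : 0 ≤ R := by
    have h1 : (1 : ℝ) ≤ ∏ i, N i := by
      refine Finset.one_le_prod fun i _ => ?_
      simpa using hN i ∅ (Finset.empty_subset _) (by simp)
    have h2 : 1 ≤ Z := by exact_mod_cast h1.trans hZ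
    exact (abs_nonneg _).trans (hR ∅ (Finset.empty_subset _) (by simpa using h2))
  have hsub : ∀ σ ∈ Fintype.piFinset t, ∀ i, σ i ⊆ B i ∧ (σ i).card ≤ M i := by
    intro σ hσ i
    have := Fintype.mem_piFinset.mp hσ i
    simpa [ht] using this
  have hdis : ∀ σ ∈ Fintype.piFinset t,
      Set.PairwiseDisjoint (↑(Finset.univ : Finset ι)) σ := by
    intro σ hσ i _ j _ hij
    exact Finset.disjoint_of_subset_left (hsub σ hσ i).1
      (Finset.disjoint_of_subset_right (hsub σ hσ j).1 (hd i j hij))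
  have hexp : ∀ r : ℕ → ℝ, ∏ i, bhPoly (B i) (c i) r =
      ∑ σ ∈ Fintype.piFinset t, (∏ i, c i (σ i).card) * ∏ p ∈ Finset.univ.biUnion σ, r p := by
    intro r
    simp_rw [fun i => bh_poly_filter (B i) (c i) (M i) (hc i) r]
    rw [Finset.prod_univ_sum]
    refine Finset.sum_congr rfl fun σ hσ => ?_
    rw [Finset.prod_mul_distrib, Finset.prod_biUnion (hdis σ hσ)]
  simp_rw [hexp]
  rw [Finset.sum_comm, Finset.sum_div, ← Finset.sum_sub_distrib]
  have hcard : ((Fintype.piFinset t).card : ℝ) ≤ Z := by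
    rw [Fintype.card_piFinset, Nat.cast_prod]
    refine le_trans (Finset.prod_le_prod (fun i _ => by positivity) fun i _ => ?_) hZ
    refine bh_card_le (t i) (fun S hS p hp => ?_) (N i) (hN0 i) fun S hS => ?_
    · have := Finset.mem_powerset.mp (Finset.mem_filter.mp hS).1
      exact hP p (hB i (this hp))
    · exact hN i S (Finset.mem_powerset.mp (Finset.mem_filter.mp hS).1) (Finset.mem_filter.mp hS).2
  refine (Finset.abs_sum_le_sum_abs _ _).trans ?_
  refine (Finset.sum_le_card_nsmul _ _ R fun σ hσ => ?_).trans ?_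
  · rw [← Finset.mul_sum, mul_div_assoc, ← mul_sub, abs_mul]
    have h1 : |∏ i, c i (σ i).card| ≤ 1 := by
      rw [Finset.abs_prod]
      exact Finset.prod_le_one (fun i _ => abs_nonneg _) fun i _ => hc1 _ _
    have h2 := hR (Finset.univ.biUnion σ)
      (Finset.biUnion_subset.mpr fun i _ => (hsub σ hσ i).1.trans (hB i)) (by
        rw [Finset.prod_biUnion (hdis σ hσ)]
        have : ((∏ i, ∏ p ∈ σ i, p : ℕ) : ℝ) ≤ Z := by
          rw [Nat.cast_prod]
          exact le_trans (Finset.prod_le_prod (fun i _ => by positivity)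
            fun i _ => hN i (σ i) (hsub σ hσ i).1 (hsub σ hσ i).2) hZ
        exact_mod_cast this)
    calc _ ≤ 1 * R := mul_le_mul h1 h2 (abs_nonneg _) zero_le_one
      _ = R := one_mul R
  · rw [nsmul_eq_mul]
    exact mul_le_mul_of_nonneg_right hcard hR0

lemma bh_sum_exp (m n : ℕ) :
    ∑ i ∈ range n, ((2 * (m + i) + 1 : ℕ) : ℝ) / 2 ^ i = 4 * m + 6 - (4 * m + 4 * n + 6) / 2 ^ n := by
  induction n with
  | zero => simp
  | succ n ih =>
    rw [Finset.sum_range_succ, ih]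
    push_cast
    field_simp
    ring

lemma bh_sum_geom (n : ℕ) : ∑ i ∈ range n, Real.exp (-(2 * (i : ℝ) + 1)) ≤ 1 := by
  have h : ∀ n : ℕ, ∑ i ∈ range n, (1 / 2 : ℝ) ^ (i + 1) = 1 - (1 / 2) ^ n := by
    intro n
    induction n with
    | zero => simp
    | succ n ih => rw [Finset.sum_range_succ, ih]; ring
  have h2 : ∀ i : ℕ, Real.exp (-(2 * (i : ℝ) + 1)) ≤ (1 / 2 : ℝ) ^ (i + 1) := by
    intro i
    have e1 : Real.exp (-1) ≤ 1 / 2 := by
      have := Real.add_one_le_exp 1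
      rw [Real.exp_neg, inv_eq_one_div]
      exact one_div_le_one_div_of_le (by norm_num) (by linarith)
    calc Real.exp (-(2 * (i : ℝ) + 1)) ≤ Real.exp (((i + 1 : ℕ) : ℝ) * (-1)) := by
          refine Real.exp_le_exp.mpr ?_
          push_cast
          have : (0 : ℝ) ≤ i := by positivity
          linarith
      _ = Real.exp (-1) ^ (i + 1) := Real.exp_nat_mul _ _
      _ ≤ _ := pow_le_pow_left₀ (Real.exp_pos _).le e1 _
  calc _ ≤ ∑ i ∈ range n, (1 / 2 : ℝ) ^ (i + 1) := Finset.sum_le_sum fun i _ => h2 i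
    _ ≤ 1 := by
      rw [h]
      have : (0 : ℝ) ≤ (1 / 2) ^ n := by positivity
      linarith

lemma bh_blk {p z : ℕ} (hp : p.Prime) (hz : p ≤ z) :
    (p : ℝ) ≤ Real.exp (Real.log z / 2 ^ Nat.log 2 (Nat.log p z)) := by
  have hz0 : z ≠ 0 := by have := hp.pos; omega
  have h1 : Nat.log p z ≠ 0 := (Nat.log_pos hp.one_lt hz).ne'
  have h2 : p ^ 2 ^ Nat.log 2 (Nat.log p z) ≤ z :=
    (Nat.pow_le_pow_right hp.pos (Nat.pow_log_le_self 2 h1)).trans (Nat.pow_log_le_self p hz0)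
  have hp0 : (0 : ℝ) < p := by exact_mod_cast hp.pos
  have h3 : (p : ℝ) ^ 2 ^ Nat.log 2 (Nat.log p z) ≤ z := by exact_mod_cast h2
  have h4 := Real.log_le_log (by positivity) h3
  rw [Real.log_pow] at h4
  push_cast at h4
  rw [← Real.log_le_iff_le_exp hp0, le_div_iff₀ (by positivity)]
  linarith

/-- the model side: the block sums are close to the products -/
lemma bh_model {ι : Type} [Fintype ι] [DecidableEq ι] (W U E e : ι → ℝ) (ε : ℝ)
    (hW : ∀ i, 0 ≤ W i) (h1 : ∀ i, W i ≤ U i) (h2 : ∀ i, U i ≤ W i + E i)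
    (he0 : ∀ i, 0 ≤ e i) (hE : ∀ i, E i ≤ e i * W i) (he : ∑ i, e i ≤ ε) (hε : ε ≤ 1) :
    ∏ i, U i ≤ ∏ i, W i + 3 * ε * ∏ i, W i ∧
      ∑ i, E i * ∏ l ∈ Finset.univ.erase i, U l ≤ 3 * ε * ∏ i, W i := by
  have hs0 : 0 ≤ ∑ i, e i := Finset.sum_nonneg fun i _ => he0 i
  have hε0 : 0 ≤ ε := hs0.trans he
  have hV : 0 ≤ ∏ i, W i := Finset.prod_nonneg fun i _ => hW i
  have hU : ∀ I : Finset ι, ∏ i ∈ I, U i ≤ Real.exp ε * ∏ i ∈ I, W i := by
    intro I
    calc ∏ i ∈ I, U i ≤ ∏ i ∈ I, ((1 + e i) * W i) :=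
          Finset.prod_le_prod (fun i _ => (hW i).trans (h1 i)) fun i _ => by
            linarith [h2 i, hE i]
      _ = (∏ i ∈ I, (1 + e i)) * ∏ i ∈ I, W i := Finset.prod_mul_distrib
      _ ≤ _ := by
          refine mul_le_mul_of_nonneg_right ?_ (Finset.prod_nonneg fun i _ => hW i)
          refine (Real.prod_one_add_le_exp_sum I he0).trans (Real.exp_le_exp.mpr ?_)
          exact le_trans (Finset.sum_le_sum_of_subset_of_nonneg (Finset.subset_univ I)
            fun i _ _ => he0 i) he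
  have hx : Real.exp ε ≤ 1 + 2 * ε := by
    have := Real.abs_exp_sub_one_le (x := ε) (by rw [abs_of_nonneg hε0]; exact hε)
    rw [abs_of_nonneg hε0] at this
    linarith [le_abs_self (Real.exp ε - 1)]
  constructor
  · have := hU Finset.univ
    nlinarith [mul_nonneg hε0 hV]
  · calc ∑ i, E i * ∏ l ∈ Finset.univ.erase i, U l ≤ ∑ i, e i * (3 * ∏ i, W i) := by
          refine Finset.sum_le_sum fun i _ => ?_
          have a1 : 0 ≤ ∏ l ∈ Finset.univ.erase i, U l :=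
            Finset.prod_nonneg fun l _ => (hW l).trans (h1 l)
          have a2 : 0 ≤ ∏ l ∈ Finset.univ.erase i, W l := Finset.prod_nonneg fun l _ => hW l
          have a3 : ∏ l ∈ Finset.univ.erase i, U l ≤ 3 * ∏ l ∈ Finset.univ.erase i, W l :=
            (hU _).trans (mul_le_mul_of_nonneg_right (by linarith) a2)
          rw [← Finset.mul_prod_erase Finset.univ W (Finset.mem_univ i)]
          calc E i * ∏ l ∈ Finset.univ.erase i, U l
              ≤ (e i * W i) * (3 * ∏ l ∈ Finset.univ.erase i, W l) :=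
                mul_le_mul (hE i) a3 a1 (mul_nonneg (he0 i) (hW i))
            _ = _ := by ring
      _ = (∑ i, e i) * (3 * ∏ i, W i) := by rw [Finset.sum_mul]
      _ ≤ ε * (3 * ∏ i, W i) := mul_le_mul_of_nonneg_right he (by positivity)
      _ = _ := by ring

lemma bh_abs_U (M j : ℕ) : |bhU M j| ≤ 1 := by
  unfold bhU
  split_ifs <;> simp

lemma bh_abs_E (M j : ℕ) : |bhE M j| ≤ 1 := by
  unfold bhE
  split_ifs <;> simp

/-- Brun-Hooley fundamental lemma. -/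
theorem brun_hooley {Ω : Type} (s : Finset Ω) (P : Finset ℕ) (hP : ∀ p ∈ P, p.Prime)
    (A : ℕ → Ω → Prop) [∀ p x, Decidable (A p x)] (ρ : ℕ → ℝ) (hρ0 : ∀ p ∈ P, 0 ≤ ρ p)
    (hρ : ∀ p ∈ P, ρ p ≤ 1 / 2) (z m : ℕ) (hz : ∀ p ∈ P, p ≤ z) (L R : ℝ)
    (hL : ∀ i, ∑ p ∈ P.filter (fun p => Nat.log 2 (Nat.log p z) = i), ρ p ≤ L)
    (hm : 5 * L ≤ m) (hz1 : 1 ≤ z)
    (hR : ∀ S ⊆ P, ∏ p ∈ S, p ≤ z ^ (4 * m + 6) →
      |((s.filter (fun x => ∀ p ∈ S, A p x)).card : ℝ) / s.card - ∏ p ∈ S, ρ p| ≤ R) :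
    |((s.filter (fun x => ∀ p ∈ P, ¬ A p x)).card : ℝ) / s.card - ∏ p ∈ P, (1 - ρ p)| ≤
      3 * Real.exp (-m) * ∏ p ∈ P, (1 - ρ p) + (z + 2) * (z : ℝ) ^ (4 * m + 6) * R := by
  classical
  -- blocks
  set B : Fin (z + 1) → Finset ℕ := fun i => P.filter (fun p => Nat.log 2 (Nat.log p z) = i)
    with hBdef
  have hB : ∀ i, B i ⊆ P := fun i => Finset.filter_subset _ _
  have hd : ∀ i j, i ≠ j → Disjoint (B i) (B j) := by
    intro i j hij
    rw [Finset.disjoint_left]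
    intro p hi hj
    exact hij (Fin.ext ((Finset.mem_filter.mp hi).2.symm.trans (Finset.mem_filter.mp hj).2))
  have hfac : ∀ f : ℕ → ℝ, ∏ p ∈ P, f p = ∏ i, ∏ p ∈ B i, f p := by
    intro f
    rw [← Finset.prod_fiberwise_of_maps_to (s := P) (t := range (z + 1))
      (g := fun p => Nat.log 2 (Nat.log p z)) (fun p _ => Finset.mem_range.mpr
        (Nat.lt_succ_of_le ((Nat.log_le_self _ _).trans (Nat.log_le_self _ _)))) f,
      Finset.prod_range]
  -- indicators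
  set χ : Ω → ℕ → ℝ := fun x p => if A p x then 1 else 0 with hχ
  have hχ0 : ∀ x p, 0 ≤ χ x p := fun x p => by simp only [hχ]; split_ifs <;> norm_num
  have hχ1 : ∀ x p, χ x p ≤ 1 := fun x p => by simp only [hχ]; split_ifs <;> norm_num
  have hc1 : ∀ S : Finset ℕ, ((s.filter (fun x => ∀ p ∈ S, A p x)).card : ℝ) =
      ∑ x ∈ s, ∏ p ∈ S, χ x p := by
    intro S
    rw [Finset.card_filter]
    push_cast
    refine Finset.sum_congr rfl fun x _ => ?_
    simp only [hχ]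
    rw [Finset.prod_ite_zero]
    simp
  have hc2 : ((s.filter (fun x => ∀ p ∈ P, ¬ A p x)).card : ℝ) =
      ∑ x ∈ s, ∏ i, ∏ p ∈ B i, (1 - χ x p) := by
    rw [Finset.card_filter]
    push_cast
    refine Finset.sum_congr rfl fun x _ => ?_
    rw [← hfac]
    have : ∀ p, 1 - χ x p = if ¬ A p x then 1 else 0 := by
      intro p
      simp only [hχ]
      by_cases h : A p x <;> simp [h]
    simp only [this]
    rw [Finset.prod_ite_zero]
    simp
  -- sizes
  have hz0 : (1 : ℝ) ≤ z := by exact_mod_cast hz1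
  have hlog : 0 ≤ Real.log z := Real.log_nonneg hz0
  set N : Fin (z + 1) → ℝ := fun i => Real.exp (Real.log z / 2 ^ (i : ℕ)) ^ (2 * (m + i) + 1)
    with hNdef
  have hN0 : ∀ i, 0 ≤ N i := fun i => by simp only [hNdef]; positivity
  have hN : ∀ i, ∀ S ⊆ B i, S.card ≤ 2 * (m + i) + 1 → ((∏ p ∈ S, p : ℕ) : ℝ) ≤ N i := by
    intro i S hS hc
    rw [Nat.cast_prod]
    have h1 : ∀ p ∈ S, (p : ℝ) ≤ Real.exp (Real.log z / 2 ^ (i : ℕ)) := by
      intro p hp
      obtain ⟨hpP, hpi⟩ := Finset.mem_filter.mp (hS hp)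
      rw [← hpi]
      exact bh_blk (hP p hpP) (hz p hpP)
    calc ∏ p ∈ S, (p : ℝ) ≤ ∏ _p ∈ S, Real.exp (Real.log z / 2 ^ (i : ℕ)) :=
          Finset.prod_le_prod (fun p _ => by positivity) h1
      _ = Real.exp (Real.log z / 2 ^ (i : ℕ)) ^ S.card := Finset.prod_const _
      _ ≤ _ := pow_le_pow_right₀ (Real.one_le_exp (by positivity)) hc
  have hZ : ∏ i, N i ≤ ((z ^ (4 * m + 6) : ℕ) : ℝ) := by
    have h1 : ∏ i, N i =
        Real.exp (Real.log z * ∑ i ∈ range (z + 1), ((2 * (m + i) + 1 : ℕ) : ℝ) / 2 ^ i) := by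
      rw [Finset.mul_sum, Real.exp_sum, Finset.prod_range]
      refine Finset.prod_congr rfl fun i _ => ?_
      simp only [hNdef]
      rw [← Real.exp_nat_mul]
      congr 1
      ring
    have h2 : ((z ^ (4 * m + 6) : ℕ) : ℝ) = Real.exp (Real.log z * (4 * m + 6)) := by
      rw [show Real.log z * (4 * m + 6) = ((4 * m + 6 : ℕ) : ℝ) * Real.log z by push_cast; ring,
        Real.exp_nat_mul, Real.exp_log (by linarith)]
      push_cast
      rfl
    rw [h1, h2, bh_sum_exp]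
    refine Real.exp_le_exp.mpr (mul_le_mul_of_nonneg_left ?_ hlog)
    have : (0 : ℝ) ≤ (4 * m + 4 * ((z + 1 : ℕ) : ℝ) + 6) / 2 ^ (z + 1) := by positivity
    linarith
  have herr := bh_err s P hP χ ρ B hB hd (fun i => 2 * (m + i) + 1) N hN0 hN (z ^ (4 * m + 6)) hZ
    R (fun S hS h => by rw [← hc1]; exact hR S hS h)
  set Z : ℝ := ((z ^ (4 * m + 6) : ℕ) : ℝ) with hZdef
  have hZe : (z : ℝ) ^ (4 * m + 6) = Z := by rw [hZdef]; push_cast; rfl
  have hU := herr (fun i => bhU (2 * (m + i))) (fun i j => bh_abs_U _ _) (fun i j h => by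
    unfold bhU; rw [if_neg (by omega)])
  have hZR : 0 ≤ Z * R := (abs_nonneg _).trans hU
  have hE : ∀ i : Fin (z + 1), |(∑ x ∈ s, bhPoly (B i) (bhE (2 * (m + i) + 1)) (χ x) *
      ∏ l ∈ Finset.univ.erase i, bhPoly (B l) (bhU (2 * (m + l))) (χ x)) / s.card -
      bhPoly (B i) (bhE (2 * (m + i) + 1)) ρ *
        ∏ l ∈ Finset.univ.erase i, bhPoly (B l) (bhU (2 * (m + l))) ρ| ≤ Z * R := by
    intro i
    have h := herr (fun l => if l = i then bhE (2 * (m + i) + 1) else bhU (2 * (m + l)))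
      (fun l j => by
        split_ifs
        · exact bh_abs_E _ _
        · exact bh_abs_U _ _)
      (fun l j h => by
        split_ifs with h'
        · subst h'
          unfold bhE; rw [if_neg (by omega)]
        · unfold bhU; rw [if_neg (by omega)])
    have e : ∀ r : ℕ → ℝ, ∏ l, bhPoly (B l)
        (if l = i then bhE (2 * (m + i) + 1) else bhU (2 * (m + l))) r =
        bhPoly (B i) (bhE (2 * (m + i) + 1)) r *
          ∏ l ∈ Finset.univ.erase i, bhPoly (B l) (bhU (2 * (m + l))) r := by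
      intro r
      rw [← Finset.mul_prod_erase Finset.univ _ (Finset.mem_univ i), if_pos rfl]
      congr 1
      exact Finset.prod_congr rfl fun l hl => by rw [if_neg (Finset.ne_of_mem_erase hl)]
    simpa only [e] using h
  -- model values
  have hρ0' : ∀ i, ∀ p ∈ B i, 0 ≤ ρ p := fun i p hp => hρ0 p (hB i hp)
  have hρ1' : ∀ i, ∀ p ∈ B i, ρ p ≤ 1 := fun i p hp => by linarith [hρ p (hB i hp)]
  have hm0 : (0 : ℝ) ≤ m := by positivity
  have hmod := bh_model (fun i => ∏ p ∈ B i, (1 - ρ p))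
    (fun i => bhPoly (B i) (bhU (2 * (m + i))) ρ) (fun i => bhPoly (B i) (bhE (2 * (m + i) + 1)) ρ)
    (fun i => Real.exp (-m) * Real.exp (-(2 * ((i : ℕ) : ℝ) + 1))) (Real.exp (-m))
    (fun i => Finset.prod_nonneg fun p hp => by linarith [hρ1' i p hp])
    (fun i => bh_lower _ _ (hρ0' i) (hρ1' i) _) (fun i => bh_upper _ _ (hρ0' i) (hρ1' i) _)
    (fun i => by positivity)
    (fun i => by
      have a1 := bh_E_le (B i) ρ (hρ0' i) (2 * (m + i) + 1) L (hL i)
      have a2 := bh_V_ge (B i) ρ (hρ0' i) (fun p hp => hρ p (hB i hp)) L (hL i)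
      refine a1.trans (le_trans ?_ (mul_le_mul_of_nonneg_left a2 (by positivity)))
      rw [← Real.exp_add, ← Real.exp_add]
      refine Real.exp_le_exp.mpr ?_
      push_cast
      linarith)
    (by
      rw [← Finset.mul_sum, ← Finset.sum_range (fun i => Real.exp (-(2 * (i : ℝ) + 1)))]
      exact mul_le_of_le_one_right (Real.exp_pos _).le (bh_sum_geom _))
    (Real.exp_le_one_iff.mpr (by linarith))
  obtain ⟨hm1, hm2⟩ := hmod
  have hm3 : ∏ i, ∏ p ∈ B i, (1 - ρ p) ≤ ∏ i, bhPoly (B i) (bhU (2 * (m + i))) ρ :=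
    Finset.prod_le_prod (fun i _ => Finset.prod_nonneg fun p hp => by linarith [hρ1' i p hp])
      fun i _ => bh_lower _ _ (hρ0' i) (hρ1' i) _
  -- pointwise bounds
  have hs0 : (0 : ℝ) ≤ s.card := by positivity
  have hx0 : ∀ x i, 0 ≤ ∏ p ∈ B i, (1 - χ x p) := fun x i =>
    Finset.prod_nonneg fun p _ => by linarith [hχ1 x p]
  have hup : (∑ x ∈ s, ∏ i, ∏ p ∈ B i, (1 - χ x p)) / s.card ≤
      (∑ x ∈ s, ∏ i, bhPoly (B i) (bhU (2 * (m + i))) (χ x)) / s.card := by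
    refine div_le_div_of_nonneg_right (Finset.sum_le_sum fun x _ => ?_) hs0
    exact Finset.prod_le_prod (fun i _ => hx0 x i)
      fun i _ => bh_lower _ _ (fun p _ => hχ0 x p) (fun p _ => hχ1 x p) _
  have hlo : (∑ x ∈ s, ∏ i, bhPoly (B i) (bhU (2 * (m + i))) (χ x)) / s.card -
      (∑ x ∈ s, ∏ i, ∏ p ∈ B i, (1 - χ x p)) / s.card ≤
      ∑ i, (∑ x ∈ s, bhPoly (B i) (bhE (2 * (m + i) + 1)) (χ x) *
        ∏ l ∈ Finset.univ.erase i, bhPoly (B l) (bhU (2 * (m + l))) (χ x)) / s.card := by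
    rw [← Finset.sum_div, ← sub_div, ← Finset.sum_sub_distrib, Finset.sum_comm]
    refine div_le_div_of_nonneg_right (Finset.sum_le_sum fun x _ => ?_) hs0
    exact bh_prod_sub Finset.univ (fun i => ∏ p ∈ B i, (1 - χ x p))
      (fun i => bhPoly (B i) (bhU (2 * (m + i))) (χ x))
      (fun i => bhPoly (B i) (bhE (2 * (m + i) + 1)) (χ x)) (fun i _ => hx0 x i)
      (fun i _ => bh_lower _ _ (fun p _ => hχ0 x p) (fun p _ => hχ1 x p) _)
      (fun i _ => bh_upper _ _ (fun p _ => hχ0 x p) (fun p _ => hχ1 x p) _)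
  have hsum : ∑ i, (∑ x ∈ s, bhPoly (B i) (bhE (2 * (m + i) + 1)) (χ x) *
        ∏ l ∈ Finset.univ.erase i, bhPoly (B l) (bhU (2 * (m + l))) (χ x)) / s.card ≤
      ∑ i, bhPoly (B i) (bhE (2 * (m + i) + 1)) ρ *
        ∏ l ∈ Finset.univ.erase i, bhPoly (B l) (bhU (2 * (m + l))) ρ + (z + 1) * (Z * R) := by
    have : ((z : ℝ) + 1) * (Z * R) = ∑ _i : Fin (z + 1), Z * R := by
      simp
    rw [this, ← Finset.sum_add_distrib]
    refine Finset.sum_le_sum fun i _ => ?_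
    linarith [(abs_le.mp (hE i)).2]
  rw [hc2, hfac, hZe]
  obtain ⟨hU1, hU2⟩ := abs_le.mp hU
  have hzz : 0 ≤ ((z : ℝ) + 1) * (Z * R) := by positivity
  rw [abs_le]
  constructor
  · nlinarith
  · nlinarith

end Pool.Agent.Lib.MP_458f0b_nt.Pois
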