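import Pool.Agent.Lib.MP_458f0b_nt.Pois.Defs

open Finset Filter Topology

namespace Pool.Agent.Lib.MP_458f0b_nt.Pois

variable {U : Type} [Fintype U] [DecidableEq U]

lemma box_mem {T : ℕ} {t : U → ℤ} :
    t ∈ Fintype.piFinset (fun _ : U => Ico (0 : ℤ) T) ↔ ∀ v, 0 ≤ t v ∧ t v < T := by
  simp only [Fintype.mem_piFinset, Finset.mem_Ico]

lemma box_card (T : ℕ) :
    (Fintype.piFinset (fun _ : U => Ico (0 : ℤ) T)).card = T ^ Fintype.card U := by
  simp [Fintype.card_piFinset]

lemma boxAv_const {T : ℕ} (hT : 0 < T) (c : ℝ) : boxAv T (fun _ : U → ℤ => c) = c := by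
  have h : ((T : ℝ) ^ Fintype.card U) ≠ 0 := by positivity
  rw [boxAv, Finset.sum_const, box_card, nsmul_eq_mul, Nat.cast_pow, mul_div_cancel_left₀ _ h]

lemma boxAv_add (T : ℕ) (F G : (U → ℤ) → ℝ) :
    boxAv T (fun t => F t + G t) = boxAv T F + boxAv T G := by
  simp only [boxAv, Finset.sum_add_distrib, add_div]

lemma boxAv_sub (T : ℕ) (F G : (U → ℤ) → ℝ) :
    boxAv T (fun t => F t - G t) = boxAv T F - boxAv T G := by
  simp only [boxAv, Finset.sum_sub_distrib, sub_div]

lemma boxAv_mul (T : ℕ) (c : ℝ) (F : (U → ℤ) → ℝ) :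
    boxAv T (fun t => c * F t) = c * boxAv T F := by
  simp only [boxAv, ← Finset.mul_sum, mul_div_assoc]

lemma boxAv_sum {β : Type} (T : ℕ) (s : Finset β) (F : β → (U → ℤ) → ℝ) :
    boxAv T (fun t => ∑ b ∈ s, F b t) = ∑ b ∈ s, boxAv T (F b) := by
  simp only [boxAv]
  rw [Finset.sum_comm, Finset.sum_div]

lemma boxAv_congr (T : ℕ) {F G : (U → ℤ) → ℝ}
    (h : ∀ t : U → ℤ, (∀ v, 0 ≤ t v ∧ t v < T) → F t = G t) : boxAv T F = boxAv T G := by
  unfold boxAv
  rw [Finset.sum_congr rfl fun t ht => h t (box_mem.1 ht)]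

lemma boxAv_mono (T : ℕ) {F G : (U → ℤ) → ℝ}
    (h : ∀ t : U → ℤ, (∀ v, 0 ≤ t v ∧ t v < T) → F t ≤ G t) : boxAv T F ≤ boxAv T G :=
  div_le_div_of_nonneg_right (Finset.sum_le_sum fun t ht => h t (box_mem.1 ht)) (by positivity)

lemma abs_boxAv_le (T : ℕ) (F : (U → ℤ) → ℝ) : |boxAv T F| ≤ boxAv T (fun t => |F t|) := by
  unfold boxAv
  rw [abs_div, abs_of_nonneg (show (0 : ℝ) ≤ (T : ℝ) ^ Fintype.card U by positivity)]
  exact div_le_div_of_nonneg_right (Finset.abs_sum_le_sum_abs _ _) (by positivity)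

lemma box_update {T : ℕ} {x : U → ℤ} (hx : x ∈ Fintype.piFinset (fun _ : U => Ico (0 : ℤ) T))
    (v : U) {y : ℤ} (hy : y ∈ Ico (0 : ℤ) T) :
    Function.update x v y ∈ Fintype.piFinset (fun _ : U => Ico (0 : ℤ) T) := by
  rw [Fintype.mem_piFinset] at hx ⊢
  intro u
  by_cases h : u = v
  · rw [h, Function.update_self]; exact hy
  · rw [Function.update_of_ne h]; exact hx u

/-- resampling one coordinate -/
lemma box_resample {T : ℕ} (hT : 0 < T) (v : U) (G : (U → ℤ) → ℝ) :
    boxAv T G = boxAv T (fun x => (∑ y ∈ Ico (0 : ℤ) T, G (Function.update x v y)) / T) := by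
  have hT' : (T : ℝ) ≠ 0 := by positivity
  have key : ∑ x ∈ Fintype.piFinset (fun _ : U => Ico (0 : ℤ) T), ∑ y ∈ Ico (0 : ℤ) T,
      G (Function.update x v y) =
      ∑ x ∈ Fintype.piFinset (fun _ : U => Ico (0 : ℤ) T), ∑ _y ∈ Ico (0 : ℤ) T, G x := by
    rw [← Finset.sum_product', ← Finset.sum_product']
    refine Finset.sum_nbij' (fun p => (Function.update p.1 v p.2, p.1 v))
      (fun p => (Function.update p.1 v p.2, p.1 v)) (fun p hp => ?_) (fun p hp => ?_)
      (fun p _ => ?_) (fun p _ => ?_) fun p _ => rfl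
    · rw [Finset.mem_product] at hp ⊢
      exact ⟨box_update hp.1 v hp.2, Fintype.mem_piFinset.1 hp.1 v⟩
    · rw [Finset.mem_product] at hp ⊢
      exact ⟨box_update hp.1 v hp.2, Fintype.mem_piFinset.1 hp.1 v⟩
    · simp
    · simp
  unfold boxAv
  rw [← Finset.sum_div, key]
  simp only [Finset.sum_const, Int.card_Ico, sub_zero, Int.toNat_natCast, nsmul_eq_mul,
    ← Finset.mul_sum]
  rw [mul_div_cancel_left₀ _ hT']

lemma box_fibre {R : Type} [Fintype R] [DecidableEq R] {T : ℕ} (e : R → U)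
    (he : Function.Injective e) {y : R → ℤ}
    (hy : y ∈ Fintype.piFinset (fun _ : R => Ico (0 : ℤ) T)) :
    ((Fintype.piFinset (fun _ : U => Ico (0 : ℤ) T)).filter
      (fun x => (fun l => x (e l)) = y)).card = T ^ (Fintype.card U - Fintype.card R) := by
  have e1 : (Fintype.piFinset (fun _ : U => Ico (0 : ℤ) T)).filter
      (fun x => (fun l => x (e l)) = y) =
      Fintype.piFinset (fun u : U => (Ico (0 : ℤ) T).filter fun a => ∀ l, e l = u → a = y l) := by
    ext x
    simp only [Finset.mem_filter, Fintype.mem_piFinset, funext_iff]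
    constructor
    · rintro ⟨h1, h2⟩ u
      exact ⟨h1 u, fun l hl => by rw [← hl, h2]⟩
    · intro h
      exact ⟨fun u => (h u).1, fun l => (h (e l)).2 l rfl⟩
  have e2 : ∀ u : U, ((Ico (0 : ℤ) T).filter fun a => ∀ l, e l = u → a = y l).card =
      if u ∈ (Finset.univ.image e)ᶜ then T else 1 := by
    intro u
    split_ifs with hu
    · rw [Finset.filter_true_of_mem]
      · simp
      · intro a _ l hl
        exact absurd (Finset.mem_image.2 ⟨l, Finset.mem_univ _, hl⟩) (Finset.mem_compl.1 hu)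
    · obtain ⟨l, -, rfl⟩ := Finset.mem_image.1 (not_not.1 (mt Finset.mem_compl.2 hu))
      refine Finset.card_eq_one.2 ⟨y l, ?_⟩
      ext a
      simp only [Finset.mem_filter, Finset.mem_singleton]
      constructor
      · exact fun h => h.2 l rfl
      · rintro rfl
        exact ⟨Fintype.mem_piFinset.1 hy l, fun l' hl => by rw [he hl]⟩
  rw [e1, Fintype.card_piFinset, Finset.prod_congr rfl fun u _ => e2 u, Finset.prod_ite_mem,
    Finset.univ_inter, Finset.prod_const, Finset.card_compl,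
    Finset.card_image_of_injective _ he, Finset.card_univ]

/-- marginalisation -/
lemma box_comp_inj {R : Type} [Fintype R] [DecidableEq R] {T : ℕ} (hT : 0 < T) (e : R → U)
    (he : Function.Injective e) (G : (R → ℤ) → ℝ) :
    boxAv T (fun x : U → ℤ => G (fun l => x (e l))) = boxAv T G := by
  have hT' : (T : ℝ) ≠ 0 := by positivity
  have hle : Fintype.card R ≤ Fintype.card U := Fintype.card_le_of_injective e he
  have key : ∑ x ∈ Fintype.piFinset (fun _ : U => Ico (0 : ℤ) T), G (fun l => x (e l)) =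
      ∑ y ∈ Fintype.piFinset (fun _ : R => Ico (0 : ℤ) T),
        (T : ℝ) ^ (Fintype.card U - Fintype.card R) * G y := by
    rw [← Finset.sum_fiberwise_of_maps_to (t := Fintype.piFinset (fun _ : R => Ico (0 : ℤ) T))
      (g := fun (x : U → ℤ) l => x (e l))
      fun x hx => Fintype.mem_piFinset.2 fun l => Fintype.mem_piFinset.1 hx (e l)]
    refine Finset.sum_congr rfl fun y hy => ?_
    rw [Finset.sum_congr rfl fun x hx => congrArg G (Finset.mem_filter.1 hx).2, Finset.sum_const,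
      box_fibre e he hy, nsmul_eq_mul, Nat.cast_pow]
  unfold boxAv
  rw [key, ← Finset.mul_sum, ← Nat.sub_add_cancel hle, pow_add, Nat.add_sub_cancel,
    mul_div_mul_left _ _ (pow_ne_zero _ hT')]

/-- weighted Cauchy-Schwarz -/
lemma box_cs (T : ℕ) (M Γ Z : (U → ℤ) → ℝ) (h : ∀ x, |Γ x| ≤ M x) :
    boxAv T (fun x => Γ x * Z x) ^ 2 ≤ boxAv T M * boxAv T (fun x => M x * Z x ^ 2) := by
  have hM : ∀ x, 0 ≤ M x := fun x => (abs_nonneg _).trans (h x)
  unfold boxAv
  rw [div_pow, div_mul_div_comm, ← sq]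
  refine div_le_div_of_nonneg_right ?_ (by positivity)
  refine Finset.sum_sq_le_sum_mul_sum_of_sq_le_mul _ (fun x _ => hM x)
    (fun x _ => mul_nonneg (hM x) (sq_nonneg _)) fun x _ => ?_
  rw [mul_pow, ← mul_assoc, ← sq, ← sq_abs (Γ x)]
  exact mul_le_mul_of_nonneg_right (pow_le_pow_left₀ (abs_nonneg _) (h x) 2) (sq_nonneg _)

end Pool.Agent.Lib.MP_458f0b_nt.Pois
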