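import Pool.Agent.Lib.MP_458f0b_nt.Pois.Box

open Finset Filter Topology

namespace Pool.Agent.Lib.MP_458f0b_nt.Pois

variable {U : Type} [Fintype U] [DecidableEq U]

lemma boxper_mem {T : ℕ} {t : U → ℤ} :
    t ∈ Fintype.piFinset (fun _ : U => Ico (0 : ℤ) T) ↔ ∀ v, 0 ≤ t v ∧ t v < T := by
  simp [Fintype.mem_piFinset]

lemma boxper_card (T : ℕ) :
    (Fintype.piFinset (fun _ : U => Ico (0 : ℤ) T)).card = T ^ Fintype.card U := by
  simp [Fintype.card_piFinset]

/-- an affine change of variables with unit slope permutes the residues -/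
lemma boxper_shift {e : ℕ} (he : 0 < e) {G : (U → ℤ) → ℝ} (hG : Per e G) (a : ℤ)
    (ha : IsCoprime (e : ℤ) a) (s : U → ℤ) :
    ∑ j ∈ Fintype.piFinset (fun _ : U => Ico (0 : ℤ) e), G (fun v => s v + a * j v) =
      ∑ j ∈ Fintype.piFinset (fun _ : U => Ico (0 : ℤ) e), G j := by
  have he' : (0 : ℤ) < e := by exact_mod_cast he
  have hmaps : ∀ j ∈ Fintype.piFinset (fun _ : U => Ico (0 : ℤ) e),
      (fun v => (s v + a * j v) % e) ∈ Fintype.piFinset (fun _ : U => Ico (0 : ℤ) e) := by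
    intro j _
    exact boxper_mem.mpr fun v => ⟨Int.emod_nonneg _ he'.ne', Int.emod_lt_of_pos _ he'⟩
  have hinj : ∀ j ∈ Fintype.piFinset (fun _ : U => Ico (0 : ℤ) e),
      ∀ j' ∈ Fintype.piFinset (fun _ : U => Ico (0 : ℤ) e),
      (fun v => (s v + a * j v) % e) = (fun v => (s v + a * j' v) % e) → j = j' := by
    intro j hj j' hj' h
    funext v
    have h1 : (s v + a * j v) % e = (s v + a * j' v) % e := congrFun h v
    have h2 : (e : ℤ) ∣ a * (j' v - j v) := by
      have := (Int.emod_emod_of_dvd (s v + a * j v) (dvd_refl (e : ℤ)))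
      have h3 : (e : ℤ) ∣ (s v + a * j' v) - (s v + a * j v) := Int.ModEq.dvd h1
      have h4 : (s v + a * j' v) - (s v + a * j v) = a * (j' v - j v) := by ring
      rwa [h4] at h3
    have h3 : (e : ℤ) ∣ j' v - j v := ha.dvd_of_dvd_mul_left h2
    obtain ⟨hj0, hj1⟩ := boxper_mem.mp hj v
    obtain ⟨hj0', hj1'⟩ := boxper_mem.mp hj' v
    have := Int.eq_zero_of_abs_lt_dvd h3 (abs_lt.mpr ⟨by linarith, by linarith⟩)
    linarith
  refine Finset.sum_bij (fun j _ => fun v => (s v + a * j v) % e) hmaps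
    (fun j hj j' hj' h => hinj j hj j' hj' h) ?_ ?_
  · intro b hb
    obtain ⟨j, hj, h⟩ := Finset.surj_on_of_inj_on_of_card_le
      (fun j _ => fun v => (s v + a * j v) % e) hmaps
      (fun j j' hj hj' h => hinj j hj j' hj' h) le_rfl b hb
    exact ⟨j, hj, h.symm⟩
  · intro j _
    refine hG _ _ fun v => ?_
    exact Int.dvd_self_sub_emod

/-- splitting a box of side `a * b` -/
lemma boxper_split {a : ℕ} (ha : 0 < a) (b : ℕ) (F : (U → ℤ) → ℝ) :
    ∑ t ∈ Fintype.piFinset (fun _ : U => Ico (0 : ℤ) ((a * b : ℕ) : ℤ)), F t =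
      ∑ s ∈ Fintype.piFinset (fun _ : U => Ico (0 : ℤ) a),
        ∑ j ∈ Fintype.piFinset (fun _ : U => Ico (0 : ℤ) b), F (fun v => s v + a * j v) := by
  have ha' : (0 : ℤ) < a := by exact_mod_cast ha
  rw [← Finset.sum_product']
  refine Finset.sum_nbij' (fun t => (fun v => t v % a, fun v => t v / a))
    (fun p => fun v => p.1 v + a * p.2 v) ?_ ?_ ?_ ?_ ?_
  · intro t ht
    have ht' := boxper_mem.mp ht
    refine Finset.mem_product.mpr ⟨boxper_mem.mpr fun v => ?_, boxper_mem.mpr fun v => ?_⟩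
    · exact ⟨Int.emod_nonneg _ ha'.ne', Int.emod_lt_of_pos _ ha'⟩
    · refine ⟨Int.ediv_nonneg (ht' v).1 ha'.le, ?_⟩
      have h := (ht' v).2
      push_cast at h
      exact Int.ediv_lt_of_lt_mul ha' (by linarith)
  · intro p hp
    obtain ⟨h1, h2⟩ := Finset.mem_product.mp hp
    have h1' := boxper_mem.mp h1
    have h2' := boxper_mem.mp h2
    refine boxper_mem.mpr fun v => ?_
    obtain ⟨x0, x1⟩ := h1' v
    obtain ⟨y0, y1⟩ := h2' v
    push_cast
    constructor
    · positivity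
    · have : (a : ℤ) * (p.2 v + 1) ≤ a * b := mul_le_mul_of_nonneg_left (by linarith) ha'.le
      linarith
  · intro t _
    funext v
    exact Int.emod_add_mul_ediv _ _
  · intro p hp
    obtain ⟨h1, _⟩ := Finset.mem_product.mp hp
    have h1' := boxper_mem.mp h1
    ext v
    · obtain ⟨x0, x1⟩ := h1' v
      simp only
      rw [Int.add_mul_emod_self_left, Int.emod_eq_of_lt x0 x1]
    · obtain ⟨x0, x1⟩ := h1' v
      simp only
      rw [Int.add_mul_ediv_left _ _ ha'.ne', Int.ediv_eq_zero_of_lt x0 x1, zero_add]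
  · intro t _
    congr 1
    funext v
    exact (Int.emod_add_mul_ediv _ _).symm

lemma box_per {e T : ℕ} (he : 0 < e) (hT : 0 < T) {G : (U → ℤ) → ℝ} (hG : Per e G)
    (h1 : ∀ t, |G t| ≤ 1) : |boxAv T G - boxAv e G| ≤ 2 * Fintype.card U * e / T := by
  have hTr : (0 : ℝ) < T := by exact_mod_cast hT
  have her : (0 : ℝ) < e := by exact_mod_cast he
  set k := Fintype.card U with hk
  set A := boxAv e G with hA
  have hA1 : |A| ≤ 1 := by
    refine (abs_boxAv_le e G).trans ?_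
    calc boxAv e (fun t => |G t|) ≤ boxAv e (fun _ : U → ℤ => (1 : ℝ)) :=
          boxAv_mono e fun t _ => h1 t
      _ = 1 := boxAv_const he 1
  set q := T / e with hq
  have hqT : e * q ≤ T := Nat.mul_div_le T e
  have hqT' : T < e * q + e := by
    have := Nat.div_add_mod T e
    have h2 := Nat.mod_lt T he
    rw [← hq] at this
    omega
  have hsub : Fintype.piFinset (fun _ : U => Ico (0 : ℤ) ((e * q : ℕ) : ℤ)) ⊆
      Fintype.piFinset (fun _ : U => Ico (0 : ℤ) T) := by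
    intro t ht
    refine boxper_mem.mpr fun v => ?_
    obtain ⟨x0, x1⟩ := boxper_mem.mp ht v
    have : ((e * q : ℕ) : ℤ) ≤ T := by exact_mod_cast hqT
    exact ⟨x0, by linarith⟩
  have hinner : ∑ t ∈ Fintype.piFinset (fun _ : U => Ico (0 : ℤ) ((e * q : ℕ) : ℤ)), (G t - A) = 0 := by
    rw [boxper_split he q, Finset.sum_comm]
    refine Finset.sum_eq_zero fun j _ => ?_
    have : ∀ s : U → ℤ, G (fun v => s v + e * j v) = G s := fun s =>
      hG _ _ fun v => ⟨j v, by ring⟩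
    simp only [this]
    rw [Finset.sum_sub_distrib, Finset.sum_const, boxper_card, nsmul_eq_mul, hA]
    unfold boxAv
    have : (e : ℝ) ^ Fintype.card U ≠ 0 := by positivity
    push_cast
    field_simp
    ring
  have hdiff : boxAv T G - A = (∑ t ∈ Fintype.piFinset (fun _ : U => Ico (0 : ℤ) T) \
      Fintype.piFinset (fun _ : U => Ico (0 : ℤ) ((e * q : ℕ) : ℤ)), (G t - A)) / (T : ℝ) ^ k := by
    have h2 := Finset.sum_sdiff (f := fun t => G t - A) hsub
    rw [hinner, add_zero] at h2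
    rw [h2, Finset.sum_sub_distrib, Finset.sum_const, boxper_card, nsmul_eq_mul]
    unfold boxAv
    have : (T : ℝ) ^ Fintype.card U ≠ 0 := by positivity
    push_cast
    rw [hk]
    field_simp
  have hcard : ((Fintype.piFinset (fun _ : U => Ico (0 : ℤ) T) \
      Fintype.piFinset (fun _ : U => Ico (0 : ℤ) ((e * q : ℕ) : ℤ))).card : ℝ) =
      (T : ℝ) ^ k - ((e * q : ℕ) : ℝ) ^ k := by
    have h2 := Finset.card_sdiff_add_card_eq_card hsub
    rw [boxper_card, boxper_card] at h2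
    have h3 := congrArg (Nat.cast : ℕ → ℝ) h2
    rw [Nat.cast_add, Nat.cast_pow, Nat.cast_pow] at h3
    linarith
  have hpow : (T : ℝ) ^ k - ((e * q : ℕ) : ℝ) ^ k ≤ e * k * (T : ℝ) ^ (k - 1) := by
    have h2 := abs_pow_sub_pow_le (T : ℝ) ((e * q : ℕ) : ℝ) k
    have h3 : ((e * q : ℕ) : ℝ) ≤ T := by exact_mod_cast hqT
    have h4 : (T : ℝ) < ((e * q : ℕ) : ℝ) + e := by exact_mod_cast hqT'
    have h5 : (0 : ℝ) ≤ ((e * q : ℕ) : ℝ) := Nat.cast_nonneg _
    rw [abs_of_nonneg hTr.le, abs_of_nonneg h5, max_eq_left h3,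
      abs_of_nonneg (sub_nonneg.mpr h3)] at h2
    refine (le_abs_self _).trans (h2.trans ?_)
    have h6 : (T : ℝ) - ((e * q : ℕ) : ℝ) ≤ e := by linarith
    gcongr
  have hsum : |∑ t ∈ Fintype.piFinset (fun _ : U => Ico (0 : ℤ) T) \
      Fintype.piFinset (fun _ : U => Ico (0 : ℤ) ((e * q : ℕ) : ℤ)), (G t - A)| ≤
      2 * (e * k * (T : ℝ) ^ (k - 1)) := by
    refine (Finset.abs_sum_le_sum_abs _ _).trans ?_
    refine (Finset.sum_le_card_nsmul _ _ 2 fun t _ => ?_).trans ?_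
    · have := h1 t
      have h3 := abs_sub (G t) A
      linarith
    · rw [nsmul_eq_mul, hcard]
      linarith
  rw [hdiff, abs_div, abs_of_pos (pow_pos hTr k), div_le_div_iff₀ (pow_pos hTr k) hTr]
  have hk' : (k : ℝ) * (T : ℝ) ^ (k - 1) * T = k * (T : ℝ) ^ k := by
    rcases Nat.eq_zero_or_pos k with h | h
    · simp [h]
    · obtain ⟨m, hm⟩ : ∃ m, k = m + 1 := ⟨k - 1, by omega⟩
      rw [hm, Nat.add_sub_cancel, pow_succ]
      ring
  calc _ ≤ 2 * (e * k * (T : ℝ) ^ (k - 1)) * T := mul_le_mul_of_nonneg_right hsum hTr.le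
    _ = 2 * e * ((k : ℝ) * (T : ℝ) ^ (k - 1) * T) := by ring
    _ = _ := by rw [hk']; ring

lemma boxper_two {a b : ℕ} (ha : 0 < a) (hb : 0 < b) (hab : Nat.Coprime a b)
    {G H : (U → ℤ) → ℝ} (hG : Per a G) (hH : Per b H) :
    boxAv (a * b) (fun t => G t * H t) = boxAv a G * boxAv b H := by
  unfold boxAv
  rw [boxper_split ha b]
  have h1 : ∀ s j : U → ℤ, G (fun v => s v + a * j v) = G s := fun s j =>
    hG _ _ fun v => ⟨j v, by ring⟩
  have hc : IsCoprime (b : ℤ) (a : ℤ) := Nat.isCoprime_iff_coprime.mpr hab.symm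
  simp only [h1, ← Finset.mul_sum, boxper_shift hb hH a hc, ← Finset.sum_mul]
  push_cast
  rw [mul_pow, mul_div_mul_comm]

lemma box_crt (S : Finset ℕ) (hS : ∀ p ∈ S, p.Prime) (G : ℕ → (U → ℤ) → ℝ)
    (hG : ∀ p ∈ S, Per p (G p)) :
    boxAv (∏ p ∈ S, p) (fun t => ∏ p ∈ S, G p t) = ∏ p ∈ S, boxAv p (G p) := by
  induction S using Finset.induction_on with
  | empty => simpa using boxAv_const (U := U) (T := 1) one_pos 1
  | insert a S haS ih =>
    have hS' : ∀ p ∈ S, p.Prime := fun p hp => hS p (Finset.mem_insert_of_mem hp)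
    have hG' : ∀ p ∈ S, Per p (G p) := fun p hp => hG p (Finset.mem_insert_of_mem hp)
    have ha : a.Prime := hS a (Finset.mem_insert_self a S)
    simp only [Finset.prod_insert haS]
    rw [← ih hS' hG']
    refine boxper_two ha.pos (Finset.prod_pos fun p hp => (hS' p hp).pos) ?_
      (hG a (Finset.mem_insert_self a S)) ?_
    · refine Nat.Coprime.prod_right fun p hp => ?_
      exact (Nat.coprime_primes ha (hS' p hp)).mpr fun h => haS (h ▸ hp)
    · intro t t' h
      refine Finset.prod_congr rfl fun p hp => hG' p hp t t' fun v => ?_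
      exact (Int.natCast_dvd_natCast.mpr (Finset.dvd_prod_of_mem _ hp)).trans (h v)

lemma boxper_one {p : ℕ} (hp : p.Prime) (A c : ℤ) (hc : ¬ (p : ℤ) ∣ c) :
    ∑ y ∈ Ico (0 : ℤ) p, (if (p : ℤ) ∣ A + c * y then (1 : ℝ) else 0) = 1 := by
  have hp' : (0 : ℤ) < p := by exact_mod_cast hp.pos
  have hcop : IsCoprime (p : ℤ) c :=
    (Nat.prime_iff_prime_int.mp hp).irreducible.coprime_iff_not_dvd.mpr hc
  obtain ⟨u, w, huw⟩ := hcop
  have h0 : (p : ℤ) ∣ A + c * ((-A * w) % p) := by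
    have h1 : (p : ℤ) ∣ -A * w - (-A * w) % p := Int.dvd_self_sub_emod
    have h2 : A + c * ((-A * w) % p) = A * u * p - c * (-A * w - (-A * w) % p) := by
      linear_combination (-A) * huw
    rw [h2]
    exact dvd_sub (Dvd.intro_left _ rfl) (h1.mul_left c)
  have hm0 : 0 ≤ (-A * w) % p := Int.emod_nonneg _ hp'.ne'
  have hm1 : (-A * w) % p < p := Int.emod_lt_of_pos _ hp'
  rw [Finset.sum_eq_single ((-A * w) % p), if_pos h0]
  · intro y hy hne
    rw [if_neg]
    intro hd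
    have h1 : (p : ℤ) ∣ c * (y - (-A * w) % p) := by
      have := dvd_sub hd h0
      have h2 : A + c * y - (A + c * ((-A * w) % p)) = c * (y - (-A * w) % p) := by ring
      rwa [h2] at this
    have h2 : (p : ℤ) ∣ y - (-A * w) % p :=
      (show IsCoprime (p : ℤ) c from ⟨u, w, huw⟩).dvd_of_dvd_mul_left h1
    obtain ⟨y0, y1⟩ := Finset.mem_Ico.mp hy
    have := Int.eq_zero_of_abs_lt_dvd h2 (abs_lt.mpr ⟨by linarith, by linarith⟩)
    exact hne (by linarith)
  · intro h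
    exact absurd (Finset.mem_Ico.mpr ⟨hm0, hm1⟩) h

lemma boxper_frm (b : ℤ) (c x : U → ℤ) (v : U) (y : ℤ) :
    frm b c (Function.update x v y) = (frm b c x - c v * x v) + c v * y := by
  unfold frm
  have h : ∀ t : U → ℤ, ∑ u, c u * t u = c v * t v + ∑ u ∈ univ.erase v, c u * t u := fun t =>
    (Finset.add_sum_erase _ (fun u => c u * t u) (Finset.mem_univ v)).symm
  rw [h, h x, Function.update_self]
  have h2 : ∑ u ∈ univ.erase v, c u * Function.update x v y u = ∑ u ∈ univ.erase v, c u * x u :=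
    Finset.sum_congr rfl fun u hu => by rw [Function.update_of_ne (Finset.ne_of_mem_erase hu)]
  rw [h2]
  ring

lemma box_form {p : ℕ} (hp : p.Prime) (b : ℤ) (c : U → ℤ) (hc : ∃ v, ¬ (p : ℤ) ∣ c v) :
    boxAv p (fun t => if (p : ℤ) ∣ frm b c t then (1 : ℝ) else 0) = (p : ℝ)⁻¹ := by
  obtain ⟨v, hv⟩ := hc
  rw [box_resample hp.pos v]
  simp only [boxper_frm, boxper_one hp _ _ hv, one_div]
  exact boxAv_const hp.pos _

lemma box_form2 {p : ℕ} (hp : p.Prime) (b b' : ℤ) (c c' : U → ℤ) (v0 : U)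
    (h0 : ¬ (p : ℤ) ∣ c v0) (h0' : c' v0 = 0) (hc' : ∃ v, ¬ (p : ℤ) ∣ c' v) :
    boxAv p (fun t => if (p : ℤ) ∣ frm b c t ∧ (p : ℤ) ∣ frm b' c' t then (1 : ℝ) else 0) =
      ((p : ℝ) ^ 2)⁻¹ := by
  rw [box_resample hp.pos v0]
  have h1 : ∀ x : U → ℤ, (∑ y ∈ Ico (0 : ℤ) p,
      (if (p : ℤ) ∣ frm b c (Function.update x v0 y) ∧ (p : ℤ) ∣ frm b' c' (Function.update x v0 y)
        then (1 : ℝ) else 0)) / p =
      (p : ℝ)⁻¹ * (if (p : ℤ) ∣ frm b' c' x then (1 : ℝ) else 0) := by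
    intro x
    have h2 : ∀ y, frm b' c' (Function.update x v0 y) = frm b' c' x := fun y => by
      rw [boxper_frm, h0']; ring
    simp only [h2]
    by_cases h : (p : ℤ) ∣ frm b' c' x
    · simp only [h, and_true, boxper_frm b c, boxper_one hp _ _ h0, if_true]
      simp
    · simp [h]
  simp only [h1]
  rw [boxAv_mul, box_form hp b' c' hc', sq, mul_inv]

end Pool.Agent.Lib.MP_458f0b_nt.Pois
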