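import Pool.Agent.Lib.MP_458f0b_nt.Pois.Count
import Pool.Agent.Lib.MP_458f0b_nt.Pois.Reg

open Finset Filter Topology

namespace Pool.Agent.Lib.MP_458f0b_nt.Pois

lemma cellM_cellAv (W L X : ℕ) (f : ℤ → ℝ) : CellM W L X (cellAv W L X f) := by
  intro n _ m _ h1 h2
  simp only [cellAv, cell, h1, h2]

lemma abs_cellAv_le {W L X : ℕ} {f : ℤ → ℝ} {B : ℝ} (hB : 0 ≤ B)
    (hf : ∀ n ∈ Icc (1 : ℤ) X, |f n| ≤ B) (n : ℤ) : |cellAv W L X f n| ≤ B := by
  unfold cellAv
  rcases Nat.eq_zero_or_pos (cell W L X n).card with h | h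
  · rw [h]
    simpa using hB
  · have h' : (0 : ℝ) < (cell W L X n).card := by exact_mod_cast h
    rw [abs_div, abs_of_pos h', div_le_iff₀ h']
    refine (Finset.abs_sum_le_sum_abs _ _).trans ?_
    refine (Finset.sum_le_card_nsmul _ _ B fun m hm => hf m (Finset.mem_filter.mp hm).1).trans ?_
    rw [nsmul_eq_mul, mul_comm]
    exact le_rfl

lemma cellM_nu0 (w L X : ℕ) : CellM w.factorial L X (nu0 w) := by
  intro n _ m _ _ h2
  exact nu0_congr (Int.ModEq.dvd (show n ≡ m [ZMOD _] from h2.symm))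

lemma cellM_ind (W L X : ℕ) : CellM W L X (ind X) := by
  intro n hn m hm _ _
  rw [ind_of_mem hn, ind_of_mem hm]

lemma CellM.mul {W L X : ℕ} {f g : ℤ → ℝ} (hf : CellM W L X f) (hg : CellM W L X g) :
    CellM W L X (fun n => f n * g n) := by
  intro n hn m hm h1 h2
  simp only [hf n hn m hm h1 h2, hg n hn m hm h1 h2]

lemma CellM.comp {W L X : ℕ} {f : ℤ → ℝ} (hf : CellM W L X f) (φ : ℝ → ℝ) :
    CellM W L X (fun n => φ (f n)) := by
  intro n hn m hm h1 h2
  simp only [hf n hn m hm h1 h2]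

lemma cellZero_sub {W L X : ℕ} {ψ : ℤ → ℝ} (hψ : CellM W L X ψ) (f : ℤ → ℝ) :
    CellZero W L X (fun n => ψ n * (f n - cellAv W L X f n)) := by
  intro i b
  set C := (Icc (1 : ℤ) X).filter (fun m => m / L = i ∧ m % W = b) with hC
  rcases C.eq_empty_or_nonempty with h | ⟨n, hn⟩
  · rw [h, Finset.sum_empty]
  · have hpos : (0 : ℝ) < C.card := by exact_mod_cast Finset.card_pos.mpr ⟨n, hn⟩
    obtain ⟨hn1, hn2, hn3⟩ := Finset.mem_filter.mp hn
    have e : ∀ m ∈ C, ψ m * (f m - cellAv W L X f m) =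
        ψ n * (f m - (∑ m ∈ C, f m) / C.card) := fun m hm => by
      obtain ⟨hm1, hm2, hm3⟩ := Finset.mem_filter.mp hm
      have hc : cell W L X m = C := by simp only [cell, hC, hm2, hm3]
      rw [hψ n hn1 m hm1 (hm2.trans hn2.symm) (hm3.trans hn3.symm), cellAv, hc]
    rw [Finset.sum_congr rfl e, ← Finset.mul_sum, Finset.sum_sub_distrib, Finset.sum_const,
      nsmul_eq_mul, mul_div_cancel₀ _ hpos.ne', sub_self, mul_zero]

lemma CellZero.sum_mul {W L X : ℕ} {h ψ : ℤ → ℝ} (hh : CellZero W L X h) (hψ : CellM W L X ψ) :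
    ∑ n ∈ Icc (1 : ℤ) X, h n * ψ n = 0 := by
  rw [← Finset.sum_fiberwise_of_maps_to (g := fun n : ℤ => (n / L, n % W))
    (t := (Icc (1 : ℤ) X).image fun n : ℤ => (n / L, n % W))
    (fun n hn => Finset.mem_image_of_mem _ hn)]
  refine Finset.sum_eq_zero fun y hy => ?_
  obtain ⟨n, hn, rfl⟩ := Finset.mem_image.mp hy
  simp only [Prod.mk.injEq]
  have e : ∀ m ∈ (Icc (1 : ℤ) X).filter (fun m => m / L = n / L ∧ m % W = n % W),
      h m * ψ m = h m * ψ n := fun m hm => by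
    obtain ⟨hm1, hm2, hm3⟩ := Finset.mem_filter.mp hm
    rw [hψ n hn m hm1 hm2 hm3]
  rw [Finset.sum_congr rfl e, ← Finset.sum_mul, hh, zero_mul]

lemma av_nu0_le (w : ℕ) : ∀ᶠ x in reg, av x.2 (nu0 w) ≤ 2 := by
  have h := (tendsto_natCast_atTop_atTop (R := ℝ)).comp reg_X
  filter_upwards [h.eventually_ge_atTop (kap w * w.factorial), h.eventually_gt_atTop 0]
    with x h1 h2
  simp only [Function.comp_apply] at h1 h2
  have h3 := sum_nu0_Ico w 1 x.2
  have e : Ico (1 : ℤ) (1 + x.2) = Icc (1 : ℤ) x.2 := by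
    ext m
    simp only [Finset.mem_Ico, Finset.mem_Icc]
    omega
  rw [e] at h3
  rw [av, div_le_iff₀ h2]
  linarith

/-- bounded data give a bounded dual function -/
lemma dual_bdd (ι : Type) [Fintype ι] [DecidableEq ι] (w : ℕ) : ∀ᶠ x in reg,
    ∀ (z : ℕ) (a : ℤ → ℝ) (g : ι → ℤ → ℝ), Adm w z x.2 ∅ a g →
      ∀ n, |dual x.1 x.2 a g n| ≤ 3 ^ Fintype.card ι := by
  have h := (tendsto_natCast_atTop_atTop (R := ℝ)).comp reg_Q
  filter_upwards [h.eventually_ge_atTop (1 + kap w * w.factorial), reg_basic]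
    with x h1 h2 z a g hg n
  simp only [Function.comp_apply] at h1
  obtain ⟨hD, hQ, -, -⟩ := h2
  set Q := x.2 / x.1 with hQd
  have hD' : (0 : ℝ) < x.1 := by exact_mod_cast hD
  have hQ' : (0 : ℝ) < Q := by exact_mod_cast hQ
  have hg' : ∀ i m, |g i m| ≤ nu0 w m := fun i m => by
    have h3 := hg.2 i m
    rw [if_neg (Finset.notMem_empty i), mul_one] at h3
    exact h3.trans (mul_le_of_le_one_left (nu0_nonneg w m) (ind_le_one _ m))
  have key : ∀ d : ℤ, |a d * ∑ q ∈ inj ι Q, ∏ i, g i (n + q i * d)| ≤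
      (3 * Q : ℝ) ^ Fintype.card ι := fun d => by
    have b1 : |∑ q ∈ inj ι Q, ∏ i, g i (n + q i * d)| ≤
        (∑ q ∈ Icc (-(Q : ℤ)) Q, nu0 w (n + q * d)) ^ Fintype.card ι := by
      refine (Finset.abs_sum_le_sum_abs _ _).trans ?_
      rw [← Finset.card_univ, ← Finset.prod_const, Finset.prod_univ_sum]
      refine (Finset.sum_le_sum (g := fun q => ∏ i, nu0 w (n + q i * d)) fun q _ => ?_).trans ?_
      · rw [Finset.abs_prod]
        exact Finset.prod_le_prod (fun i _ => abs_nonneg _) fun i _ => hg' i _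
      · refine Finset.sum_le_sum_of_subset_of_nonneg (fun q hq => ?_) fun q _ _ =>
          Finset.prod_nonneg fun i _ => nu0_nonneg w _
        exact Fintype.mem_piFinset.mpr fun i => Finset.mem_Icc.mpr ((mem_inj.mp hq).1 i)
    have b2 := sum_nu0_le w n d (-(Q : ℤ)) (2 * Q + 1)
    have e : Ico (-(Q : ℤ)) (-(Q : ℤ) + (2 * Q + 1 : ℕ)) = Icc (-(Q : ℤ)) Q := by
      ext m
      simp only [Finset.mem_Ico, Finset.mem_Icc]
      omega
    rw [e] at b2
    push_cast at b2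
    have b3 : 0 ≤ ∑ q ∈ Icc (-(Q : ℤ)) Q, nu0 w (n + q * d) :=
      Finset.sum_nonneg fun q _ => nu0_nonneg w _
    rw [abs_mul]
    refine (mul_le_mul (hg.1 d) b1 (abs_nonneg _) (pow_nonneg (om_pos w d).le _)).trans ?_
    rw [← mul_pow]
    exact pow_le_pow_left₀ (mul_nonneg (om_pos w d).le b3) (by linarith) _
  rw [dual, abs_div, abs_of_pos (mul_pos hD' (pow_pos hQ' _)),
    div_le_iff₀ (mul_pos hD' (pow_pos hQ' _)), line]
  refine (Finset.abs_sum_le_sum_abs _ _).trans ?_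
  refine (Finset.sum_le_card_nsmul _ _ _ fun d _ => key d).trans ?_
  have e : (Ico (x.1 : ℤ) (2 * x.1)).card = x.1 := by
    rw [Int.card_Ico]
    omega
  rw [e, nsmul_eq_mul, mul_pow]
  exact le_of_eq (by ring)

lemma dual_smul {ι : Type} [Fintype ι] [DecidableEq ι] (D X : ℕ) (a : ℤ → ℝ) (g : ι → ℤ → ℝ)
    (c : ι → ℝ) (n : ℤ) :
    dual D X a (fun i m => c i * g i m) n = (∏ i, c i) * dual D X a g n := by
  simp only [dual, line, Finset.prod_mul_distrib, ← Finset.mul_sum]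
  rw [← mul_div_assoc, Finset.mul_sum]
  congr 2
  funext d
  ring

lemma Adm.md {ι : Type} [Fintype ι] [DecidableEq ι] {w z X : ℕ} {a : ℤ → ℝ} {g : ι → ℤ → ℝ}
    (h : Adm w z X ∅ a g) (s : Finset ι) : Adm w z X ∅ a (md w X s g) := by
  refine ⟨h.1, fun i n => ?_⟩
  unfold Pois.md
  by_cases hi : i ∈ s
  · rw [if_pos hi, if_neg (Finset.notMem_empty i), mul_one,
      abs_of_nonneg (mul_nonneg (ind_nonneg X n) (nu0_nonneg w n))]
  · rw [if_neg hi]
    exact h.2 i n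

end Pool.Agent.Lib.MP_458f0b_nt.Pois
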