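import Pool.Agent.Lib.MP_458f0b_nt.Mertens

/-! Definitions and small API for the Poisson law of primes in progressions. -/

open Finset Filter Topology

namespace Pool.Agent.Lib.MP_458f0b_nt.Pois

/-- product of `1 - 1/p` over a finite set -/
noncomputable def V (S : Finset ℕ) : ℝ := ∏ p ∈ S, (1 - (p : ℝ)⁻¹)

/-- normalised indicator of the integers with no divisor in `S` -/
noncomputable def nu (S : Finset ℕ) (n : ℤ) : ℝ :=
  if ∀ p ∈ S, ¬ (p : ℤ) ∣ n then (V S)⁻¹ else 0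

/-- primes in `(w, z]` -/
def P1 (w z : ℕ) : Finset ℕ := z.primesLE.filter (fun p => w < p)

noncomputable def nu0 (w : ℕ) (n : ℤ) : ℝ := nu w.primesLE n

noncomputable def nu1 (w z : ℕ) (n : ℤ) : ℝ := nu (P1 w z) n

noncomputable def kap (w : ℕ) : ℝ := (V w.primesLE)⁻¹

noncomputable def om (w : ℕ) (d : ℤ) : ℝ := V (w.primesLE.filter (fun p : ℕ => (p : ℤ) ∣ d))

/-- no prime `≤ w` divides both `d` and `n` -/
def Cop (w : ℕ) (d n : ℤ) : Prop := ∀ p ∈ w.primesLE, (p : ℤ) ∣ d → ¬ (p : ℤ) ∣ n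

instance (w : ℕ) (d n : ℤ) : Decidable (Cop w d n) := by unfold Cop; infer_instance

/-- sum of `1/p` over the primes `p > w` dividing `m` (zero for `m = 0`) -/
noncomputable def h1 (w : ℕ) (m : ℤ) : ℝ :=
  ∑ p ∈ m.natAbs.primeFactors.filter (fun p => w < p), (p : ℝ)⁻¹

/-- indicator of `[1, X]` -/
noncomputable def ind (X : ℕ) (n : ℤ) : ℝ := if 1 ≤ n ∧ n ≤ X then 1 else 0

/-- primes in `(sqrt X, X]` with weight `log X` -/
noncomputable def pr (X : ℕ) (n : ℤ) : ℝ :=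
  if 1 ≤ n ∧ n ≤ X ∧ n.natAbs.Prime ∧ (X : ℤ) < n ^ 2 then Real.log X else 0

/-- average over `[1, X]` -/
noncomputable def av (X : ℕ) (f : ℤ → ℝ) : ℝ := (∑ n ∈ Icc (1 : ℤ) X, f n) / X

/-- average over the box `[0, T)^U` -/
noncomputable def boxAv {U : Type} [Fintype U] [DecidableEq U] (T : ℕ) (G : (U → ℤ) → ℝ) : ℝ :=
  (∑ t ∈ Fintype.piFinset (fun _ : U => Ico (0 : ℤ) T), G t) / (T : ℝ) ^ Fintype.card U

/-- `G` only depends on the coordinates modulo `e` -/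
def Per {U : Type} (e : ℕ) (G : (U → ℤ) → ℝ) : Prop :=
  ∀ t t' : U → ℤ, (∀ v, (e : ℤ) ∣ t v - t' v) → G t = G t'

/-- affine form -/
def frm {U : Type} [Fintype U] (b : ℤ) (c : U → ℤ) (t : U → ℤ) : ℤ := b + ∑ v, c v * t v

/-- take the `true` copy of the coordinates in `ω` and the `false` copy of the others -/
def mix {R : Type} [DecidableEq R] (ω : Finset R) (x : R × Bool → ℤ) : R → ℤ :=
  fun l => x (l, decide (l ∈ ω))

/-- injective tuples of nonzero integers in `[-Q, Q]` -/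
noncomputable def inj (ι : Type) [Fintype ι] [DecidableEq ι] (Q : ℕ) : Finset (ι → ℤ) := by
  classical
  exact (Fintype.piFinset fun _ : ι => Icc (-(Q : ℤ)) Q).filter
    (fun q => Function.Injective q ∧ ∀ i, q i ≠ 0)

section
variable {ι : Type} [Fintype ι] [DecidableEq ι]

/-- sum over the progressions through `n` -/
noncomputable def line (D X : ℕ) (u : ℤ → ℝ) (g : ι → ℤ → ℝ) (n : ℤ) : ℝ :=
  ∑ d ∈ Ico (D : ℤ) (2 * D), u d * ∑ q ∈ inj ι (X / D), ∏ i, g i (n + q i * d)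

/-- normalised `line` -/
noncomputable def dual (D X : ℕ) (u : ℤ → ℝ) (g : ι → ℤ → ℝ) (n : ℤ) : ℝ :=
  line D X u g n / (D * ((X / D : ℕ) : ℝ) ^ Fintype.card ι)

/-- admissible data: the functions with index in `s` are bounded by the sieve majorant, the others
by the small-prime weight -/
def Adm (w z X : ℕ) (s : Finset ι) (u : ℤ → ℝ) (g : ι → ℤ → ℝ) : Prop :=
  (∀ d, |u d| ≤ om w d ^ Fintype.card ι) ∧
    ∀ i n, |g i n| ≤ ind X n * nu0 w n * (if i ∈ s then nu1 w z n else 1)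

/-- replace the functions with index in `s` by the primes -/
noncomputable def sp (X : ℕ) (s : Finset ι) (g : ι → ℤ → ℝ) : ι → ℤ → ℝ :=
  fun i => if i ∈ s then pr X else g i

/-- replace the functions with index in `s` by the model -/
noncomputable def md (w X : ℕ) (s : Finset ι) (g : ι → ℤ → ℝ) : ι → ℤ → ℝ :=
  fun i => if i ∈ s then (fun n => ind X n * nu0 w n) else g i

/-- injective tuples in `[1, X]`, all congruent modulo `d` -/
noncomputable def tupSet (ι : Type) [Fintype ι] [DecidableEq ι] (X : ℕ) (d : ℤ) :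
    Finset (ι → ℤ) := by
  classical
  exact (Fintype.piFinset fun _ : ι => Icc (1 : ℤ) X).filter
    (fun n => Function.Injective n ∧ ∀ i j, d ∣ n i - n j)

noncomputable def tup (D X : ℕ) (u : ℤ → ℝ) (g : ι → ℤ → ℝ) : ℝ :=
  ∑ d ∈ Ico (D : ℤ) (2 * D), u d * ∑ n ∈ tupSet ι X d, ∏ i, g i (n i)

/-- bad-prime sum of a family of `j` tuples -/
noncomputable def hq (w : ℕ) {j : ℕ} (q : Fin j → ι → ℤ) : ℝ :=
  ∑ e, (∑ l, h1 w (q e l) + ∑ l, ∑ i, h1 w (q e l - q e i))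

/-- shifted centre -/
def shN (W : ℕ) {j : ℕ} (q : Fin j → ι → ℤ) (n : ℤ) (t : Option (Fin j × ι) → ℤ) : ℤ :=
  n + W * t none + W * ∑ e, ∑ i, q e i * t (some (e, i))

/-- shifted moduli -/
def shD (W : ℕ) {j : ℕ} (d : Fin j → ℤ) (t : Option (Fin j × ι) → ℤ) (e : Fin j) : ℤ :=
  d e - W * ∑ i, t (some (e, i))

/-- integrand of a star of `j` progressions through `n` -/
noncomputable def integ (D : ℕ) (f u : ℤ → ℝ) (g : ι → ℤ → ℝ) {j : ℕ} (q : Fin j → ι → ℤ)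
    (n : ℤ) (d : Fin j → ℤ) : ℝ :=
  f n * ∏ e, ((if d e ∈ Ico (D : ℤ) (2 * D) then u (d e) else 0) * ∏ i, g i (n + q e i * d e))

/-- small-prime weight of a star -/
noncomputable def lamW (w : ℕ) {j : ℕ} (q : Fin j → ι → ℤ) (n : ℤ) (d : Fin j → ℤ) : ℝ :=
  nu0 w n * ∏ e, (om w (d e) ^ Fintype.card ι * ∏ i, nu0 w (n + q e i * d e))

end

/-- the regime: `X / D` tends to infinity and is at most `X ^ (1/10)` -/
def reg : Filter (ℕ × ℕ) :=
  comap (fun x : ℕ × ℕ => x.2 / x.1) atTop ⊓ 𝓟 {x | (x.2 / x.1) ^ 10 ≤ x.2}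

/-- sieving level -/
noncomputable def zz (X u : ℕ) : ℕ := ⌊(X : ℝ) ^ ((u : ℝ)⁻¹)⌋₊

/-- the cell of `n`: same block of length `L`, same class modulo `W` -/
noncomputable def cell (W L X : ℕ) (n : ℤ) : Finset ℤ :=
  (Icc (1 : ℤ) X).filter (fun m => m / L = n / L ∧ m % W = n % W)

/-- constant on cells -/
def CellM (W L X : ℕ) (v : ℤ → ℝ) : Prop :=
  ∀ n ∈ Icc (1 : ℤ) X, ∀ m ∈ Icc (1 : ℤ) X, m / L = n / L → m % W = n % W → v m = v n

/-- sum zero on every cell -/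
def CellZero (W L X : ℕ) (h : ℤ → ℝ) : Prop :=
  ∀ i b : ℤ, ∑ m ∈ (Icc (1 : ℤ) X).filter (fun m => m / L = i ∧ m % W = b), h m = 0

noncomputable def cellAv (W L X : ℕ) (f : ℤ → ℝ) (n : ℤ) : ℝ :=
  (∑ m ∈ cell W L X n, f m) / (cell W L X n).card

/-- number of primes in `(sqrt X, X]` in the class `a` modulo `d` -/
def cnt (X d a : ℕ) : ℕ :=
  ((Icc 1 X).filter (fun p => p.Prime ∧ X < p ^ 2 ∧ p % d = a)).card

/-- factorial moment -/
def Mom (X d j : ℕ) : ℕ := ∑ a ∈ range d, (cnt X d a).descFactorial j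

/-- classes modulo `d` with no prime `≤ w` in common with `d` -/
def Ad (w d : ℕ) : Finset ℕ := (range d).filter (fun a => Cop w d a)

noncomputable def pois (μ : ℝ) (k : ℕ) : ℝ := Real.exp (-μ) * μ ^ k / k.factorial

/-- share of the reduced classes modulo `d` with exactly `k` primes up to `lam φ(d) log d` -/
noncomputable def share (lam : ℝ) (k d : ℕ) : ℝ :=
  (((range d).filter (fun a => Nat.Coprime a d ∧
    ((range (⌊lam * (Nat.totient d : ℝ) * Real.log d⌋₊ + 1)).filter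
      (fun p => p.Prime ∧ p % d = a)).card = k)).card : ℝ) / (Nat.totient d : ℝ)

/-- Fejer kernel -/
noncomputable def fej (u : ℝ) : ℝ := if u = 0 then 1 else 2 * (1 - Real.cos u) / u ^ 2

/-! ### small API -/

lemma one_sub_inv_pos {p : ℕ} (hp : p.Prime) : 0 < 1 - (p : ℝ)⁻¹ := by
  have h : (1 : ℝ) < p := by exact_mod_cast hp.one_lt
  have := inv_lt_one_of_one_lt₀ h
  linarith

lemma one_sub_inv_le (p : ℕ) : 1 - (p : ℝ)⁻¹ ≤ 1 := by
  have : (0 : ℝ) ≤ (p : ℝ)⁻¹ := by positivity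
  linarith

lemma V_pos {S : Finset ℕ} (hS : ∀ p ∈ S, p.Prime) : 0 < V S :=
  Finset.prod_pos fun p hp => one_sub_inv_pos (hS p hp)

lemma V_le_one {S : Finset ℕ} (hS : ∀ p ∈ S, p.Prime) : V S ≤ 1 :=
  Finset.prod_le_one (fun p hp => (one_sub_inv_pos (hS p hp)).le) fun p _ => one_sub_inv_le p

lemma V_anti {S S' : Finset ℕ} (hS : ∀ p ∈ S', p.Prime) (h : S ⊆ S') : V S' ≤ V S := by
  classical
  unfold V
  rw [← Finset.prod_sdiff h]
  have h1 : ∏ p ∈ S' \ S, (1 - (p : ℝ)⁻¹) ≤ 1 :=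
    V_le_one (S := S' \ S) fun p hp => hS p (Finset.mem_sdiff.mp hp).1
  have h2 : 0 < ∏ p ∈ S, (1 - (p : ℝ)⁻¹) := V_pos (S := S) fun p hp => hS p (h hp)
  nlinarith

lemma prime_of_mem_P1 {w z p : ℕ} (hp : p ∈ P1 w z) : p.Prime :=
  Nat.prime_of_mem_primesLE (Finset.mem_filter.mp hp).1

lemma mem_P1 {w z p : ℕ} : p ∈ P1 w z ↔ p.Prime ∧ w < p ∧ p ≤ z := by
  simp only [P1, Finset.mem_filter, Nat.mem_primesLE]; tauto

lemma nu_nonneg {S : Finset ℕ} (hS : ∀ p ∈ S, p.Prime) (n : ℤ) : 0 ≤ nu S n := by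
  unfold nu; split_ifs
  · exact (inv_pos.mpr (V_pos hS)).le
  · exact le_rfl

lemma nu_le {S : Finset ℕ} (hS : ∀ p ∈ S, p.Prime) (n : ℤ) : nu S n ≤ (V S)⁻¹ := by
  unfold nu; split_ifs
  · exact le_rfl
  · exact (inv_pos.mpr (V_pos hS)).le

lemma nu0_nonneg (w : ℕ) (n : ℤ) : 0 ≤ nu0 w n := nu_nonneg (fun _ => Nat.prime_of_mem_primesLE) n

lemma nu1_nonneg (w z : ℕ) (n : ℤ) : 0 ≤ nu1 w z n := nu_nonneg (fun _ => prime_of_mem_P1) n

lemma nu0_le (w : ℕ) (n : ℤ) : nu0 w n ≤ kap w := nu_le (fun _ => Nat.prime_of_mem_primesLE) n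

lemma one_le_kap (w : ℕ) : 1 ≤ kap w :=
  (one_le_inv₀ (V_pos fun _ => Nat.prime_of_mem_primesLE)).mpr
    (V_le_one fun _ => Nat.prime_of_mem_primesLE)

lemma kap_pos (w : ℕ) : 0 < kap w := lt_of_lt_of_le one_pos (one_le_kap w)

lemma om_pos (w : ℕ) (d : ℤ) : 0 < om w d :=
  V_pos fun _ hp => Nat.prime_of_mem_primesLE (Finset.mem_filter.mp hp).1

lemma om_le_one (w : ℕ) (d : ℤ) : om w d ≤ 1 :=
  V_le_one fun _ hp => Nat.prime_of_mem_primesLE (Finset.mem_filter.mp hp).1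

lemma inv_om_le (w : ℕ) (d : ℤ) : (om w d)⁻¹ ≤ kap w :=
  inv_anti₀ (V_pos fun _ => Nat.prime_of_mem_primesLE)
    (V_anti (fun _ => Nat.prime_of_mem_primesLE) (Finset.filter_subset _ _))

lemma dvd_fact_of_mem {w p : ℕ} (hp : p ∈ w.primesLE) : (p : ℤ) ∣ (w.factorial : ℤ) :=
  Int.natCast_dvd_natCast.mpr
    (((Nat.prime_of_mem_primesLE hp).dvd_factorial).mpr (Nat.le_of_mem_primesLE hp))

lemma not_dvd_fact {w z p : ℕ} (hp : p ∈ P1 w z) : ¬ (p : ℤ) ∣ (w.factorial : ℤ) := by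
  rw [Int.natCast_dvd_natCast, (prime_of_mem_P1 hp).dvd_factorial]
  exact not_le.mpr (mem_P1.mp hp).2.1

lemma nu0_congr {w : ℕ} {n m : ℤ} (h : (w.factorial : ℤ) ∣ n - m) : nu0 w n = nu0 w m := by
  unfold nu0 nu
  have : (∀ p ∈ w.primesLE, ¬ (p : ℤ) ∣ n) ↔ ∀ p ∈ w.primesLE, ¬ (p : ℤ) ∣ m := by
    refine forall₂_congr fun p hp => not_congr ?_
    exact (dvd_iff_dvd_of_dvd_sub ((dvd_fact_of_mem hp).trans h))
  simp only [this]

lemma om_congr {w : ℕ} {n m : ℤ} (h : (w.factorial : ℤ) ∣ n - m) : om w n = om w m := by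
  unfold om
  congr 1
  refine Finset.filter_congr fun p hp => ?_
  exact (dvd_iff_dvd_of_dvd_sub ((dvd_fact_of_mem hp).trans h))

lemma ind_nonneg (X : ℕ) (n : ℤ) : 0 ≤ ind X n := by unfold ind; split_ifs <;> norm_num

lemma ind_le_one (X : ℕ) (n : ℤ) : ind X n ≤ 1 := by unfold ind; split_ifs <;> norm_num

lemma ind_of_mem {X : ℕ} {n : ℤ} (h : n ∈ Icc (1 : ℤ) X) : ind X n = 1 :=
  if_pos (Finset.mem_Icc.mp h)

lemma ind_of_not_mem {X : ℕ} {n : ℤ} (h : n ∉ Icc (1 : ℤ) X) : ind X n = 0 :=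
  if_neg fun h' => h (Finset.mem_Icc.mpr h')

lemma h1_nonneg (w : ℕ) (m : ℤ) : 0 ≤ h1 w m := Finset.sum_nonneg fun _ _ => by positivity

lemma mem_inj {ι : Type} [Fintype ι] [DecidableEq ι] {Q : ℕ} {q : ι → ℤ} :
    q ∈ inj ι Q ↔ (∀ i, -(Q : ℤ) ≤ q i ∧ q i ≤ Q) ∧ Function.Injective q ∧ ∀ i, q i ≠ 0 := by
  simp [inj, Fintype.mem_piFinset]

lemma mem_tupSet {ι : Type} [Fintype ι] [DecidableEq ι] {X : ℕ} {d : ℤ} {n : ι → ℤ} :
    n ∈ tupSet ι X d ↔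
      (∀ i, 1 ≤ n i ∧ n i ≤ X) ∧ Function.Injective n ∧ ∀ i j, d ∣ n i - n j := by
  simp [tupSet, Fintype.mem_piFinset]

lemma kap_eq_prod (w : ℕ) : kap w = ∏ p ∈ w.primesLE, (1 - (p : ℝ)⁻¹)⁻¹ := by
  simp [kap, V]

end Pool.Agent.Lib.MP_458f0b_nt.Pois
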