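import Pool.Agent.Lib.MP_458f0b_nt.Pois.Moments
import Pool.Agent.Lib.MP_458f0b_nt.Pois.Bonf

open Finset Filter Topology

namespace Pool.Agent.Lib.MP_458f0b_nt.Pois

lemma fixed_cnt {w X d a : ℕ} (hw : w ^ 2 ≤ X) (ha : ¬ Cop w d a) : cnt X d a = 0 := by
  unfold cnt
  rw [card_eq_zero, filter_eq_empty_iff]
  rintro q - ⟨hq, hX, rfl⟩
  refine ha fun p hp h1 h2 => ?_
  rw [Int.natCast_dvd_natCast] at h1 h2
  have h3 : p = q := (Nat.prime_dvd_prime_iff_eq (Nat.prime_of_mem_primesLE hp) hq).1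
    ((Nat.dvd_mod_iff h1).1 h2)
  have h4 := Nat.pow_le_pow_left (h3 ▸ Nat.le_of_mem_primesLE hp) 2
  omega

lemma fixed_mom {w X : ℕ} (hw : w ^ 2 ≤ X) (d j : ℕ) :
    ∑ a ∈ Ad w d, (cnt X d a).descFactorial (j + 1) = Mom X d (j + 1) := by
  unfold Mom Ad
  refine sum_filter_of_ne fun a _ h => ?_
  by_contra ha
  rw [fixed_cnt hw ha] at h
  simp at h

lemma fixed_term {δ o d D L M X : ℝ} (j : ℕ) (hδ : 0 < δ) (ho : δ ≤ o) (hD : 0 < D) (hd : D ≤ d)
    (hL : 0 < L) :
    |M - d * o * (X / (d * o * L)) ^ (j + 1)| / (d * o) ≤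
      o ^ j * |L ^ (j + 1) * M - d * o * (X / (d * o)) ^ (j + 1)| /
        (D * δ ^ (j + 1) * L ^ (j + 1)) := by
  have ho' : 0 < o := hδ.trans_le ho
  have hd' : 0 < d := hD.trans_le hd
  have e : L ^ (j + 1) * M - d * o * (X / (d * o)) ^ (j + 1) =
      L ^ (j + 1) * (M - d * o * (X / (d * o * L)) ^ (j + 1)) := by
    rw [← div_div _ (d * o) L, div_pow _ L]
    field_simp
  rw [e, abs_mul, abs_of_pos (pow_pos hL _)]
  generalize hT : |M - d * o * (X / (d * o * L)) ^ (j + 1)| = T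
  have hT0 : 0 ≤ T := hT ▸ abs_nonneg _
  have h1 : D * δ ^ (j + 1) ≤ d * o ^ (j + 1) := by gcongr
  rw [div_le_div_iff₀ (by positivity) (by positivity)]
  calc T * (D * δ ^ (j + 1) * L ^ (j + 1)) ≤ T * (d * o ^ (j + 1) * L ^ (j + 1)) := by gcongr
    _ = _ := by ring

/-- the Poisson law at a fixed height `c D log D` -/
theorem fixed_c (k : ℕ) (c δ ε : ℝ) (hc : 0 < c) (hδ : 0 < δ) (hε : 0 < ε) :
    ∀ᶠ w : ℕ in atTop, ∀ᶠ D : ℕ in atTop, ∀ X : ℕ, X = ⌊c * D * Real.log D⌋₊ →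
      ∑ d ∈ (Ico D (2 * D)).filter (fun d : ℕ => δ ≤ om w d),
        |(((Ad w d).filter (fun a => cnt X d a = k)).card : ℝ) / (d * om w d) -
          pois (X / (d * om w d * Real.log X)) k| ≤ ε * D := by
  obtain ⟨J, hJ⟩ := pois_moments k (2 * c / δ) (ε / 2) (by positivity)
  have hm := (eventually_all_finset (range J)).2 fun j _ =>
    moments j (ε / (2 * (J + 1) * (2 * c / δ) ^ (j + 1))) (by positivity)
  filter_upwards [hm] with w hw
  have h1 := (reg_of_log c hc).eventually ((eventually_all_finset (range J)).2 hw)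
  have h2 := (reg_X.comp (reg_of_log c hc)).eventually (eventually_ge_atTop (w ^ 2))
  have h3 := (log_ratio c hc).eventually (lt_mem_nhds (show (1 / 2 : ℝ) < 1 by norm_num))
  filter_upwards [h1, h2, h3, eventually_ge_atTop 2] with D h1 h2 h3 hD X hX
  simp only [Function.comp] at h2
  rw [← hX] at h1 h2 h3
  have hD' : (2 : ℝ) ≤ D := by exact_mod_cast hD
  have hD0 : (0 : ℝ) < D := by linarith
  have hl : 0 < Real.log D := Real.log_pos (by linarith)
  rw [lt_div_iff₀ hl] at h3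
  have hL : 0 < Real.log X := by linarith
  have h4 : (X : ℝ) ≤ c * D * Real.log D := hX ▸ Nat.floor_le (by positivity)
  have h5 : (X : ℝ) ≤ 2 * c * D * Real.log X := by
    have : c * D * Real.log D ≤ c * D * (2 * Real.log X) := by gcongr; linarith
    linarith
  have h6 : ((X / D : ℕ) : ℝ) ≤ 2 * c * Real.log X := by
    refine Nat.cast_div_le.trans ?_
    rw [div_le_iff₀ hD0]
    linarith
  set T : ℕ → ℕ → ℝ := fun d j => om w (d : ℕ) ^ j *
    |Real.log X ^ (j + 1) * (Mom X d (j + 1) : ℝ) -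
      d * om w d * (X / (d * om w d)) ^ (j + 1)| with hT
  have hT0 : ∀ d j, 0 ≤ T d j := fun d j => mul_nonneg (pow_nonneg (om_pos _ _).le _) (abs_nonneg _)
  have h7 : ∀ d ∈ (Ico D (2 * D)).filter (fun d : ℕ => δ ≤ om w d),
      |(((Ad w d).filter (fun a => cnt X d a = k)).card : ℝ) / (d * om w d) -
        pois (X / (d * om w d * Real.log X)) k| ≤
      ε / 2 + ∑ j ∈ range J, T d j / (D * δ ^ (j + 1) * Real.log X ^ (j + 1)) := by
    intro d hd
    obtain ⟨hd, ho⟩ := mem_filter.1 hd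
    have hd1 : (D : ℝ) ≤ d := by exact_mod_cast (mem_Ico.1 hd).1
    have ho' := om_pos w d
    have hd0 : (0 : ℝ) < d := by linarith
    have hA : 0 < (d : ℝ) * om w d := by positivity
    have h8 := hJ (Ad w d) (cnt X d) (X / (d * om w d * Real.log X)) (by positivity) (by
      rw [div_le_div_iff₀ (by positivity) hδ]
      calc (X : ℝ) * δ ≤ 2 * c * D * Real.log X * δ := by gcongr
        _ ≤ 2 * c * d * Real.log X * om w d := by gcongr
        _ = _ := by ring)
    simp only [card_Ad, fixed_mom h2] at h8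
    rw [div_sub' hA.ne', abs_div, abs_of_pos hA, div_le_iff₀ hA]
    refine h8.trans ?_
    rw [add_mul, sum_mul]
    refine add_le_add le_rfl (sum_le_sum fun j _ => ?_)
    rw [← div_le_iff₀ hA]
    exact fixed_term j hδ ho hD0 hd1 hL
  have h9 : ∀ j ∈ range J, ∑ d ∈ Ico D (2 * D), T d j / (D * δ ^ (j + 1) * Real.log X ^ (j + 1)) ≤
      ε / (2 * (J + 1)) * D := by
    intro j hj
    rw [← sum_div, div_le_iff₀ (by positivity)]
    refine (h1 j hj).trans ?_
    calc ε / (2 * (J + 1) * (2 * c / δ) ^ (j + 1)) * X * D * ((X / D : ℕ) : ℝ) ^ j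
        ≤ ε / (2 * (J + 1) * (2 * c / δ) ^ (j + 1)) * (2 * c * D * Real.log X) * D *
          (2 * c * Real.log X) ^ j := by gcongr
      _ = _ := by
        rw [div_pow, mul_pow (2 * c), pow_succ (2 * c), pow_succ (Real.log X)]
        field_simp
  calc _ ≤ ∑ d ∈ (Ico D (2 * D)).filter (fun d : ℕ => δ ≤ om w d),
        (ε / 2 + ∑ j ∈ range J, T d j / (D * δ ^ (j + 1) * Real.log X ^ (j + 1))) := sum_le_sum h7
    _ ≤ ∑ d ∈ Ico D (2 * D),
        (ε / 2 + ∑ j ∈ range J, T d j / (D * δ ^ (j + 1) * Real.log X ^ (j + 1))) :=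
      sum_le_sum_of_subset_of_nonneg (filter_subset _ _) fun d _ _ =>
        add_nonneg (by positivity) (sum_nonneg fun j _ => div_nonneg (hT0 d j) (by positivity))
    _ ≤ ε / 2 * D + J * (ε / (2 * (J + 1)) * D) := by
      rw [sum_add_distrib, sum_comm]
      refine add_le_add (le_of_eq ?_) ((sum_le_sum h9).trans (le_of_eq ?_))
      · rw [sum_const, Nat.card_Ico, nsmul_eq_mul, show 2 * D - D = D by omega, mul_comm]
      · rw [sum_const, card_range, nsmul_eq_mul]
    _ ≤ ε * D := by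
      have : (J : ℝ) * (ε / (2 * (J + 1)) * D) ≤ (J + 1) * (ε / (2 * (J + 1)) * D) := by
        gcongr; linarith
      have e : ((J : ℝ) + 1) * (ε / (2 * (J + 1)) * D) = ε / 2 * D := by field_simp
      linarith

end Pool.Agent.Lib.MP_458f0b_nt.Pois
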