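import Pool.Agent.Lib.MP_458f0b_nt.Pois.Fixed
import Pool.Agent.Lib.MP_458f0b_nt.Pois.Good

open Finset Filter Topology

namespace Pool.Agent.Lib.MP_458f0b_nt.Pois

lemma grid_share_nonneg (lam : ℝ) (k d : ℕ) : 0 ≤ share lam k d := by
  unfold share
  positivity

lemma grid_share_le_one (lam : ℝ) (k d : ℕ) : share lam k d ≤ 1 := by
  unfold share
  refine div_le_one_of_le₀ ?_ (Nat.cast_nonneg _)
  rw [Nat.cast_le, Nat.totient_eq_card_coprime]
  refine Finset.card_le_card fun a ha => ?_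
  rw [Finset.mem_filter] at ha ⊢
  exact ⟨ha.1, ha.2.1.symm⟩

/-- the real-number bookkeeping for one good modulus -/
lemma grid_aux {a b φ y g δ s P Q r : ℝ} (hφ : 0 < φ) (hφy : φ ≤ y) (hy : y ≤ (1 + δ) * φ)
    (hb0 : 0 ≤ b) (hb : b ≤ y) (hab : |a - b| ≤ y - φ + g) (hg : g ≤ s * φ)
    (hPQ : |P - Q| ≤ r) : |a / φ - Q| ≤ 2 * δ + s + r + |b / y - P| := by
  have hy0 : 0 < y := hφ.trans_le hφy
  have h1 : |a / φ - b / φ| ≤ δ + s := by
    rw [← sub_div, abs_div, abs_of_pos hφ, div_le_iff₀ hφ]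
    linarith
  have h2 : |b / φ - b / y| ≤ δ := by
    have e : b / φ - b / y = (b / y) * ((y - φ) / φ) := by
      field_simp
    have h3 : (y - φ) / φ ≤ δ := by
      rw [div_le_iff₀ hφ]
      linarith
    have h4 : 0 ≤ (y - φ) / φ := div_nonneg (by linarith) hφ.le
    have h5 : b / y ≤ 1 := div_le_one_of_le₀ hb hy0.le
    have h6 : 0 ≤ b / y := div_nonneg hb0 hy0.le
    rw [e, abs_of_nonneg (mul_nonneg h6 h4)]
    exact (mul_le_of_le_one_left h4 h5).trans h3
  have h7 := abs_sub_le (a / φ) (b / φ) Q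
  have h8 := abs_sub_le (b / φ) (b / y) Q
  have h9 := abs_sub_le (b / y) P Q
  linarith

/-- the Poisson law on a dyadic range of moduli -/
theorem dyadic_law (lam : ℝ) (hlam : 0 < lam) (k : ℕ) (ε : ℝ) (hε : 0 < ε) :
    ∀ᶠ D : ℕ in atTop, ∑ d ∈ Ico D (2 * D), |share lam k d - pois lam k| ≤ ε * D := by
  obtain ⟨δ1, hδ1, -, hsmall⟩ := few_small_phi (ε / 8) (by positivity)
  obtain ⟨ρ0, hρ0, hcont⟩ := Metric.continuousAt_iff.1
    ((pois_continuous k).continuousAt (x := lam)) (ε / 8) (by positivity)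
  obtain ⟨δ2, η0, hδ2, hδρ, hη0, hch⟩ := choose_height lam δ1 (min (ρ0 / 2) (ε / 16)) hlam hδ1
    (lt_min (by positivity) (by positivity))
  obtain ⟨η, hη, hηη, hηε⟩ : ∃ η : ℝ, 0 < η ∧ η ≤ η0 ∧ η ≤ ε * δ1 / 16 :=
    ⟨min η0 (ε * δ1 / 16), lt_min hη0 (by positivity), min_le_left _ _, min_le_right _ _⟩
  obtain ⟨I, hI⟩ := hch η hη hηη
  have hfix : ∀ᶠ w : ℕ in atTop, ∀ i ∈ Icc 1 I, ∀ᶠ D : ℕ in atTop, ∀ X : ℕ,
      X = ⌊(i : ℝ) * η * D * Real.log D⌋₊ →
      ∑ d ∈ (Ico D (2 * D)).filter (fun d : ℕ => δ1 ≤ om w d),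
        |(((Ad w d).filter (fun a => cnt X d a = k)).card : ℝ) / (d * om w d) -
          pois (X / (d * om w d * Real.log X)) k| ≤ ε / (8 * (I + 1)) * D :=
    (Filter.eventually_all_finset _).2 fun i hi =>
      fixed_c k (i * η) δ1 _ (mul_pos (Nat.cast_pos.2 (Finset.mem_Icc.1 hi).1) hη) hδ1
        (by positivity)
  obtain ⟨w, hw1, hw2⟩ := ((few_rough δ2 (ε / 8) hδ2 (by positivity)).and hfix).exists
  have hgap := (Filter.eventually_all_finset (Icc 1 I)).2 fun i _ => gap_primes η hη i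
  filter_upwards [hI, (Filter.eventually_all_finset _).2 hw2, hgap, eventually_ge_atTop 1] with
    D hD hF hG hD1
  obtain ⟨F, hFd⟩ : ∃ F : ℕ → ℕ → ℝ, ∀ i d, F i d =
      |(((Ad w d).filter (fun a => cnt ⌊(i : ℝ) * η * D * Real.log D⌋₊ d a = k)).card : ℝ) /
        (d * om w d) - pois ((⌊(i : ℝ) * η * D * Real.log D⌋₊ : ℕ) /
          (d * om w d * Real.log (⌊(i : ℝ) * η * D * Real.log D⌋₊ : ℕ))) k| :=
    ⟨_, fun _ _ => rfl⟩
  have hF0 : ∀ i d : ℕ, 0 ≤ if δ1 ≤ om w d then F i d else 0 := fun i d => by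
    split_ifs
    · rw [hFd]
      exact abs_nonneg _
    · exact le_rfl
  have pt : ∀ d ∈ Ico D (2 * D), |share lam k d - pois lam k| ≤
      3 * ε / 8 + (if (d.totient : ℝ) < δ1 * d then 1 else 0) +
        (if (1 + δ2) * (d.totient : ℝ) < d * om w d then 1 else 0) +
        ∑ i ∈ Icc 1 I, if δ1 ≤ om w d then F i d else 0 := by
    intro d hd
    have hs := Finset.sum_nonneg fun i (_ : i ∈ Icc 1 I) => hF0 i d
    have h1 : |share lam k d - pois lam k| ≤ 1 := by
      have := grid_share_nonneg lam k d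
      have := grid_share_le_one lam k d
      have := pois_nonneg hlam.le k
      have := pois_le_one hlam.le k
      rw [abs_le]
      constructor <;> linarith
    by_cases b1 : (d.totient : ℝ) < δ1 * d
    · have h0 : (0 : ℝ) ≤ if (1 + δ2) * (d.totient : ℝ) < d * om w d then 1 else 0 := by
        split_ifs <;> norm_num
      rw [if_pos b1]
      linarith
    by_cases b2 : (1 + δ2) * (d.totient : ℝ) < d * om w d
    · rw [if_neg b1, if_pos b2]
      linarith
    rw [if_neg b1, if_neg b2]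
    rw [not_lt] at b1 b2
    have hDd : D ≤ d := (Finset.mem_Ico.1 hd).1
    have hd1 : 1 ≤ d := hD1.trans hDd
    have hd0 : (0 : ℝ) < d := Nat.cast_pos.2 hd1
    have hφ : (0 : ℝ) < d.totient := (mul_pos hδ1 hd0).trans_le b1
    have hle := totient_le w d
    have hom : δ1 ≤ om w d := by
      refine le_of_mul_le_mul_left ?_ hd0
      linarith
    obtain ⟨i, hi, hX, hX', hμ⟩ := hD d hd _ b1 hle b2
    have hcmp := compare_height w d k _ _ _ hd1 hX hX'
    have hb : (((Ad w d).filter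
        (fun a => cnt ⌊(i : ℝ) * η * D * Real.log D⌋₊ d a = k)).card : ℝ) ≤ d * om w d := by
      rw [← card_Ad]
      exact Nat.cast_le.2 (Finset.card_filter_le _ _)
    have hg : 2 * η * D ≤ ε / 8 * d.totient := by
      have h2 : (D : ℝ) ≤ d := Nat.cast_le.2 hDd
      have h3 : (0 : ℝ) ≤ D := Nat.cast_nonneg _
      calc 2 * η * D ≤ 2 * (ε * δ1 / 16) * d := by gcongr
        _ = ε / 8 * (δ1 * d) := by ring
        _ ≤ ε / 8 * d.totient := by gcongr
    have hP := hcont (lt_of_le_of_lt (hμ.trans (min_le_left _ _)) (half_lt_self hρ0))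
    have key := grid_aux hφ hle b2 (Nat.cast_nonneg _) hb
      (hcmp.trans (by rw [add_assoc]; exact add_le_add le_rfl (hG i hi))) hg hP.le
    rw [← hFd] at key
    have h4 := Finset.single_le_sum (fun i (_ : i ∈ Icc 1 I) => hF0 i d) hi
    rw [if_pos hom] at h4
    have h5 := hδρ.trans (min_le_right _ _)
    unfold share
    linarith
  refine (Finset.sum_le_sum pt).trans ?_
  rw [Finset.sum_add_distrib, Finset.sum_add_distrib, Finset.sum_add_distrib, Finset.sum_comm,
    Finset.sum_boole, Finset.sum_boole, Finset.sum_const, Nat.card_Ico, nsmul_eq_mul,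
    show 2 * D - D = D by omega]
  have h6 : ∑ i ∈ Icc 1 I, ∑ d ∈ Ico D (2 * D), (if δ1 ≤ om w d then F i d else 0) ≤
      ∑ _i ∈ Icc 1 I, ε / (8 * (I + 1)) * D := by
    refine Finset.sum_le_sum fun i hi => ?_
    rw [← Finset.sum_filter]
    simp only [hFd]
    exact hF i hi _ rfl
  rw [Finset.sum_const, Nat.card_Icc, nsmul_eq_mul, Nat.add_sub_cancel] at h6
  have h7 : (I : ℝ) * (ε / (8 * (I + 1)) * D) ≤ ε / 8 * D := by
    have e : ε / 8 * D = ((I : ℝ) + 1) * (ε / (8 * (I + 1)) * D) := by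
      field_simp
    rw [e]
    exact mul_le_mul_of_nonneg_right (by linarith) (by positivity)
  have h8 := hsmall D
  have h9 := hw1 D
  have h10 : 0 ≤ ε * D := by positivity
  linarith

lemma share_nonneg (lam : ℝ) (k d : ℕ) : 0 ≤ share lam k d := grid_share_nonneg lam k d

lemma share_le_one (lam : ℝ) (k d : ℕ) : share lam k d ≤ 1 := grid_share_le_one lam k d

end Pool.Agent.Lib.MP_458f0b_nt.Pois
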