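import Pool.Agent.Lib.MP_458f0b_nt.Pois.Box

open Finset Filter Topology

namespace Pool.Agent.Lib.MP_458f0b_nt.Pois

/-- one Cauchy-Schwarz step: the coordinate `a` is doubled, the second copy is stored in `b` -/
lemma wcs_step {U : Type} [Fintype U] [DecidableEq U] {T : ℕ} (hT : 0 < T) {a b : U}
    (hab : a ≠ b) (Γ M Y : (U → ℤ) → ℝ)
    (hΓ : ∀ x y, Γ (Function.update x a y) = Γ x)
    (hMa : ∀ x y, M (Function.update x a y) = M x)
    (hMb : ∀ x y, M (Function.update x b y) = M x)
    (hY : ∀ x y, Y (Function.update x b y) = Y x)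
    (h : ∀ x, |Γ x| ≤ M x) :
    boxAv T (fun x => Γ x * Y x) ^ 2 ≤
      boxAv T M * boxAv T (fun x => M x * (Y x * Y (Function.update x a (x b)))) := by
  set Z : (U → ℤ) → ℝ := fun x => (∑ y ∈ Ico (0 : ℤ) T, Y (Function.update x a y)) / T with hZ
  have hZa : ∀ x y, Z (Function.update x a y) = Z x := by
    intro x y
    simp only [hZ, Function.update_idem]
  have e1 : boxAv T (fun x => Γ x * Y x) = boxAv T (fun x => Γ x * Z x) := by
    rw [box_resample hT a]
    congr 1
    funext x
    simp only [hΓ, hZ]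
    rw [← Finset.mul_sum, mul_div_assoc]
  have e2 : boxAv T (fun x => M x * (Y x * Y (Function.update x a (x b)))) =
      boxAv T (fun x => M x * (Y x * Z x)) := by
    rw [box_resample hT b]
    congr 1
    funext x
    simp only [hMb, hY, hZ, Function.update_self]
    have : ∀ y : ℤ, Y (Function.update (Function.update x b y) a y) =
        Y (Function.update x a y) := by
      intro y
      rw [Function.update_comm hab.symm, hY]
    simp only [this]
    rw [← Finset.mul_sum, ← Finset.mul_sum, mul_div_assoc, mul_div_assoc]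
  have e3 : boxAv T (fun x => M x * (Y x * Z x)) = boxAv T (fun x => M x * Z x ^ 2) := by
    rw [box_resample hT a]
    congr 1
    funext x
    simp only [hMa, hZa]
    rw [← Finset.mul_sum, ← Finset.sum_mul, mul_div_assoc, mul_div_right_comm, sq]
  rw [e1, e2, e3]
  exact box_cs T M Γ Z h

lemma wcs_mix_false {R : Type} [DecidableEq R] {ω : Finset R} {i : R} (hi : i ∉ ω)
    (x : R × Bool → ℤ) (y : ℤ) :
    mix ω (Function.update x (i, false) y) = Function.update (mix ω x) i y := by
  funext l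
  by_cases hl : l = i
  · subst hl
    simp [mix, hi]
  · have : (l, decide (l ∈ ω)) ≠ (i, false) := fun h => hl (congrArg Prod.fst h)
    simp [mix, Function.update_of_ne this, Function.update_of_ne hl]

lemma wcs_mix_true {R : Type} [DecidableEq R] {ω : Finset R} {i : R} (hi : i ∉ ω)
    (x : R × Bool → ℤ) (y : ℤ) :
    mix ω (Function.update x (i, true) y) = mix ω x := by
  funext l
  have : (l, decide (l ∈ ω)) ≠ (i, true) := by
    intro h
    have h1 : l = i := congrArg Prod.fst h
    have h2 : decide (l ∈ ω) = true := congrArg Prod.snd h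
    exact hi (h1 ▸ of_decide_eq_true h2)
  simp [mix, Function.update_of_ne this]

lemma wcs_mix_insert {R : Type} [DecidableEq R] {ω : Finset R} {i : R} (hi : i ∉ ω)
    (x : R × Bool → ℤ) :
    mix (insert i ω) x = mix ω (Function.update x (i, false) (x (i, true))) := by
  rw [wcs_mix_false hi]
  funext l
  by_cases hl : l = i
  · subst hl
    simp [mix]
  · simp [mix, hl]

/-- the integrand after doubling the coordinates in `S` -/
noncomputable def wcsP {R : Type} [Fintype R] [DecidableEq R] (F : (R → ℤ) → ℝ)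
    (G M : R → (R → ℤ) → ℝ) (S S' : Finset R) (x : R × Bool → ℤ) : ℝ :=
  (∏ ω ∈ S.powerset, F (mix ω x)) * (∏ j ∈ univ \ S', ∏ ω ∈ S.powerset, G j (mix ω x)) *
    ∏ j ∈ S, ∏ ω ∈ (S.erase j).powerset, M j (mix ω x)

lemma wcs_prod_true {R : Type} [DecidableEq R] {S : Finset R} {i : R} (hi : i ∉ S)
    (H : (R → ℤ) → ℝ) (x : R × Bool → ℤ) (y : ℤ) :
    ∏ ω ∈ S.powerset, H (mix ω (Function.update x (i, true) y)) =
      ∏ ω ∈ S.powerset, H (mix ω x) :=
  Finset.prod_congr rfl fun ω hω => by
    rw [wcs_mix_true (fun h => hi (Finset.mem_powerset.mp hω h))]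

lemma wcs_prod_false {R : Type} [DecidableEq R] {S : Finset R} {i : R} (hi : i ∉ S)
    (H : (R → ℤ) → ℝ) (hH : ∀ t y, H (Function.update t i y) = H t) (x : R × Bool → ℤ) (y : ℤ) :
    ∏ ω ∈ S.powerset, H (mix ω (Function.update x (i, false) y)) =
      ∏ ω ∈ S.powerset, H (mix ω x) :=
  Finset.prod_congr rfl fun ω hω => by
    rw [wcs_mix_false (fun h => hi (Finset.mem_powerset.mp hω h)), hH]

lemma wcs_prod_insert {R : Type} [DecidableEq R] {S : Finset R} {i : R} (hi : i ∉ S)
    (H : (R → ℤ) → ℝ) (x : R × Bool → ℤ) :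
    ∏ ω ∈ (insert i S).powerset, H (mix ω x) =
      (∏ ω ∈ S.powerset, H (mix ω x)) *
        ∏ ω ∈ S.powerset, H (mix ω (Function.update x (i, false) (x (i, true)))) := by
  rw [Finset.prod_powerset_insert hi]
  congr 1
  exact Finset.prod_congr rfl fun ω hω => by
    rw [wcs_mix_insert (fun h => hi (Finset.mem_powerset.mp hω h))]

lemma wcs_split {R : Type} [Fintype R] [DecidableEq R] (F : (R → ℤ) → ℝ)
    (G M : R → (R → ℤ) → ℝ) {S : Finset R} {i : R} (hi : i ∉ S) (x : R × Bool → ℤ) :
    wcsP F G M S S x =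
      (∏ ω ∈ S.powerset, G i (mix ω x)) * wcsP F G M S (insert i S) x := by
  have e : (univ \ S : Finset R) = insert i (univ \ insert i S) := by
    ext j
    by_cases hj : j = i
    · subst hj; simp [hi]
    · simp [hj]
  have hi' : i ∉ (univ \ insert i S : Finset R) := by simp
  unfold wcsP
  rw [e, Finset.prod_insert hi']
  ring

lemma wcs_true {R : Type} [Fintype R] [DecidableEq R] (F : (R → ℤ) → ℝ)
    (G M : R → (R → ℤ) → ℝ) {S : Finset R} (S' : Finset R) {i : R} (hi : i ∉ S)
    (x : R × Bool → ℤ) (y : ℤ) :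
    wcsP F G M S S' (Function.update x (i, true) y) = wcsP F G M S S' x := by
  unfold wcsP
  rw [wcs_prod_true hi F]
  congr 1
  · congr 1
    exact Finset.prod_congr rfl fun j _ => wcs_prod_true hi (G j) x y
  · exact Finset.prod_congr rfl fun j _ =>
      wcs_prod_true (fun h => hi (Finset.mem_of_mem_erase h)) (M j) x y

lemma wcs_insert {R : Type} [Fintype R] [DecidableEq R] (F : (R → ℤ) → ℝ)
    (G M : R → (R → ℤ) → ℝ) {S : Finset R} {i : R} (hi : i ∉ S) (x : R × Bool → ℤ) :
    wcsP F G M (insert i S) (insert i S) x =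
      (∏ ω ∈ S.powerset, M i (mix ω x)) * (wcsP F G M S (insert i S) x *
        wcsP F G M S (insert i S) (Function.update x (i, false) (x (i, true)))) := by
  unfold wcsP
  rw [Finset.prod_insert hi, Finset.erase_insert hi, wcs_prod_insert hi F]
  have e1 : ∏ j ∈ univ \ insert i S, ∏ ω ∈ (insert i S).powerset, G j (mix ω x) =
      (∏ j ∈ univ \ insert i S, ∏ ω ∈ S.powerset, G j (mix ω x)) *
        ∏ j ∈ univ \ insert i S, ∏ ω ∈ S.powerset,
          G j (mix ω (Function.update x (i, false) (x (i, true)))) := by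
    rw [← Finset.prod_mul_distrib]
    exact Finset.prod_congr rfl fun j _ => wcs_prod_insert hi (G j) x
  have e2 : ∏ j ∈ S, ∏ ω ∈ ((insert i S).erase j).powerset, M j (mix ω x) =
      (∏ j ∈ S, ∏ ω ∈ (S.erase j).powerset, M j (mix ω x)) *
        ∏ j ∈ S, ∏ ω ∈ (S.erase j).powerset,
          M j (mix ω (Function.update x (i, false) (x (i, true)))) := by
    rw [← Finset.prod_mul_distrib]
    refine Finset.prod_congr rfl fun j hj => ?_
    have hij : i ≠ j := fun h => hi (h ▸ hj)
    rw [Finset.erase_insert_of_ne hij]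
    exact wcs_prod_insert (fun h => hi (Finset.mem_of_mem_erase h)) (M j) x
  rw [e1, e2]
  ring

lemma wcs_sq {R : Type} [Fintype R] [DecidableEq R] {T : ℕ} (hT : 0 < T) (F : (R → ℤ) → ℝ)
    (G M : R → (R → ℤ) → ℝ) (B : ℝ)
    (hG : ∀ i t y, G i (Function.update t i y) = G i t)
    (hM : ∀ i t y, M i (Function.update t i y) = M i t)
    (hGM : ∀ i t, |G i t| ≤ M i t) {S : Finset R} {i : R} (hi : i ∉ S)
    (hB : boxAv T (fun x : R × Bool → ℤ => ∏ ω ∈ S.powerset, M i (mix ω x)) ≤ B) :
    boxAv T (wcsP F G M S S) ^ 2 ≤ B * |boxAv T (wcsP F G M (insert i S) (insert i S))| := by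
  have hab : ((i, false) : R × Bool) ≠ (i, true) := by simp
  have key := wcs_step hT hab (fun x => ∏ ω ∈ S.powerset, G i (mix ω x))
    (fun x => ∏ ω ∈ S.powerset, M i (mix ω x)) (wcsP F G M S (insert i S))
    (fun x y => wcs_prod_false hi (G i) (hG i) x y)
    (fun x y => wcs_prod_false hi (M i) (hM i) x y)
    (fun x y => wcs_prod_true hi (M i) x y)
    (fun x y => wcs_true F G M _ hi x y)
    (fun x => by
      rw [Finset.abs_prod]
      exact Finset.prod_le_prod (fun _ _ => abs_nonneg _) fun ω _ => hGM i _)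
  have e1 : wcsP F G M S S =
      fun x => (∏ ω ∈ S.powerset, G i (mix ω x)) * wcsP F G M S (insert i S) x :=
    funext fun x => wcs_split F G M hi x
  have e2 : wcsP F G M (insert i S) (insert i S) =
      fun x => (∏ ω ∈ S.powerset, M i (mix ω x)) * (wcsP F G M S (insert i S) x *
        wcsP F G M S (insert i S) (Function.update x (i, false) (x (i, true)))) :=
    funext fun x => wcs_insert F G M hi x
  have h0 : 0 ≤ boxAv T (fun x : R × Bool → ℤ => ∏ ω ∈ S.powerset, M i (mix ω x)) := by
    rw [← boxAv_const (U := R × Bool) hT 0]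
    exact boxAv_mono T fun x _ =>
      Finset.prod_nonneg fun ω _ => (abs_nonneg _).trans (hGM i _)
  rw [e1, e2]
  refine key.trans ?_
  exact (mul_le_mul_of_nonneg_left (le_abs_self _) h0).trans
    (mul_le_mul_of_nonneg_right hB (abs_nonneg _))

/-- iterated weighted Cauchy-Schwarz -/
theorem wcs {R : Type} [Fintype R] [DecidableEq R] {T : ℕ} (hT : 0 < T) (F : (R → ℤ) → ℝ)
    (G M : R → (R → ℤ) → ℝ) (B : ℝ) (hB0 : 0 ≤ B)
    (hG : ∀ i t y, G i (Function.update t i y) = G i t)
    (hM : ∀ i t y, M i (Function.update t i y) = M i t)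
    (hGM : ∀ i t, |G i t| ≤ M i t)
    (hB : ∀ i (S : Finset R), i ∉ S →
      boxAv T (fun x : R × Bool → ℤ => ∏ ω ∈ S.powerset, M i (mix ω x)) ≤ B) :
    |boxAv T (fun t => F t * ∏ i, G i t)| ^ (2 ^ Fintype.card R) ≤
      B ^ (2 ^ Fintype.card R - 1) *
        |boxAv T (fun x : R × Bool → ℤ => (∏ ω ∈ (univ : Finset R).powerset, F (mix ω x)) *
          ∏ i, ∏ ω ∈ (univ.erase i).powerset, M i (mix ω x))| := by
  have e0 : boxAv T (wcsP F G M ∅ ∅) = boxAv T (fun t => F t * ∏ i, G i t) := by
    rw [← box_comp_inj (U := R × Bool) hT (fun l : R => (l, false))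
      (fun _ _ h => congrArg Prod.fst h) (fun t => F t * ∏ i, G i t)]
    congr 1
    funext x
    have : mix (∅ : Finset R) x = fun l => x (l, false) := by
      funext l; simp [mix]
    simp [wcsP, this]
  have main : ∀ S : Finset R, |boxAv T (fun t => F t * ∏ i, G i t)| ^ (2 ^ S.card) ≤
      B ^ (2 ^ S.card - 1) * |boxAv T (wcsP F G M S S)| := by
    intro S
    induction S using Finset.induction_on with
    | empty => simp [e0]
    | insert i S hi ih =>
      rw [Finset.card_insert_of_notMem hi]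
      have h1 := wcs_sq hT F G M B hG hM hGM hi (hB i S hi)
      obtain ⟨n, hn⟩ : ∃ n, 2 ^ S.card = n + 1 :=
        ⟨2 ^ S.card - 1, (Nat.sub_add_cancel Nat.one_le_two_pow).symm⟩
      have hn2 : 2 ^ (S.card + 1) - 1 = n * 2 + 1 := by rw [pow_succ, hn]; omega
      rw [hn2, pow_succ 2 S.card, pow_mul]
      rw [hn, Nat.add_sub_cancel] at ih
      rw [hn]
      calc (|boxAv T (fun t => F t * ∏ i, G i t)| ^ (n + 1)) ^ 2
          ≤ (B ^ n * |boxAv T (wcsP F G M S S)|) ^ 2 :=
            pow_le_pow_left₀ (by positivity) ih 2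
        _ = B ^ (n * 2) * boxAv T (wcsP F G M S S) ^ 2 := by
            rw [mul_pow, sq_abs, pow_mul]
        _ ≤ B ^ (n * 2) * (B * |boxAv T (wcsP F G M (insert i S) (insert i S))|) :=
            mul_le_mul_of_nonneg_left h1 (by positivity)
        _ = B ^ (n * 2 + 1) * |boxAv T (wcsP F G M (insert i S) (insert i S))| := by ring
  have e1 : wcsP F G M univ univ =
      fun x : R × Bool → ℤ => (∏ ω ∈ (univ : Finset R).powerset, F (mix ω x)) *
          ∏ i, ∏ ω ∈ (univ.erase i).powerset, M i (mix ω x) := by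
    funext x
    simp only [wcsP, sdiff_self, Finset.bot_eq_empty, Finset.prod_empty, mul_one]
  have := main univ
  rwa [e1, Finset.card_univ] at this

end Pool.Agent.Lib.MP_458f0b_nt.Pois
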