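import Pool.Agent.Lib.MP_458f0b_nt.Pois.LFC
import Pool.Agent.Lib.MP_458f0b_nt.Pois.WCS

open Finset Filter Topology

namespace Pool.Agent.Lib.MP_458f0b_nt.Pois

/-- the conclusion of the linear forms condition at fixed parameters -/
def local_L (K m w z T : ℕ) : Prop :=
  ∀ {U A : Type} [Fintype U] [DecidableEq U] (s : Finset A) (b : A → ℤ) (c : A → U → ℤ)
    (bad : Finset ℕ) (h : ℝ), Fintype.card U ≤ K → s.card ≤ K →
    (∀ α ∈ s, ∀ p ∈ P1 w z, ∃ v, ¬ (p : ℤ) ∣ c α v) →
    (∀ α ∈ s, ∀ β ∈ s, α ≠ β → ∀ p ∈ P1 w z, p ∉ bad →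
      ∃ v, (¬ (p : ℤ) ∣ c α v ∧ c β v = 0) ∨ (¬ (p : ℤ) ∣ c β v ∧ c α v = 0)) →
    ∑ p ∈ (P1 w z).filter (fun p => p ∈ bad), (p : ℝ)⁻¹ ≤ h →
    |boxAv T (fun t => ∏ α ∈ s, nu1 w z (frm (b α) (c α) t)) - 1| ≤
      8 * Real.exp (-m) * Real.exp (2 * K * h) + (Real.exp (2 * K * h) - 1)

/-- the hypotheses on a star shaped system of forms -/
structure local_Sys {R : Type} (w z : ℕ) (l0 : R) (act : Finset R) (c : Option R → R → ℤ)
    (bad : Finset ℕ) : Prop where
  diag : ∀ i ∈ act, c (some i) i = 0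
  base : ∀ p ∈ P1 w z, ¬ (p : ℤ) ∣ c none l0 ∧ ∀ i ∈ act, ¬ (p : ℤ) ∣ c (some i) l0
  good : ∀ p ∈ P1 w z, p ∉ bad →
    (∀ l, ¬ (p : ℤ) ∣ c none l) ∧ ∀ i ∈ act, ∀ l, l ≠ i → ¬ (p : ℤ) ∣ c (some i) l

section

variable {R : Type} [Fintype R] [DecidableEq R] {K m w z T : ℕ} {l0 : R} {act : Finset R}
  {c : Option R → R → ℤ} {bad : Finset ℕ} {h : ℝ}

omit [Fintype R] [DecidableEq R] in
lemma local_Sys.base' (H : local_Sys w z l0 act c bad) {α : Option R}
    (hα : ∀ i, α = some i → i ∈ act) {p : ℕ} (hp : p ∈ P1 w z) : ¬ (p : ℤ) ∣ c α l0 := by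
  cases α with
  | none => exact (H.base p hp).1
  | some i => exact (H.base p hp).2 i (hα i rfl)

omit [Fintype R] [DecidableEq R] in
lemma local_Sys.good' (H : local_Sys w z l0 act c bad) {α : Option R}
    (hα : ∀ i, α = some i → i ∈ act) {p : ℕ} (hp : p ∈ P1 w z) (hb : p ∉ bad) {l : R}
    (hl : α ≠ some l) : ¬ (p : ℤ) ∣ c α l := by
  cases α with
  | none => exact (H.good p hp hb).1 l
  | some i => exact (H.good p hp hb).2 i (hα i rfl) l fun e => hl (by rw [e])

/-- subfamilies of the original system -/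
lemma local_single (hL : local_L K m w z T) (H : local_Sys w z l0 act c bad) (b : Option R → ℤ)
    (hK : Fintype.card R + 1 ≤ K)
    (hh : ∑ p ∈ (P1 w z).filter (fun p => p ∈ bad), (p : ℝ)⁻¹ ≤ h) (s : Finset (Option R))
    (hs : ∀ α ∈ s, ∀ i, α = some i → i ∈ act) :
    boxAv T (fun t => ∏ α ∈ s, nu1 w z (frm (b α) (c α) t)) ≤ 9 * Real.exp (2 * K * h) := by
  have h1 := hL s b c bad h (by omega)
    ((Finset.card_le_univ s).trans (by rw [Fintype.card_option]; exact hK))
    (fun α hα p hp => ⟨l0, H.base' (hs α hα) hp⟩)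
    (fun α hα β hβ hne p hp hb => by
      cases β with
      | some i => exact ⟨i, Or.inl ⟨H.good' (hs α hα) hp hb hne, H.diag i (hs _ hβ i rfl)⟩⟩
      | none =>
        cases α with
        | none => exact absurd rfl hne
        | some i =>
          exact ⟨i, Or.inr ⟨H.good' (hs _ hβ) hp hb hne.symm, H.diag i (hs _ hα i rfl)⟩⟩) hh
  have h2 : Real.exp (-m) ≤ 1 := Real.exp_le_one_iff.2 (by simp)
  have h3 := Real.exp_pos (2 * K * h)
  have h4 := (abs_le.1 h1).2
  nlinarith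

lemma local_frm_mix (b : ℤ) (c : R → ℤ) (ω : Finset R) (x : R × Bool → ℤ) :
    frm b c (mix ω x) =
      frm b (fun v : R × Bool => if v.2 = decide (v.1 ∈ ω) then c v.1 else 0) x := by
  unfold frm mix
  rw [Fintype.sum_prod_type]
  congr 1
  refine Finset.sum_congr rfl fun l _ => ?_
  simp only [ite_mul, zero_mul]
  rw [Finset.sum_ite_eq' univ (decide (l ∈ ω)) (fun y => c l * x (l, y))]
  simp

/-- subfamilies of the doubled system -/
lemma local_double (hL : local_L K m w z T) (H : local_Sys w z l0 act c bad) (b : Option R → ℤ)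
    (hK : (Fintype.card R + 1) * 2 ^ Fintype.card R ≤ K) (hK2 : Fintype.card R * 2 ≤ K)
    (hh : ∑ p ∈ (P1 w z).filter (fun p => p ∈ bad), (p : ℝ)⁻¹ ≤ h)
    (s : Finset (Option R × Finset R))
    (hs : ∀ a ∈ s, ∀ i, a.1 = some i → i ∈ act ∧ i ∉ a.2) :
    |boxAv T (fun x : R × Bool → ℤ => ∏ a ∈ s, nu1 w z (frm (b a.1) (c a.1) (mix a.2 x))) - 1| ≤
      8 * Real.exp (-m) * Real.exp (2 * K * h) + (Real.exp (2 * K * h) - 1) := by
  simp only [local_frm_mix]
  have key : ∀ α ∈ s, ∀ β ∈ s, α.1 ≠ β.1 → ∀ i, β.1 = some i → ∀ p ∈ P1 w z, p ∉ bad →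
      ∃ v : R × Bool, ¬ (p : ℤ) ∣ (if v.2 = decide (v.1 ∈ α.2) then c α.1 v.1 else 0) ∧
        (if v.2 = decide (v.1 ∈ β.2) then c β.1 v.1 else 0) = 0 := by
    intro α hα β hβ hne i hi p hp hb
    refine ⟨(i, decide (i ∈ α.2)), ?_, ?_⟩
    · rw [if_pos rfl]
      exact H.good' (fun j hj => (hs α hα j hj).1) hp hb (by rwa [← hi])
    · rw [hi, H.diag i (hs β hβ i hi).1, ite_self]
  refine hL s (fun a => b a.1)
    (fun a (v : R × Bool) => if v.2 = decide (v.1 ∈ a.2) then c a.1 v.1 else 0) bad h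
    (by rw [Fintype.card_prod, Fintype.card_bool]; exact hK2)
    ((Finset.card_le_univ s).trans (by
      rw [Fintype.card_prod, Fintype.card_option, Fintype.card_finset]; exact hK))
    (fun a ha p hp => ⟨(l0, decide (l0 ∈ a.2)), by
      rw [if_pos rfl]; exact H.base' (fun j hj => (hs a ha j hj).1) hp⟩)
    (fun α hα β hβ hne p hp hb => ?_) hh
  by_cases e : α.1 = β.1
  · have e2 : α.2 ≠ β.2 := fun e2 => hne (Prod.ext e e2)
    obtain ⟨l, hl⟩ : ∃ l, ¬ (l ∈ α.2 ↔ l ∈ β.2) := by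
      by_contra hc
      push Not at hc
      exact e2 (Finset.ext hc)
    refine ⟨(l, decide (l ∈ α.2)), Or.inl ⟨?_, ?_⟩⟩
    · rw [if_pos rfl]
      refine H.good' (fun j hj => (hs α hα j hj).1) hp hb fun e3 => hl ?_
      exact iff_of_false (hs α hα l e3).2 (hs β hβ l (e ▸ e3)).2
    · exact if_neg fun e3 => hl (decide_eq_decide.1 e3)
  · cases hβ1 : β.1 with
    | some i =>
      obtain ⟨v, hv⟩ := key α hα β hβ e i hβ1 p hp hb
      rw [hβ1] at hv
      exact ⟨v, Or.inl hv⟩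
    | none =>
      cases hα1 : α.1 with
      | none => exact absurd (hα1.trans hβ1.symm) e
      | some i =>
        obtain ⟨v, hv⟩ := key β hβ α hα (Ne.symm e) i hα1 p hp hb
        rw [hβ1, hα1] at hv
        exact ⟨v, Or.inr hv⟩

lemma local_frm_update (b : ℤ) (c : R → ℤ) (i : R) (hc : c i = 0) (t : R → ℤ) (y : ℤ) :
    frm b c (Function.update t i y) = frm b c t := by
  unfold frm
  congr 1
  refine Finset.sum_congr rfl fun l _ => ?_
  by_cases e : l = i
  · rw [e, hc, zero_mul, zero_mul]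
  · rw [Function.update_of_ne e]

lemma local_prod_eq (act : Finset R) (f : Option R → Finset R → ℝ) (t : Finset (Finset R)) :
    (∏ ω ∈ t, f none ω) *
        ∏ i, ∏ ω ∈ (univ.erase i).powerset, (if i ∈ act then f (some i) ω else 1) =
      ∏ a ∈ (univ : Finset (Option R × Finset R)).filter
        (fun a => (a.1 = none → a.2 ∈ t) ∧ ∀ i, a.1 = some i → i ∈ act ∧ i ∉ a.2), f a.1 a.2 := by
  rw [Finset.prod_filter, Fintype.prod_prod_type, Fintype.prod_option]
  congr 1
  · rw [← Fintype.prod_ite_mem]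
    refine Finset.prod_congr rfl fun ω _ => ?_
    simp
  · refine Finset.prod_congr rfl fun i _ => ?_
    rw [← Fintype.prod_ite_mem]
    refine Finset.prod_congr rfl fun ω _ => ?_
    by_cases h1 : i ∈ act <;> by_cases h2 : i ∈ ω <;> simp [h1, h2, Finset.subset_erase]

/-- the strong linear forms bound when the bad primes are negligible -/
lemma local_small {r : ℕ} (hL : local_L K m w z T) (H : local_Sys w z l0 act c bad)
    (b : Option R → ℤ) (hT : 0 < T) (hr : Fintype.card R ≤ r)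
    (hK : (Fintype.card R + 1) * 2 ^ Fintype.card R ≤ K) (hK2 : Fintype.card R * 2 ≤ K)
    (hh : ∑ p ∈ (P1 w z).filter (fun p => p ∈ bad), (p : ℝ)⁻¹ ≤ h)
    (hm : 17 * Real.exp (-m) ≤ 1) (hE : Real.exp (2 * K * h) ≤ 1 + Real.exp (-m))
    (G : R → (R → ℤ) → ℝ) (hG : ∀ i t y, G i (Function.update t i y) = G i t)
    (hGM : ∀ i t, |G i t| ≤
      (if i ∈ act then nu1 w z (frm (b (some i)) (c (some i)) t) else 1)) :
    |boxAv T (fun t => (nu1 w z (frm (b none) (c none) t) - 1) * ∏ i, G i t)| ≤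
      68 * Real.exp (-(m : ℝ) / 2 ^ r) := by
  have hε := Real.exp_pos (-(m : ℝ))
  have hδ : 8 * Real.exp (-m) * Real.exp (2 * K * h) + (Real.exp (2 * K * h) - 1) ≤
      17 * Real.exp (-m) := by nlinarith
  have hD : ∀ s : Finset (Option R × Finset R),
      (∀ a ∈ s, ∀ i, a.1 = some i → i ∈ act ∧ i ∉ a.2) →
      |boxAv T (fun x : R × Bool → ℤ =>
        ∏ a ∈ s, nu1 w z (frm (b a.1) (c a.1) (mix a.2 x))) - 1| ≤ 17 * Real.exp (-m) :=
    fun s hs => (local_double hL H b hK hK2 hh s hs).trans hδ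
  have hw := wcs hT (fun t => nu1 w z (frm (b none) (c none) t) - 1) G
    (fun i t => if i ∈ act then nu1 w z (frm (b (some i)) (c (some i)) t) else 1) 2
    (by norm_num) hG
    (fun i t y => by
      by_cases hi : i ∈ act
      · simp only [if_pos hi, local_frm_update _ _ i (H.diag i hi)]
      · simp only [if_neg hi]) hGM
    (fun i S hiS => by
      by_cases hi : i ∈ act
      · simp only [if_pos hi]
        have h1 := hD (S.powerset.map ⟨fun ω => (some i, ω), Prod.mk_right_injective _⟩) (by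
          intro a ha j hj
          obtain ⟨ω, hω, rfl⟩ := Finset.mem_map.1 ha
          obtain rfl : i = j := Option.some.inj hj
          exact ⟨hi, fun h2 => hiS (Finset.mem_powerset.1 hω h2)⟩)
        simp only [Finset.prod_map, Function.Embedding.coeFn_mk] at h1
        linarith [(abs_le.1 h1).2]
      · simp only [if_neg hi, Finset.prod_const_one]
        rw [boxAv_const hT]
        norm_num)
  set P : Finset (Finset R) := (univ : Finset R).powerset with hP
  set n : ℕ := 2 ^ Fintype.card R with hn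
  have hPn : P.card = n := by rw [hP, Finset.card_powerset, Finset.card_univ]
  have hn0 : 0 < n := by positivity
  have hsgn : ∑ t ∈ P.powerset, ∏ _ω ∈ P \ t, (-1 : ℝ) = 0 := by
    have h1 := Finset.prod_add (fun _ : Finset R => (1 : ℝ)) (fun _ => -1) P
    simp only [Finset.prod_const_one, one_mul, add_neg_cancel, Finset.prod_const, hPn,
      zero_pow hn0.ne'] at h1
    simpa only [Finset.prod_const] using h1.symm
  let sf : Finset (Finset R) → Finset (Option R × Finset R) := fun t => univ.filter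
    (fun a => (a.1 = none → a.2 ∈ t) ∧ ∀ i, a.1 = some i → i ∈ act ∧ i ∉ a.2)
  have hexp : boxAv T (fun x : R × Bool → ℤ =>
      (∏ ω ∈ P, (nu1 w z (frm (b none) (c none) (mix ω x)) - 1)) *
        ∏ i, ∏ ω ∈ (univ.erase i).powerset,
          (if i ∈ act then nu1 w z (frm (b (some i)) (c (some i)) (mix ω x)) else 1)) =
      ∑ t ∈ P.powerset, (∏ _ω ∈ P \ t, (-1 : ℝ)) * (boxAv T (fun x : R × Bool → ℤ =>
        ∏ a ∈ sf t, nu1 w z (frm (b a.1) (c a.1) (mix a.2 x))) - 1) := by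
    simp only [mul_sub, Finset.sum_sub_distrib, mul_one, hsgn, sub_zero, ← boxAv_mul]
    rw [← boxAv_sum]
    congr 1
    funext x
    simp only [sub_eq_add_neg]
    rw [Finset.prod_add, Finset.sum_mul]
    refine Finset.sum_congr rfl fun t _ => ?_
    rw [← local_prod_eq act (fun α ω => nu1 w z (frm (b α) (c α) (mix ω x))) t]
    ring
  have hfin : |∑ t ∈ P.powerset, (∏ _ω ∈ P \ t, (-1 : ℝ)) * (boxAv T (fun x : R × Bool → ℤ =>
        ∏ a ∈ sf t, nu1 w z (frm (b a.1) (c a.1) (mix a.2 x))) - 1)| ≤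
      2 ^ n * (17 * Real.exp (-m)) := by
    refine (Finset.abs_sum_le_sum_abs _ _).trans ?_
    refine (Finset.sum_le_card_nsmul _ _ (17 * Real.exp (-m)) fun t _ => ?_).trans ?_
    · rw [abs_mul, Finset.prod_const, abs_pow, abs_neg, abs_one, one_pow, one_mul]
      exact hD _ fun a ha => (Finset.mem_filter.1 ha).2.2
    · rw [Finset.card_powerset, hPn, nsmul_eq_mul]
      norm_num
  rw [hexp] at hw
  refine le_of_pow_le_pow_left₀ hn0.ne' (by positivity) (hw.trans ?_)
  have h2 : Real.exp (-m) ≤ Real.exp (-(m : ℝ) / 2 ^ r) ^ n := by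
    rw [← Real.exp_nat_mul]
    apply Real.exp_le_exp.2
    have h3 : (n : ℝ) ≤ 2 ^ r := by
      rw [hn]
      exact_mod_cast Nat.pow_le_pow_right (by norm_num) hr
    have h4 : (0 : ℝ) < 2 ^ r := by positivity
    rw [← mul_div_assoc, le_div_iff₀ h4]
    have h5 : (0 : ℝ) ≤ m := Nat.cast_nonneg m
    nlinarith
  have h6 : (2 : ℝ) ^ (n - 1) ≤ 2 ^ n := pow_le_pow_right₀ (by norm_num) (Nat.sub_le _ _)
  have h7 : (17 : ℝ) ≤ 17 ^ n := le_self_pow₀ (by norm_num) hn0.ne'
  have h8 : (68 : ℝ) ^ n = 2 ^ n * (2 ^ n * 17 ^ n) := by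
    rw [← mul_pow, ← mul_pow]
    norm_num
  rw [mul_pow, h8, mul_assoc, mul_assoc]
  refine mul_le_mul h6 (hfin.trans ?_) (abs_nonneg _) (by positivity)
  gcongr

/-- the trivial bound -/
lemma local_large (hL : local_L K m w z T) (H : local_Sys w z l0 act c bad)
    (b : Option R → ℤ) (hK : Fintype.card R + 1 ≤ K)
    (hh : ∑ p ∈ (P1 w z).filter (fun p => p ∈ bad), (p : ℝ)⁻¹ ≤ h)
    (G : R → (R → ℤ) → ℝ)
    (hGM : ∀ i t, |G i t| ≤
      (if i ∈ act then nu1 w z (frm (b (some i)) (c (some i)) t) else 1)) :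
    |boxAv T (fun t => (nu1 w z (frm (b none) (c none) t) - 1) * ∏ i, G i t)| ≤
      18 * Real.exp (2 * K * h) := by
  have h1 := local_single hL H b hK hh act.insertNone fun α hα i hi =>
    Finset.mem_insertNone.1 hα i hi
  have h2 := local_single hL H b hK hh (act.map Function.Embedding.some) fun α hα i hi => by
    obtain ⟨j, hj, rfl⟩ := Finset.mem_map.1 hα
    obtain rfl : j = i := Option.some.inj hi
    exact hj
  simp only [Finset.prod_insertNone] at h1
  simp only [Finset.prod_map, Function.Embedding.some_apply] at h2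
  refine (abs_boxAv_le _ _).trans (le_trans (boxAv_mono T (G := fun t =>
    nu1 w z (frm (b none) (c none) t) * ∏ i ∈ act, nu1 w z (frm (b (some i)) (c (some i)) t) +
      ∏ i ∈ act, nu1 w z (frm (b (some i)) (c (some i)) t)) fun t _ => ?_) ?_)
  · rw [abs_mul, Finset.abs_prod, ← add_one_mul, ← Fintype.prod_ite_mem act]
    have h3 := nu1_nonneg w z (frm (b none) (c none) t)
    refine mul_le_mul (abs_le.2 ⟨by linarith, by linarith⟩)
      (Finset.prod_le_prod (fun i _ => abs_nonneg _) fun i _ => hGM i t)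
      (Finset.prod_nonneg fun i _ => abs_nonneg _) (by linarith)
  · rw [boxAv_add]
    linarith

end

/-- local strong linear forms bound and local moment bound -/
theorem local_both (r : ℕ) : ∃ K m0 : ℕ, ∀ m : ℕ, m0 ≤ m → ∃ (w0 : ℕ) (C0 : ℝ), 0 ≤ C0 ∧
    ∀ w : ℕ, w0 ≤ w → ∀ z T : ℕ, 1 ≤ z →
    2 * (K : ℝ) * (z + 2) * (z : ℝ) ^ (8 * m + 12 + K) * Real.exp m ≤ T → 0 < T →
    ∀ {R : Type} [Fintype R] [DecidableEq R] (l0 : R) (act : Finset R) (b : Option R → ℤ)
      (c : Option R → R → ℤ) (bad : Finset ℕ) (h : ℝ), Fintype.card R ≤ r → l0 ∉ act →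
      (∀ i ∈ act, c (some i) i = 0) →
      (∀ p ∈ P1 w z, ¬ (p : ℤ) ∣ c none l0 ∧ ∀ i ∈ act, ¬ (p : ℤ) ∣ c (some i) l0) →
      (∀ p ∈ P1 w z, p ∉ bad →
        (∀ l, ¬ (p : ℤ) ∣ c none l) ∧ ∀ i ∈ act, ∀ l, l ≠ i → ¬ (p : ℤ) ∣ c (some i) l) →
      ∑ p ∈ (P1 w z).filter (fun p => p ∈ bad), (p : ℝ)⁻¹ ≤ h →
      boxAv T (fun t => ∏ i ∈ act, nu1 w z (frm (b (some i)) (c (some i)) t)) ≤
          9 + 9 * (Real.exp (K * h) - 1) ∧
        ∀ (G : R → (R → ℤ) → ℝ) (β : R → ℝ), (∀ i, 0 ≤ β i) →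
          (∀ i t y, G i (Function.update t i y) = G i t) →
          (∀ i t, |G i t| ≤
            β i * (if i ∈ act then nu1 w z (frm (b (some i)) (c (some i)) t) else 1)) →
          |boxAv T (fun t => (nu1 w z (frm (b none) (c none) t) - 1) * ∏ i, G i t)| ≤
            (∏ i, β i) * (K * Real.exp (-(m : ℝ) / 2 ^ r) + C0 * (Real.exp (K * h) - 1)) := by
  obtain ⟨m0, hm0⟩ := lfc ((r + 1) * 2 ^ r + 2 * r)
  set K1 : ℕ := (r + 1) * 2 ^ r + 2 * r with hK1
  refine ⟨2 * K1 + 68, max m0 3, fun m hm => ?_⟩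
  obtain ⟨w0, hw0⟩ := hm0 m (le_trans (le_max_left _ _) hm)
  refine ⟨w0, 18 * (1 + Real.exp m), by positivity, ?_⟩
  intro w hw z T hz hlev hT R _ _ l0 act b c bad h hr _ hdiag hbase hgood hh
  have hz' : (1 : ℝ) ≤ z := by exact_mod_cast hz
  have hL : local_L K1 m w z T := hw0 w hw z T hz (le_trans (by gcongr <;> omega) hlev) hT
  have H : local_Sys w z l0 act c bad := ⟨hdiag, hbase, hgood⟩
  have hp1 : 1 ≤ 2 ^ r := Nat.one_le_two_pow
  have hKa : Fintype.card R + 1 ≤ K1 := by nlinarith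
  have hKb : (Fintype.card R + 1) * 2 ^ Fintype.card R ≤ K1 :=
    le_trans (Nat.mul_le_mul (Nat.succ_le_succ hr) (Nat.pow_le_pow_right (by norm_num) hr))
      (Nat.le_add_right _ _)
  have hKc : Fintype.card R * 2 ≤ K1 := by omega
  have hh0 : 0 ≤ h := le_trans (Finset.sum_nonneg fun _ _ => by positivity) hh
  have hE : Real.exp (2 * K1 * h) ≤ Real.exp (((2 * K1 + 68 : ℕ) : ℝ) * h) := by
    apply Real.exp_le_exp.2
    push_cast
    nlinarith
  have hE1 : 1 ≤ Real.exp (((2 * K1 + 68 : ℕ) : ℝ) * h) := Real.one_le_exp (by positivity)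
  have hm17 : 17 * Real.exp (-m) ≤ 1 := by
    have h3 : (3 : ℝ) ≤ m := by exact_mod_cast le_trans (le_max_right _ _) hm
    have h4 : (17 : ℝ) ≤ Real.exp m := by
      refine le_trans ?_ (Real.exp_le_exp.2 h3)
      have h5 : Real.exp 3 = Real.exp 1 ^ 3 := by rw [← Real.exp_nat_mul]; norm_num
      have h6 := Real.exp_one_gt_d9
      rw [h5]
      refine le_trans (by norm_num) (pow_le_pow_left₀ (by norm_num) h6.le 3)
    rw [Real.exp_neg, ← div_eq_mul_inv, div_le_one (Real.exp_pos _)]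
    exact h4
  refine ⟨?_, fun G β hβ hG hGM => ?_⟩
  · have h2 := local_single hL H b hKa hh (act.map Function.Embedding.some) fun α hα i hi => by
      obtain ⟨j, hj, rfl⟩ := Finset.mem_map.1 hα
      obtain rfl : j = i := Option.some.inj hi
      exact hj
    simp only [Finset.prod_map, Function.Embedding.some_apply] at h2
    linarith
  have hM0 : ∀ i t, 0 ≤ (if i ∈ act then nu1 w z (frm (b (some i)) (c (some i)) t) else 1) := by
    intro i t
    split_ifs
    · exact nu1_nonneg _ _ _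
    · exact zero_le_one
  have hGβ : ∀ i t, G i t = β i * (G i t / β i) := by
    intro i t
    rcases (hβ i).eq_or_lt with e | e
    · have := hGM i t
      rw [← e, zero_mul] at this ⊢
      exact abs_nonpos_iff.1 this
    · field_simp
  have hG' : ∀ i t, |G i t / β i| ≤
      (if i ∈ act then nu1 w z (frm (b (some i)) (c (some i)) t) else 1) := by
    intro i t
    rcases (hβ i).eq_or_lt with e | e
    · rw [← e, div_zero, abs_zero]
      exact hM0 i t
    · rw [abs_div, abs_of_pos e, div_le_iff₀ e, mul_comm]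
      exact hGM i t
  have e1 : (fun t => (nu1 w z (frm (b none) (c none) t) - 1) * ∏ i, G i t) = fun t =>
      (∏ i, β i) * ((nu1 w z (frm (b none) (c none) t) - 1) * ∏ i, G i t / β i) := by
    funext t
    rw [Finset.prod_congr rfl fun i _ => hGβ i t, Finset.prod_mul_distrib]
    ring
  have hβ0 : 0 ≤ ∏ i, β i := Finset.prod_nonneg fun i _ => hβ i
  rw [e1, boxAv_mul, abs_mul, abs_of_nonneg hβ0]
  refine mul_le_mul_of_nonneg_left ?_ hβ0
  have hx := Real.exp_pos (-(m : ℝ) / 2 ^ r)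
  have hK68 : (68 : ℝ) ≤ ((2 * K1 + 68 : ℕ) : ℝ) := by exact_mod_cast Nat.le_add_left _ _
  have hem := Real.exp_pos (m : ℝ)
  rcases le_or_gt (Real.exp (2 * K1 * h)) (1 + Real.exp (-m)) with hc | hc
  · have h1 := local_small hL H b hT hr hKb hKc hh hm17 hc (fun i t => G i t / β i)
      (fun i t y => by simp only [hG]) hG'
    have h2 : 0 ≤ 18 * (1 + Real.exp m) * (Real.exp (((2 * K1 + 68 : ℕ) : ℝ) * h) - 1) :=
      mul_nonneg (by positivity) (by linarith)
    nlinarith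
  · have h1 := local_large hL H b hKa hh (fun i t => G i t / β i) hG'
    have h2 : Real.exp m * Real.exp (-m) = 1 := by rw [← Real.exp_add]; simp
    have h3 : 0 ≤ ((2 * K1 + 68 : ℕ) : ℝ) * Real.exp (-(m : ℝ) / 2 ^ r) := by positivity
    have h4 : Real.exp m * Real.exp (-m) ≤
        Real.exp m * (Real.exp (((2 * K1 + 68 : ℕ) : ℝ) * h) - 1) :=
      mul_le_mul_of_nonneg_left (by linarith) hem.le
    nlinarith

end Pool.Agent.Lib.MP_458f0b_nt.Pois
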