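import Pool.Agent.Lib.MP_458f0b_nt.Pois.PNTa

open Finset Filter Topology

namespace Pool.Agent.Lib.MP_458f0b_nt.Pois

lemma pntb_kap (w : ℕ) : kap w * (w.factorial.totient : ℝ) = w.factorial := by
  have h := Nat.totient_eq_mul_prod_factors w.factorial
  have hpf : w.factorial.primeFactors = w.primesLE := by
    ext p
    simp only [Nat.mem_primeFactors, Nat.mem_primesLE]
    constructor
    · rintro ⟨hp, hd, -⟩
      exact ⟨(hp.dvd_factorial).mp hd, hp⟩
    · rintro ⟨hle, hp⟩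
      exact ⟨hp, (hp.dvd_factorial).mpr hle, Nat.factorial_ne_zero w⟩
  rw [hpf] at h
  have h' : (w.factorial.totient : ℝ) = w.factorial * V w.primesLE := by
    have := congrArg (fun x : ℚ => (x : ℝ)) h
    simp only [Rat.cast_natCast, Rat.cast_mul, Rat.cast_prod, Rat.cast_sub, Rat.cast_one,
      Rat.cast_inv] at this
    exact this
  have hV : 0 < V w.primesLE := V_pos fun _ => Nat.prime_of_mem_primesLE
  rw [h', kap]
  field_simp

lemma pntb_card (W : ℕ) (hW : 0 < W) (b y : ℕ) :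
    |(((Icc 1 y).filter (fun n => n ≡ b [MOD W])).card : ℝ) - y / W| ≤ 1 := by
  have h := Nat.Ioc_filter_modEq_card 0 y hW b
  have hI : Icc 1 y = Ioc 0 y := by ext n; simp only [mem_Icc, mem_Ioc]; omega
  rw [hI]
  have hW' : (0 : ℚ) < W := by exact_mod_cast hW
  have hmono : ⌊(((0 : ℕ) : ℚ) - b) / (W : ℚ)⌋ ≤ ⌊((y : ℚ) - b) / (W : ℚ)⌋ := by
    apply Int.floor_le_floor
    gcongr
    exact Nat.zero_le y
  rw [max_eq_left (sub_nonneg.mpr hmono)] at h
  have h1 := Int.floor_le (((y : ℚ) - b) / (W : ℚ))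
  have h2 := Int.lt_floor_add_one (((y : ℚ) - b) / (W : ℚ))
  have h3 := Int.floor_le ((((0 : ℕ) : ℚ) - b) / (W : ℚ))
  have h4 := Int.lt_floor_add_one ((((0 : ℕ) : ℚ) - b) / (W : ℚ))
  have h5 : ((y : ℚ) - b) / (W : ℚ) - (((0 : ℕ) : ℚ) - b) / (W : ℚ) = y / W := by
    push_cast; ring
  have h6 : ((((Ioc 0 y).filter (fun n => n ≡ b [MOD W])).card : ℕ) : ℚ) =
      (⌊((y : ℚ) - b) / (W : ℚ)⌋ : ℚ) - (⌊(((0 : ℕ) : ℚ) - b) / (W : ℚ)⌋ : ℚ) := by
    exact_mod_cast congrArg (fun x : ℤ => (x : ℚ)) h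
  have h7 : |((((Ioc 0 y).filter (fun n => n ≡ b [MOD W])).card : ℕ) : ℚ) - y / W| ≤ 1 := by
    rw [h6, abs_le]; constructor <;> linarith
  have h8 := (Rat.cast_le (K := ℝ)).mpr h7
  simpa using h8

lemma pntb_sum_cast (W : ℕ) (b y : ℕ) (hb : b < W) (f : ℤ → ℝ) :
    ∑ n ∈ (Icc (1 : ℤ) y).filter (fun n : ℤ => n % W = b), f n =
      ∑ n ∈ (Icc 1 y).filter (fun n : ℕ => n ≡ b [MOD W]), f (n : ℕ) := by
  symm
  refine Finset.sum_bij (fun n _ => (n : ℤ)) ?_ ?_ ?_ (fun _ _ => rfl)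
  · intro n hn
    simp only [mem_filter, mem_Icc] at hn ⊢
    obtain ⟨⟨h1, h2⟩, h3⟩ := hn
    refine ⟨⟨by exact_mod_cast h1, by exact_mod_cast h2⟩, ?_⟩
    unfold Nat.ModEq at h3
    rw [Nat.mod_eq_of_lt hb] at h3
    exact_mod_cast h3
  · intro a _ c _ h
    exact_mod_cast h
  · intro n hn
    simp only [mem_filter, mem_Icc] at hn
    obtain ⟨⟨h1, h2⟩, h3⟩ := hn
    lift n to ℕ using (by omega)
    refine ⟨n, ?_, rfl⟩
    simp only [mem_filter, mem_Icc]
    refine ⟨⟨by exact_mod_cast h1, by exact_mod_cast h2⟩, ?_⟩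
    unfold Nat.ModEq
    rw [Nat.mod_eq_of_lt hb]
    exact_mod_cast h3

lemma pntb_class (w b : ℕ) (δ : ℝ) (hδ : 0 < δ) :
    ∀ᶠ X : ℕ in atTop, ∀ y : ℕ, y ≤ X →
      |∑ n ∈ (Icc 1 y).filter (fun n => n ≡ b [MOD w.factorial]),
        (pr X (n : ℕ) - nu0 w (n : ℕ))| ≤ δ * X := by
  have hW : 0 < w.factorial := Nat.factorial_pos w
  by_cases hb : Nat.Coprime b w.factorial
  · have hk : ∀ᶠ X : ℕ in atTop, kap w ≤ δ / 2 * X :=
      (tendsto_natCast_atTop_atTop.const_mul_atTop (half_pos hδ)).eventually_ge_atTop _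
    filter_upwards [pnt_unif w.factorial hW b hb (δ / 2) (half_pos hδ), hk] with X hX hkX y hy
    have hp := hX y hy
    have hc := pntb_card w.factorial hW b y
    have h1 : ∑ n ∈ (Icc 1 y).filter (fun n => n ≡ b [MOD w.factorial]), pr X (n : ℕ) =
        Real.log X * (((Icc 1 y).filter
          (fun p => p.Prime ∧ X < p ^ 2 ∧ p ≡ b [MOD w.factorial])).card : ℝ) := by
      rw [Finset.sum_filter, Finset.card_filter, Nat.cast_sum, Finset.mul_sum]
      refine Finset.sum_congr rfl fun n hn => ?_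
      obtain ⟨hn1, hn2⟩ := mem_Icc.mp hn
      have e1 : (1 : ℤ) ≤ (n : ℤ) := by exact_mod_cast hn1
      have e2 : (n : ℤ) ≤ (X : ℤ) := by exact_mod_cast hn2.trans hy
      have e3 : ((X : ℤ) < (n : ℤ) ^ 2) ↔ X < n ^ 2 := by exact_mod_cast Iff.rfl
      unfold pr
      simp only [Int.natAbs_natCast, e1, e2, e3, true_and]
      by_cases a1 : n ≡ b [MOD w.factorial] <;> by_cases a2 : n.Prime <;>
        by_cases a3 : X < n ^ 2 <;> simp [a1, a2, a3]
    have h2 : ∑ n ∈ (Icc 1 y).filter (fun n => n ≡ b [MOD w.factorial]), nu0 w (n : ℕ) =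
        kap w * (((Icc 1 y).filter (fun n => n ≡ b [MOD w.factorial])).card : ℝ) := by
      rw [Finset.sum_congr rfl (g := fun _ => kap w), Finset.sum_const, nsmul_eq_mul, mul_comm]
      intro n hn
      have hn' := (mem_filter.mp hn).2
      unfold nu0 nu kap
      rw [if_pos]
      intro p hp hd
      have hpp := Nat.prime_of_mem_primesLE hp
      have hpW : p ∣ w.factorial := (hpp.dvd_factorial).mpr (Nat.le_of_mem_primesLE hp)
      have hpn : p ∣ n := by exact_mod_cast hd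
      have hpb : p ∣ b := ((hn'.of_dvd hpW).dvd_iff dvd_rfl).mp hpn
      exact hpp.one_lt.ne' (Nat.eq_one_of_dvd_coprimes hb hpb hpW)
    rw [Finset.sum_sub_distrib, h1, h2]
    have hφ : (0 : ℝ) < w.factorial.totient := by exact_mod_cast Nat.totient_pos.mpr hW
    have hW' : (0 : ℝ) < w.factorial := by exact_mod_cast hW
    have h3 : (y : ℝ) / w.factorial.totient = kap w * (y / w.factorial) := by
      rw [← pntb_kap w]
      have := kap_pos w
      field_simp
    rw [h3] at hp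
    have h4 : |kap w * (((Icc 1 y).filter (fun n => n ≡ b [MOD w.factorial])).card : ℝ) -
        kap w * (y / w.factorial)| ≤ kap w := by
      rw [← mul_sub, abs_mul, abs_of_pos (kap_pos w)]
      exact mul_le_of_le_one_right (kap_pos w).le hc
    rw [abs_le] at hp h4 ⊢
    constructor <;> linarith [hp.1, hp.2, h4.1, h4.2]
  · filter_upwards [eventually_ge_atTop (w ^ 2)] with X hX y hy
    obtain ⟨p, hpp, hpb, hpW⟩ := Nat.Prime.not_coprime_iff_dvd.mp hb
    have hpw : p ≤ w := (hpp.dvd_factorial).mp hpW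
    rw [Finset.sum_eq_zero]
    · rw [abs_zero]; positivity
    intro n hn
    have hn' := (mem_filter.mp hn).2
    have hpn : p ∣ n := ((hn'.of_dvd hpW).dvd_iff dvd_rfl).mpr hpb
    have e1 : nu0 w (n : ℕ) = 0 := by
      unfold nu0 nu
      rw [if_neg]
      intro h
      exact h p (Nat.mem_primesLE.mpr ⟨hpw, hpp⟩) (by exact_mod_cast hpn)
    have e2 : pr X (n : ℕ) = 0 := by
      unfold pr
      rw [if_neg]
      rintro ⟨-, -, h3, h4⟩
      rw [Int.natAbs_natCast] at h3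
      have := (Nat.prime_dvd_prime_iff_eq hpp h3).mp hpn
      have h5 : X < n ^ 2 := by exact_mod_cast h4
      have h6 : n ^ 2 ≤ w ^ 2 := Nat.pow_le_pow_left (this ▸ hpw) 2
      omega
    rw [e1, e2, sub_zero]

lemma pntb_cell (W L X : ℕ) (hL : 0 < L) (i : ℕ) (b : ℤ) (f : ℤ → ℝ) :
    ∑ n ∈ (Icc (1 : ℤ) X).filter (fun n : ℤ => n / L = i ∧ n % W = b), f n =
      ∑ n ∈ (Icc (1 : ℤ) (min X ((i + 1) * L - 1) : ℕ)).filter (fun n : ℤ => n % W = b), f n -
        ∑ n ∈ (Icc (1 : ℤ) (min X (i * L - 1) : ℕ)).filter (fun n : ℤ => n % W = b), f n := by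
  have hle : i * L ≤ (i + 1) * L := Nat.mul_le_mul_right L (Nat.le_succ i)
  have hsub : (Icc (1 : ℤ) (min X (i * L - 1) : ℕ)).filter (fun n : ℤ => n % W = b) ⊆
      (Icc (1 : ℤ) (min X ((i + 1) * L - 1) : ℕ)).filter (fun n : ℤ => n % W = b) := by
    apply Finset.filter_subset_filter
    apply Finset.Icc_subset_Icc_right
    have : min X (i * L - 1) ≤ min X ((i + 1) * L - 1) := min_le_min_left _ (by omega)
    exact_mod_cast this
  rw [← Finset.sum_sdiff_eq_sub hsub]
  refine Finset.sum_congr ?_ fun _ _ => rfl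
  ext n
  simp only [Finset.mem_sdiff, mem_filter, mem_Icc]
  have hL' : (0 : ℤ) < L := by exact_mod_cast hL
  have key : n / L = i ↔ ((i * L : ℕ) : ℤ) ≤ n ∧ n < (((i + 1) * L : ℕ) : ℤ) := by
    push_cast
    constructor
    · intro h
      have h1 := Int.ediv_mul_le n hL'.ne'
      have h2 := Int.lt_ediv_add_one_mul_self n hL'
      rw [h] at h1 h2
      exact ⟨h1, h2⟩
    · rintro ⟨h1, h2⟩
      exact le_antisymm (Int.lt_add_one_iff.mp ((Int.ediv_lt_iff_lt_mul hL').mpr h2))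
        ((Int.le_ediv_iff_mul_le hL').mpr h1)
  rw [key]
  generalize (i + 1) * L = c at *
  generalize i * L = a at *
  generalize n % W = r at *
  omega

/-- the primes have the same mass as the small-prime weight on every cell -/
theorem pnt_cells (w N : ℕ) (hN : 1 ≤ N) (ε : ℝ) (hε : 0 < ε) :
    ∀ᶠ X : ℕ in atTop, ∀ Ψ : ℤ → ℝ, (∀ n ∈ Icc (1 : ℤ) X, |Ψ n| ≤ 1) →
      CellM w.factorial (X / N + 1) X Ψ →
      |av X (fun n => (pr X n - nu0 w n) * Ψ n)| ≤ ε := by
  have hW : 0 < w.factorial := Nat.factorial_pos w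
  have hN' : (0 : ℝ) < N := by exact_mod_cast hN
  have hW' : (0 : ℝ) < w.factorial := by exact_mod_cast hW
  set δ : ℝ := ε / (2 * N * w.factorial) with hδdef
  have hδ : 0 < δ := by positivity
  have hall : ∀ᶠ X : ℕ in atTop, ∀ b ∈ range w.factorial, ∀ y : ℕ, y ≤ X →
      |∑ n ∈ (Icc 1 y).filter (fun n => n ≡ b [MOD w.factorial]),
        (pr X (n : ℕ) - nu0 w (n : ℕ))| ≤ δ * X :=
    (Finset.eventually_all _).mpr fun b _ => pntb_class w b δ hδ
  filter_upwards [hall, eventually_ge_atTop 1] with X hX hX1 Ψ hΨ hC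
  have hX' : (0 : ℝ) < X := by exact_mod_cast hX1
  set L := X / N + 1 with hLdef
  have hL : 0 < L := Nat.succ_pos _
  have hL' : (0 : ℤ) < L := by exact_mod_cast hL
  have hXL : X < N * L := Nat.lt_mul_div_succ X hN
  have hcell : ∀ i : ℕ, ∀ b ∈ range w.factorial,
      |∑ n ∈ (Icc (1 : ℤ) X).filter (fun n : ℤ => n / L = i ∧ n % w.factorial = (b : ℕ)),
        (pr X n - nu0 w n) * Ψ n| ≤ 2 * (δ * X) := by
    intro i b hb
    have hs : |∑ n ∈ (Icc (1 : ℤ) X).filter (fun n : ℤ => n / L = i ∧ n % w.factorial = (b : ℕ)),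
        (pr X n - nu0 w n)| ≤ 2 * (δ * X) := by
      rw [pntb_cell _ L X hL i b, pntb_sum_cast _ b _ (mem_range.mp hb),
        pntb_sum_cast _ b _ (mem_range.mp hb)]
      have a1 := hX b hb _ (min_le_left X ((i + 1) * L - 1))
      have a2 := hX b hb _ (min_le_left X (i * L - 1))
      rw [abs_le] at a1 a2 ⊢
      constructor <;> linarith [a1.1, a1.2, a2.1, a2.2]
    rcases ((Icc (1 : ℤ) X).filter
      (fun n : ℤ => n / L = i ∧ n % w.factorial = (b : ℕ))).eq_empty_or_nonempty with he | ⟨n0, hn0⟩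
    · rw [he, Finset.sum_empty, abs_zero]; positivity
    · obtain ⟨hn1, hn2, hn3⟩ := mem_filter.mp hn0
      rw [Finset.sum_congr rfl (g := fun n => (pr X n - nu0 w n) * Ψ n0), ← Finset.sum_mul,
        abs_mul]
      · exact (mul_le_of_le_one_right (abs_nonneg _) (hΨ n0 hn1)).trans hs
      · intro n hn
        obtain ⟨hm1, hm2, hm3⟩ := mem_filter.mp hn
        rw [hC n0 hn1 n hm1 (hm2.trans hn2.symm) (hm3.trans hn3.symm)]
  have hsplit : ∑ n ∈ Icc (1 : ℤ) X, (pr X n - nu0 w n) * Ψ n =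
      ∑ x ∈ range N ×ˢ range w.factorial,
        ∑ n ∈ (Icc (1 : ℤ) X).filter (fun n : ℤ => n / L = x.1 ∧ n % w.factorial = (x.2 : ℕ)),
          (pr X n - nu0 w n) * Ψ n := by
    have hWz : (0 : ℤ) < w.factorial := by exact_mod_cast hW
    rw [← Finset.sum_fiberwise_of_maps_to (s := Icc (1 : ℤ) X) (t := range N ×ˢ range w.factorial)
      (g := fun n : ℤ => ((n / L).toNat, (n % w.factorial).toNat))]
    · refine Finset.sum_congr rfl fun x _ => Finset.sum_congr ?_ fun _ _ => rfl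
      refine Finset.filter_congr fun n hn => ?_
      have h1 : 0 ≤ n / L := Int.ediv_nonneg (by linarith [(mem_Icc.mp hn).1]) hL'.le
      have h2 : 0 ≤ n % w.factorial := Int.emod_nonneg _ hWz.ne'
      rw [Prod.ext_iff]
      dsimp only
      omega
    · intro n hn
      obtain ⟨h0, h1⟩ := mem_Icc.mp hn
      have h2 : n % w.factorial < w.factorial := Int.emod_lt_of_pos _ hWz
      have h3 : n / L < N := by
        rw [Int.ediv_lt_iff_lt_mul hL']
        have : (X : ℤ) < N * L := by exact_mod_cast hXL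
        linarith
      simp only [mem_product, mem_range]
      omega
  unfold av
  rw [abs_div, abs_of_pos hX', div_le_iff₀ hX', hsplit]
  refine (Finset.abs_sum_le_sum_abs _ _).trans ?_
  refine (Finset.sum_le_card_nsmul _ _ (2 * (δ * X)) fun x hx =>
    hcell x.1 x.2 (mem_product.mp hx).2).trans ?_
  rw [Finset.card_product, card_range, card_range, nsmul_eq_mul, hδdef]
  push_cast
  apply le_of_eq
  field_simp

end Pool.Agent.Lib.MP_458f0b_nt.Pois
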