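import Pool.Agent.Lib.MP_458f0b_nt.Pois.Defs

open Finset Filter Topology

namespace Pool.Agent.Lib.MP_458f0b_nt.Pois

lemma paira_cells {W L X : ℕ} {h : ℤ → ℝ} (h0 : CellZero W L X h) (F : ℤ → ℤ → Prop)
    [∀ i b, Decidable (F i b)] :
    ∑ n ∈ (Icc (1 : ℤ) X).filter (fun n => F (n / L) (n % W)), h n = 0 := by
  rw [← sum_fiberwise_of_maps_to (g := fun n : ℤ => (n / L, n % W))
    (fun n hn => mem_image_of_mem _ hn)]
  refine sum_eq_zero fun j hj => ?_
  obtain ⟨n, hn, rfl⟩ := mem_image.1 hj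
  rw [← h0 (n / L) (n % W)]
  refine sum_congr ?_ fun _ _ => rfl
  ext m
  simp only [mem_filter, Prod.mk.injEq] at hn ⊢
  exact ⟨fun k => ⟨k.1.1, k.2⟩, fun k => ⟨⟨k.1, by rw [k.2.1, k.2.2]; exact hn.2⟩, k.2⟩⟩

lemma paira_le {X : ℕ} {h : ℤ → ℝ} {H : ℝ} (hH0 : 0 ≤ H) (hH : ∀ n, |h n| ≤ H * ind X n) (n : ℤ) :
    |h n| ≤ H := (hH n).trans (mul_le_of_le_one_right hH0 (ind_le_one X n))

/-- sums along progressions whose step divides `W` -/
lemma ap_sum {W L X : ℕ} (hW : 0 < W) (hL : 0 < L) {h : ℤ → ℝ} {H : ℝ} (hH0 : 0 ≤ H)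
    (hH : ∀ n, |h n| ≤ H * ind X n) (h0 : CellZero W L X h) {g : ℕ} (hg : 0 < g) (hgW : g ∣ W)
    (y : ℤ) (l : ℕ) : |∑ i ∈ range l, h (y + g * i)| ≤ 2 * L * H := by
  have hg' : (0 : ℤ) < g := by exact_mod_cast hg
  have hL' : (0 : ℤ) < L := by exact_mod_cast hL
  set A := (Icc (1 : ℤ) X).filter (fun n => y ≤ n ∧ n < y + g * l ∧ (g : ℤ) ∣ n - y) with hA
  have h1 : ∑ i ∈ range l, h (y + g * i) = ∑ n ∈ A, h n := by
    rw [← sum_image (s := range l) (g := fun i : ℕ => y + g * i) (f := h) fun i _ j _ e => by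
      exact_mod_cast mul_left_cancel₀ hg'.ne' (add_left_cancel e)]
    symm
    refine sum_subset (fun n hn => ?_) fun n hn k => ?_
    · obtain ⟨-, k1, k2, c, k3⟩ := mem_filter.1 hn
      have k4 : 0 ≤ c := nonneg_of_mul_nonneg_right (by linarith) hg' 
      lift c to ℕ using k4
      refine mem_image.2 ⟨c, mem_range.2 ?_, by linarith⟩
      exact_mod_cast lt_of_mul_lt_mul_left (show (g : ℤ) * c < g * l by linarith) hg'.le
    · obtain ⟨i, hi, rfl⟩ := mem_image.1 hn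
      have k1 : (i : ℤ) < l := by exact_mod_cast mem_range.1 hi
      have k2 := hH (y + g * i)
      rw [ind_of_not_mem fun k3 => k (mem_filter.2 ⟨k3, le_add_of_nonneg_right (by positivity),
        by nlinarith, by simp⟩), mul_zero] at k2
      exact abs_nonpos_iff.1 k2
  set a := y / L
  set b := (y + g * l) / L
  have h2 : A.filter (fun n => ¬(n / L = a ∨ n / L = b)) = (Icc (1 : ℤ) X).filter
      (fun n => (fun i c : ℤ => a < i ∧ i < b ∧ (g : ℤ) ∣ c - y) (n / L) (n % W)) := by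
    ext n
    have k : (g : ℤ) ∣ n % W - y ↔ (g : ℤ) ∣ n - y := by
      refine dvd_iff_dvd_of_dvd_sub ?_
      rw [sub_sub_sub_cancel_right, Int.emod_def, sub_sub_cancel_left, dvd_neg]
      exact (Int.natCast_dvd_natCast.2 hgW).mul_right _
    simp only [hA, mem_filter, k, not_or, and_assoc]
    refine and_congr_right fun _ => ⟨fun ⟨k1, k2, k3, k4, k5⟩ => ⟨?_, ?_, k3⟩,
      fun ⟨k1, k2, k3⟩ => ⟨?_, ?_, k3, k1.ne', k2.ne⟩⟩
    · exact (Int.ediv_le_ediv hL' k1).lt_of_ne' k4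
    · exact (Int.ediv_le_ediv hL' k2.le).lt_of_ne k5
    · exact not_lt.1 fun k4 => k1.not_ge (Int.ediv_le_ediv hL' k4.le)
    · exact not_le.1 fun k4 => k2.not_ge (Int.ediv_le_ediv hL' k4)
  have h3 : ∀ n c : ℤ, n / L = c → n ∈ Ico (c * L) (c * L + L) := fun n c k => by
    have := Int.emod_nonneg n hL'.ne'
    have := Int.emod_lt_of_pos n hL'
    have := Int.ediv_mul_add_emod n L
    rw [mem_Ico, ← k]
    constructor <;> linarith
  have h4 : (A.filter (fun n => n / L = a ∨ n / L = b)).card ≤ 2 * L := by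
    refine (card_le_card (t := Ico (a * L) (a * L + L) ∪ Ico (b * L) (b * L + L))
      fun n hn => mem_union.2 ((mem_filter.1 hn).2.imp (h3 n a) (h3 n b))).trans
      ((card_union_le _ _).trans ?_)
    simp [two_mul]
  rw [h1, ← sum_filter_add_sum_filter_not A (fun n => n / L = a ∨ n / L = b), h2,
    paira_cells h0 (fun i c : ℤ => a < i ∧ i < b ∧ (g : ℤ) ∣ c - y), add_zero]
  refine (abs_sum_le_sum_abs _ _).trans ((sum_le_card_nsmul _ _ H
    fun n _ => paira_le hH0 hH n).trans ?_)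
  rw [nsmul_eq_mul]
  exact mul_le_mul_of_nonneg_right (by exact_mod_cast h4) hH0

lemma paira_shift {f : ℤ → ℝ} {B : ℝ} (hf : ∀ n, |f n| ≤ B) (n : ℕ) (u a : ℤ) :
    |∑ i ∈ range n, f (u + i + a) - ∑ i ∈ range n, f (u + i)| ≤ 2 * B * |(a : ℝ)| := by
  have h1 : ∀ c : ℤ, |∑ i ∈ range n, f (u + i + (c + 1)) - ∑ i ∈ range n, f (u + i + c)| ≤ 2 * B :=
    fun c => by
      have k := sum_range_sub (fun i : ℕ => f (u + i + c)) n
      rw [← sum_sub_distrib, sum_congr rfl (g := fun i : ℕ => f (u + (i + 1 : ℕ) + c) - f (u + i + c))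
        fun i _ => by push_cast; ring_nf, k]
      exact (abs_sub _ _).trans (by linarith [hf (u + n + c), hf (u + (0 : ℕ) + c)])
  induction a using Int.induction_on with
  | zero => simp
  | succ i hi =>
    have k := abs_sub_le (∑ j ∈ range n, f (u + j + (i + 1))) (∑ j ∈ range n, f (u + j + i))
      (∑ j ∈ range n, f (u + j))
    push_cast at hi ⊢
    rw [abs_of_nonneg (by positivity : (0 : ℝ) ≤ i)] at hi
    rw [abs_of_nonneg (by positivity : (0 : ℝ) ≤ i + 1)]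
    linarith [h1 i]
  | pred i hi =>
    have k := abs_sub_le (∑ j ∈ range n, f (u + j + (-i - 1))) (∑ j ∈ range n, f (u + j + -i))
      (∑ j ∈ range n, f (u + j))
    have k2 := h1 (-i - 1)
    rw [sub_add_cancel, abs_sub_comm] at k2
    push_cast at hi ⊢
    rw [abs_neg, abs_of_nonneg (by positivity : (0 : ℝ) ≤ i)] at hi
    rw [abs_of_nonpos (by linarith [Nat.cast_nonneg (α := ℝ) i] : (-i - 1 : ℝ) ≤ 0)]
    linarith

lemma paira_ico (f : ℤ → ℝ) (D : ℕ) :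
    ∑ d ∈ Ico (D : ℤ) (2 * D), f d = ∑ i ∈ range D, f (D + i) := by
  rw [Int.Ico_eq_finset_map, sum_map, show (2 * D - D : ℤ).toNat = D by omega]
  rfl

lemma paira_shift2 {F : ℤ → ℤ → ℝ} {H : ℝ} (hF : ∀ x y, |F x y| ≤ H) (n : ℕ) (u a b : ℤ) :
    |∑ i ∈ range n, ∑ j ∈ range n, F (u + i + a) (u + j + b) -
      ∑ i ∈ range n, ∑ j ∈ range n, F (u + i) (u + j)| ≤ 2 * n * H * (|(a : ℝ)| + |(b : ℝ)|) := by
  have h1 := paira_shift (f := fun x => ∑ j ∈ range n, F x (u + j + b)) (B := n * H)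
    (fun x => (abs_sum_le_sum_abs _ _).trans ((sum_le_card_nsmul _ _ H fun j _ => hF _ _).trans
      (by simp))) n u a
  have h2 : |∑ i ∈ range n, ∑ j ∈ range n, F (u + i) (u + j + b) -
      ∑ i ∈ range n, ∑ j ∈ range n, F (u + i) (u + j)| ≤ n * (2 * H * |(b : ℝ)|) := by
    rw [← sum_sub_distrib]
    refine (abs_sum_le_sum_abs _ _).trans ((sum_le_card_nsmul _ _ (2 * H * |(b : ℝ)|)
      fun (i : ℕ) _ => paira_shift (hF (u + i)) n u b).trans ?_)
    simp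
  linarith [abs_sub_le (∑ i ∈ range n, ∑ j ∈ range n, F (u + i + a) (u + j + b))
    (∑ i ∈ range n, ∑ j ∈ range n, F (u + i) (u + j + b))
    (∑ i ∈ range n, ∑ j ∈ range n, F (u + i) (u + j))]

lemma paira_mul (f : ℕ → ℝ) (r S : ℕ) :
    ∑ σ ∈ range S, ∑ τ ∈ range r, f (r * σ + τ) = ∑ i ∈ range (r * S), f i := by
  induction S with
  | zero => simp
  | succ S ih => rw [sum_range_succ, ih, Nat.mul_succ, sum_range_add]

lemma paira_bez {q q' : ℕ} (hq : 1 ≤ q) (hq' : 1 ≤ q') :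
    ∃ α β : ℤ, q' * α - q * β = Nat.gcd q q' ∧ |α| ≤ q ∧ |β| ≤ q' := by
  have h0 : (0 : ℤ) < q := by exact_mod_cast hq
  have h0' : (1 : ℤ) ≤ q' := by exact_mod_cast hq'
  have h1 := Int.emod_nonneg (Nat.gcdB q q') h0.ne'
  have h2 := Int.emod_lt_of_pos (Nat.gcdB q q') h0
  have h3 : q' * (Nat.gcdB q q' % q) - q * -(Nat.gcdA q q' + q' * (Nat.gcdB q q' / q)) =
      Nat.gcd q q' := by
    rw [Nat.gcd_eq_gcd_ab, Int.emod_def]
    ring
  have h4 : (Nat.gcd q q' : ℤ) ≤ q := by exact_mod_cast Nat.gcd_le_left q' hq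
  have h5 : (0 : ℤ) ≤ Nat.gcd q q' := by positivity
  refine ⟨_, _, h3, abs_le.2 ⟨by linarith, h2.le⟩, abs_le.2 ⟨?_, ?_⟩⟩
  · exact le_of_mul_le_mul_left (by nlinarith) h0
  · exact le_of_mul_le_mul_left (by nlinarith) h0

/-- two progressions with a small common divisor decouple -/
lemma two_step {W L X : ℕ} (hW : 0 < W) (hL : 0 < L) {h : ℤ → ℝ} {H : ℝ} (hH0 : 0 ≤ H)
    (hH : ∀ n, |h n| ≤ H * ind X n) (h0 : CellZero W L X h) {q q' Q S : ℕ} (hq : 1 ≤ q)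
    (hq' : 1 ≤ q') (hqQ : q ≤ Q) (hqQ' : q' ≤ Q) (hg : Nat.gcd q q' ∣ W) (hS : 1 ≤ S) (D : ℕ)
    (m : ℤ) :
    |∑ d ∈ Ico (D : ℤ) (2 * D), ∑ d' ∈ Ico (D : ℤ) (2 * D), h (m + q' * d' - q * d)| ≤
      H * ((D : ℝ) ^ 2 * (2 * L * W / (q' * S)) + 2 * D * (2 * (Q : ℝ) ^ 2 + S)) := by
  obtain ⟨α, β, h1, h2, h3⟩ := paira_bez hq hq'
  obtain ⟨r, hr⟩ := Nat.gcd_dvd_right q q'
  have hg0 : 0 < Nat.gcd q q' := Nat.gcd_pos_of_pos_left q' hq
  generalize Nat.gcd q q' = g at h1 hr hg hg0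
  have hr0 : 0 < r := Nat.pos_of_mul_pos_left (hr ▸ hq')
  have hrQ : (r : ℝ) ≤ Q := by exact_mod_cast (hr ▸ Nat.le_mul_of_pos_left r hg0).trans hqQ'
  have h2' : |(α : ℝ)| ≤ Q := by exact_mod_cast h2.trans (by exact_mod_cast hqQ)
  have h3' : |(β : ℝ)| ≤ Q := by exact_mod_cast h3.trans (by exact_mod_cast hqQ')
  simp only [paira_ico]
  set T := ∑ i ∈ range D, ∑ j ∈ range D, h (m + q' * (D + j) - q * (D + i))
  set U : ℕ → ℕ → ℝ := fun σ τ => ∑ i ∈ range D, ∑ j ∈ range D,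
    h (m + q' * (D + j + (α * τ + σ)) - q * (D + i + β * τ)) with hU
  have h4 : ∀ σ ∈ range S, ∀ τ ∈ range r, |U σ τ - T| ≤ 2 * D * H * (2 * (Q : ℝ) ^ 2 + S) := by
    intro σ hσ τ hτ
    refine (paira_shift2 (F := fun x y => h (m + q' * y - q * x)) (fun x y => paira_le hH0 hH _)
      D D (β * τ) (α * τ + σ)).trans (mul_le_mul_of_nonneg_left ?_ (by positivity))
    have k1 : (σ : ℝ) ≤ S := by exact_mod_cast (mem_range.1 hσ).le
    have k2 : (τ : ℝ) ≤ Q := le_trans (by exact_mod_cast (mem_range.1 hτ).le) hrQ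
    have k3 := abs_add_le ((α : ℝ) * τ) σ
    push_cast
    rw [abs_mul, Nat.abs_cast, Nat.abs_cast] at k3
    rw [abs_mul, Nat.abs_cast]
    have k4 := mul_le_mul h2' k2 (by positivity) (by positivity)
    have k5 := mul_le_mul h3' k2 (by positivity) (by positivity)
    linarith
  have h5 : |∑ σ ∈ range S, ∑ τ ∈ range r, U σ τ| ≤ (D : ℝ) ^ 2 * (2 * L * H) := by
    have k : ∑ σ ∈ range S, ∑ τ ∈ range r, U σ τ = ∑ i ∈ range D, ∑ j ∈ range D,
        ∑ c ∈ range (r * S), h (m + q' * (D + j) - q * (D + i) + g * c) := by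
      simp only [hU, ← paira_mul]
      rw [sum_congr rfl fun σ _ => sum_comm, sum_comm]
      refine sum_congr rfl fun i _ => ?_
      rw [sum_congr rfl fun σ _ => sum_comm, sum_comm]
      refine sum_congr rfl fun j _ => sum_congr rfl fun σ _ => sum_congr rfl fun τ _ => ?_
      congr 1
      have k1 : (q' : ℤ) = g * r := by exact_mod_cast hr
      push_cast
      linear_combination τ * h1 + σ * k1
    rw [k]
    refine (abs_sum_le_sum_abs _ _).trans ((sum_le_card_nsmul _ _ (D * (2 * L * H)) fun i _ =>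
      (abs_sum_le_sum_abs _ _).trans ((sum_le_card_nsmul _ _ _ fun j _ =>
        ap_sum hW hL hH0 hH h0 hg0 hg _ _).trans (by simp))).trans (le_of_eq ?_))
    simp only [card_range, nsmul_eq_mul]
    ring
  have h6 : |∑ σ ∈ range S, ∑ τ ∈ range r, U σ τ - S * (r * T)| ≤
      S * (r * (2 * D * H * (2 * (Q : ℝ) ^ 2 + S))) := by
    have k : (S : ℝ) * (r * T) = ∑ σ ∈ range S, ∑ τ ∈ range r, T := by simp
    rw [k, ← sum_sub_distrib]
    refine (abs_sum_le_sum_abs _ _).trans ((sum_le_card_nsmul _ _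
      (r * (2 * D * H * (2 * (Q : ℝ) ^ 2 + S))) fun σ hσ => ?_).trans (by simp))
    rw [← sum_sub_distrib]
    exact (abs_sum_le_sum_abs _ _).trans ((sum_le_card_nsmul _ _ _ (h4 σ hσ)).trans (by simp))
  have h7 : (0 : ℝ) < S * r := by positivity
  have h8 : (S : ℝ) * r * |T| ≤ (D : ℝ) ^ 2 * (2 * L * H) +
      S * (r * (2 * D * H * (2 * (Q : ℝ) ^ 2 + S))) := by
    have k := abs_sub (∑ σ ∈ range S, ∑ τ ∈ range r, U σ τ)
      (∑ σ ∈ range S, ∑ τ ∈ range r, U σ τ - S * (r * T))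
    rw [sub_sub_cancel, ← mul_assoc, abs_mul, abs_of_pos h7] at k
    rw [← mul_assoc] at h6
    linarith
  have h9 : (1 : ℝ) ≤ S * r * (W / (q' * S)) := by
    have k1 : (q' : ℝ) = g * r := by exact_mod_cast hr
    have k2 : (g : ℝ) ≤ W := by exact_mod_cast Nat.le_of_dvd hW hg
    rw [← mul_div_assoc, one_le_div (by positivity), k1]
    nlinarith
  refine le_of_mul_le_mul_left (h8.trans ?_) h7
  have := mul_le_mul_of_nonneg_left h9 (show 0 ≤ (D : ℝ) ^ 2 * (2 * L * H) by positivity)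
  rw [mul_div_assoc]
  linarith

end Pool.Agent.Lib.MP_458f0b_nt.Pois
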