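import Pool.Agent.Lib.MP_458f0b_nt.Pois.PairA
import Pool.Agent.Lib.MP_458f0b_nt.Pois.Count
import Pool.Agent.Lib.MP_458f0b_nt.Pois.Arith
import Pool.Agent.Lib.MP_458f0b_nt.Pois.Reg

open Finset Filter Topology

namespace Pool.Agent.Lib.MP_458f0b_nt.Pois

lemma pairc_classes (I : Finset ℤ) (h : ℤ → ℝ) {d : ℤ} (hd : 0 < d) :
    ∑ a ∈ Ico (0 : ℤ) d, (∑ n ∈ I.filter (fun n => d ∣ n - a), h n) ^ 2 =
      ∑ n ∈ I, ∑ m ∈ I, if d ∣ m - n then h n * h m else 0 := by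
  have e1 : ∀ a : ℤ, (∑ n ∈ I.filter (fun n => d ∣ n - a), h n) ^ 2 =
      ∑ n ∈ I, ∑ m ∈ I, if d ∣ n - a then (if d ∣ m - n then h n * h m else 0) else 0 := by
    intro a
    rw [sq, Finset.sum_filter, Finset.sum_mul_sum]
    refine Finset.sum_congr rfl fun n _ => Finset.sum_congr rfl fun m _ => ?_
    by_cases h1 : d ∣ n - a
    · have : d ∣ m - a ↔ d ∣ m - n := by
        constructor
        · intro h2
          have := dvd_sub h2 h1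
          rwa [show m - a - (n - a) = m - n by ring] at this
        · intro h2
          have := dvd_add h2 h1
          rwa [show m - n + (n - a) = m - a by ring] at this
      by_cases h2 : d ∣ m - n
      · simp [h1, h2, this.mpr h2]
      · have h3 : ¬ d ∣ m - a := fun h3 => h2 (this.mp h3)
        simp [h1, h2, h3]
    · simp [h1]
  simp only [e1]
  rw [Finset.sum_comm]
  refine Finset.sum_congr rfl fun n _ => ?_
  rw [Finset.sum_comm]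
  refine Finset.sum_congr rfl fun m _ => ?_
  rw [Finset.sum_eq_single (n % d)]
  · rw [if_pos]
    exact ⟨n / d, by rw [Int.emod_def]; ring⟩
  · intro a ha hne
    rw [if_neg]
    intro h1
    apply hne
    rw [Finset.mem_Ico] at ha
    have h2 : n % d = a % d :=
      Int.emod_eq_emod_iff_emod_sub_eq_zero.mpr (Int.emod_eq_zero_of_dvd h1)
    rw [h2, Int.emod_eq_of_lt ha.1 ha.2]
  · intro hn
    exact absurd (Finset.mem_Ico.mpr ⟨Int.emod_nonneg n hd.ne', Int.emod_lt_of_pos n hd⟩) hn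

lemma pairc_sym (I : Finset ℤ) (h : ℤ → ℝ) (d : ℤ) :
    (∑ n ∈ I, ∑ m ∈ I, if d ∣ m - n then h n * h m else 0) =
      ∑ n ∈ I, h n ^ 2 + 2 * ∑ n ∈ I, h n * ∑ m ∈ I.filter (fun m => n < m ∧ d ∣ m - n), h m := by
  have e1 : ∀ n m : ℤ, (if d ∣ m - n then h n * h m else 0) =
      (if m = n then h n ^ 2 else 0) + (if n < m ∧ d ∣ m - n then h n * h m else 0) +
        (if m < n ∧ d ∣ n - m then h m * h n else 0) := by
    intro n m
    rcases lt_trichotomy n m with h1 | h1 | h1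
    · simp [h1, h1.ne', not_lt.mpr h1.le]
    · subst h1; simp [sq]
    · have : d ∣ m - n ↔ d ∣ n - m := dvd_sub_comm
      simp [h1, h1.ne, not_lt.mpr h1.le, this, mul_comm]
  simp only [e1, Finset.sum_add_distrib]
  rw [Finset.sum_comm (f := fun n m => if m < n ∧ d ∣ n - m then h m * h n else 0)]
  have e2 : ∑ n ∈ I, ∑ m ∈ I, (if m = n then h n ^ 2 else 0) = ∑ n ∈ I, h n ^ 2 :=
    Finset.sum_congr rfl fun n hn => by simp [hn]
  have e3 : ∑ n ∈ I, ∑ m ∈ I, (if n < m ∧ d ∣ m - n then h n * h m else 0) =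
      ∑ n ∈ I, h n * ∑ m ∈ I.filter (fun m => n < m ∧ d ∣ m - n), h m := by
    refine Finset.sum_congr rfl fun n _ => ?_
    rw [Finset.sum_filter, Finset.mul_sum]
    exact Finset.sum_congr rfl fun m _ => by split_ifs <;> simp
  rw [e2, e3]
  ring

lemma pairc_up {D X : ℕ} (hD : 0 < D) {h : ℤ → ℝ} (hh : ∀ n, n ∉ Icc (1 : ℤ) X → h n = 0)
    {n d : ℤ} (hn : n ∈ Icc (1 : ℤ) X) (hd : (D : ℤ) ≤ d) :
    ∑ m ∈ (Icc (1 : ℤ) X).filter (fun m => n < m ∧ d ∣ m - n), h m =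
      ∑ q ∈ Icc 1 (X / D), h (n + (q : ℕ) * d) := by
  have hD' : (0 : ℤ) < D := by exact_mod_cast hD
  have hd0 : 0 < d := lt_of_lt_of_le hD' hd
  rw [Finset.mem_Icc] at hn
  symm
  refine Finset.sum_bij_ne_zero (fun q _ _ => n + (q : ℕ) * d) ?_ ?_ ?_ ?_
  · intro q hq hne
    rw [Finset.mem_filter]
    have h1 : n + (q : ℕ) * d ∈ Icc (1 : ℤ) X := by
      by_contra hc; exact hne (hh _ hc)
    have h2 : (1 : ℤ) ≤ (q : ℕ) := by exact_mod_cast (Finset.mem_Icc.mp hq).1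
    refine ⟨h1, by nlinarith, ⟨(q : ℕ), by ring⟩⟩
  · intro q _ _ q' _ _ he
    have : ((q : ℕ) : ℤ) = (q' : ℕ) := mul_right_cancel₀ hd0.ne' (by linarith)
    exact_mod_cast this
  · intro m hm hne
    rw [Finset.mem_filter, Finset.mem_Icc] at hm
    obtain ⟨⟨_, hm2⟩, hm3, c, hc⟩ := hm
    have hc0 : 0 < c := by
      by_contra hcc
      have : d * c ≤ 0 := mul_nonpos_of_nonneg_of_nonpos hd0.le (not_lt.mp hcc)
      linarith
    obtain ⟨q, rfl⟩ := Int.eq_ofNat_of_zero_le hc0.le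
    have he : n + (q : ℤ) * d = m := by linarith
    refine ⟨q, ?_, by rw [he]; exact hne, he⟩
    rw [Finset.mem_Icc]
    refine ⟨by exact_mod_cast hc0, (Nat.le_div_iff_mul_le hD).mpr ?_⟩
    have : (q : ℤ) * D ≤ X := by nlinarith
    exact_mod_cast this
  · intro q _ _; rfl

/-- expansion of the variance over classes -/
lemma var_expand {D X : ℕ} (hD : 0 < D) {h : ℤ → ℝ} (hh : ∀ n, n ∉ Icc (1 : ℤ) X → h n = 0) :
    ∑ d ∈ Ico (D : ℤ) (2 * D), ∑ a ∈ Ico (0 : ℤ) d,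
        (∑ n ∈ (Icc (1 : ℤ) X).filter (fun n => d ∣ n - a), h n) ^ 2 =
      D * ∑ n ∈ Icc (1 : ℤ) X, h n ^ 2 + 2 * ∑ n ∈ Icc (1 : ℤ) X, h n *
        ∑ q ∈ Icc 1 (X / D), ∑ d ∈ Ico (D : ℤ) (2 * D), h (n + (q : ℕ) * d) := by
  have hD' : (0 : ℤ) < D := by exact_mod_cast hD
  have e1 : ∀ d ∈ Ico (D : ℤ) (2 * D), ∑ a ∈ Ico (0 : ℤ) d,
        (∑ n ∈ (Icc (1 : ℤ) X).filter (fun n => d ∣ n - a), h n) ^ 2 =
      ∑ n ∈ Icc (1 : ℤ) X, h n ^ 2 + 2 * ∑ n ∈ Icc (1 : ℤ) X, h n *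
        ∑ q ∈ Icc 1 (X / D), h (n + (q : ℕ) * d) := by
    intro d hd
    have hd1 := (Finset.mem_Ico.mp hd).1
    rw [pairc_classes _ _ (lt_of_lt_of_le hD' hd1), pairc_sym]
    congr 2
    exact Finset.sum_congr rfl fun n hn => by rw [pairc_up hD hh hn hd1]
  rw [Finset.sum_congr rfl e1, Finset.sum_add_distrib, Finset.sum_const, Int.card_Ico,
    ← Finset.mul_sum, Finset.sum_comm]
  have e2 : (2 * (D : ℤ) - D).toNat = D := by
    rw [show 2 * (D : ℤ) - D = D by ring, Int.toNat_natCast]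
  rw [e2, nsmul_eq_mul]
  congr 2
  refine Finset.sum_congr rfl fun n _ => ?_
  rw [← Finset.mul_sum, Finset.sum_comm]

lemma card_bad_gcd (w Q : ℕ) (hw : 1 ≤ w) :
    (((Icc 1 Q ×ˢ Icc 1 Q).filter (fun x => ¬ Nat.gcd x.1 x.2 ∣ w.factorial)).card : ℝ) ≤
      (Q : ℝ) ^ 2 / w := by
  have hsub : (Icc 1 Q ×ˢ Icc 1 Q).filter (fun x => ¬ Nat.gcd x.1 x.2 ∣ w.factorial) ⊆
      (Ioc w (max w Q)).biUnion (fun m => ((Icc 1 (Q / m) ×ˢ Icc 1 (Q / m)).image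
        (fun y => (m * y.1, m * y.2)))) := by
    intro x hx
    rw [Finset.mem_filter, Finset.mem_product, Finset.mem_Icc, Finset.mem_Icc] at hx
    obtain ⟨⟨⟨h1, h2⟩, h3, h4⟩, h5⟩ := hx
    have hg0 : 0 < Nat.gcd x.1 x.2 := Nat.gcd_pos_of_pos_left _ h1
    have hgw : w < Nat.gcd x.1 x.2 := by
      by_contra hc
      exact h5 (Nat.dvd_factorial hg0 (not_lt.mp hc))
    have hgQ : Nat.gcd x.1 x.2 ≤ Q := (Nat.le_of_dvd h1 (Nat.gcd_dvd_left _ _)).trans h2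
    rw [Finset.mem_biUnion]
    refine ⟨Nat.gcd x.1 x.2, Finset.mem_Ioc.mpr ⟨hgw, hgQ.trans (le_max_right _ _)⟩, ?_⟩
    rw [Finset.mem_image]
    refine ⟨(x.1 / Nat.gcd x.1 x.2, x.2 / Nat.gcd x.1 x.2), ?_, ?_⟩
    · rw [Finset.mem_product, Finset.mem_Icc, Finset.mem_Icc]
      exact ⟨⟨Nat.div_pos (Nat.le_of_dvd h1 (Nat.gcd_dvd_left _ _)) hg0, Nat.div_le_div_right h2⟩,
        Nat.div_pos (Nat.le_of_dvd h3 (Nat.gcd_dvd_right _ _)) hg0, Nat.div_le_div_right h4⟩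
    · ext
      · exact Nat.mul_div_cancel' (Nat.gcd_dvd_left _ _)
      · exact Nat.mul_div_cancel' (Nat.gcd_dvd_right _ _)
  have h1 := (Finset.card_le_card hsub).trans Finset.card_biUnion_le
  have h2 : ∀ m ∈ Ioc w (max w Q), ((((Icc 1 (Q / m) ×ˢ Icc 1 (Q / m)).image
        (fun y => (m * y.1, m * y.2))).card : ℕ) : ℝ) ≤ (Q : ℝ) ^ 2 * ((m : ℝ) ^ 2)⁻¹ := by
    intro m _
    have h3 : (((Icc 1 (Q / m) ×ˢ Icc 1 (Q / m)).image
        (fun y => (m * y.1, m * y.2))).card : ℕ) ≤ (Q / m) ^ 2 := by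
      refine Finset.card_image_le.trans ?_
      rw [Finset.card_product, Nat.card_Icc, Nat.add_sub_cancel, sq]
    have h4 : ((Q / m : ℕ) : ℝ) ≤ Q / m := Nat.cast_div_le
    calc _ ≤ (((Q / m) ^ 2 : ℕ) : ℝ) := by exact_mod_cast h3
      _ = ((Q / m : ℕ) : ℝ) ^ 2 := by push_cast; rfl
      _ ≤ ((Q : ℝ) / m) ^ 2 := by gcongr
      _ = _ := by rw [div_pow, div_eq_mul_inv]
  have h5 := sum_Ioc_inv_sq_le_sub (α := ℝ) (k := w) (n := max w Q) (by omega) (le_max_left _ _)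
  have h6 : (0 : ℝ) ≤ ((max w Q : ℕ) : ℝ)⁻¹ := by positivity
  calc _ ≤ ((∑ m ∈ Ioc w (max w Q), ((Icc 1 (Q / m) ×ˢ Icc 1 (Q / m)).image
        (fun y => (m * y.1, m * y.2))).card : ℕ) : ℝ) := by exact_mod_cast h1
    _ ≤ ∑ m ∈ Ioc w (max w Q), (Q : ℝ) ^ 2 * ((m : ℝ) ^ 2)⁻¹ := by
      rw [Nat.cast_sum]; exact Finset.sum_le_sum h2
    _ = (Q : ℝ) ^ 2 * ∑ m ∈ Ioc w (max w Q), ((m : ℝ) ^ 2)⁻¹ := by rw [Finset.mul_sum]
    _ ≤ (Q : ℝ) ^ 2 * (w : ℝ)⁻¹ := by gcongr; linarith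
    _ = _ := by rw [div_eq_mul_inv]

lemma pairc_shift {X : ℕ} {h : ℤ → ℝ} (hh : ∀ n, n ∉ Icc (1 : ℤ) X → h n = 0) (G : ℤ → ℝ)
    {t T : ℤ} (ht : 0 ≤ t) (hT : t ≤ T) :
    ∑ n ∈ Icc (1 - T) X, h (n + t) * G n = ∑ m ∈ Icc (1 : ℤ) X, h m * G (m - t) := by
  refine Finset.sum_bij_ne_zero (fun n _ _ => n + t) ?_ ?_ ?_ ?_
  · intro n _ hne
    by_contra hc
    exact hne (by rw [hh _ hc, zero_mul])
  · intro n _ _ n' _ _ he
    linarith
  · intro m hm hne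
    rw [Finset.mem_Icc] at hm
    refine ⟨m - t, Finset.mem_Icc.mpr ⟨by linarith, by linarith⟩, ?_, by ring⟩
    rwa [sub_add_cancel]
  · intro n _ _
    rw [add_sub_cancel_right]

lemma pairc_corr {D X Q : ℕ} {h : ℤ → ℝ} (hh : ∀ n, n ∉ Icc (1 : ℤ) X → h n = 0) {q : ℕ}
    (hq : q ≤ Q) (q' : ℕ) :
    ∑ n ∈ Icc (1 - 2 * (Q : ℤ) * D) X, (∑ d ∈ Ico (D : ℤ) (2 * D), h (n + q * d)) *
        ∑ d ∈ Ico (D : ℤ) (2 * D), h (n + q' * d) =
      ∑ m ∈ Icc (1 : ℤ) X, h m *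
        ∑ d ∈ Ico (D : ℤ) (2 * D), ∑ d' ∈ Ico (D : ℤ) (2 * D), h (m + q' * d' - q * d) := by
  simp only [Finset.sum_mul]
  rw [Finset.sum_comm]
  have e1 : ∀ d ∈ Ico (D : ℤ) (2 * D), ∑ n ∈ Icc (1 - 2 * (Q : ℤ) * D) X, h (n + q * d) *
      ∑ d ∈ Ico (D : ℤ) (2 * D), h (n + q' * d) =
      ∑ m ∈ Icc (1 : ℤ) X, h m * ∑ d' ∈ Ico (D : ℤ) (2 * D), h (m + q' * d' - q * d) := by
    intro d hd
    rw [Finset.mem_Ico] at hd
    have hD : (0 : ℤ) ≤ D := Int.natCast_nonneg _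
    have hq0 : (0 : ℤ) ≤ q := Int.natCast_nonneg _
    have hqQ : (q : ℤ) ≤ Q := by exact_mod_cast hq
    have hd0 : 0 ≤ d := hD.trans hd.1
    rw [pairc_shift hh (fun n => ∑ d ∈ Ico (D : ℤ) (2 * D), h (n + q' * d))
      (t := q * d) (T := 2 * (Q : ℤ) * D) (by positivity) (by nlinarith)]
    refine Finset.sum_congr rfl fun m _ => ?_
    congr 1
    exact Finset.sum_congr rfl fun d' _ => by congr 1; ring
  rw [Finset.sum_congr rfl e1, Finset.sum_comm]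
  exact Finset.sum_congr rfl fun m _ => by rw [Finset.mul_sum]

lemma pairc_outer {X : ℕ} {h : ℤ → ℝ} {H : ℝ} (hH0 : 0 ≤ H) (hH : ∀ n, |h n| ≤ H * ind X n)
    (G : ℤ → ℝ) {B : ℝ} (hG : ∀ m, |G m| ≤ B) :
    ∑ m ∈ Icc (1 : ℤ) X, h m * G m ≤ X * (H * B) := by
  have h1 : ∀ m ∈ Icc (1 : ℤ) X, h m * G m ≤ H * B := by
    intro m hm
    have h2 := hH m
    rw [ind_of_mem hm, mul_one] at h2
    calc h m * G m ≤ |h m * G m| := le_abs_self _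
      _ = |h m| * |G m| := abs_mul _ _
      _ ≤ H * B := mul_le_mul h2 (hG m) (abs_nonneg _) hH0
  refine (Finset.sum_le_card_nsmul _ _ _ h1).trans ?_
  rw [Int.card_Icc, show (X : ℤ) + 1 - 1 = X by ring, Int.toNat_natCast, nsmul_eq_mul]

lemma pairc_crude {D X : ℕ} {h : ℤ → ℝ} {H : ℝ} (hH0 : 0 ≤ H) (hH : ∀ n, |h n| ≤ H * ind X n)
    (f : ℤ → ℤ → ℤ) :
    |∑ d ∈ Ico (D : ℤ) (2 * D), ∑ d' ∈ Ico (D : ℤ) (2 * D), h (f d d')| ≤ H * (D : ℝ) ^ 2 := by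
  have h1 : ∀ n, |h n| ≤ H := fun n =>
    (hH n).trans (mul_le_of_le_one_right hH0 (ind_le_one X n))
  have e2 : (Ico (D : ℤ) (2 * D)).card = D := by
    rw [Int.card_Ico, show 2 * (D : ℤ) - D = D by ring, Int.toNat_natCast]
  have h2 : ∀ d ∈ Ico (D : ℤ) (2 * D), |∑ d' ∈ Ico (D : ℤ) (2 * D), h (f d d')| ≤ D * H := by
    intro d _
    refine (Finset.abs_sum_le_sum_abs _ _).trans ?_
    refine (Finset.sum_le_card_nsmul _ _ H fun d' _ => h1 _).trans ?_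
    rw [e2, nsmul_eq_mul]
  refine (Finset.abs_sum_le_sum_abs _ _).trans ?_
  refine (Finset.sum_le_card_nsmul _ _ _ h2).trans ?_
  rw [e2, nsmul_eq_mul]
  exact le_of_eq (by ring)

lemma pairc_card_small (Q : ℕ) {δ : ℝ} (hδ : 0 ≤ δ) :
    (((Icc 1 Q ×ˢ Icc 1 Q).filter (fun x : ℕ × ℕ => (x.2 : ℝ) < δ * Q)).card : ℝ) ≤
      δ * (Q : ℝ) ^ 2 := by
  have hsub : (Icc 1 Q ×ˢ Icc 1 Q).filter (fun x : ℕ × ℕ => (x.2 : ℝ) < δ * Q) ⊆
      Icc 1 Q ×ˢ Icc 1 ⌊δ * Q⌋₊ := by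
    intro x hx
    rw [Finset.mem_filter, Finset.mem_product] at hx
    rw [Finset.mem_product]
    exact ⟨hx.1.1, Finset.mem_Icc.mpr ⟨(Finset.mem_Icc.mp hx.1.2).1, Nat.le_floor hx.2.le⟩⟩
  have h1 := Finset.card_le_card hsub
  rw [Finset.card_product, Nat.card_Icc, Nat.card_Icc, Nat.add_sub_cancel,
    Nat.add_sub_cancel] at h1
  have h2 : ((⌊δ * Q⌋₊ : ℕ) : ℝ) ≤ δ * Q := Nat.floor_le (by positivity)
  calc _ ≤ ((Q * ⌊δ * Q⌋₊ : ℕ) : ℝ) := by exact_mod_cast h1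
    _ = Q * ((⌊δ * Q⌋₊ : ℕ) : ℝ) := by push_cast; rfl
    _ ≤ Q * (δ * Q) := by gcongr
    _ = _ := by ring

/-- second moment of the sums along progressions -/
lemma pairc_second {w L X D Q : ℕ} (hw : 1 ≤ w) (hL : 0 < L) {h : ℤ → ℝ} {H : ℝ} (hH0 : 0 ≤ H)
    (hH : ∀ n, |h n| ≤ H * ind X n) (h0 : CellZero w.factorial L X h) {δ : ℝ} (hδ : 0 < δ)
    (hQ : 1 ≤ Q) (hD : 1 ≤ δ * D) (hQD : (Q : ℝ) ^ 2 ≤ δ * D)
    (hLW : 2 * L * (w.factorial : ℝ) ≤ δ ^ 3 * Q * D) :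
    ∑ n ∈ Icc (1 : ℤ) X, (∑ q ∈ Icc 1 Q, ∑ d ∈ Ico (D : ℤ) (2 * D), h (n + (q : ℕ) * d)) ^ 2 ≤
      X * H ^ 2 * (D : ℝ) ^ 2 * (Q : ℝ) ^ 2 * (1 / w + 10 * δ) := by
  have hh : ∀ n, n ∉ Icc (1 : ℤ) X → h n = 0 := by
    intro n hn
    have := hH n
    rw [ind_of_not_mem hn, mul_zero] at this
    exact abs_nonpos_iff.mp this
  have hQ0 : (0 : ℝ) < Q := by exact_mod_cast hQ
  have hD0 : (0 : ℝ) < D := by
    by_contra hc
    have : δ * D ≤ 0 := mul_nonpos_of_nonneg_of_nonpos hδ.le (not_lt.mp hc)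
    linarith
  have hsub : Icc (1 : ℤ) X ⊆ Icc (1 - 2 * (Q : ℤ) * D) X := by
    apply Finset.Icc_subset_Icc_left
    have : (0 : ℤ) ≤ 2 * (Q : ℤ) * D := by positivity
    linarith
  refine (Finset.sum_le_sum_of_subset_of_nonneg hsub fun _ _ _ => sq_nonneg _).trans ?_
  have e1 : ∑ n ∈ Icc (1 - 2 * (Q : ℤ) * D) X,
      (∑ q ∈ Icc 1 Q, ∑ d ∈ Ico (D : ℤ) (2 * D), h (n + (q : ℕ) * d)) ^ 2 =
      ∑ x ∈ Icc 1 Q ×ˢ Icc 1 Q, ∑ m ∈ Icc (1 : ℤ) X, h m *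
        ∑ d ∈ Ico (D : ℤ) (2 * D), ∑ d' ∈ Ico (D : ℤ) (2 * D),
          h (m + (x.2 : ℕ) * d' - (x.1 : ℕ) * d) := by
    simp only [sq, Finset.sum_mul_sum (Icc 1 Q) (Icc 1 Q)]
    rw [Finset.sum_comm, Finset.sum_product]
    refine Finset.sum_congr rfl fun q hq => ?_
    rw [Finset.sum_comm]
    exact Finset.sum_congr rfl fun q' _ => pairc_corr hh (Finset.mem_Icc.mp hq).2 q'
  rw [e1]
  set S : ℕ := ⌈δ * D⌉₊ with hS
  have hS1 : δ * D ≤ S := Nat.le_ceil _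
  have hS2 : (S : ℝ) ≤ 2 * (δ * D) := by
    have := Nat.ceil_lt_add_one (a := δ * D) (by positivity)
    linarith
  have hS3 : 1 ≤ S := by
    have : (1 : ℝ) ≤ S := hD.trans hS1
    exact_mod_cast this
  have h2 : ∀ x ∈ Icc 1 Q ×ˢ Icc 1 Q, ∑ m ∈ Icc (1 : ℤ) X, h m *
        ∑ d ∈ Ico (D : ℤ) (2 * D), ∑ d' ∈ Ico (D : ℤ) (2 * D),
          h (m + (x.2 : ℕ) * d' - (x.1 : ℕ) * d) ≤
      X * H ^ 2 * (D : ℝ) ^ 2 * ((if ¬ Nat.gcd x.1 x.2 ∣ w.factorial then 1 else 0) +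
        (if (x.2 : ℝ) < δ * Q then 1 else 0) + 9 * δ) := by
    intro x hx
    rw [Finset.mem_product, Finset.mem_Icc, Finset.mem_Icc] at hx
    have hcr := pairc_outer hH0 hH (fun m => ∑ d ∈ Ico (D : ℤ) (2 * D),
      ∑ d' ∈ Ico (D : ℤ) (2 * D), h (m + (x.2 : ℕ) * d' - (x.1 : ℕ) * d))
      (fun m => pairc_crude hH0 hH (fun d d' => m + (x.2 : ℕ) * d' - (x.1 : ℕ) * d))
    have hc0 : (0 : ℝ) ≤ X * H ^ 2 * (D : ℝ) ^ 2 := by positivity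
    have hcr' : ∀ c : ℝ, 1 ≤ c → (X : ℝ) * (H * (H * (D : ℝ) ^ 2)) ≤ X * H ^ 2 * (D : ℝ) ^ 2 * c := by
      intro c hc
      calc _ = X * H ^ 2 * (D : ℝ) ^ 2 * 1 := by ring
        _ ≤ _ := mul_le_mul_of_nonneg_left hc hc0
    by_cases hg : Nat.gcd x.1 x.2 ∣ w.factorial
    · by_cases hs : (x.2 : ℝ) < δ * Q
      · refine hcr.trans (hcr' _ ?_)
        rw [if_neg (not_not.mpr hg), if_pos hs]
        linarith
      · rw [if_neg (not_not.mpr hg), if_neg hs]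
        refine (pairc_outer hH0 hH _ (fun m => two_step (Nat.factorial_pos w) hL hH0 hH h0
          hx.1.1 hx.2.1 hx.1.2 hx.2.2 hg hS3 D m)).trans ?_
        have h3 : 2 * L * (w.factorial : ℝ) / (x.2 * S) ≤ δ := by
          have h4 : δ * Q * (δ * D) ≤ x.2 * S :=
            mul_le_mul (not_lt.mp hs) hS1 (by positivity) (by positivity)
          have h5 : 0 < δ * Q * (δ * D) := by positivity
          rw [div_le_iff₀ (lt_of_lt_of_le h5 h4)]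
          calc _ ≤ δ ^ 3 * Q * D := hLW
            _ = δ * (δ * Q * (δ * D)) := by ring
            _ ≤ _ := by gcongr
        have h4 : 2 * D * (2 * (Q : ℝ) ^ 2 + S) ≤ (D : ℝ) ^ 2 * (8 * δ) := by
          calc _ ≤ 2 * D * (2 * (δ * D) + 2 * (δ * D)) := by gcongr
            _ = _ := by ring
        calc _ ≤ X * (H * (H * ((D : ℝ) ^ 2 * δ + (D : ℝ) ^ 2 * (8 * δ)))) := by gcongr
          _ = _ := by ring
    · refine hcr.trans (hcr' _ ?_)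
      rw [if_pos hg]
      split_ifs <;> linarith
  refine (Finset.sum_le_sum h2).trans ?_
  rw [← Finset.mul_sum, Finset.sum_add_distrib, Finset.sum_add_distrib, Finset.sum_boole,
    Finset.sum_boole, Finset.sum_const, Finset.card_product, Nat.card_Icc, Nat.add_sub_cancel,
    nsmul_eq_mul]
  have h3 := card_bad_gcd w Q hw
  have h4 := pairc_card_small Q hδ.le
  calc _ ≤ X * H ^ 2 * (D : ℝ) ^ 2 * ((Q : ℝ) ^ 2 / w + δ * (Q : ℝ) ^ 2 +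
        ((Q * Q : ℕ) : ℝ) * (9 * δ)) := by gcongr
    _ = _ := by push_cast; ring

/-- functions with zero sum on every cell have small sums over most classes of most moduli -/
theorem pair (ε : ℝ) (hε : 0 < ε) : ∀ᶠ w : ℕ in atTop, ∃ N : ℕ, 1 ≤ N ∧ ∀ᶠ x in reg,
    ∀ h : ℤ → ℝ, (∀ n, |h n| ≤ ind x.2 n * nu0 w n) →
      CellZero w.factorial (x.2 / N + 1) x.2 h →
      ∑ d ∈ Ico (x.1 : ℤ) (2 * x.1), ∑ a ∈ Ico (0 : ℤ) d,
        (∑ n ∈ (Icc (1 : ℤ) x.2).filter (fun n => d ∣ n - a), h n) ^ 2 ≤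
        ε * x.2 * ((x.2 / x.1 : ℕ) : ℝ) * x.1 := by
  filter_upwards [kap_pow_small 4 (ε ^ 2 / 32) (by positivity), eventually_ge_atTop 1]
    with w hw hw1
  have hk := kap_pos w
  have hw0 : (0 : ℝ) < w := by exact_mod_cast hw1
  set H := kap w with hHdef
  set δ : ℝ := ε ^ 2 / (320 * H ^ 4) with hδdef
  have hδ : 0 < δ := by positivity
  obtain ⟨N, hN⟩ := exists_nat_ge (8 * (w.factorial : ℝ) / δ ^ 3)
  have hW : (0 : ℝ) < w.factorial := by exact_mod_cast Nat.factorial_pos w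
  have hN0 : (0 : ℝ) < N := lt_of_lt_of_le (by positivity) hN
  have hN1 : 1 ≤ N := by exact_mod_cast hN0
  refine ⟨N, hN1, ?_⟩
  have hQ : ∀ᶠ x in reg, 2 * H ^ 2 / ε ≤ ((x.2 / x.1 : ℕ) : ℝ) :=
    (tendsto_natCast_atTop_atTop.comp reg_Q).eventually_ge_atTop _
  have hD : ∀ᶠ x in reg, 1 / δ ≤ (x.1 : ℝ) :=
    (tendsto_natCast_atTop_atTop.comp reg_D).eventually_ge_atTop _
  filter_upwards [reg_basic, reg_sq_small δ hδ, hQ, hD, reg_X.eventually_ge_atTop N]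
    with x hb hsq hQ hD hXN h hh h0
  obtain ⟨D, X⟩ := x
  dsimp only at *
  obtain ⟨hD0, hQ1, -, hX⟩ := hb
  set Q := X / D with hQdef
  have hH : ∀ n, |h n| ≤ H * ind X n := fun n => (hh n).trans (by
    rw [mul_comm]; exact mul_le_mul_of_nonneg_right (nu0_le w n) (ind_nonneg X n))
  have hz : ∀ n, n ∉ Icc (1 : ℤ) X → h n = 0 := by
    intro n hn
    have := hH n
    rw [ind_of_not_mem hn, mul_zero] at this
    exact abs_nonpos_iff.mp this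
  have hDr : (0 : ℝ) < D := by exact_mod_cast hD0
  have hQr : (0 : ℝ) < Q := by exact_mod_cast hQ1
  have hXr : (0 : ℝ) ≤ X := Nat.cast_nonneg _
  have hδD : 1 ≤ δ * D := by rwa [div_le_iff₀ hδ, mul_comm] at hD
  have hL : ((X / N + 1 : ℕ) : ℝ) ≤ 2 * X / N := by
    have h1 : ((X / N : ℕ) : ℝ) ≤ X / N := Nat.cast_div_le
    have h2 : (1 : ℝ) ≤ X / N := by
      rw [le_div_iff₀ hN0, one_mul]; exact_mod_cast hXN
    push_cast
    rw [mul_div_assoc]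
    linarith
  have hLW : 2 * ((X / N + 1 : ℕ) : ℝ) * (w.factorial : ℝ) ≤ δ ^ 3 * Q * D := by
    have h1 : 8 * (w.factorial : ℝ) ≤ δ ^ 3 * N := by
      rwa [div_le_iff₀ (by positivity), mul_comm (N : ℝ)] at hN
    calc _ ≤ 2 * (2 * (2 * Q * D) / N) * (w.factorial : ℝ) := by
          refine mul_le_mul_of_nonneg_right (mul_le_mul_of_nonneg_left (hL.trans ?_) zero_le_two)
            hW.le
          gcongr
      _ = 8 * (w.factorial : ℝ) * (Q * D / N) := by ring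
      _ ≤ δ ^ 3 * N * (Q * D / N) := by gcongr
      _ = _ := by field_simp
  have h2 := pairc_second hw1 (Nat.succ_pos _) hk.le hH h0 hδ hQ1 hδD hsq hLW
  have h1 : ∑ n ∈ Icc (1 : ℤ) X, h n ^ 2 ≤ X * H ^ 2 := by
    have := pairc_outer hk.le hH h (B := H)
      (fun n => (hH n).trans (mul_le_of_le_one_right hk.le (ind_le_one X n)))
    simpa only [sq] using this
  rw [var_expand hD0 hz]
  have h3 := Finset.sum_mul_sq_le_sq_mul_sq (Icc (1 : ℤ) X) h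
    (fun n => ∑ q ∈ Icc 1 Q, ∑ d ∈ Ico (D : ℤ) (2 * D), h (n + (q : ℕ) * d))
  have h4 : H ^ 4 * (1 / w + 10 * δ) ≤ ε ^ 2 / 16 := by
    have h5 : H ^ 4 * (1 / w) ≤ ε ^ 2 / 32 := by
      rw [mul_one_div, div_le_iff₀ hw0]; exact hw
    have h6 : H ^ 4 * (10 * δ) = ε ^ 2 / 32 := by
      rw [hδdef]; field_simp; ring
    rw [mul_add]; linarith
  have h5 : (∑ n ∈ Icc (1 : ℤ) X, h n *
      ∑ q ∈ Icc 1 Q, ∑ d ∈ Ico (D : ℤ) (2 * D), h (n + (q : ℕ) * d)) ^ 2 ≤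
      (ε / 4 * X * Q * D) ^ 2 := by
    refine h3.trans ?_
    calc _ ≤ (X * H ^ 2) * (X * H ^ 2 * (D : ℝ) ^ 2 * (Q : ℝ) ^ 2 * (1 / w + 10 * δ)) :=
          mul_le_mul h1 h2 (Finset.sum_nonneg fun _ _ => sq_nonneg _) (by positivity)
      _ = (X * Q * D) ^ 2 * (H ^ 4 * (1 / w + 10 * δ)) := by ring
      _ ≤ (X * Q * D) ^ 2 * (ε ^ 2 / 16) := by gcongr
      _ = _ := by ring
  have h6 := (abs_le_of_sq_le_sq' h5 (by positivity)).2
  have h7 : (D : ℝ) * ∑ n ∈ Icc (1 : ℤ) X, h n ^ 2 ≤ ε / 2 * X * Q * D := by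
    have h8 : H ^ 2 ≤ ε / 2 * Q := by
      rw [div_le_iff₀ hε] at hQ
      linarith
    calc _ ≤ D * (X * H ^ 2) := by gcongr
      _ ≤ D * (X * (ε / 2 * Q)) := by gcongr
      _ = _ := by ring
  linarith

end Pool.Agent.Lib.MP_458f0b_nt.Pois
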