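import Pool.Agent.Lib.MP_458f0b_nt.Pois.Box

open Finset Filter Topology

namespace Pool.Agent.Lib.MP_458f0b_nt.Pois

variable {ι : Type} [Fintype ι] [DecidableEq ι]

lemma stara_shift {α : Type} [AddCommGroup α] (s B : Finset α) (a : α) (G : α → ℝ)
    (hG : ∀ m, m ∉ s → G m = 0) (hB : ∀ n, n + a ∈ s → n ∈ B) :
    ∑ n ∈ B, G (n + a) = ∑ m ∈ s, G m := by
  have h1 : ∑ m ∈ s, G m = ∑ n ∈ s.map (Equiv.subRight a).toEmbedding, G (n + a) := by
    rw [Finset.sum_map]
    simp
  rw [h1]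
  symm
  refine Finset.sum_subset (fun n hn => ?_) (fun n _ hn => hG _ fun h => hn ?_)
  · obtain ⟨m, hm, rfl⟩ := Finset.mem_map.1 hn
    exact hB _ (by simpa using hm)
  · exact Finset.mem_map.2 ⟨n + a, h, by simp⟩

lemma stara_expand (D X j : ℕ) (f u : ℤ → ℝ) (g : ι → ℤ → ℝ) (n : ℤ) :
    f n * line D X u g n ^ j = ∑ q ∈ Fintype.piFinset (fun _ : Fin j => inj ι (X / D)),
      ∑ d ∈ Fintype.piFinset (fun _ : Fin j => Ico (D : ℤ) (2 * D)), integ D f u g q n d := by
  have h1 : line D X u g n = ∑ q ∈ inj ι (X / D), ∑ d ∈ Ico (D : ℤ) (2 * D),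
      u d * ∏ i, g i (n + q i * d) := by
    unfold line
    rw [Finset.sum_comm]
    exact Finset.sum_congr rfl fun d _ => Finset.mul_sum _ _ _
  have h2 : line D X u g n ^ j = ∏ _e : Fin j, line D X u g n := by simp
  rw [h2, h1, Finset.prod_univ_sum, Finset.mul_sum]
  refine Finset.sum_congr rfl fun q _ => ?_
  rw [Finset.prod_univ_sum, Finset.mul_sum]
  refine Finset.sum_congr rfl fun d hd => ?_
  unfold integ
  congr 1
  refine Finset.prod_congr rfl fun e _ => ?_
  rw [if_pos (Fintype.mem_piFinset.1 hd e)]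

lemma stara_abs {W T j M Q : ℕ}
    (hM : W * T * (1 + Fintype.card ι + j * Fintype.card ι * Q) ≤ M) {q : Fin j → ι → ℤ}
    (hq : ∀ e, q e ∈ inj ι Q) (n : ℤ) {t : Option (Fin j × ι) → ℤ}
    (ht : ∀ v, 0 ≤ t v ∧ t v < T) : |shN W q n t - n| ≤ M := by
  have hT : ∀ v, |t v| ≤ T := fun v => by
    rw [abs_of_nonneg (ht v).1]
    exact (ht v).2.le
  have h1 : |∑ e, ∑ i, q e i * t (some (e, i))| ≤ (j : ℤ) * (Fintype.card ι * (Q * T)) := by
    refine (Finset.abs_sum_le_sum_abs _ _).trans ?_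
    have : ∀ e, |∑ i, q e i * t (some (e, i))| ≤ (Fintype.card ι : ℤ) * (Q * T) := fun e => by
      refine (Finset.abs_sum_le_sum_abs _ _).trans ?_
      have : ∀ i, |q e i * t (some (e, i))| ≤ (Q : ℤ) * T := fun i => by
        rw [abs_mul]
        exact mul_le_mul (abs_le.2 ((mem_inj.1 (hq e)).1 i)) (hT _) (abs_nonneg _) (by positivity)
      refine (Finset.sum_le_sum fun i _ => this i).trans ?_
      simp
    refine (Finset.sum_le_sum fun e _ => this e).trans ?_
    simp
  have h2 : shN W q n t - n = W * (t none + ∑ e, ∑ i, q e i * t (some (e, i))) := by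
    unfold shN
    ring
  have h3 : ((W * T * (1 + Fintype.card ι + j * Fintype.card ι * Q) : ℕ) : ℤ) ≤ M := by
    exact_mod_cast hM
  push_cast at h3
  rw [h2, abs_mul, abs_of_nonneg (Int.natCast_nonneg W)]
  refine le_trans (mul_le_mul_of_nonneg_left ((abs_add_le _ _).trans (add_le_add (hT none) h1))
    (Int.natCast_nonneg W)) (le_trans ?_ h3)
  have : (0 : ℤ) ≤ W * T * Fintype.card ι := by positivity
  nlinarith

lemma stara_box (D X W T j M : ℕ)
    (hM : W * T * (1 + Fintype.card ι + j * Fintype.card ι * (X / D)) ≤ M)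
    (f u : ℤ → ℝ) (g : ι → ℤ → ℝ) (hf : ∀ n, n ∉ Icc (1 : ℤ) X → f n = 0) {q : Fin j → ι → ℤ}
    (hq : ∀ e, q e ∈ inj ι (X / D)) {t : Option (Fin j × ι) → ℤ} (ht : ∀ v, 0 ≤ t v ∧ t v < T) :
    ∑ n ∈ Icc (1 - M : ℤ) (X + M),
      ∑ d ∈ Fintype.piFinset (fun _ : Fin j => Ico (D : ℤ) (2 * D + M)),
        integ D f u g q (shN W q n t) (shD W d t) =
      ∑ n ∈ Icc (1 : ℤ) X, ∑ d ∈ Fintype.piFinset (fun _ : Fin j => Ico (D : ℤ) (2 * D)),
        integ D f u g q n d := by
  have hin : ∀ m : ℤ, ∑ d ∈ Fintype.piFinset (fun _ : Fin j => Ico (D : ℤ) (2 * D + M)),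
      integ D f u g q m (shD W d t) =
      ∑ d ∈ Fintype.piFinset (fun _ : Fin j => Ico (D : ℤ) (2 * D)), integ D f u g q m d := by
    intro m
    have hb : ∀ d : Fin j → ℤ, shD W d t = d + fun e => -(W * ∑ i, t (some (e, i))) := by
      intro d
      funext e
      simp [shD, sub_eq_add_neg]
    simp only [hb]
    refine stara_shift _ _ _ (integ D f u g q m) (fun d hd => ?_) (fun d hd => ?_)
    · rw [Fintype.mem_piFinset, not_forall] at hd
      obtain ⟨e, he⟩ := hd
      unfold integ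
      rw [Finset.prod_eq_zero (Finset.mem_univ e) (by rw [if_neg he, zero_mul]), mul_zero]
    · rw [Fintype.mem_piFinset] at hd ⊢
      intro e
      have he := Finset.mem_Ico.1 (hd e)
      simp only [Pi.add_apply] at he
      have h0 : 0 ≤ ∑ i, t (some (e, i)) := Finset.sum_nonneg fun i _ => (ht _).1
      have h1 : ∑ i, t (some (e, i)) ≤ (Fintype.card ι : ℤ) * T := by
        refine (Finset.sum_le_sum fun i _ => (ht (some (e, i))).2.le).trans ?_
        simp
      have h3 : W * T * Fintype.card ι ≤ M :=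
        le_trans (Nat.mul_le_mul_left _ (by omega)) hM
      have h4 : (W : ℤ) * T * Fintype.card ι ≤ M := by exact_mod_cast h3
      have h5 : 0 ≤ (W : ℤ) * ∑ i, t (some (e, i)) := by positivity
      have h6 : (W : ℤ) * ∑ i, t (some (e, i)) ≤ W * (Fintype.card ι * T) :=
        mul_le_mul_of_nonneg_left h1 (Int.natCast_nonneg W)
      rw [Finset.mem_Ico]
      constructor
      · linarith [he.1]
      · nlinarith [he.2]
  simp only [hin]
  have ha : ∀ n : ℤ, shN W q n t = n + shN W q 0 t := by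
    intro n
    unfold shN
    ring
  rw [Finset.sum_congr rfl fun n _ => by rw [ha n]]
  refine stara_shift _ _ _ (fun m => ∑ d ∈ Fintype.piFinset
    (fun _ : Fin j => Ico (D : ℤ) (2 * D)), integ D f u g q m d) (fun m hm => ?_) (fun n hn => ?_)
  · refine Finset.sum_eq_zero fun d _ => ?_
    unfold integ
    rw [hf m hm, zero_mul]
  · have h1 := abs_le.1 (stara_abs hM hq 0 ht)
    rw [Finset.mem_Icc] at hn ⊢
    constructor <;> linarith [h1.1, h1.2, hn.1, hn.2]

/-- expansion of a star sum and averaging over shifts -/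
theorem star_shift (D X W T j M : ℕ) (hT : 0 < T)
    (hM : W * T * (1 + Fintype.card ι + j * Fintype.card ι * (X / D)) ≤ M)
    (f u : ℤ → ℝ) (g : ι → ℤ → ℝ) (hf : ∀ n, n ∉ Icc (1 : ℤ) X → f n = 0) :
    ∑ n ∈ Icc (1 : ℤ) X, f n * line D X u g n ^ j =
      ∑ q ∈ Fintype.piFinset (fun _ : Fin j => inj ι (X / D)),
        ∑ n ∈ Icc (1 - M : ℤ) (X + M),
          ∑ d ∈ Fintype.piFinset (fun _ : Fin j => Ico (D : ℤ) (2 * D + M)),
            boxAv T (fun t : Option (Fin j × ι) → ℤ =>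
              integ D f u g q (shN W q n t) (shD W d t)) := by
  rw [Finset.sum_congr rfl fun n _ => stara_expand D X j f u g n, Finset.sum_comm]
  refine Finset.sum_congr rfl fun q hq => ?_
  simp only [← boxAv_sum]
  rw [boxAv_congr T fun t ht => stara_box D X W T j M hM f u g hf (Fintype.mem_piFinset.1 hq) ht,
    boxAv_const hT]

/-- size of the shift of the centre -/
lemma abs_shN_sub_le {W T j M Q : ℕ}
    (hM : W * T * (1 + Fintype.card ι + j * Fintype.card ι * Q) ≤ M) {q : Fin j → ι → ℤ}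
    (hq : ∀ e, q e ∈ inj ι Q) (n : ℤ) {t : Option (Fin j × ι) → ℤ}
    (ht : ∀ v, 0 ≤ t v ∧ t v < T) : |shN W q n t - n| ≤ M := stara_abs hM hq n ht

lemma dvd_shN_sub (W : ℕ) {j : ℕ} (q : Fin j → ι → ℤ) (n : ℤ) (t : Option (Fin j × ι) → ℤ) :
    (W : ℤ) ∣ shN W q n t - n :=
  ⟨t none + ∑ e, ∑ i, q e i * t (some (e, i)), by unfold shN; ring⟩

lemma dvd_shD_sub (W : ℕ) {j : ℕ} (d : Fin j → ℤ) (t : Option (Fin j × ι) → ℤ) (e : Fin j) :
    (W : ℤ) ∣ shD W d t e - d e :=
  ⟨-∑ i, t (some (e, i)), by unfold shD; ring⟩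

/-- coefficients of the shifted centre -/
def cN (W : ℕ) {j : ℕ} (q : Fin j → ι → ℤ) : Option (Fin j × ι) → ℤ
  | none => W
  | some x => W * q x.1 x.2

/-- coefficients of the shifted point number `(e, i)` -/
def cP (W : ℕ) {j : ℕ} (q : Fin j → ι → ℤ) (e : Fin j) (i : ι) : Option (Fin j × ι) → ℤ
  | none => W
  | some x => W * (q x.1 x.2 - if x.1 = e then q e i else 0)

lemma shN_eq_frm (W : ℕ) {j : ℕ} (q : Fin j → ι → ℤ) (n : ℤ) (t : Option (Fin j × ι) → ℤ) :
    shN W q n t = frm n (cN W q) t := by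
  unfold shN frm
  rw [Fintype.sum_option, Fintype.sum_prod_type, add_assoc]
  simp only [cN, Finset.mul_sum, mul_assoc]

lemma shP_eq_frm (W : ℕ) {j : ℕ} (q : Fin j → ι → ℤ) (n : ℤ) (d : Fin j → ℤ)
    (t : Option (Fin j × ι) → ℤ) (e : Fin j) (i : ι) :
    shN W q n t + q e i * shD W d t e = frm (n + q e i * d e) (cP W q e i) t := by
  unfold shN shD frm
  rw [Fintype.sum_option, Fintype.sum_prod_type]
  have h1 : ∀ e' : Fin j, ∑ l, cP W q e i (some (e', l)) * t (some (e', l)) =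
      W * ∑ l, q e' l * t (some (e', l)) -
        if e' = e then W * q e i * ∑ l, t (some (e, l)) else 0 := by
    intro e'
    by_cases h : e' = e
    · subst h
      simp only [cP, if_true, Finset.mul_sum, ← Finset.sum_sub_distrib]
      exact Finset.sum_congr rfl fun l _ => by ring
    · simp only [cP, if_neg h, Finset.mul_sum, sub_zero]
      exact Finset.sum_congr rfl fun l _ => by ring
  simp only [h1, Finset.sum_sub_distrib, Finset.sum_ite_eq', Finset.mem_univ, if_true,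
    ← Finset.mul_sum]
  simp only [cP]
  ring

end Pool.Agent.Lib.MP_458f0b_nt.Pois
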