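import Pool.Agent.Lib.MP_458f0b_nt.Pois.Count
import Pool.Agent.Lib.MP_458f0b_nt.Pois.Arith

open Finset Filter Topology

namespace Pool.Agent.Lib.MP_458f0b_nt.Pois

variable {ι : Type} [Fintype ι] [DecidableEq ι]

lemma lamW_nonneg (w : ℕ) {j : ℕ} (q : Fin j → ι → ℤ) (n : ℤ) (d : Fin j → ℤ) :
    0 ≤ lamW w q n d :=
  mul_nonneg (nu0_nonneg w n) (Finset.prod_nonneg fun e _ =>
    mul_nonneg (pow_nonneg (om_pos w (d e)).le _) (Finset.prod_nonneg fun _ _ => nu0_nonneg w _))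

lemma lamW_le (w : ℕ) {j : ℕ} (q : Fin j → ι → ℤ) (n : ℤ) (d : Fin j → ℤ) :
    lamW w q n d ≤ kap w ^ (1 + j * Fintype.card ι) := by
  have h1 : ∀ e, om w (d e) ^ Fintype.card ι * ∏ i, nu0 w (n + q e i * d e) ≤
      kap w ^ Fintype.card ι := by
    intro e
    have h2 : ∏ i, nu0 w (n + q e i * d e) ≤ kap w ^ Fintype.card ι := by
      have := Finset.prod_le_prod (s := Finset.univ) (f := fun i => nu0 w (n + q e i * d e))
        (g := fun _ => kap w) (fun _ _ => nu0_nonneg w _) (fun _ _ => nu0_le w _)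
      rwa [Finset.prod_const, Finset.card_univ] at this
    have h3 : om w (d e) ^ Fintype.card ι ≤ 1 := pow_le_one₀ (om_pos w _).le (om_le_one w _)
    have h4 : 0 ≤ ∏ i, nu0 w (n + q e i * d e) := Finset.prod_nonneg fun _ _ => nu0_nonneg w _
    calc _ ≤ 1 * ∏ i, nu0 w (n + q e i * d e) := mul_le_mul_of_nonneg_right h3 h4
      _ ≤ _ := by rwa [one_mul]
  have h0 : ∀ e, 0 ≤ om w (d e) ^ Fintype.card ι * ∏ i, nu0 w (n + q e i * d e) := fun e =>
    mul_nonneg (pow_nonneg (om_pos w (d e)).le _) (Finset.prod_nonneg fun _ _ => nu0_nonneg w _)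
  have h5 := Finset.prod_le_prod (s := Finset.univ) (fun e _ => h0 e) (fun e _ => h1 e)
  rw [Finset.prod_const, Finset.card_univ, Fintype.card_fin, ← pow_mul, mul_comm] at h5
  unfold lamW
  rw [pow_add, pow_one]
  exact mul_le_mul (nu0_le w n) h5 (Finset.prod_nonneg fun e _ => h0 e) (kap_pos w).le

lemma hq_nonneg (w : ℕ) {j : ℕ} (q : Fin j → ι → ℤ) : 0 ≤ hq w q :=
  Finset.sum_nonneg fun _ _ => add_nonneg (Finset.sum_nonneg fun _ _ => h1_nonneg w _)
    (Finset.sum_nonneg fun _ _ => Finset.sum_nonneg fun _ _ => h1_nonneg w _)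

lemma starb_inj_subset (Q : ℕ) :
    inj ι Q ⊆ Fintype.piFinset fun _ : ι => Icc (-(Q : ℤ)) Q := by
  intro q hq
  rw [Fintype.mem_piFinset]
  intro i
  exact Finset.mem_Icc.mpr ((mem_inj.mp hq).1 i)

lemma starb_card_Icc (Q : ℕ) : (Icc (-(Q : ℤ)) Q).card = 2 * Q + 1 := by
  rw [Int.card_Icc]
  omega

lemma starb_card_box (Q : ℕ) :
    (Fintype.piFinset fun _ : ι => Icc (-(Q : ℤ)) Q).card = (2 * Q + 1) ^ Fintype.card ι := by
  rw [Fintype.card_piFinset, Finset.prod_const, Finset.card_univ, starb_card_Icc]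

lemma card_inj_le (Q : ℕ) : ((inj ι Q).card : ℝ) ≤ (2 * Q + 1) ^ Fintype.card ι := by
  have h := Finset.card_le_card (starb_inj_subset (ι := ι) Q)
  rw [starb_card_box] at h
  exact_mod_cast h

lemma starb_one_line (w Q : ℕ) (hQ : 1 + kap w * w.factorial ≤ Q) (n d : ℤ) :
    ∑ q ∈ inj ι Q, om w d ^ Fintype.card ι * ∏ i, nu0 w (n + q i * d) ≤
      (3 * Q) ^ Fintype.card ι := by
  have h1 : om w d * ∑ t ∈ Icc (-(Q : ℤ)) Q, nu0 w (n + t * d) ≤ 3 * Q := by
    have h2 := sum_nu0_le w n d (-(Q : ℤ)) (2 * Q + 1)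
    have h3 : Ico (-(Q : ℤ)) (-(Q : ℤ) + ((2 * Q + 1 : ℕ) : ℤ)) = Icc (-(Q : ℤ)) Q := by
      ext t
      simp only [Finset.mem_Ico, Finset.mem_Icc]
      omega
    rw [h3] at h2
    push_cast at h2
    linarith
  have h0 : 0 ≤ om w d * ∑ t ∈ Icc (-(Q : ℤ)) Q, nu0 w (n + t * d) :=
    mul_nonneg (om_pos w d).le (Finset.sum_nonneg fun _ _ => nu0_nonneg w _)
  calc _ ≤ ∑ q ∈ Fintype.piFinset fun _ : ι => Icc (-(Q : ℤ)) Q,
        om w d ^ Fintype.card ι * ∏ i, nu0 w (n + q i * d) :=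
        Finset.sum_le_sum_of_subset_of_nonneg (starb_inj_subset Q) fun q _ _ =>
          mul_nonneg (pow_nonneg (om_pos w d).le _)
            (Finset.prod_nonneg fun _ _ => nu0_nonneg w _)
    _ = (om w d * ∑ t ∈ Icc (-(Q : ℤ)) Q, nu0 w (n + t * d)) ^ Fintype.card ι := by
        rw [← Finset.mul_sum, ← Finset.prod_univ_sum (fun _ : ι => Icc (-(Q : ℤ)) Q)
          (fun _ t => nu0 w (n + t * d)), Finset.prod_const, Finset.card_univ, mul_pow]
    _ ≤ _ := pow_le_pow_left₀ h0 h1 _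

/-- total small-prime weight of the stars -/
lemma sum_lamW (w j D X M Q : ℕ) (hMD : M ≤ D) (hMX : 2 * M + kap w * w.factorial ≤ X)
    (hQ : 1 + kap w * w.factorial ≤ Q) :
    ∑ q ∈ Fintype.piFinset (fun _ : Fin j => inj ι Q), ∑ n ∈ Icc (1 - M : ℤ) (X + M),
      ∑ d ∈ Fintype.piFinset (fun _ : Fin j => Ico (D : ℤ) (2 * D + M)), lamW w q n d ≤
      2 * X * (2 * D * (3 * Q) ^ Fintype.card ι) ^ j := by
  rw [Finset.sum_comm]
  have h1 : ∀ n : ℤ, ∑ q ∈ Fintype.piFinset (fun _ : Fin j => inj ι Q),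
      ∑ d ∈ Fintype.piFinset (fun _ : Fin j => Ico (D : ℤ) (2 * D + M)), lamW w q n d ≤
      nu0 w n * (2 * D * (3 * Q) ^ Fintype.card ι) ^ j := by
    intro n
    have h2 : ∀ q : Fin j → ι → ℤ,
        ∑ d ∈ Fintype.piFinset (fun _ : Fin j => Ico (D : ℤ) (2 * D + M)), lamW w q n d =
        nu0 w n * ∏ e, ∑ d ∈ Ico (D : ℤ) (2 * D + M),
          om w d ^ Fintype.card ι * ∏ i, nu0 w (n + q e i * d) := by
      intro q
      rw [Finset.prod_univ_sum, Finset.mul_sum]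
      rfl
    simp only [h2]
    rw [← Finset.mul_sum, ← Finset.prod_univ_sum (fun _ : Fin j => inj ι Q)
      (fun _ q => ∑ d ∈ Ico (D : ℤ) (2 * D + M),
        om w d ^ Fintype.card ι * ∏ i, nu0 w (n + q i * d)), Finset.prod_const,
      Finset.card_univ, Fintype.card_fin]
    refine mul_le_mul_of_nonneg_left (pow_le_pow_left₀ ?_ ?_ _) (nu0_nonneg w n)
    · exact Finset.sum_nonneg fun q _ => Finset.sum_nonneg fun d _ =>
        mul_nonneg (pow_nonneg (om_pos w d).le _) (Finset.prod_nonneg fun _ _ => nu0_nonneg w _)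
    · rw [Finset.sum_comm]
      have h3 := Finset.sum_le_card_nsmul (Ico (D : ℤ) (2 * D + M)) _ _
        (fun d _ => starb_one_line (ι := ι) w Q hQ n d)
      have h4 : (Ico (D : ℤ) (2 * D + M)).card = D + M := by
        rw [Int.card_Ico]
        omega
      rw [h4, nsmul_eq_mul] at h3
      refine h3.trans (mul_le_mul_of_nonneg_right ?_ (by positivity))
      have h5 : (M : ℝ) ≤ D := by exact_mod_cast hMD
      push_cast
      linarith
  refine (Finset.sum_le_sum fun n _ => h1 n).trans ?_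
  rw [← Finset.sum_mul]
  refine mul_le_mul_of_nonneg_right ?_ (by positivity)
  have h6 := sum_nu0_Ico w (1 - M : ℤ) (X + 2 * M)
  have h7 : Ico (1 - M : ℤ) (1 - M + ((X + 2 * M : ℕ) : ℤ)) = Icc (1 - M : ℤ) (X + M) := by
    ext t
    simp only [Finset.mem_Ico, Finset.mem_Icc]
    omega
  rw [h7] at h6
  push_cast at h6
  linarith

/-- an entry or a difference of two entries -/
def starbLin (l : ι) (o : Option ι) (y : ι → ℤ) : ℤ := o.elim (y l) fun i => y l - y i

omit [DecidableEq ι] in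
lemma starb_hq_eq (w : ℕ) {j : ℕ} (q : Fin j → ι → ℤ) :
    hq w q = ∑ φ : Fin j × ι × Option ι, h1 w (starbLin φ.2.1 φ.2.2 (q φ.1)) := by
  unfold hq
  rw [Fintype.sum_prod_type]
  refine Finset.sum_congr rfl fun e _ => ?_
  rw [Fintype.sum_prod_type, ← Finset.sum_add_distrib]
  refine Finset.sum_congr rfl fun l _ => ?_
  rw [Fintype.sum_option]
  rfl

lemma starb_exp_sum {Φ : Type} [Fintype Φ] (K : ℝ) (hK : 0 ≤ K) (x : Φ → ℝ) (hx : ∀ φ, 0 ≤ x φ) :
    Real.exp (K * ∑ φ, x φ) - 1 ≤ ∑ φ, (Real.exp (K * Fintype.card Φ * x φ) - 1) := by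
  rcases isEmpty_or_nonempty Φ with h | h
  · simp
  · obtain ⟨φ₀, h₀⟩ := Finite.exists_max x
    have h1 := Finset.sum_le_card_nsmul Finset.univ x _ (fun φ _ => h₀ φ)
    rw [Finset.card_univ, nsmul_eq_mul] at h1
    have h2 : Real.exp (K * ∑ φ, x φ) ≤ Real.exp (K * Fintype.card Φ * x φ₀) := by
      rw [Real.exp_le_exp, mul_assoc]
      exact mul_le_mul_of_nonneg_left h1 hK
    have h3 := Finset.single_le_sum (f := fun φ => Real.exp (K * Fintype.card Φ * x φ) - 1)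
      (fun φ _ => sub_nonneg.mpr (Real.one_le_exp (by have := hx φ; positivity)))
      (Finset.mem_univ φ₀)
    linarith

lemma starb_resample {κ α : Type} [Fintype κ] [DecidableEq κ] (S : Finset α) (l : κ)
    (H : (κ → α) → ℝ) (C : ℝ)
    (h : ∀ q ∈ Fintype.piFinset fun _ : κ => S, ∑ y ∈ S, H (Function.update q l y) ≤ C) :
    (∑ q ∈ Fintype.piFinset fun _ : κ => S, H q) * S.card ≤ (S.card : ℝ) ^ Fintype.card κ * C := by
  have hmem : ∀ a : (κ → α) × α, a ∈ (Fintype.piFinset fun _ : κ => S) ×ˢ S →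
      (Function.update a.1 l a.2, a.1 l) ∈ (Fintype.piFinset fun _ : κ => S) ×ˢ S := by
    intro a ha
    rw [Finset.mem_product, Fintype.mem_piFinset] at ha ⊢
    refine ⟨fun i => ?_, ha.1 l⟩
    by_cases hi : i = l
    · subst hi
      simpa using ha.2
    · simpa [Function.update_of_ne hi] using ha.1 i
  have h1 : ∑ a ∈ (Fintype.piFinset fun _ : κ => S) ×ˢ S, H a.1 =
      ∑ a ∈ (Fintype.piFinset fun _ : κ => S) ×ˢ S, H (Function.update a.1 l a.2) := by
    refine Finset.sum_nbij' (fun a => (Function.update a.1 l a.2, a.1 l))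
      (fun a => (Function.update a.1 l a.2, a.1 l)) hmem hmem ?_ ?_ ?_
    · intro a _
      simp
    · intro a _
      simp
    · intro a _
      simp
  rw [Finset.sum_product, Finset.sum_product] at h1
  have h2 := Finset.sum_le_card_nsmul _ _ _ h
  rw [Fintype.card_piFinset, Finset.prod_const, Finset.card_univ, nsmul_eq_mul] at h2
  push_cast at h2
  refine le_trans (le_of_eq ?_) (h1.le.trans h2)
  rw [Finset.sum_mul]
  refine Finset.sum_congr rfl fun q _ => ?_
  simp [mul_comm]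

lemma starb_symm_sum (G : ℤ → ℝ) (h0 : G 0 = 0) (hs : ∀ m, G (-m) = G m) (Y : ℕ) :
    ∑ m ∈ Icc (-(Y : ℤ)) Y, G m = 2 * ∑ m ∈ Icc (1 : ℤ) Y, G m := by
  rw [← Finset.sum_filter_add_sum_filter_not (Icc (-(Y : ℤ)) Y) (fun m => 0 < m)]
  have h1 : (Icc (-(Y : ℤ)) Y).filter (fun m => 0 < m) = Icc (1 : ℤ) Y := by
    ext t
    simp only [Finset.mem_filter, Finset.mem_Icc]
    omega
  have h2 : ∑ m ∈ (Icc (-(Y : ℤ)) Y).filter (fun m => ¬ 0 < m), G m =
      ∑ m ∈ insert 0 (Icc (1 : ℤ) Y), G m := by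
    refine Finset.sum_nbij' (fun m => -m) (fun m => -m) ?_ ?_ ?_ ?_ ?_
    · intro t ht
      simp only [Finset.mem_filter, Finset.mem_Icc, Finset.mem_insert] at ht ⊢
      omega
    · intro t ht
      simp only [Finset.mem_filter, Finset.mem_Icc, Finset.mem_insert] at ht ⊢
      omega
    · intro t _
      simp
    · intro t _
      simp
    · intro t _
      exact (hs t).symm
  rw [h1, h2, Finset.sum_insert (by simp), h0]
  ring

lemma starb_shift_sum (G : ℤ → ℝ) (hG : ∀ m, 0 ≤ G m) (Q : ℕ) (a : ℤ) (ha : -(Q : ℤ) ≤ a ∧ a ≤ Q) :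
    ∑ t ∈ Icc (-(Q : ℤ)) Q, G (t - a) ≤ ∑ m ∈ Icc (-((2 * Q : ℕ) : ℤ)) (2 * Q : ℕ), G m := by
  rw [← Finset.sum_image (f := G) (g := fun t => t - a) (fun x _ y _ h => sub_left_injective h)]
  refine Finset.sum_le_sum_of_subset_of_nonneg ?_ fun m _ _ => hG m
  intro m hm
  obtain ⟨t, ht, rfl⟩ := Finset.mem_image.mp hm
  simp only [Finset.mem_Icc] at ht ⊢
  omega

lemma starb_form_sum (G : ℤ → ℝ) (hG : ∀ m, 0 ≤ G m) (h0 : G 0 = 0) (hs : ∀ m, G (-m) = G m)
    (Q : ℕ) (η : ℝ) (hη : 0 ≤ η) (hav : ∑ m ∈ Icc (1 : ℤ) (2 * Q : ℕ), G m ≤ (2 * Q : ℕ) * η)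
    {j : ℕ} (e : Fin j) (l : ι) (o : Option ι) :
    ∑ q ∈ Fintype.piFinset (fun _ : Fin j => inj ι Q), G (starbLin l o (q e)) ≤
      2 * η * (2 * Q + 1) ^ (j * Fintype.card ι) := by
  have hpos : (0 : ℝ) < 2 * Q + 1 := by positivity
  have hC : ∑ m ∈ Icc (-((2 * Q : ℕ) : ℤ)) (2 * Q : ℕ), G m ≤ 2 * η * (2 * Q + 1) := by
    rw [starb_symm_sum G h0 hs]
    push_cast at hav ⊢
    nlinarith
  have h1 := starb_resample (Icc (-(Q : ℤ)) Q) l (fun y => G (starbLin l o y))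
    (2 * η * (2 * Q + 1)) (by
      intro y hy
      rw [Fintype.mem_piFinset] at hy
      cases o with
      | none =>
        refine le_trans (le_of_eq ?_) ((starb_shift_sum G hG Q 0 (by omega)).trans hC)
        refine Finset.sum_congr rfl fun t _ => ?_
        simp [starbLin]
      | some i =>
        by_cases hi : i = l
        · subst hi
          have : ∑ t ∈ Icc (-(Q : ℤ)) Q, G (starbLin i (some i) (Function.update y i t)) = 0 :=
            Finset.sum_eq_zero fun t _ => by simp [starbLin, h0]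
          rw [this]
          positivity
        · refine le_trans (le_of_eq ?_)
            ((starb_shift_sum G hG Q (y i) (Finset.mem_Icc.mp (hy i))).trans hC)
          refine Finset.sum_congr rfl fun t _ => ?_
          simp [starbLin, Function.update_of_ne hi])
  rw [starb_card_Icc] at h1
  push_cast at h1
  have h2 : ∑ y ∈ Fintype.piFinset fun _ : ι => Icc (-(Q : ℤ)) Q, G (starbLin l o y) ≤
      (2 * Q + 1) ^ Fintype.card ι * (2 * η) := by
    refine le_of_mul_le_mul_right (h1.trans (le_of_eq ?_)) hpos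
    ring
  have h3 := starb_resample (Fintype.piFinset fun _ : ι => Icc (-(Q : ℤ)) Q) e
    (fun q : Fin j → ι → ℤ => G (starbLin l o (q e))) ((2 * Q + 1) ^ Fintype.card ι * (2 * η)) (by
      intro q _
      simpa using h2)
  rw [starb_card_box, Fintype.card_fin] at h3
  push_cast at h3
  have h4 : ∑ q ∈ Fintype.piFinset (fun _ : Fin j =>
      Fintype.piFinset fun _ : ι => Icc (-(Q : ℤ)) Q), G (starbLin l o (q e)) ≤
      2 * η * (2 * Q + 1) ^ (j * Fintype.card ι) := by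
    refine le_of_mul_le_mul_right (h3.trans (le_of_eq ?_)) (pow_pos hpos _)
    rw [← pow_mul, mul_comm (Fintype.card ι) j]
    ring
  refine le_trans (Finset.sum_le_sum_of_subset_of_nonneg ?_ fun q _ _ => hG _) h4
  exact Fintype.piFinset_subset _ _ fun _ => starb_inj_subset Q

/-- the bad primes have a small average effect -/
lemma avg_bad (j : ℕ) (K : ℝ) (hK : 0 ≤ K) (ε : ℝ) (hε : 0 < ε) :
    ∀ᶠ w : ℕ in atTop, ∀ Q : ℕ, 1 ≤ Q →
      kap w ^ (1 + j * Fintype.card ι) *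
        ∑ q ∈ Fintype.piFinset (fun _ : Fin j => inj ι Q), (Real.exp (K * hq w q) - 1) ≤
        ε * (Q : ℝ) ^ (j * Fintype.card ι) := by
  set Nf : ℝ := (Fintype.card (Fin j × ι × Option ι) : ℝ) with hNf
  have hNf0 : 0 ≤ Nf := Nat.cast_nonneg _
  obtain ⟨c, hc0, hc⟩ := h1_avg (K * Nf) (mul_nonneg hK hNf0)
  set A : ℝ := Nf * (4 * c * 3 ^ (j * Fintype.card ι)) with hA
  have hA0 : 0 ≤ A := by positivity
  have hε' : 0 < ε / (A + 1) := by positivity
  filter_upwards [kap_pow_small (1 + j * Fintype.card ι) _ hε', eventually_ge_atTop 1,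
    tendsto_natCast_atTop_atTop.eventually_ge_atTop c] with w hw hw1 hwc Q hQ
  have hw0 : (0 : ℝ) < w := by exact_mod_cast hw1
  have hcw0 : 0 ≤ c / w := div_nonneg hc0 hw0.le
  have hcw1 : c / w ≤ 1 := (div_le_one hw0).mpr hwc
  have hη0 : 0 ≤ Real.exp (c / w) - 1 := sub_nonneg.mpr (Real.one_le_exp hcw0)
  have hη : Real.exp (c / w) - 1 ≤ 2 * (c / w) := by
    have h := Real.abs_exp_sub_one_le (x := c / w) (by rwa [abs_of_nonneg hcw0])
    rwa [abs_of_nonneg hη0, abs_of_nonneg hcw0] at h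
  have hQ1 : (1 : ℝ) ≤ Q := by exact_mod_cast hQ
  have hform : ∀ φ : Fin j × ι × Option ι, ∑ q ∈ Fintype.piFinset (fun _ : Fin j => inj ι Q),
      (Real.exp (K * Nf * h1 w (starbLin φ.2.1 φ.2.2 (q φ.1))) - 1) ≤
      4 * c * 3 ^ (j * Fintype.card ι) / w * (Q : ℝ) ^ (j * Fintype.card ι) := by
    intro φ
    have h := starb_form_sum (fun m => Real.exp (K * Nf * h1 w m) - 1)
      (fun m => sub_nonneg.mpr (Real.one_le_exp (by have := h1_nonneg w m; positivity)))
      (by simp [h1]) (fun m => by simp [h1]) Q _ hη0 (hc w hw1 (2 * Q)) φ.1 φ.2.1 φ.2.2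
    refine h.trans ?_
    have h3 : (2 * (Q : ℝ) + 1) ^ (j * Fintype.card ι) ≤ (3 * Q) ^ (j * Fintype.card ι) :=
      pow_le_pow_left₀ (by positivity) (by linarith) _
    calc _ ≤ 2 * (2 * (c / w)) * (3 * Q) ^ (j * Fintype.card ι) :=
          mul_le_mul (by linarith) h3 (by positivity) (by positivity)
      _ = _ := by rw [mul_pow]; ring
  have hsum : ∑ q ∈ Fintype.piFinset (fun _ : Fin j => inj ι Q), (Real.exp (K * hq w q) - 1) ≤
      A / w * (Q : ℝ) ^ (j * Fintype.card ι) := by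
    calc _ ≤ ∑ q ∈ Fintype.piFinset (fun _ : Fin j => inj ι Q), ∑ φ : Fin j × ι × Option ι,
          (Real.exp (K * Nf * h1 w (starbLin φ.2.1 φ.2.2 (q φ.1))) - 1) := by
          refine Finset.sum_le_sum fun q _ => ?_
          rw [starb_hq_eq]
          exact starb_exp_sum K hK _ fun φ => h1_nonneg w _
      _ ≤ Nf * (4 * c * 3 ^ (j * Fintype.card ι) / w * (Q : ℝ) ^ (j * Fintype.card ι)) := by
          rw [Finset.sum_comm]
          have := Finset.sum_le_card_nsmul Finset.univ _ _ (fun φ _ => hform φ)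
          rwa [Finset.card_univ, nsmul_eq_mul] at this
      _ = _ := by rw [hA]; ring
  have hQp : 0 ≤ (Q : ℝ) ^ (j * Fintype.card ι) := by positivity
  calc _ ≤ kap w ^ (1 + j * Fintype.card ι) * (A / w * (Q : ℝ) ^ (j * Fintype.card ι)) :=
        mul_le_mul_of_nonneg_left hsum (pow_nonneg (kap_pos w).le _)
    _ ≤ ε / (A + 1) * w * (A / w * (Q : ℝ) ^ (j * Fintype.card ι)) :=
        mul_le_mul_of_nonneg_right hw (by positivity)
    _ = ε * (A / (A + 1)) * (Q : ℝ) ^ (j * Fintype.card ι) := by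
        field_simp
    _ ≤ ε * 1 * (Q : ℝ) ^ (j * Fintype.card ι) := by
        refine mul_le_mul_of_nonneg_right (mul_le_mul_of_nonneg_left ?_ hε.le) hQp
        exact (div_le_one (by positivity)).mpr (by linarith)
    _ = _ := by rw [mul_one]

/-- primes dividing an entry or a difference of entries -/
noncomputable def badSet (w z : ℕ) {j : ℕ} (q : Fin j → ι → ℤ) : Finset ℕ := by
  classical
  exact (P1 w z).filter
    (fun p => ∃ e l, (p : ℤ) ∣ q e l ∨ ∃ i, i ≠ l ∧ (p : ℤ) ∣ q e l - q e i)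

lemma mem_badSet {w z : ℕ} {j : ℕ} {q : Fin j → ι → ℤ} {p : ℕ} : p ∈ badSet w z q ↔
    p ∈ P1 w z ∧ ∃ e l, (p : ℤ) ∣ q e l ∨ ∃ i, i ≠ l ∧ (p : ℤ) ∣ q e l - q e i := by
  simp [badSet]

lemma bad_sum_le (w z : ℕ) {j Q : ℕ} {q : Fin j → ι → ℤ} (hq' : ∀ e, q e ∈ inj ι Q) :
    ∑ p ∈ (P1 w z).filter (fun p => p ∈ badSet w z q), (p : ℝ)⁻¹ ≤ hq w q := by
  rw [starb_hq_eq]
  set T : Fin j × ι × Option ι → Finset ℕ := fun φ =>
    (starbLin φ.2.1 φ.2.2 (q φ.1)).natAbs.primeFactors.filter (fun p => w < p) with hT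
  have h1' : ∀ p ∈ (P1 w z).filter (fun p => p ∈ badSet w z q),
      (p : ℝ)⁻¹ ≤ ∑ φ, if p ∈ T φ then (p : ℝ)⁻¹ else 0 := by
    intro p hp
    obtain ⟨hp1, e, l, hp2⟩ := mem_badSet.mp (Finset.mem_filter.mp hp).2
    obtain ⟨hpp, hwp, -⟩ := mem_P1.mp hp1
    obtain ⟨-, hinj, hne⟩ := mem_inj.mp (hq' e)
    have hex : ∃ φ, p ∈ T φ := by
      rcases hp2 with h | ⟨i, hi, h⟩
      · refine ⟨(e, l, none), Finset.mem_filter.mpr ⟨Nat.mem_primeFactors.mpr ⟨hpp, ?_, ?_⟩, hwp⟩⟩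
        · exact Int.natCast_dvd.mp h
        · exact Int.natAbs_ne_zero.mpr (hne l)
      · refine ⟨(e, l, some i),
          Finset.mem_filter.mpr ⟨Nat.mem_primeFactors.mpr ⟨hpp, ?_, ?_⟩, hwp⟩⟩
        · exact Int.natCast_dvd.mp h
        · exact Int.natAbs_ne_zero.mpr (sub_ne_zero.mpr fun h' => hi (hinj h').symm)
    obtain ⟨φ, hφ⟩ := hex
    have := Finset.single_le_sum (f := fun φ => if p ∈ T φ then (p : ℝ)⁻¹ else 0)
      (fun φ _ => by split_ifs <;> positivity) (Finset.mem_univ φ)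
    simpa only [if_pos hφ] using this
  refine (Finset.sum_le_sum h1').trans ?_
  rw [Finset.sum_comm]
  refine Finset.sum_le_sum fun φ _ => ?_
  rw [← Finset.sum_filter]
  exact Finset.sum_le_sum_of_subset_of_nonneg (fun p hp => (Finset.mem_filter.mp hp).2)
    fun p _ _ => by positivity

/-- points whose `M`-neighbourhood is not contained in one block inside `[1, X]` -/
lemma card_irr (X N M : ℕ) (hN : 1 ≤ N) :
    (((Icc (1 - M : ℤ) (X + M)).filter (fun n : ℤ => ¬ (1 + M ≤ n ∧ n + M ≤ X ∧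
      (n - M) / ((X / N + 1 : ℕ) : ℤ) = (n + M) / ((X / N + 1 : ℕ) : ℤ)))).card : ℝ) ≤
      (2 * N + 6) * M := by
  set L : ℤ := ((X / N + 1 : ℕ) : ℤ) with hL
  have hL0 : 0 < L := by rw [hL]; exact_mod_cast Nat.succ_pos _
  have hXL : (X : ℤ) < N * L := by
    rw [hL]
    exact_mod_cast Nat.lt_mul_div_succ X hN
  have hsub : (Icc (1 - M : ℤ) (X + M)).filter (fun n : ℤ => ¬ (1 + M ≤ n ∧ n + M ≤ X ∧
      (n - M) / L = (n + M) / L)) ⊆ (Icc (1 - M : ℤ) M ∪ Ioc (X - M : ℤ) (X + M)) ∪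
      (Icc (1 : ℤ) N).biUnion fun i => Ico (i * L - M) (i * L + M) := by
    intro n hn
    obtain ⟨hn1, hn2⟩ := Finset.mem_filter.mp hn
    rw [Finset.mem_Icc] at hn1
    simp only [Finset.mem_union, Finset.mem_Icc, Finset.mem_Ioc, Finset.mem_biUnion,
      Finset.mem_Ico]
    by_cases ha : 1 + (M : ℤ) ≤ n
    · by_cases hb : n + M ≤ X
      · right
        have hne : (n - M) / L ≠ (n + M) / L := fun h => hn2 ⟨ha, hb, h⟩
        have hle : (n - M) / L ≤ (n + M) / L := Int.ediv_le_ediv hL0 (by omega)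
        have hlt : (n - M) / L < (n + M) / L := lt_of_le_of_ne hle hne
        have h0 : 0 ≤ (n - M) / L := Int.ediv_nonneg (by omega) hL0.le
        have h1 : n - M < (n + M) / L * L := (Int.ediv_lt_iff_lt_mul hL0).mp hlt
        have h2 : (n + M) / L * L ≤ n + M := Int.ediv_mul_le _ hL0.ne'
        have h3 : (n + M) / L < N := (Int.ediv_lt_iff_lt_mul hL0).mpr (by omega)
        exact ⟨(n + M) / L, ⟨by omega, h3.le⟩, by omega, by omega⟩
      · left
        right
        omega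
    · left
      left
      omega
  have h1 : (Icc (1 - M : ℤ) M).card = 2 * M := by
    rw [Int.card_Icc]
    omega
  have h2 : (Ioc (X - M : ℤ) (X + M)).card = 2 * M := by
    rw [Int.card_Ioc]
    omega
  have h3 : ((Icc (1 : ℤ) N).biUnion fun i => Ico (i * L - M) (i * L + M)).card ≤ N * (2 * M) := by
    have h4 := Finset.card_biUnion_le_card_mul (Icc (1 : ℤ) N)
      (fun i => Ico (i * L - M) (i * L + M)) (2 * M) (fun i _ => by
        rw [Int.card_Ico]
        omega)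
    have h5 : (Icc (1 : ℤ) N).card = N := by
      rw [Int.card_Icc]
      omega
    rwa [h5] at h4
  have h6 := (Finset.card_le_card hsub).trans ((Finset.card_union_le _ _).trans
    (Nat.add_le_add (Finset.card_union_le _ _) h3))
  rw [h1, h2] at h6
  have h7 : (2 * M + 2 * M + N * (2 * M) : ℕ) ≤ (2 * N + 6) * M := by nlinarith
  have h8 := (Nat.cast_le (α := ℝ)).mpr (h6.trans h7)
  refine h8.trans (le_of_eq ?_)
  push_cast
  rfl

end Pool.Agent.Lib.MP_458f0b_nt.Pois
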