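import Pool.Agent.Lib.MP_458f0b_nt.Pois.StarL
import Pool.Agent.Lib.MP_458f0b_nt.Pois.Reg

open Finset Filter Topology

namespace Pool.Agent.Lib.MP_458f0b_nt.Pois

lemma starc_exp (A r : ℕ) (B ε : ℝ) (hε : 0 < ε) :
    ∀ᶠ u : ℕ in atTop, B * Real.exp (-((u / 64 : ℕ) : ℝ) / 2 ^ r) ≤ ε / (u : ℝ) ^ A := by
  have h0 : Tendsto (fun u : ℕ => u / 64) atTop atTop := Nat.tendsto_div_const_atTop (by norm_num)
  have h1 : Tendsto (fun u : ℕ => ((u / 64 : ℕ) : ℝ) / 2 ^ r) atTop atTop :=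
    (tendsto_natCast_atTop_atTop.comp h0).atTop_div_const (by positivity)
  have h2 := ((Real.tendsto_pow_mul_exp_neg_atTop_nhds_zero A).comp h1).const_mul
    (|B| * (128 * 2 ^ r) ^ A)
  rw [mul_zero] at h2
  filter_upwards [h2.eventually (gt_mem_nhds hε), eventually_ge_atTop 64] with u hu h64
  have h3 : (u : ℝ) ≤ 128 * ((u / 64 : ℕ) : ℝ) := by exact_mod_cast (by omega : u ≤ 128 * (u / 64))
  have h4 : (0 : ℝ) < u := by exact_mod_cast (by omega : 0 < u)
  have h5 : (u : ℝ) ^ A ≤ (128 * 2 ^ r) ^ A * (((u / 64 : ℕ) : ℝ) / 2 ^ r) ^ A := by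
    rw [← mul_pow]
    refine pow_le_pow_left₀ h4.le (h3.trans (le_of_eq ?_)) A
    field_simp
  rw [le_div_iff₀ (by positivity), neg_div]
  refine le_trans ?_ hu.le
  simp only [Function.comp]
  calc B * Real.exp (-(((u / 64 : ℕ) : ℝ) / 2 ^ r)) * (u : ℝ) ^ A
      ≤ |B| * Real.exp (-(((u / 64 : ℕ) : ℝ) / 2 ^ r)) *
        ((128 * 2 ^ r) ^ A * (((u / 64 : ℕ) : ℝ) / 2 ^ r) ^ A) := by
        gcongr
        exact le_abs_self B
    _ = _ := by ring

/-- summation of a pointwise bound over the stars -/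
lemma starc_sum {ι : Type} [Fintype ι] [DecidableEq ι] {j w D X M Q : ℕ} {a C0 K E η : ℝ}
    (P : ℤ → Prop) [DecidablePred P] (F : (Fin j → ι → ℤ) → ℤ → (Fin j → ℤ) → ℝ)
    (ha : 0 ≤ a) (hC0 : 0 ≤ C0) (hK : 0 ≤ K) (hE : 0 ≤ E) (hη : 0 ≤ η)
    (hMD : M ≤ D) (hMX : 2 * M + kap w * w.factorial ≤ X) (hQ : 1 + kap w * w.factorial ≤ Q)
    (hbad : kap w ^ (1 + j * Fintype.card ι) *
      ∑ q ∈ Fintype.piFinset (fun _ : Fin j => inj ι Q), (Real.exp (K * hq w q) - 1) ≤
        η * (Q : ℝ) ^ (j * Fintype.card ι))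
    (hF : ∀ q : Fin j → ι → ℤ, (∀ e, q e ∈ inj ι Q) → ∀ n d, |F q n d| ≤
      if P n then E else lamW w q n d * (a + C0 * (Real.exp (K * hq w q) - 1))) :
    |∑ q ∈ Fintype.piFinset (fun _ : Fin j => inj ι Q), ∑ n ∈ Icc (1 - M : ℤ) (X + M),
      ∑ d ∈ Fintype.piFinset (fun _ : Fin j => Ico (D : ℤ) (2 * D + M)), F q n d| ≤
      (D * (Q : ℝ) ^ Fintype.card ι) ^ j * ((2 * 3 ^ Fintype.card ι) ^ j *
        (2 * X * a + 2 * X * (C0 * η) + E * ((Icc (1 - M : ℤ) (X + M)).filter P).card)) := by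
  set k := Fintype.card ι with hk
  set SQ := Fintype.piFinset (fun _ : Fin j => inj ι Q) with hSQ
  set SN := Icc (1 - M : ℤ) (X + M) with hSN
  set SD := Fintype.piFinset (fun _ : Fin j => Ico (D : ℤ) (2 * D + M)) with hSD
  have hkW : 0 ≤ kap w * w.factorial := mul_nonneg (kap_pos w).le (Nat.cast_nonneg _)
  have hQ1 : (1 : ℝ) ≤ Q := by linarith
  have hMD' : (M : ℝ) ≤ D := by exact_mod_cast hMD
  have cD : (SD.card : ℝ) ≤ (2 * D) ^ j := by
    rw [hSD, Fintype.card_piFinset, prod_const, card_univ, Fintype.card_fin, Int.card_Ico,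
      show (2 * (D : ℤ) + M - D).toNat = D + M by omega, Nat.cast_pow, Nat.cast_add]
    exact pow_le_pow_left₀ (by positivity) (by linarith) j
  have cN : (SN.card : ℝ) ≤ 2 * X := by
    rw [hSN, Int.card_Icc, show ((X : ℤ) + M + 1 - (1 - M)).toNat = X + 2 * M by omega]
    push_cast
    linarith
  have cQ : (SQ.card : ℝ) ≤ ((3 * Q) ^ k) ^ j := by
    rw [hSQ, Fintype.card_piFinset, prod_const, card_univ, Fintype.card_fin, Nat.cast_pow]
    exact pow_le_pow_left₀ (by positivity) ((card_inj_le Q).trans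
      (pow_le_pow_left₀ (by positivity) (by linarith) k)) j
  have hex : ∀ q : Fin j → ι → ℤ, 0 ≤ Real.exp (K * hq w q) - 1 := fun q =>
    sub_nonneg.2 (Real.one_le_exp (mul_nonneg hK (hq_nonneg w q)))
  have hpt : ∀ q ∈ SQ, ∀ n ∈ SN, ∀ d ∈ SD, |F q n d| ≤ a * lamW w q n d +
      C0 * (kap w ^ (1 + j * k) * (Real.exp (K * hq w q) - 1)) + if P n then E else 0 := by
    intro q hq' n _ d _
    have h1 := hF q (Fintype.mem_piFinset.1 hq') n d
    have h2 := lamW_nonneg w q n d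
    have h3 := mul_le_mul_of_nonneg_right (lamW_le w q n d) (mul_nonneg hC0 (hex q))
    have h4 := mul_nonneg h2 (mul_nonneg hC0 (hex q))
    have h5 := mul_nonneg ha h2
    split_ifs at h1 ⊢
    · nlinarith
    · nlinarith
  refine ((abs_sum_le_sum_abs _ _).trans (sum_le_sum fun q hq' => (abs_sum_le_sum_abs _ _).trans
    (sum_le_sum fun n hn => (abs_sum_le_sum_abs _ _).trans
      (sum_le_sum fun d hd => hpt q hq' n hn d hd)))).trans ?_
  simp only [sum_add_distrib, sum_const, nsmul_eq_mul, ← mul_sum, ← sum_mul]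
  rw [← sum_filter, sum_const, nsmul_eq_mul]
  have e1 := mul_le_mul_of_nonneg_left (sum_lamW (ι := ι) w j D X M Q hMD hMX hQ) ha
  have e2 : (SN.card : ℝ) * (SD.card * (C0 * (kap w ^ (1 + j * k) *
      ∑ q ∈ SQ, (Real.exp (K * hq w q) - 1)))) ≤
      2 * X * ((2 * D) ^ j * (C0 * (η * ((3 * (Q : ℝ)) ^ k) ^ j))) := by
    have h1 : (Q : ℝ) ^ (j * k) ≤ ((3 * (Q : ℝ)) ^ k) ^ j := by
      rw [← pow_mul, mul_comm k j]
      exact pow_le_pow_left₀ (by positivity) (by linarith) _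
    have h2 := hbad.trans (mul_le_mul_of_nonneg_left h1 hη)
    have h3 : 0 ≤ kap w ^ (1 + j * k) * ∑ q ∈ SQ, (Real.exp (K * hq w q) - 1) :=
      mul_nonneg (pow_nonneg (kap_pos w).le _) (sum_nonneg fun q _ => hex q)
    gcongr
  have e3 : (SQ.card : ℝ) * (SD.card * (((SN.filter P).card : ℝ) * E)) ≤
      ((3 * (Q : ℝ)) ^ k) ^ j * ((2 * D) ^ j * (((SN.filter P).card : ℝ) * E)) := by
    gcongr
  refine (add_le_add (add_le_add e1 e2) e3).trans (le_of_eq ?_)
  simp only [mul_pow]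
  ring

/-- strong linear forms estimate -/
theorem slf (ι : Type) [Fintype ι] [DecidableEq ι] (j A : ℕ) (ε : ℝ) (hε : 0 < ε) :
    ∀ᶠ u : ℕ in atTop, ∀ᶠ w : ℕ in atTop, ∀ N : ℕ, 1 ≤ N → ∀ᶠ x in reg,
      ∀ (s : Finset ι) (a : ℤ → ℝ) (g : ι → ℤ → ℝ) (v : ℤ → ℝ),
        Adm w (zz x.2 u) x.2 s a g → (∀ n, |v n| ≤ ind x.2 n) →
        CellM w.factorial (x.2 / N + 1) x.2 v →
        |av x.2 (fun n => nu0 w n * (nu1 w (zz x.2 u) n - 1) * v n * dual x.1 x.2 a g n ^ j)| ≤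
          ε / (u : ℝ) ^ A := by
  obtain ⟨K, m0, hK⟩ := star_local ι j
  set k := Fintype.card ι with hk
  set B : ℝ := (2 * 3 ^ k) ^ j with hB
  have hB0 : 0 < B := by positivity
  filter_upwards [starc_exp A (1 + j * k) (B * (2 * K)) (ε / 3) (by positivity),
    eventually_ge_atTop (64 * m0 + 8 * K + 4 * (1 + j * k) + 104)] with u hu1 hu2
  obtain ⟨w0, C0, hC0, hloc⟩ := hK (u / 64) (by omega)
  have hu0 : (0 : ℝ) < u := by exact_mod_cast (by omega : 0 < u)
  set δ : ℝ := ε / 3 / (u : ℝ) ^ A with hδ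
  have hδ0 : 0 < δ := by positivity
  filter_upwards [eventually_ge_atTop w0, avg_bad (ι := ι) j K (Nat.cast_nonneg K)
    (δ / (B * (2 * (C0 + 1)))) (by positivity)] with w hw hbad N hN
  set c : ℝ := w.factorial * (1 + k + j * k) with hc
  have hW : (0 : ℝ) < w.factorial := by exact_mod_cast w.factorial_pos
  have hc0 : 0 < c := by positivity
  have hkap := kap_pos w
  filter_upwards [reg_basic, reg_sqrt_small (1 / (4 * c)) (by positivity),
    reg_irr (1 + j * k) u (by omega) (by omega)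
      (δ / (B * (kap w ^ (1 + j * k) * ((2 * N + 6) * c)))) (by positivity),
    reg_X.eventually (level_ok K (u / 64) u (by omega)),
    reg_X.eventually ((zz_tendsto (u := u) (by omega)).eventually_ge_atTop 1),
    (tendsto_natCast_atTop_atTop (R := ℝ).comp reg_X).eventually_ge_atTop
      (2 * (kap w * w.factorial) + 1),
    (tendsto_natCast_atTop_atTop (R := ℝ).comp reg_Q).eventually_ge_atTop
      (1 + kap w * w.factorial)] with x h1 h2 h3 h4 h5 h6 h7
  obtain ⟨D, X⟩ := x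
  simp only [Function.comp] at h1 h2 h3 h4 h5 h6 h7 ⊢
  obtain ⟨hD, hQ, hQD, -⟩ := h1
  intro s a g v hA hv hcell
  set z := zz X u with hz
  set Q := X / D with hQdef
  set T := Nat.sqrt X with hT
  set M := w.factorial * T * (1 + k + j * k * Q) with hM
  have hkW : 0 < kap w * w.factorial := by positivity
  have hX0 : (0 : ℝ) < X := by linarith
  have hD0 : (0 : ℝ) < D := by exact_mod_cast hD
  have hQ1 : (1 : ℝ) ≤ Q := by exact_mod_cast hQ
  have hT0 : 0 < T := Nat.sqrt_pos.2 (by exact_mod_cast hX0)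
  have hMc : (M : ℝ) ≤ c * (T * Q) := by
    have : (1 + k + j * k * Q : ℝ) ≤ (1 + k + j * k) * Q := by
      nlinarith [mul_nonneg (Nat.cast_nonneg (α := ℝ) k) (sub_nonneg.2 hQ1)]
    calc (M : ℝ) = w.factorial * T * (1 + k + j * k * Q) := by rw [hM]; push_cast; ring
      _ ≤ w.factorial * T * ((1 + k + j * k) * Q) := by gcongr
      _ = _ := by rw [hc]; ring
  have hMD : (M : ℝ) ≤ D / 4 := by
    refine hMc.trans ((mul_le_mul_of_nonneg_left h2 hc0.le).trans (le_of_eq ?_))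
    field_simp
  have hDX : (D : ℝ) ≤ X := by nlinarith
  have hv1 : ∀ n, |v n| ≤ 1 := fun n => (hv n).trans (ind_le_one X n)
  have key := starc_sum (j := j) (ι := ι) (w := w) (D := D) (X := X) (M := M) (Q := Q)
    (a := K * Real.exp (-((u / 64 : ℕ) : ℝ) / 2 ^ (1 + j * k))) (C0 := C0) (K := K)
    (E := (kap w * z) ^ (1 + j * k))
    (fun n : ℤ => ¬ (1 + M ≤ n ∧ n + M ≤ X ∧
      (n - M) / ((X / N + 1 : ℕ) : ℤ) = (n + M) / ((X / N + 1 : ℕ) : ℤ)))
    (fun q n d => boxAv T (fun t : Option (Fin j × ι) → ℤ =>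
      integ D (fun x => nu0 w x * (nu1 w z x - 1) * v x) a g q
        (shN w.factorial q n t) (shD w.factorial d t)))
    (by positivity) hC0 (Nat.cast_nonneg K) (by positivity) (by positivity)
    (by exact_mod_cast hMD.trans (by linarith : (D : ℝ) / 4 ≤ D)) (by linarith) h7 (hbad Q hQ)
    (fun q hq' n d => by
      split_ifs with hn
      · refine (hloc w hw z T h5 h4 hT0 D X Q s a g hA q hq' n d).2 v (hv1 n) fun t ht => ?_
        obtain ⟨n1, n2, n3⟩ := hn
        obtain ⟨s1, s2⟩ := abs_le.1 (abs_shN_sub_le (M := M) le_rfl hq' n ht)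
        have hL : (0 : ℤ) < ((X / N + 1 : ℕ) : ℤ) := by exact_mod_cast Nat.succ_pos _
        have hM0 : (0 : ℤ) ≤ M := Int.natCast_nonneg M
        refine hcell n (mem_Icc.2 ⟨by omega, by omega⟩) _ (mem_Icc.2 ⟨by omega, by omega⟩) ?_
          (Int.emod_eq_emod_iff_emod_sub_eq_zero.2 (Int.emod_eq_zero_of_dvd (dvd_shN_sub _ q n t)))
        have a1 := Int.ediv_le_ediv hL (show n - M ≤ n by omega)
        have a2 := Int.ediv_le_ediv hL (show n ≤ n + M by omega)
        have a3 := Int.ediv_le_ediv hL (show n - M ≤ shN w.factorial q n t by omega)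
        have a4 := Int.ediv_le_ediv hL (show shN w.factorial q n t ≤ n + M by omega)
        omega
      · refine (abs_boxAv_le _ _).trans ((boxAv_mono T fun t _ =>
          integ_triv h5 D hA hv1 q _ _).trans (le_of_eq (boxAv_const hT0 _))))
  rw [← star_shift D X w.factorial T j M hT0 le_rfl _ a g fun n hn => by
    have := hv n
    rw [ind_of_not_mem hn] at this
    rw [abs_nonpos_iff.1 this, mul_zero]] at key
  have hpos : 0 < (D * (Q : ℝ) ^ k) ^ j := by positivity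
  have hirr := card_irr X N M hN
  simp only [av, dual, div_pow, ← mul_div_assoc, ← sum_div]
  rw [abs_div, abs_div, abs_of_pos hX0, abs_of_pos hpos, div_le_iff₀ hX0, div_le_iff₀' hpos]
  refine key.trans (mul_le_mul_of_nonneg_left ?_ hpos.le)
  have e1 : B * (2 * X * (K * Real.exp (-((u / 64 : ℕ) : ℝ) / 2 ^ (1 + j * k)))) ≤ δ * X :=
    le_of_eq_of_le (by ring) (mul_le_mul_of_nonneg_right hu1 hX0.le)
  have e2 : B * (2 * X * (C0 * (δ / (B * (2 * (C0 + 1)))))) ≤ δ * X := by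
    have : C0 / (C0 + 1) ≤ 1 := (div_le_one (by positivity)).2 (by linarith)
    calc _ = δ * X * (C0 / (C0 + 1)) := by field_simp
      _ ≤ δ * X * 1 := by gcongr
      _ = _ := mul_one _
  have e3 : B * ((kap w * z) ^ (1 + j * k) * ((2 * N + 6) * (c * (T * Q)))) ≤ δ * X := by
    calc _ = B * (kap w ^ (1 + j * k) * ((2 * N + 6) * c)) * (T * Q * (z : ℝ) ^ (1 + j * k)) := by
          rw [mul_pow]; ring
      _ ≤ B * (kap w ^ (1 + j * k) * ((2 * N + 6) * c)) *
          (δ / (B * (kap w ^ (1 + j * k) * ((2 * N + 6) * c))) * X) := by gcongr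
      _ = _ := by field_simp
  have e4 := mul_le_mul_of_nonneg_left (mul_le_mul_of_nonneg_left
    (hirr.trans (mul_le_mul_of_nonneg_left hMc (by positivity)))
    (by positivity : 0 ≤ (kap w * z) ^ (1 + j * k))) hB0.le
  have e5 : ε / (u : ℝ) ^ A = 3 * δ := by rw [hδ]; ring
  rw [e5, mul_add, mul_add]
  linarith

end Pool.Agent.Lib.MP_458f0b_nt.Pois
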