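import Pool.Agent.Lib.MP_458f0b_nt.Pois.StarL
import Pool.Agent.Lib.MP_458f0b_nt.Pois.Reg

open Finset Filter Topology

namespace Pool.Agent.Lib.MP_458f0b_nt.Pois

/-- a sign -/
noncomputable def stard_sg (y : ℝ) : ℝ := if 0 ≤ y then 1 else -1

lemma stard_abs_sg (y : ℝ) : |stard_sg y| = 1 := by
  unfold stard_sg; split_ifs <;> simp

lemma stard_sg_mul (y : ℝ) : stard_sg y * y ^ 3 = |y| ^ 3 := by
  unfold stard_sg; split_ifs with h
  · rw [abs_of_nonneg h, one_mul]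
  · rw [abs_of_neg (not_le.mp h)]; ring

/-- the weighted count of the stars -/
lemma stard_sum {ι : Type} [Fintype ι] [DecidableEq ι] (w D X M Q : ℕ) (K : ℝ) (hK : 0 ≤ K)
    (hMD : M ≤ D) (hMX : 2 * M + kap w * w.factorial ≤ X) (hQ : 1 + kap w * w.factorial ≤ Q)
    (hbad : kap w ^ (1 + 3 * Fintype.card ι) *
        ∑ q ∈ Fintype.piFinset (fun _ : Fin 3 => inj ι Q), (Real.exp (K * hq w q) - 1) ≤
        1 * (Q : ℝ) ^ (3 * Fintype.card ι)) :
    ∑ q ∈ Fintype.piFinset (fun _ : Fin 3 => inj ι Q), ∑ n ∈ Icc (1 - M : ℤ) (X + M),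
      ∑ d ∈ Fintype.piFinset (fun _ : Fin 3 => Ico (D : ℤ) (2 * D + M)),
        lamW w q n d * (9 + 9 * (Real.exp (K * hq w q) - 1)) ≤
      (18 * (2 * 3 ^ Fintype.card ι) ^ 3 + 144) * X *
        ((D : ℝ) * (Q : ℝ) ^ Fintype.card ι) ^ 3 := by
  set k := Fintype.card ι with hk
  have hE : ∀ q : Fin 3 → ι → ℤ, 0 ≤ Real.exp (K * hq w q) - 1 := by
    intro q
    have := Real.one_le_exp (mul_nonneg hK (hq_nonneg w q))
    linarith
  have hkap := kap_pos w
  have hW : (0 : ℝ) ≤ kap w * w.factorial := by positivity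
  have hMX' : (2 * M : ℝ) ≤ X := by linarith
  have hMD' : (M : ℝ) ≤ D := by exact_mod_cast hMD
  have hc1 : ((Icc (1 - M : ℤ) (X + M)).card : ℝ) ≤ 2 * X := by
    have h : (Icc (1 - M : ℤ) (X + M)).card = X + 2 * M := by
      rw [Int.card_Icc]; omega
    rw [h]; push_cast; linarith
  have hc2 : ((Fintype.piFinset (fun _ : Fin 3 => Ico (D : ℤ) (2 * D + M))).card : ℝ)
      ≤ (2 * D) ^ 3 := by
    have h : (Ico (D : ℤ) (2 * D + M)).card = D + M := by
      rw [Int.card_Ico]; omega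
    rw [Fintype.card_piFinset_const, h]
    push_cast
    gcongr
    linarith
  have h1 := sum_lamW (ι := ι) w 3 D X M Q hMD hMX hQ
  have h2 : ∀ q : Fin 3 → ι → ℤ, ∑ n ∈ Icc (1 - M : ℤ) (X + M),
      ∑ d ∈ Fintype.piFinset (fun _ : Fin 3 => Ico (D : ℤ) (2 * D + M)), lamW w q n d ≤
      2 * X * ((2 * D) ^ 3 * kap w ^ (1 + 3 * k)) := by
    intro q
    have hkp : 0 ≤ kap w ^ (1 + 3 * k) := by positivity
    have h3 : ∀ n ∈ Icc (1 - M : ℤ) (X + M),
        ∑ d ∈ Fintype.piFinset (fun _ : Fin 3 => Ico (D : ℤ) (2 * D + M)), lamW w q n d ≤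
        (2 * D) ^ 3 * kap w ^ (1 + 3 * k) := by
      intro n _
      refine (Finset.sum_le_card_nsmul _ _ _ fun d _ => lamW_le w q n d).trans ?_
      rw [nsmul_eq_mul]
      exact mul_le_mul_of_nonneg_right hc2 hkp
    refine (Finset.sum_le_card_nsmul _ _ _ h3).trans ?_
    rw [nsmul_eq_mul]
    exact mul_le_mul_of_nonneg_right hc1 (by positivity)
  have h4 : ∀ q ∈ Fintype.piFinset (fun _ : Fin 3 => inj ι Q),
      ∑ n ∈ Icc (1 - M : ℤ) (X + M),
        ∑ d ∈ Fintype.piFinset (fun _ : Fin 3 => Ico (D : ℤ) (2 * D + M)),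
          lamW w q n d * (9 + 9 * (Real.exp (K * hq w q) - 1)) ≤
      9 * (∑ n ∈ Icc (1 - M : ℤ) (X + M),
        ∑ d ∈ Fintype.piFinset (fun _ : Fin 3 => Ico (D : ℤ) (2 * D + M)), lamW w q n d) +
      9 * (2 * X * (2 * D) ^ 3) * (kap w ^ (1 + 3 * k) * (Real.exp (K * hq w q) - 1)) := by
    intro q _
    simp only [← Finset.sum_mul]
    have h5 := mul_le_mul_of_nonneg_right (h2 q) (hE q)
    nlinarith [h5]
  refine (Finset.sum_le_sum h4).trans ?_
  rw [Finset.sum_add_distrib, ← Finset.mul_sum, ← Finset.mul_sum, ← Finset.mul_sum]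
  have h6 : 9 * (2 * (X : ℝ) * (2 * D) ^ 3) * (kap w ^ (1 + 3 * k) *
      ∑ q ∈ Fintype.piFinset (fun _ : Fin 3 => inj ι Q), (Real.exp (K * hq w q) - 1)) ≤
      9 * (2 * X * (2 * D) ^ 3) * (1 * (Q : ℝ) ^ (3 * k)) :=
    mul_le_mul_of_nonneg_left hbad (by positivity)
  have h7 : 9 * (2 * (X : ℝ) * (2 * D * (3 * Q) ^ k) ^ 3) +
      9 * (2 * X * (2 * D) ^ 3) * (1 * (Q : ℝ) ^ (3 * k)) =
      (18 * (2 * 3 ^ k) ^ 3 + 144) * X * ((D : ℝ) * (Q : ℝ) ^ k) ^ 3 := by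
    rw [mul_pow (3 : ℝ) Q k, mul_comm 3 k, pow_mul]
    ring
  rw [← h7]
  linarith

/-- third moment bound -/
theorem mom3 (ι : Type) [Fintype ι] [DecidableEq ι] : ∃ M : ℝ, 0 ≤ M ∧
    ∀ᶠ u : ℕ in atTop, ∀ᶠ w : ℕ in atTop, ∀ᶠ x in reg,
      ∀ (s : Finset ι) (a : ℤ → ℝ) (g : ι → ℤ → ℝ), Adm w (zz x.2 u) x.2 s a g →
        av x.2 (fun n => nu0 w n * |dual x.1 x.2 a g n| ^ 3) ≤ M := by
  obtain ⟨K, m0, hloc⟩ := star_local ι 3
  obtain ⟨w0, C0, -, hloc⟩ := hloc m0 le_rfl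
  set k := Fintype.card ι with hk
  refine ⟨18 * (2 * 3 ^ k) ^ 3 + 144, by positivity, ?_⟩
  filter_upwards [eventually_ge_atTop (4 * (8 * m0 + 13 + K))] with u hu
  have hu1 : 1 ≤ u := by omega
  filter_upwards [eventually_ge_atTop w0,
    avg_bad (ι := ι) 3 (K : ℝ) (Nat.cast_nonneg K) 1 one_pos] with w hw hbad
  have hWpos : (0 : ℝ) < w.factorial := by exact_mod_cast w.factorial_pos
  have hkap := kap_pos w
  have hε : (0 : ℝ) < ((w.factorial : ℝ) * (1 + 4 * k))⁻¹ := by positivity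
  have hQt : Tendsto (fun x : ℕ × ℕ => ((x.2 / x.1 : ℕ) : ℝ)) reg atTop :=
    tendsto_natCast_atTop_atTop.comp reg_Q
  filter_upwards [reg_basic, reg_X.eventually (level_ok K m0 u hu),
    ((zz_tendsto hu1).comp reg_X).eventually (eventually_ge_atTop 1),
    reg_X.eventually (eventually_ge_atTop 1), reg_sqrt_small _ hε,
    hQt.eventually (eventually_ge_atTop (2 + kap w * w.factorial))]
    with x hb hlev hz hX1 hsq hQ
  obtain ⟨D, X⟩ := x
  simp only [Function.comp] at hb hlev hz hX1 hsq hQ ⊢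
  obtain ⟨hD, hQ1, hQD, -⟩ := hb
  intro s a g hA
  set Q := X / D with hQdef
  set T := Nat.sqrt X with hT
  have hT0 : 0 < T := Nat.sqrt_pos.mpr hX1
  set M := w.factorial * T * (1 + k + 3 * k * Q) with hM
  have hD1 : (1 : ℝ) ≤ D := by exact_mod_cast hD
  have hQ1' : (1 : ℝ) ≤ Q := by exact_mod_cast hQ1
  have hX0 : (0 : ℝ) < X := by exact_mod_cast hX1
  have hMD : M ≤ D := by
    have h1 : (M : ℝ) ≤ (w.factorial * (1 + 4 * k)) * (T * Q) := by
      have h2 : (1 + k + 3 * k * Q : ℝ) ≤ (1 + 4 * k) * Q := by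
        have : (0 : ℝ) ≤ k := Nat.cast_nonneg k
        nlinarith
      calc (M : ℝ) = w.factorial * T * (1 + k + 3 * k * Q) := by rw [hM]; push_cast; ring
        _ ≤ w.factorial * T * ((1 + 4 * k) * Q) := by gcongr
        _ = _ := by ring
    have h3 : ((w.factorial : ℝ) * (1 + 4 * k)) * (T * Q) ≤ D := by
      calc ((w.factorial : ℝ) * (1 + 4 * k)) * (T * Q)
          ≤ (w.factorial * (1 + 4 * k)) * (((w.factorial : ℝ) * (1 + 4 * k))⁻¹ * D) := by gcongr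
        _ = D := by field_simp
    exact_mod_cast h1.trans h3
  have hMD' : (M : ℝ) ≤ D := by exact_mod_cast hMD
  have hkW : (0 : ℝ) ≤ kap w * w.factorial := by positivity
  have hMX : 2 * M + kap w * w.factorial ≤ X := by
    have h1 : (2 + kap w * w.factorial) * D ≤ (Q : ℝ) * D := by gcongr
    nlinarith
  let f : ℤ → ℝ := fun n => ind X n * nu0 w n * stard_sg (line D X a g n)
  have hf0 : ∀ n, n ∉ Icc (1 : ℤ) X → f n = 0 := by
    intro n hn
    simp only [f, ind_of_not_mem hn, zero_mul]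
  have hf1 : ∀ n, |f n| ≤ nu0 w n := by
    intro n
    simp only [f, abs_mul, stard_abs_sg, mul_one, abs_of_nonneg (ind_nonneg X n),
      abs_of_nonneg (nu0_nonneg w n)]
    exact mul_le_of_le_one_left (nu0_nonneg w n) (ind_le_one X n)
  have hshift := star_shift D X w.factorial T 3 M hT0 le_rfl f a g hf0
  have hle : ∑ n ∈ Icc (1 : ℤ) X, f n * line D X a g n ^ 3 ≤
      (18 * (2 * 3 ^ k) ^ 3 + 144) * X * ((D : ℝ) * (Q : ℝ) ^ k) ^ 3 := by
    rw [hshift]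
    refine le_trans ?_ (stard_sum (ι := ι) w D X M Q K (Nat.cast_nonneg K) hMD hMX
      (by linarith) (hbad Q hQ1))
    refine Finset.sum_le_sum fun q hq' => Finset.sum_le_sum fun n _ =>
      Finset.sum_le_sum fun d _ => ?_
    refine le_trans (boxAv_mono T fun t _ => le_abs_self _) ?_
    exact (hloc w hw (zz X u) T hz hlev hT0 D X Q s a g hA q
      (Fintype.mem_piFinset.mp hq') n d).1 f hf1
  have hden : (0 : ℝ) < (D : ℝ) * (Q : ℝ) ^ k := by positivity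
  have heq : ∑ n ∈ Icc (1 : ℤ) X, nu0 w n * |dual D X a g n| ^ 3 =
      (∑ n ∈ Icc (1 : ℤ) X, f n * line D X a g n ^ 3) / ((D : ℝ) * (Q : ℝ) ^ k) ^ 3 := by
    rw [Finset.sum_div]
    refine Finset.sum_congr rfl fun n hn => ?_
    simp only [f, ind_of_mem hn, one_mul, dual]
    rw [mul_assoc, stard_sg_mul, abs_div, abs_of_pos hden, div_pow, mul_div_assoc]
  unfold av
  rw [heq, div_div, div_le_iff₀ (by positivity)]
  linarith

end Pool.Agent.Lib.MP_458f0b_nt.Pois
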