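import Pool.Agent.Lib.MP_458f0b_nt.Pois.Local
import Pool.Agent.Lib.MP_458f0b_nt.Pois.StarA
import Pool.Agent.Lib.MP_458f0b_nt.Pois.StarB

open Finset Filter Topology

namespace Pool.Agent.Lib.MP_458f0b_nt.Pois

variable {ι : Type} [Fintype ι] [DecidableEq ι]

/-- the active indices -/
def starlAct (j : ℕ) (s : Finset ι) : Finset (Option (Fin j × ι)) :=
  (univ ×ˢ s).map Function.Embedding.some

/-- the constant terms of the forms -/
def starlB {j : ℕ} (q : Fin j → ι → ℤ) (n : ℤ) (d : Fin j → ℤ) :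
    Option (Option (Fin j × ι)) → ℤ
  | none => n
  | some none => 0
  | some (some x) => n + q x.1 x.2 * d x.1

/-- the coefficients of the forms -/
def starlC (W : ℕ) {j : ℕ} (q : Fin j → ι → ℤ) :
    Option (Option (Fin j × ι)) → Option (Fin j × ι) → ℤ
  | none => cN W q
  | some none => 0
  | some (some x) => cP W q x.1 x.2

/-- the factors of the integrand -/
noncomputable def starlG (D W : ℕ) (u : ℤ → ℝ) (g : ι → ℤ → ℝ) {j : ℕ} (q : Fin j → ι → ℤ)
    (n : ℤ) (d : Fin j → ℤ) : Option (Fin j × ι) → (Option (Fin j × ι) → ℤ) → ℝ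
  | none => fun t => ∏ e, (if shD W d t e ∈ Ico (D : ℤ) (2 * D) then u (shD W d t e) else 0)
  | some x => fun t => g x.2 (frm (n + q x.1 x.2 * d x.1) (cP W q x.1 x.2) t)

/-- the sizes of the factors -/
noncomputable def starlBeta (w : ℕ) {j : ℕ} (q : Fin j → ι → ℤ) (n : ℤ) (d : Fin j → ℤ) :
    Option (Fin j × ι) → ℝ
  | none => ∏ e, om w (d e) ^ Fintype.card ι
  | some x => nu0 w (n + q x.1 x.2 * d x.1)

omit [Fintype ι] [DecidableEq ι] in
lemma starl_none_not_mem (j : ℕ) (s : Finset ι) : none ∉ starlAct j s := by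
  simp [starlAct]

omit [Fintype ι] [DecidableEq ι] in
lemma starl_some_mem {j : ℕ} {s : Finset ι} {x : Fin j × ι} :
    some x ∈ starlAct j s ↔ x.2 ∈ s := by
  obtain ⟨e, i⟩ := x
  simp [starlAct]

omit [Fintype ι] [DecidableEq ι] in
lemma starl_mem {j : ℕ} {s : Finset ι} {l : Option (Fin j × ι)} (h : l ∈ starlAct j s) :
    ∃ x, l = some x := by
  rcases l with _ | x
  · exact absurd h (starl_none_not_mem j s)
  · exact ⟨x, rfl⟩

lemma starl_frm_update {U : Type} [Fintype U] [DecidableEq U] (b : ℤ) {c : U → ℤ} {i : U}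
    (h : c i = 0) (t : U → ℤ) (y : ℤ) : frm b c (Function.update t i y) = frm b c t := by
  unfold frm
  congr 1
  refine sum_congr rfl fun v _ => ?_
  by_cases hv : v = i
  · rw [hv, h, zero_mul, zero_mul]
  · rw [Function.update_of_ne hv]

omit [Fintype ι] [DecidableEq ι] in
lemma starl_cP_self (W : ℕ) {j : ℕ} (q : Fin j → ι → ℤ) (x : Fin j × ι) :
    cP W q x.1 x.2 (some x) = 0 := by
  simp [cP]

lemma starl_integ (D W : ℕ) (f u : ℤ → ℝ) (g : ι → ℤ → ℝ) {j : ℕ} (q : Fin j → ι → ℤ)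
    (n : ℤ) (d : Fin j → ℤ) (t : Option (Fin j × ι) → ℤ) :
    integ D f u g q (shN W q n t) (shD W d t) =
      f (shN W q n t) * ∏ l, starlG D W u g q n d l t := by
  unfold integ
  rw [Fintype.prod_option, prod_mul_distrib, Fintype.prod_prod_type]
  simp only [starlG, shP_eq_frm]

omit [DecidableEq ι] in
lemma starl_lamW (w : ℕ) {j : ℕ} (q : Fin j → ι → ℤ) (n : ℤ) (d : Fin j → ℤ) :
    lamW w q n d = nu0 w n * ∏ l, starlBeta w q n d l := by
  unfold lamW
  rw [Fintype.prod_option, prod_mul_distrib, Fintype.prod_prod_type]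
  simp only [starlBeta]

omit [DecidableEq ι] in
lemma starl_beta_nonneg (w : ℕ) {j : ℕ} (q : Fin j → ι → ℤ) (n : ℤ) (d : Fin j → ℤ)
    (l : Option (Fin j × ι)) : 0 ≤ starlBeta w q n d l := by
  rcases l with _ | x
  · exact prod_nonneg fun e _ => pow_nonneg (om_pos w _).le _
  · exact nu0_nonneg w _

lemma starl_G_update (D W : ℕ) (u : ℤ → ℝ) (g : ι → ℤ → ℝ) {j : ℕ} (q : Fin j → ι → ℤ)
    (n : ℤ) (d : Fin j → ℤ) (l : Option (Fin j × ι)) (t : Option (Fin j × ι) → ℤ) (y : ℤ) :
    starlG D W u g q n d l (Function.update t l y) = starlG D W u g q n d l t := by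
  rcases l with _ | x
  · have h : ∀ e, shD W d (Function.update t none y) e = shD W d t e := fun e => by
      simp [shD]
    simp only [starlG, h]
  · simp only [starlG]
    rw [starl_frm_update _ (starl_cP_self W q x)]

lemma starl_G_le {w z X : ℕ} (D : ℕ) {s : Finset ι} {u : ℤ → ℝ} {g : ι → ℤ → ℝ}
    (hA : Adm w z X s u g) {j : ℕ} (q : Fin j → ι → ℤ) (n : ℤ) (d : Fin j → ℤ)
    (l : Option (Fin j × ι)) (t : Option (Fin j × ι) → ℤ) :
    |starlG D w.factorial u g q n d l t| ≤ starlBeta w q n d l *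
      (if l ∈ starlAct j s then
        nu1 w z (frm (starlB q n d (some l)) (starlC w.factorial q (some l)) t) else 1) := by
  rcases l with _ | x
  · rw [if_neg (starl_none_not_mem j s), mul_one]
    simp only [starlG, starlBeta]
    rw [abs_prod]
    refine prod_le_prod (fun e _ => abs_nonneg _) fun e _ => ?_
    split_ifs
    · rw [← om_congr (dvd_shD_sub w.factorial d t e)]
      exact hA.1 _
    · rw [abs_zero]
      exact pow_nonneg (om_pos w _).le _
  · simp only [starlG, starlBeta, starlB, starlC, starl_some_mem]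
    refine (hA.2 _ _).trans ?_
    have hd : (w.factorial : ℤ) ∣ frm (n + q x.1 x.2 * d x.1) (cP w.factorial q x.1 x.2) t -
        (n + q x.1 x.2 * d x.1) := by
      rw [← shP_eq_frm]
      have h1 := dvd_shN_sub w.factorial q n t
      have h2 := (dvd_shD_sub w.factorial d t x.1).mul_left (q x.1 x.2)
      have h3 : shN w.factorial q n t + q x.1 x.2 * shD w.factorial d t x.1 -
          (n + q x.1 x.2 * d x.1) = (shN w.factorial q n t - n) +
          q x.1 x.2 * (shD w.factorial d t x.1 - d x.1) := by ring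
      rw [h3]
      exact dvd_add h1 h2
    rw [nu0_congr hd]
    refine mul_le_mul_of_nonneg_right ?_ ?_
    · exact mul_le_of_le_one_left (nu0_nonneg w _) (ind_le_one X _)
    · split_ifs
      · exact nu1_nonneg w z _
      · exact zero_le_one

lemma starl_good {w z : ℕ} {j : ℕ} (q : Fin j → ι → ℤ) (s : Finset ι) (p : ℕ)
    (hp : p ∈ P1 w z) (hb : p ∉ badSet w z q) :
    (∀ l, ¬ (p : ℤ) ∣ starlC w.factorial q none l) ∧ ∀ i ∈ starlAct j s, ∀ l, l ≠ i →
      ¬ (p : ℤ) ∣ starlC w.factorial q (some i) l := by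
  have hW := not_dvd_fact hp
  have hpp : Prime (p : ℤ) := Nat.prime_iff_prime_int.mp (prime_of_mem_P1 hp)
  have h1 : ∀ e l, ¬ (p : ℤ) ∣ q e l := fun e l h =>
    hb (mem_badSet.mpr ⟨hp, e, l, Or.inl h⟩)
  have h2 : ∀ e l i, i ≠ l → ¬ (p : ℤ) ∣ q e l - q e i := fun e l i hi h =>
    hb (mem_badSet.mpr ⟨hp, e, l, Or.inr ⟨i, hi, h⟩⟩)
  refine ⟨fun l => ?_, fun i hi l hl => ?_⟩
  · rcases l with _ | x
    · exact hW
    · exact fun h => (hpp.dvd_or_dvd h).elim hW (h1 _ _)
  · obtain ⟨⟨e, i⟩, rfl⟩ := starl_mem hi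
    rcases l with _ | ⟨e', l⟩
    · exact hW
    · refine fun h => (hpp.dvd_or_dvd h).elim hW fun h' => ?_
      by_cases he : e' = e
      · subst he
        rw [if_pos rfl] at h'
        exact h2 e' l i (fun hil => hl (by rw [hil])) h'
      · rw [if_neg he, sub_zero] at h'
        exact h1 e' l h'

/-- the local bounds for one star and one base point -/
theorem star_local (ι : Type) [Fintype ι] [DecidableEq ι] (j : ℕ) :
    ∃ K m0 : ℕ, ∀ m : ℕ, m0 ≤ m → ∃ (w0 : ℕ) (C0 : ℝ), 0 ≤ C0 ∧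
    ∀ w : ℕ, w0 ≤ w → ∀ z T : ℕ, 1 ≤ z →
    2 * (K : ℝ) * (z + 2) * (z : ℝ) ^ (8 * m + 12 + K) * Real.exp m ≤ T → 0 < T →
    ∀ (D X Q : ℕ) (s : Finset ι) (u : ℤ → ℝ) (g : ι → ℤ → ℝ), Adm w z X s u g →
    ∀ (q : Fin j → ι → ℤ), (∀ e, q e ∈ inj ι Q) → ∀ (n : ℤ) (d : Fin j → ℤ),
      (∀ f : ℤ → ℝ, (∀ x, |f x| ≤ nu0 w x) →
        boxAv T (fun t : Option (Fin j × ι) → ℤ =>
          |integ D f u g q (shN w.factorial q n t) (shD w.factorial d t)|) ≤
          lamW w q n d * (9 + 9 * (Real.exp (K * hq w q) - 1))) ∧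
      (∀ v : ℤ → ℝ, |v n| ≤ 1 →
        (∀ t : Option (Fin j × ι) → ℤ, (∀ x, 0 ≤ t x ∧ t x < T) →
          v (shN w.factorial q n t) = v n) →
        |boxAv T (fun t : Option (Fin j × ι) → ℤ =>
          integ D (fun x => nu0 w x * (nu1 w z x - 1) * v x) u g q
            (shN w.factorial q n t) (shD w.factorial d t))| ≤
          lamW w q n d * (K * Real.exp (-(m : ℝ) / 2 ^ (1 + j * Fintype.card ι)) +
            C0 * (Real.exp (K * hq w q) - 1))) := by
  obtain ⟨K, m0, H⟩ := local_both (1 + j * Fintype.card ι)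
  refine ⟨K, m0, fun m hm => ?_⟩
  obtain ⟨w0, C0, hC0, H⟩ := H m hm
  refine ⟨w0, C0, hC0, fun w hw z T hz hT hT0 D X Q s u g hA q hq' n d => ?_⟩
  obtain ⟨H1, H2⟩ := H w hw z T hz hT hT0 none (starlAct j s) (starlB q n d)
    (starlC w.factorial q) (badSet w z q) (hq w q) (by simp [add_comm]) (starl_none_not_mem j s)
    (fun i hi => by
      obtain ⟨x, rfl⟩ := starl_mem hi
      exact starl_cP_self _ q x)
    (fun p hp => ⟨not_dvd_fact hp, fun i hi => by
      obtain ⟨x, rfl⟩ := starl_mem hi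
      exact not_dvd_fact hp⟩)
    (fun p hp hb => starl_good q s p hp hb) (bad_sum_le w z hq')
  have hN : ∀ t : Option (Fin j × ι) → ℤ, nu0 w (shN w.factorial q n t) = nu0 w n := fun t =>
    nu0_congr (dvd_shN_sub w.factorial q n t)
  refine ⟨fun f hf => ?_, fun v hv hvt => ?_⟩
  · refine le_trans ?_ (mul_le_mul_of_nonneg_left H1 (lamW_nonneg w q n d))
    rw [← boxAv_mul]
    refine boxAv_mono T fun t _ => ?_
    rw [starl_integ, abs_mul, abs_prod, starl_lamW, mul_assoc]
    refine mul_le_mul ((hf _).trans (hN t).le) ?_ (prod_nonneg fun l _ => abs_nonneg _)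
      (nu0_nonneg w n)
    refine (prod_le_prod (fun l _ => abs_nonneg _)
      fun l _ => starl_G_le D hA q n d l t).trans_eq ?_
    rw [prod_mul_distrib, prod_ite_mem, univ_inter]
  · have H3 := H2 (starlG D w.factorial u g q n d) (starlBeta w q n d)
      (starl_beta_nonneg w q n d) (starl_G_update D w.factorial u g q n d)
      (starl_G_le D hA q n d)
    have e1 : boxAv T (fun t : Option (Fin j × ι) → ℤ =>
          integ D (fun x => nu0 w x * (nu1 w z x - 1) * v x) u g q
            (shN w.factorial q n t) (shD w.factorial d t)) =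
        nu0 w n * v n * boxAv T (fun t =>
          (nu1 w z (frm (starlB q n d none) (starlC w.factorial q none) t) - 1) *
            ∏ l, starlG D w.factorial u g q n d l t) := by
      rw [← boxAv_mul]
      refine boxAv_congr T fun t ht => ?_
      rw [starl_integ, hN, hvt t ht, shN_eq_frm]
      simp only [starlB, starlC]
      ring
    rw [e1, abs_mul, abs_mul, abs_of_nonneg (nu0_nonneg w n), starl_lamW, mul_assoc (nu0 w n),
      mul_assoc (nu0 w n)]
    refine mul_le_mul_of_nonneg_left ?_ (nu0_nonneg w n)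
    exact (mul_le_of_le_one_left (abs_nonneg _) hv).trans H3

/-- trivial bound -/
lemma integ_triv {w z X : ℕ} (hz : 1 ≤ z) (D : ℕ) {s : Finset ι} {u : ℤ → ℝ} {g : ι → ℤ → ℝ}
    (hA : Adm w z X s u g) {v : ℤ → ℝ} (hv : ∀ x, |v x| ≤ 1) {j : ℕ} (q : Fin j → ι → ℤ) (n : ℤ)
    (d : Fin j → ℤ) :
    |integ D (fun x => nu0 w x * (nu1 w z x - 1) * v x) u g q n d| ≤
      (kap w * z) ^ (1 + j * Fintype.card ι) := by
  have hz' : (1 : ℝ) ≤ z := by exact_mod_cast hz
  have hk := kap_pos w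
  have hkz : 0 ≤ kap w * z := by positivity
  have h1 : |nu0 w n * (nu1 w z n - 1) * v n| ≤ kap w * z := by
    rw [abs_mul, abs_mul, abs_of_nonneg (nu0_nonneg w n)]
    have h2 : |nu1 w z n - 1| ≤ z :=
      abs_le.mpr ⟨by linarith [nu1_nonneg w z n], by linarith [nu1_le w hz n]⟩
    refine (mul_le_of_le_one_right ?_ (hv n)).trans ?_
    · exact mul_nonneg (nu0_nonneg w n) (abs_nonneg _)
    · exact mul_le_mul (nu0_le w n) h2 (abs_nonneg _) hk.le
  have h3 : ∀ i x, |g i x| ≤ kap w * z := fun i x => by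
    refine (hA.2 i x).trans (mul_le_mul ?_ ?_ ?_ hk.le)
    · exact (mul_le_of_le_one_left (nu0_nonneg w x) (ind_le_one X x)).trans (nu0_le w x)
    · split_ifs
      · exact nu1_le w hz x
      · exact hz'
    · split_ifs
      · exact nu1_nonneg w z x
      · exact zero_le_one
  have h4 : ∀ e, |(if d e ∈ Ico (D : ℤ) (2 * D) then u (d e) else 0) *
      ∏ i, g i (n + q e i * d e)| ≤ (kap w * z) ^ Fintype.card ι := fun e => by
    rw [abs_mul, abs_prod]
    refine (mul_le_of_le_one_left (prod_nonneg fun i _ => abs_nonneg _) ?_).trans ?_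
    · split_ifs
      · exact (hA.1 _).trans (pow_le_one₀ (om_pos w _).le (om_le_one w _))
      · simp
    · refine (prod_le_prod (fun i _ => abs_nonneg _) fun i _ => h3 i _).trans_eq ?_
      rw [prod_const, card_univ]
  unfold integ
  rw [abs_mul, abs_prod, pow_add, pow_one]
  refine mul_le_mul h1 ?_ (prod_nonneg fun e _ => abs_nonneg _) hkz
  refine (prod_le_prod (fun e _ => abs_nonneg _) fun e _ => h4 e).trans_eq ?_
  rw [prod_const, card_univ, Fintype.card_fin, ← pow_mul, mul_comm j]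

end Pool.Agent.Lib.MP_458f0b_nt.Pois
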