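import Pool.Agent.Lib.MP_458f0b_nt.Pois.PairC
import Pool.Agent.Lib.MP_458f0b_nt.Pois.Cells

open Finset Filter Topology

namespace Pool.Agent.Lib.MP_458f0b_nt.Pois

lemma struct_class {D X : ℕ} (hD : 0 < D) {d n : ℤ} (hd : (D : ℤ) ≤ d) (hn : n ∈ Icc (1 : ℤ) X)
    {G : ℤ → ℝ} (hG : ∀ m, m ∉ Icc (1 : ℤ) X → G m = 0) :
    ∑ q ∈ Icc (-((X / D : ℕ) : ℤ)) (X / D : ℕ), G (n + q * d) =
      ∑ m ∈ (Icc (1 : ℤ) X).filter (fun m => d ∣ m - n % d), G m := by
  have hd0 : 0 < d := lt_of_lt_of_le (by exact_mod_cast hD) hd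
  rw [← Finset.sum_filter_of_ne (p := fun q => n + q * d ∈ Icc (1 : ℤ) X)
    (fun q _ h => by by_contra hc; exact h (hG _ hc))]
  refine Finset.sum_bij (fun q _ => n + q * d) ?_ ?_ ?_ fun _ _ => rfl
  · intro q hq
    rw [mem_filter] at hq ⊢
    refine ⟨hq.2, ⟨n / d + q, ?_⟩⟩
    have := Int.emod_add_mul_ediv n d
    linear_combination -this
  · intro q _ q' _ h
    exact mul_right_cancel₀ hd0.ne' (add_left_cancel h)
  · intro m hm
    rw [mem_filter] at hm
    obtain ⟨hm, c, hc⟩ := hm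
    have e : n + (c - n / d) * d = m := by
      have := Int.emod_add_mul_ediv n d
      linear_combination -hc - this
    refine ⟨c - n / d, ?_, e⟩
    rw [mem_filter, e]
    refine ⟨?_, hm⟩
    set q := c - n / d
    rw [mem_Icc] at hm hn ⊢
    have hD' : (0 : ℤ) < D := by exact_mod_cast hD
    have h1 : |q| * d ≤ X := by
      rw [← abs_of_pos hd0, ← abs_mul, abs_le]
      constructor <;> linarith [hm.1, hm.2, hn.1, hn.2]
    have h2 : |q| * D ≤ X := le_trans (mul_le_mul_of_nonneg_left hd (abs_nonneg q)) h1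
    have h3 : |q| ≤ ((X / D : ℕ) : ℤ) := by
      rw [Int.natCast_div]
      exact Int.le_ediv_of_mul_le hD' h2
    exact abs_le.1 h3

lemma struct_group {X : ℕ} {d : ℤ} (hd : 0 < d) (h P : ℤ → ℝ) :
    ∑ n ∈ Icc (1 : ℤ) X, h n * P (n % d) =
      ∑ r ∈ Ico (0 : ℤ) d, P r * ∑ n ∈ (Icc (1 : ℤ) X).filter (fun n => d ∣ n - r), h n := by
  rw [← Finset.sum_fiberwise_of_maps_to (s := Icc (1 : ℤ) X) (t := Ico (0 : ℤ) d)
    (g := fun n => n % d)
    (fun n _ => mem_Ico.2 ⟨Int.emod_nonneg n hd.ne', Int.emod_lt_of_pos n hd⟩)]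
  refine Finset.sum_congr rfl fun r hr => ?_
  rw [mem_Ico] at hr
  have hiff : ∀ n : ℤ, n % d = r ↔ d ∣ n - r := by
    intro n
    rw [Int.dvd_iff_emod_eq_zero, ← Int.emod_eq_emod_iff_emod_sub_eq_zero,
      Int.emod_eq_of_lt hr.1 hr.2]
  rw [Finset.mul_sum]
  refine Finset.sum_congr (Finset.filter_congr fun n _ => hiff n) fun n hn => ?_
  rw [(hiff n).2 (mem_filter.1 hn).2, mul_comm]

lemma struct_om_class {w D X : ℕ} (hD : 0 < D)
    (hQ : 1 + kap w * (w.factorial + 1) ≤ ((X / D : ℕ) : ℝ)) {d : ℤ} (hd : (D : ℤ) ≤ d) (r : ℤ) :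
    om w d * ∑ m ∈ (Icc (1 : ℤ) X).filter (fun m => d ∣ m - r), nu0 w m ≤
      3 * ((X / D : ℕ) : ℝ) := by
  have hD' : (1 : ℤ) ≤ D := by exact_mod_cast hD
  have h1 := (abs_le.1 (class_sum w X (hD'.trans hd) r)).2
  have ho := om_pos w d
  have ho1 := om_le_one w d
  have hDr : (0 : ℝ) < D := by exact_mod_cast hD
  have hdr : (D : ℝ) ≤ d := by exact_mod_cast hd
  have hK : 0 ≤ kap w * (w.factorial + 1) := by have := kap_pos w; positivity
  have h2 : (if Cop w d r then (X : ℝ) / (d * om w d) else 0) ≤ X / (d * om w d) := by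
    split_ifs
    · exact le_rfl
    · have : (0 : ℝ) < d := hDr.trans_le hdr
      positivity
  have h3 : om w d * (X / (d * om w d)) = X / d := by field_simp
  have h4 : (X : ℝ) / d ≤ X / D := div_le_div_of_nonneg_left (Nat.cast_nonneg X) hDr hdr
  have h5 : (X : ℝ) / D ≤ ((X / D : ℕ) : ℝ) + 1 := by
    rw [div_le_iff₀ hDr]
    have := Nat.lt_div_mul_add (a := X) hD
    have h6 : (X : ℝ) ≤ ((X / D : ℕ) : ℝ) * D + D := by exact_mod_cast this.le
    linarith
  calc _ ≤ om w d * (X / (d * om w d) + kap w * (w.factorial + 1)) :=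
        mul_le_mul_of_nonneg_left (by linarith) ho.le
    _ ≤ X / d + kap w * (w.factorial + 1) := by
        rw [mul_add, h3]
        nlinarith
    _ ≤ _ := by linarith

lemma struct_line {ι : Type} [Fintype ι] [DecidableEq ι] {w z D X : ℕ} (hD : 0 < D)
    (hQ : 1 + kap w * (w.factorial + 1) ≤ ((X / D : ℕ) : ℝ))
    (hQD : ((X / D : ℕ) : ℝ) * D ≤ X) {a : ℤ → ℝ} {g : ι → ℤ → ℝ} (hA : Adm w z X ∅ a g)
    {h : ℤ → ℝ} (hh : ∀ n, |h n| ≤ ind X n * nu0 w n) {η : ℝ} (hη : 0 < η)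
    (hp : ∑ d ∈ Ico (D : ℤ) (2 * D), ∑ r ∈ Ico (0 : ℤ) d,
      (∑ n ∈ (Icc (1 : ℤ) X).filter (fun n => d ∣ n - r), h n) ^ 2 ≤
        η ^ 2 * X * ((X / D : ℕ) : ℝ) * D) :
    |∑ n ∈ Icc (1 : ℤ) X, h n * line D X a g n| ≤
      (3 * ((X / D : ℕ) : ℝ)) ^ Fintype.card ι * (D * X) * (2 * η + kap w ^ (Fintype.card ι + 1) *
        (Fintype.card ι + Fintype.card ι ^ 2) / ((X / D : ℕ) : ℝ)) := by
  obtain ⟨ha, hg⟩ := hA
  simp only [Finset.notMem_empty, if_false, mul_one] at hg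
  set Q : ℕ := X / D with hQd
  set k : ℕ := Fintype.card ι with hk
  have hK : 0 ≤ kap w * (w.factorial + 1) := by have := kap_pos w; positivity
  have hQ1 : (1 : ℝ) ≤ Q := by linarith
  have hDr : (0 : ℝ) < D := by exact_mod_cast hD
  have hk0 := kap_pos w
  have hg0 : ∀ i m, m ∉ Icc (1 : ℤ) X → g i m = 0 := by
    intro i m hm
    have := hg i m
    rw [ind_of_not_mem hm, zero_mul] at this
    exact abs_nonpos_iff.1 this
  have hg1 : ∀ i m, |g i m| ≤ nu0 w m := fun i m =>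
    (hg i m).trans (mul_le_of_le_one_left (nu0_nonneg w m) (ind_le_one X m))
  have hh1 : ∀ m, |h m| ≤ kap w := fun m =>
    ((hh m).trans (mul_le_of_le_one_left (nu0_nonneg w m) (ind_le_one X m))).trans (nu0_le w m)
  let P : ℤ → ℤ → ℝ := fun d r =>
    ∏ i, ∑ m ∈ (Icc (1 : ℤ) X).filter (fun m => d ∣ m - r), g i m
  let B : Finset (ι → ℤ) := (Fintype.piFinset fun _ : ι => Icc (-(Q : ℤ)) Q) \ inj ι Q
  let E : ℤ → ℤ → ℝ := fun d n => ∑ q ∈ B, ∏ i, g i (n + q i * d)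
  let H : ℤ → ℤ → ℝ := fun d r => ∑ n ∈ (Icc (1 : ℤ) X).filter (fun n => d ∣ n - r), h n
  have hsub : inj ι Q ⊆ Fintype.piFinset fun _ : ι => Icc (-(Q : ℤ)) Q := by
    intro q hq
    rw [Fintype.mem_piFinset]
    exact fun i => mem_Icc.2 ((mem_inj.1 hq).1 i)
  have hsplit : ∀ d ∈ Ico (D : ℤ) (2 * D), ∀ n ∈ Icc (1 : ℤ) X,
      ∑ q ∈ inj ι Q, ∏ i, g i (n + q i * d) = P d (n % d) - E d n := by
    intro d hd n hn
    rw [eq_sub_iff_add_eq', Finset.sum_sdiff hsub,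
      ← Finset.prod_univ_sum (fun _ : ι => Icc (-(Q : ℤ)) Q) (fun i q => g i (n + q * d))]
    exact Finset.prod_congr rfl fun i _ => struct_class hD (mem_Ico.1 hd).1 hn (hg0 i)
  have heq : ∑ n ∈ Icc (1 : ℤ) X, h n * line D X a g n =
      ∑ d ∈ Ico (D : ℤ) (2 * D), ∑ r ∈ Ico (0 : ℤ) d, (a d * P d r) * H d r -
        ∑ d ∈ Ico (D : ℤ) (2 * D), ∑ n ∈ Icc (1 : ℤ) X, a d * h n * E d n := by
    simp only [line, Finset.mul_sum (Ico (D : ℤ) (2 * D))]
    rw [Finset.sum_comm, ← Finset.sum_sub_distrib]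
    refine Finset.sum_congr rfl fun d hd => ?_
    have hd0 : 0 < d := lt_of_lt_of_le (by exact_mod_cast hD) (mem_Ico.1 hd).1
    rw [← struct_group hd0 h (fun r => a d * P d r), ← Finset.sum_sub_distrib]
    refine Finset.sum_congr rfl fun n hn => ?_
    rw [← hQd, hsplit d hd n hn]
    ring
  have hcard : ((Ico (D : ℤ) (2 * D)).card : ℝ) = D := by
    rw [Int.card_Ico, show 2 * (D : ℤ) - D = D by ring, Int.toNat_natCast]
  have hP : ∀ d ∈ Ico (D : ℤ) (2 * D), ∀ r, |a d * P d r| ≤ (3 * (Q : ℝ)) ^ k := by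
    intro d hd r
    rw [abs_mul, Finset.abs_prod]
    calc _ ≤ om w d ^ k * ∏ _i : ι, ∑ m ∈ (Icc (1 : ℤ) X).filter (fun m => d ∣ m - r), nu0 w m := by
          refine mul_le_mul (ha d) (Finset.prod_le_prod (fun _ _ => abs_nonneg _) fun i _ => ?_)
            (Finset.prod_nonneg fun _ _ => abs_nonneg _) (pow_nonneg (om_pos w d).le _)
          exact (Finset.abs_sum_le_sum_abs _ _).trans (Finset.sum_le_sum fun m _ => hg1 i m)
      _ ≤ _ := by
          rw [Finset.prod_const, Finset.card_univ, ← mul_pow]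
          exact pow_le_pow_left₀ (mul_nonneg (om_pos w d).le
            (Finset.sum_nonneg fun m _ => nu0_nonneg w m))
            (struct_om_class hD hQ (mem_Ico.1 hd).1 r) _
  have hH : ∑ d ∈ Ico (D : ℤ) (2 * D), ∑ r ∈ Ico (0 : ℤ) d, |H d r| ≤ D * X * (2 * η) := by
    have ht : 0 < η * Q := by positivity
    have h1 : ∀ x : ℝ, |x| ≤ η * Q / 2 + x ^ 2 / (2 * (η * Q)) := by
      intro x
      rw [← sq_abs x, div_add_div _ _ (by norm_num) (by positivity), le_div_iff₀ (by positivity)]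
      nlinarith [sq_nonneg (|x| - η * Q)]
    calc _ ≤ ∑ d ∈ Ico (D : ℤ) (2 * D), (D * (η * Q) +
            (∑ r ∈ Ico (0 : ℤ) d, H d r ^ 2) / (2 * (η * Q))) := by
          refine Finset.sum_le_sum fun d hd => ?_
          refine (Finset.sum_le_sum fun r _ => h1 (H d r)).trans ?_
          rw [Finset.sum_add_distrib, Finset.sum_const, ← Finset.sum_div, Int.card_Ico, sub_zero,
            nsmul_eq_mul]
          have h2 : (d.toNat : ℝ) ≤ 2 * D := by
            have : d.toNat ≤ 2 * D := by have := (mem_Ico.1 hd).2; omega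
            exact_mod_cast this
          nlinarith
      _ = D * (D * (η * Q)) + (∑ d ∈ Ico (D : ℤ) (2 * D), ∑ r ∈ Ico (0 : ℤ) d, H d r ^ 2) /
            (2 * (η * Q)) := by
          rw [Finset.sum_add_distrib, ← Finset.sum_div, Finset.sum_const, nsmul_eq_mul, hcard]
      _ ≤ D * (η * X) + η ^ 2 * X * Q * D / (2 * (η * Q)) := by
          have h3 : D * (η * Q) ≤ η * X := by
            calc D * (η * Q) = η * (Q * D) := by ring
              _ ≤ η * X := by gcongr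
          exact add_le_add (mul_le_mul_of_nonneg_left h3 hDr.le)
            (div_le_div_of_nonneg_right hp (by positivity))
      _ = D * X * (3 / 2 * η) := by field_simp; ring
      _ ≤ _ := by gcongr; norm_num
  have hB : (B.card : ℝ) ≤ (3 * (Q : ℝ)) ^ k * ((k + k ^ 2) / Q) := by
    have h1 := card_not_inj ι Q
    have h2 : (2 * (Q : ℝ) + 1) ^ k ≤ (3 * (Q : ℝ)) ^ k :=
      pow_le_pow_left₀ (by positivity) (by linarith) _
    rw [← mul_div_assoc, le_div_iff₀ (by positivity)]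
    calc (B.card : ℝ) * Q ≤ B.card * (2 * Q + 1) := by gcongr; linarith
      _ ≤ (k + k ^ 2) * (2 * Q + 1) ^ k := h1
      _ ≤ (k + k ^ 2) * (3 * Q) ^ k := by gcongr
      _ = _ := by ring
  have hE : ∀ d n, |a d * h n * E d n| ≤ kap w ^ (k + 1) * B.card := by
    intro d n
    have h1 : |E d n| ≤ B.card * kap w ^ k := by
      refine (Finset.abs_sum_le_sum_abs _ _).trans ?_
      rw [← nsmul_eq_mul]
      refine Finset.sum_le_card_nsmul _ _ _ fun q _ => ?_
      rw [Finset.abs_prod, hk, ← Finset.card_univ, ← Finset.prod_const]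
      exact Finset.prod_le_prod (fun _ _ => abs_nonneg _) fun i _ => (hg1 i _).trans (nu0_le w _)
    have h2 : |a d| ≤ 1 := (ha d).trans (pow_le_one₀ (om_pos w d).le (om_le_one w d))
    rw [abs_mul, abs_mul]
    calc _ ≤ 1 * kap w * (B.card * kap w ^ k) := by gcongr; exact hh1 n
      _ = _ := by ring
  have hcX : ((Icc (1 : ℤ) X).card : ℝ) = X := by
    rw [Int.card_Icc, add_sub_cancel_right, Int.toNat_natCast]
  have t1 : |∑ d ∈ Ico (D : ℤ) (2 * D), ∑ r ∈ Ico (0 : ℤ) d, (a d * P d r) * H d r| ≤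
      (3 * (Q : ℝ)) ^ k * (D * X * (2 * η)) := by
    refine le_trans ?_ (mul_le_mul_of_nonneg_left hH (by positivity))
    rw [Finset.mul_sum]
    refine (Finset.abs_sum_le_sum_abs _ _).trans (Finset.sum_le_sum fun d hd => ?_)
    rw [Finset.mul_sum]
    refine (Finset.abs_sum_le_sum_abs _ _).trans (Finset.sum_le_sum fun r _ => ?_)
    rw [abs_mul]
    exact mul_le_mul_of_nonneg_right (hP d hd r) (abs_nonneg _)
  have t2 : |∑ d ∈ Ico (D : ℤ) (2 * D), ∑ n ∈ Icc (1 : ℤ) X, a d * h n * E d n| ≤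
      D * (X * (kap w ^ (k + 1) * B.card)) := by
    refine (Finset.abs_sum_le_sum_abs _ _).trans ?_
    rw [← hcard, ← nsmul_eq_mul]
    refine Finset.sum_le_card_nsmul _ _ _ fun d _ => ?_
    refine (Finset.abs_sum_le_sum_abs _ _).trans ?_
    rw [← hcX, ← nsmul_eq_mul]
    exact Finset.sum_le_card_nsmul _ _ _ fun n _ => hE d n
  rw [heq]
  calc _ ≤ _ := abs_sub _ _
    _ ≤ (3 * (Q : ℝ)) ^ k * (D * X * (2 * η)) +
        D * (X * (kap w ^ (k + 1) * ((3 * (Q : ℝ)) ^ k * ((k + k ^ 2) / Q)))) :=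
        add_le_add t1 (t2.trans (by gcongr))
    _ = _ := by ring

/-- a dual function of bounded data is almost constant on cells -/
theorem struct (ι : Type) [Fintype ι] [DecidableEq ι] (ε : ℝ) (hε : 0 < ε) :
    ∀ᶠ w : ℕ in atTop, ∃ N : ℕ, 1 ≤ N ∧ ∀ᶠ x in reg,
      ∀ (z : ℕ) (a : ℤ → ℝ) (g : ι → ℤ → ℝ), Adm w z x.2 ∅ a g →
        av x.2 (fun n => nu0 w n * (dual x.1 x.2 a g n -
          cellAv w.factorial (x.2 / N + 1) x.2 (dual x.1 x.2 a g) n) ^ 2) ≤ ε := by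
  set k : ℕ := Fintype.card ι with hk
  set C : ℝ := 3 ^ k with hC
  have hC0 : 0 < C := by positivity
  set η : ℝ := ε / (6 * C ^ 2) with hη
  have hη0 : 0 < η := by positivity
  filter_upwards [pair (η ^ 2) (by positivity)] with w ⟨N, hN, hw⟩
  refine ⟨N, hN, ?_⟩
  have hQt : Tendsto (fun x : ℕ × ℕ => ((x.2 / x.1 : ℕ) : ℝ)) reg atTop :=
    tendsto_natCast_atTop_atTop.comp reg_Q
  filter_upwards [hw, dual_bdd ι w, reg_basic,
    hQt.eventually_ge_atTop (1 + kap w * (w.factorial + 1)),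
    hQt.eventually_ge_atTop (kap w ^ (k + 1) * (k + k ^ 2) / η)] with x hp hb ⟨hD, hQ1, hQD, _⟩
    hQ hQ' z a g hA
  obtain ⟨D, X⟩ := x
  dsimp only at *
  set Φ := dual D X a g with hΦ
  set Ψ := cellAv w.factorial (X / N + 1) X Φ with hΨ
  have b1 : ∀ n, |Φ n| ≤ C := hb z a g hA
  have b2 : ∀ n, |Ψ n| ≤ C := abs_cellAv_le hC0.le fun n _ => b1 n
  have hQr : (1 : ℝ) ≤ ((X / D : ℕ) : ℝ) := by exact_mod_cast hQ1
  have hDr : (0 : ℝ) < D := by exact_mod_cast hD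
  have hXr : (0 : ℝ) < X := lt_of_lt_of_le (by positivity) hQD
  let h : ℤ → ℝ := fun n => ind X n * nu0 w n / (2 * C) * (Φ n - Ψ n)
  have hh : ∀ n, |h n| ≤ ind X n * nu0 w n := by
    intro n
    have h0 : 0 ≤ ind X n * nu0 w n := mul_nonneg (ind_nonneg X n) (nu0_nonneg w n)
    have h1 : |Φ n - Ψ n| ≤ 2 * C := (abs_sub _ _).trans (by linarith [b1 n, b2 n])
    simp only [h]
    rw [abs_mul, abs_of_nonneg (by positivity)]
    calc _ ≤ ind X n * nu0 w n / (2 * C) * (2 * C) := by gcongr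
      _ = _ := by field_simp
  have hz : CellZero w.factorial (X / N + 1) X h :=
    cellZero_sub (((cellM_ind _ _ _).mul (cellM_nu0 w _ _)).comp fun t => t / (2 * C)) Φ
  have h0 := hz.sum_mul (cellM_cellAv _ _ _ Φ)
  have hl := struct_line hD hQ hQD hA hh hη0 (hp h hh hz)
  have e1 : ∑ n ∈ Icc (1 : ℤ) X, nu0 w n * (Φ n - Ψ n) ^ 2 =
      2 * C * ((∑ n ∈ Icc (1 : ℤ) X, h n * line D X a g n) / (D * ((X / D : ℕ) : ℝ) ^ k)) := by
    have : ∑ n ∈ Icc (1 : ℤ) X, h n * line D X a g n / (D * ((X / D : ℕ) : ℝ) ^ k) =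
        ∑ n ∈ Icc (1 : ℤ) X, h n * Φ n - ∑ n ∈ Icc (1 : ℤ) X, h n * Ψ n := by
      rw [h0, sub_zero]
      exact Finset.sum_congr rfl fun n _ => mul_div_assoc _ _ _
    rw [Finset.sum_div, this, ← Finset.sum_sub_distrib, Finset.mul_sum]
    refine Finset.sum_congr rfl fun n hn => ?_
    simp only [h, ind_of_mem hn]
    field_simp
  have e2 : kap w ^ (k + 1) * (k + k ^ 2) / ((X / D : ℕ) : ℝ) ≤ η := by
    rw [div_le_iff₀ (by positivity)]
    rw [div_le_iff₀ hη0] at hQ'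
    linarith
  unfold av
  rw [e1, div_le_iff₀ hXr]
  calc _ ≤ 2 * C * (((3 * ((X / D : ℕ) : ℝ)) ^ k * (D * X) * (2 * η + η)) /
        (D * ((X / D : ℕ) : ℝ) ^ k)) := by
        gcongr
        exact (le_abs_self _).trans (hl.trans (by gcongr))
    _ = ε * X := by
        rw [mul_pow, ← hC, hη]
        field_simp
        ring

end Pool.Agent.Lib.MP_458f0b_nt.Pois
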