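import Pool.Agent.Lib.MP_458f0b_nt.Pois.StarC
import Pool.Agent.Lib.MP_458f0b_nt.Pois.StarD
import Pool.Agent.Lib.MP_458f0b_nt.Pois.Struct
import Pool.Agent.Lib.MP_458f0b_nt.Pois.PNTb

open Finset Filter Topology

namespace Pool.Agent.Lib.MP_458f0b_nt.Pois

lemma step_av_add (X : ℕ) (f g : ℤ → ℝ) : av X (fun n => f n + g n) = av X f + av X g := by
  simp [av, Finset.sum_add_distrib, add_div]

lemma step_av_sub (X : ℕ) (f g : ℤ → ℝ) : av X (fun n => f n - g n) = av X f - av X g := by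
  simp [av, Finset.sum_sub_distrib, sub_div]

lemma step_av_mul (X : ℕ) (c : ℝ) (f : ℤ → ℝ) : av X (fun n => c * f n) = c * av X f := by
  simp [av, ← Finset.mul_sum, mul_div_assoc]

lemma step_av_mono (X : ℕ) {f g : ℤ → ℝ} (h : ∀ n ∈ Icc (1 : ℤ) X, f n ≤ g n) :
    av X f ≤ av X g :=
  div_le_div_of_nonneg_right (Finset.sum_le_sum h) (Nat.cast_nonneg X)

lemma step_av_congr (X : ℕ) {f g : ℤ → ℝ} (h : ∀ n ∈ Icc (1 : ℤ) X, f n = g n) :
    av X f = av X g := by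
  unfold av; rw [Finset.sum_congr rfl h]

lemma step_abs_av (X : ℕ) (f : ℤ → ℝ) : |av X f| ≤ av X (fun n => |f n|) := by
  unfold av
  rw [abs_div, Nat.abs_cast]
  exact div_le_div_of_nonneg_right (Finset.abs_sum_le_sum_abs _ _) (Nat.cast_nonneg X)

lemma step_clamp (x K : ℝ) (hK : 0 < K) :
    |max (-K) (min x K)| ≤ K ∧ x ^ 2 ≤ x * max (-K) (min x K) + |x| ^ 3 / K := by
  have h3 : 0 ≤ |x| ^ 3 / K := by positivity
  refine ⟨abs_le.mpr ⟨le_max_left _ _, max_le (by linarith) (min_le_right _ _)⟩, ?_⟩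
  rcases le_total x K with h1 | h1
  · rcases le_total (-K) x with h2 | h2
    · rw [min_eq_left h1, max_eq_right h2]; nlinarith
    · rw [min_eq_left h1, max_eq_left h2, abs_of_nonpos (by linarith)]
      have : x ^ 2 ≤ (-x) ^ 3 / K := by
        rw [le_div_iff₀ hK]; nlinarith [sq_nonneg x]
      nlinarith
  · rw [min_eq_right h1, max_eq_right (by linarith), abs_of_nonneg (by linarith)]
    have : x ^ 2 ≤ x ^ 3 / K := by
      rw [le_div_iff₀ hK]; nlinarith [sq_nonneg x]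
    nlinarith

lemma step_cube (a b : ℝ) : |a - b| ^ 3 ≤ 4 * (|a| ^ 3 + |b| ^ 3) := by
  have h1 : |a - b| ≤ |a| + |b| := abs_sub a b
  have ha := abs_nonneg a
  have hb := abs_nonneg b
  calc |a - b| ^ 3 ≤ (|a| + |b|) ^ 3 := pow_le_pow_left₀ (abs_nonneg _) h1 3
    _ ≤ 4 * (|a| ^ 3 + |b| ^ 3) := by nlinarith [mul_nonneg (add_nonneg ha hb) (sq_nonneg (|a| - |b|))]

lemma step_amgm {p c ν x θ : ℝ} (hp0 : 0 ≤ p) (hp : p ≤ c * ν) (hθ : 0 < θ) :
    |p * x| ≤ c * θ / 2 * ν + c / (2 * θ) * (ν * x ^ 2) := by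
  have h1 : |x| ≤ θ / 2 + x ^ 2 / (2 * θ) := by
    have : 0 ≤ (|x| - θ) ^ 2 / (2 * θ) := by positivity
    have e : (|x| - θ) ^ 2 / (2 * θ) = θ / 2 + x ^ 2 / (2 * θ) - |x| := by
      rw [← sq_abs x]; field_simp; ring
    linarith
  rw [abs_mul, abs_of_nonneg hp0]
  calc p * |x| ≤ c * ν * (θ / 2 + x ^ 2 / (2 * θ)) :=
        mul_le_mul hp h1 (abs_nonneg _) (hp0.trans hp)
    _ = _ := by field_simp

/-- the deterministic core of the densification step -/
lemma step_det (X : ℕ) (p ν0 ν1 Φ' Φt Φs : ℤ → ℝ) (u c B M K ε e1 e2 e3 e4 : ℝ)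
    (hu : 0 < u) (hε : 0 < ε) (hK : 0 < K) (hc : 0 ≤ c) (hB : 0 ≤ B)
    (hν0 : ∀ n, 0 ≤ ν0 n)
    (hp0 : ∀ n, 0 ≤ p n) (hp : ∀ n ∈ Icc (1 : ℤ) X, p n ≤ u * (ν0 n * ν1 n))
    (hΦt : ∀ n, |Φt n| ≤ B)
    (hav0 : av X ν0 ≤ 2) (hav1 : av X (fun n => ν0 n * (ν1 n - 1)) ≤ 1)
    (hslf : av X (fun n => ν0 n * (ν1 n - 1) * (c * Φ' n - Φs n) ^ 2) ≤ e1)
    (hstr : av X (fun n => ν0 n * (Φt n - Φs n) ^ 2) ≤ e2)
    (hIH : av X (fun n => ν0 n * max (-K) (min (c * Φ' n - Φt n) K) * (c * Φ' n - Φt n)) ≤ e3)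
    (hmom : av X (fun n => ν0 n * |Φ' n| ^ 3) ≤ M)
    (hpnt : |av X (fun n => (p n - ν0 n) * Φs n)| ≤ e4)
    (hzero : av X (fun n => ν0 n * (Φt n - Φs n)) = 0) :
    |av X (fun n => p n * (c * Φ' n)) - av X (fun n => ν0 n * Φt n)| ≤
      ε / 4 + 3 * u ^ 2 / ε * (e1 + 2 * e2 + 2 * e3 + 8 * (c ^ 3 * M + 2 * B ^ 3) / K) + e4 := by
  have hsplit : av X (fun n => p n * (c * Φ' n)) - av X (fun n => ν0 n * Φt n) =
      av X (fun n => p n * (c * Φ' n - Φs n)) + av X (fun n => (p n - ν0 n) * Φs n) -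
        av X (fun n => ν0 n * (Φt n - Φs n)) := by
    rw [← step_av_sub, ← step_av_add, ← step_av_sub]
    exact step_av_congr X fun n _ => by ring
  have hν : av X (fun n => ν0 n * ν1 n) ≤ 3 := by
    have : av X (fun n => ν0 n * ν1 n) = av X ν0 + av X (fun n => ν0 n * (ν1 n - 1)) := by
      rw [← step_av_add]; exact step_av_congr X fun n _ => by ring
    linarith
  have h3 : av X (fun n => ν0 n * |c * Φ' n - Φt n| ^ 3) ≤ 4 * (c ^ 3 * M + 2 * B ^ 3) := by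
    calc av X (fun n => ν0 n * |c * Φ' n - Φt n| ^ 3)
        ≤ av X (fun n => 4 * c ^ 3 * (ν0 n * |Φ' n| ^ 3) + 4 * B ^ 3 * ν0 n) := by
          refine step_av_mono X fun n _ => ?_
          have h1 := step_cube (c * Φ' n) (Φt n)
          rw [abs_mul, abs_of_nonneg hc, mul_pow] at h1
          have h2 : |Φt n| ^ 3 ≤ B ^ 3 := pow_le_pow_left₀ (abs_nonneg _) (hΦt n) 3
          have := mul_le_mul_of_nonneg_left (h1.trans (by linarith :
            4 * (c ^ 3 * |Φ' n| ^ 3 + |Φt n| ^ 3) ≤ 4 * (c ^ 3 * |Φ' n| ^ 3 + B ^ 3))) (hν0 n)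
          linarith
      _ = 4 * c ^ 3 * av X (fun n => ν0 n * |Φ' n| ^ 3) + 4 * B ^ 3 * av X ν0 := by
          rw [step_av_add, step_av_mul, step_av_mul]
      _ ≤ 4 * c ^ 3 * M + 4 * B ^ 3 * 2 := by gcongr
      _ = _ := by ring
  have h2 : av X (fun n => ν0 n * (c * Φ' n - Φt n) ^ 2) ≤
      e3 + 4 * (c ^ 3 * M + 2 * B ^ 3) / K := by
    calc av X (fun n => ν0 n * (c * Φ' n - Φt n) ^ 2)
        ≤ av X (fun n => ν0 n * max (-K) (min (c * Φ' n - Φt n) K) * (c * Φ' n - Φt n) +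
            K⁻¹ * (ν0 n * |c * Φ' n - Φt n| ^ 3)) := by
          refine step_av_mono X fun n _ => ?_
          have := mul_le_mul_of_nonneg_left (step_clamp (c * Φ' n - Φt n) K hK).2 (hν0 n)
          calc _ ≤ _ := this
            _ = _ := by field_simp
      _ ≤ e3 + K⁻¹ * (4 * (c ^ 3 * M + 2 * B ^ 3)) := by
          rw [step_av_add, step_av_mul]; gcongr
      _ = _ := by field_simp
  have h1 : av X (fun n => ν0 n * ν1 n * (c * Φ' n - Φs n) ^ 2) ≤
      e1 + 2 * e2 + 2 * e3 + 8 * (c ^ 3 * M + 2 * B ^ 3) / K := by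
    calc av X (fun n => ν0 n * ν1 n * (c * Φ' n - Φs n) ^ 2)
        ≤ av X (fun n => ν0 n * (ν1 n - 1) * (c * Φ' n - Φs n) ^ 2 +
            (2 * (ν0 n * (Φt n - Φs n) ^ 2) + 2 * (ν0 n * (c * Φ' n - Φt n) ^ 2))) := by
          refine step_av_mono X fun n _ => ?_
          have := mul_nonneg (hν0 n) (sq_nonneg (c * Φ' n - 2 * Φt n + Φs n))
          nlinarith
      _ ≤ e1 + (2 * e2 + 2 * (e3 + 4 * (c ^ 3 * M + 2 * B ^ 3) / K)) := by
          rw [step_av_add, step_av_add, step_av_mul, step_av_mul]; gcongr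
      _ = _ := by ring
  have hθ : 0 < ε / (6 * u) := by positivity
  have h0 : |av X (fun n => p n * (c * Φ' n - Φs n))| ≤
      ε / 4 + 3 * u ^ 2 / ε * (e1 + 2 * e2 + 2 * e3 + 8 * (c ^ 3 * M + 2 * B ^ 3) / K) := by
    calc _ ≤ av X (fun n => |p n * (c * Φ' n - Φs n)|) := step_abs_av _ _
      _ ≤ av X (fun n => u * (ε / (6 * u)) / 2 * (ν0 n * ν1 n) +
            u / (2 * (ε / (6 * u))) * (ν0 n * ν1 n * (c * Φ' n - Φs n) ^ 2)) :=
          step_av_mono X fun n hn => step_amgm (hp0 n) (hp n hn) hθ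
      _ ≤ u * (ε / (6 * u)) / 2 * 3 + u / (2 * (ε / (6 * u))) *
            (e1 + 2 * e2 + 2 * e3 + 8 * (c ^ 3 * M + 2 * B ^ 3) / K) := by
          rw [step_av_add, step_av_mul, step_av_mul]; gcongr
      _ = _ := by field_simp; ring
  rw [hsplit, hzero, sub_zero]
  exact (abs_add_le _ _).trans (add_le_add h0 hpnt)

/-- densification step -/
theorem step_core (ι : Type) [Fintype ι] [DecidableEq ι] (s : Finset ι)
    (IH : ∀ ε : ℝ, 0 < ε → ∀ᶠ w : ℕ in atTop, ∀ᶠ x in reg,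
      ∀ (a : ℤ → ℝ) (g : ι → ℤ → ℝ) (τ : ℤ → ℝ), Adm w 0 x.2 ∅ a g →
        (∀ n, |τ n| ≤ ind x.2 n * nu0 w n) →
        |av x.2 (fun n => τ n * (dual x.1 x.2 a (sp x.2 s g) n -
          dual x.1 x.2 a (md w x.2 s g) n))| ≤ ε)
    (ε : ℝ) (hε : 0 < ε) : ∀ᶠ w : ℕ in atTop, ∀ᶠ x in reg,
      ∀ (a : ℤ → ℝ) (g : ι → ℤ → ℝ), Adm w 0 x.2 ∅ a g →
        |av x.2 (fun n => pr x.2 n * dual x.1 x.2 a (sp x.2 s g) n) -
          av x.2 (fun n => nu0 w n * dual x.1 x.2 a (md w x.2 s g) n)| ≤ ε := by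
  set k := Fintype.card ι with hk
  set B : ℝ := 3 ^ k with hBdef
  have hB1 : 1 ≤ B := one_le_pow₀ (by norm_num)
  have hB0 : 0 < B := by linarith
  obtain ⟨M, hM0, hM⟩ := mom3 ι
  have hε1 : 0 < ε ^ 2 / (24 * (1 + B) ^ 2) := by positivity
  obtain ⟨u, ⟨⟨⟨⟨⟨hS0, hS1⟩, hS2⟩, hS3⟩, hMu⟩, hu2⟩⟩ :=
    ((((((slf ι 0 0 1 one_pos).and (slf ι 0 (2 * k + 2) _ hε1)).and
      (slf ι 1 (2 * k + 2) _ hε1)).and (slf ι 2 (2 * k + 2) _ hε1)).and hM).and
      (eventually_ge_atTop 2)).exists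
  have hu1 : (1 : ℝ) ≤ u := by exact_mod_cast (by omega : 1 ≤ u)
  have hu0 : (0 : ℝ) < u := by linarith
  set c : ℝ := (u : ℝ) ^ s.card with hcdef
  have hc0 : 0 < c := by positivity
  have hcu : c ≤ (u : ℝ) ^ k := pow_le_pow_right₀ hu1 (Finset.card_le_univ s)
  set δ : ℝ := ε ^ 2 / (24 * u ^ 2) with hδ
  have hδ0 : 0 < δ := by positivity
  set K : ℝ := 8 * (c ^ 3 * M + 2 * B ^ 3) / δ with hKdef
  have hK0 : 0 < K := by positivity
  filter_upwards [hS0, hS1, hS2, hS3, hMu, struct ι (δ / 2) (by positivity),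
    IH (δ / 2 / K) (by positivity)] with w hS0 hS1 hS2 hS3 hMw hstr hIH
  obtain ⟨N, hN, hstr⟩ := hstr
  filter_upwards [hS0 N hN, hS1 N hN, hS2 N hN, hS3 N hN, hMw, hstr, hIH, dual_bdd ι w,
    av_nu0_le w, reg_X.eventually (pnt_cells w N hN (ε / 4 / B) (by positivity)),
    reg_X.eventually ((zz_tendsto (by omega : 1 ≤ u)).eventually (eventually_ge_atTop w))]
    with x hS0 hS1 hS2 hS3 hMx hstr hIH hbd hav0 hpnt hwz a g hA
  obtain ⟨D, X⟩ := x
  simp only at *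
  set z := zz X u with hz
  set L := X / N + 1 with hL
  set g' : ι → ℤ → ℝ := fun i => if i ∈ s then (fun n => (u : ℝ)⁻¹ * pr X n) else g i with hg'
  have hA' : Adm w z X s a g' := by
    refine ⟨hA.1, fun i n => ?_⟩
    by_cases hi : i ∈ s
    · simp only [hg', if_pos hi]
      rw [abs_of_nonneg (mul_nonneg (inv_nonneg.mpr hu0.le) (pr_nonneg X n)), inv_mul_le_iff₀ hu0]
      exact pr_le hu2 hwz n
    · have := hA.2 i n
      simpa [hg', hi] using this
  set Φ' := dual D X a g' with hΦ'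
  set Φt := dual D X a (md w X s g) with hΦt
  set Φs := cellAv w.factorial L X Φt with hΦs
  have hΦ : ∀ n, dual D X a (sp X s g) n = c * Φ' n := by
    intro n
    have h1 : sp X s g = fun i m => (if i ∈ s then (u : ℝ) else 1) * g' i m := by
      funext i m
      by_cases hi : i ∈ s
      · simp only [sp, hg', if_pos hi]; field_simp
      · simp [sp, hg', hi]
    rw [h1, dual_smul, Finset.prod_ite_mem, Finset.univ_inter, Finset.prod_const]
  have hbt : ∀ n, |Φt n| ≤ B := hbd 0 a _ (hA.md s)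
  have hbs : ∀ n, |Φs n| ≤ B := abs_cellAv_le hB0.le fun n _ => hbt n
  have hcs : CellM w.factorial L X Φs := cellM_cellAv _ _ _ _
  have hdiv : ∀ n, |B⁻¹ * Φs n| ≤ 1 := fun n => by
    rw [abs_mul, abs_of_pos (inv_pos.mpr hB0), inv_mul_le_iff₀ hB0, mul_one]; exact hbs n
  have hcd : CellM w.factorial L X (fun n => B⁻¹ * Φs n) := hcs.comp fun y => B⁻¹ * y
  have hind : ∀ n, |ind X n| ≤ ind X n := fun n => (abs_of_nonneg (ind_nonneg X n)).le
  have t0 := hS0 s a g' (ind X) hA' hind (cellM_ind _ _ _)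
  have t1 := hS1 s a g' (fun n => ind X n * (B⁻¹ * Φs n) ^ 2) hA' (fun n => by
      rw [abs_mul, abs_of_nonneg (ind_nonneg X n), abs_pow]
      exact mul_le_of_le_one_right (ind_nonneg X n) (pow_le_one₀ (abs_nonneg _) (hdiv n)))
    ((cellM_ind _ _ _).mul (hcd.comp fun y => y ^ 2))
  have t2 := hS2 s a g' (fun n => ind X n * (B⁻¹ * Φs n)) hA' (fun n => by
      rw [abs_mul, abs_of_nonneg (ind_nonneg X n)]
      exact mul_le_of_le_one_right (ind_nonneg X n) (hdiv n))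
    ((cellM_ind _ _ _).mul hcd)
  have t3 := hS3 s a g' (ind X) hA' hind (cellM_ind _ _ _)
  set e0 : ℝ := ε ^ 2 / (24 * (1 + B) ^ 2) / (u : ℝ) ^ (2 * k + 2) with he0
  have he00 : 0 ≤ e0 := by positivity
  have hslf : av X (fun n => nu0 w n * (nu1 w z n - 1) * (c * Φ' n - Φs n) ^ 2) ≤ δ := by
    have e : av X (fun n => nu0 w n * (nu1 w z n - 1) * (c * Φ' n - Φs n) ^ 2) =
        c ^ 2 * av X (fun n => nu0 w n * (nu1 w z n - 1) * ind X n * Φ' n ^ 2) -
        2 * c * B * av X (fun n => nu0 w n * (nu1 w z n - 1) * (ind X n * (B⁻¹ * Φs n)) *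
          Φ' n ^ 1) +
        B ^ 2 * av X (fun n => nu0 w n * (nu1 w z n - 1) * (ind X n * (B⁻¹ * Φs n) ^ 2) *
          Φ' n ^ 0) := by
      rw [← step_av_mul, ← step_av_mul, ← step_av_mul, ← step_av_sub, ← step_av_add]
      refine step_av_congr X fun n hn => ?_
      rw [ind_of_mem hn]; field_simp; ring
    rw [e]
    have a1 := (abs_le.mp t1).2
    have a2 := (abs_le.mp t2).1
    have a3 := (abs_le.mp t3).2
    have hsum : c ^ 2 * e0 + 2 * c * B * e0 + B ^ 2 * e0 ≤ δ := by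
      have h1 : c + B ≤ (u : ℝ) ^ k * (1 + B) := by
        have : B ≤ (u : ℝ) ^ k * B := le_mul_of_one_le_left hB0.le (one_le_pow₀ hu1)
        linarith
      calc c ^ 2 * e0 + 2 * c * B * e0 + B ^ 2 * e0 = (c + B) ^ 2 * e0 := by ring
        _ ≤ ((u : ℝ) ^ k * (1 + B)) ^ 2 * e0 := by gcongr
        _ = δ := by rw [he0, hδ]; field_simp; ring
    have b1 := mul_le_mul_of_nonneg_left a3 (sq_nonneg c)
    have b2 := mul_le_mul_of_nonneg_left a2 (by positivity : 0 ≤ 2 * c * B)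
    have b3 := mul_le_mul_of_nonneg_left a1 (sq_nonneg B)
    linarith
  have hav1 : av X (fun n => nu0 w n * (nu1 w z n - 1)) ≤ 1 := by
    have e : av X (fun n => nu0 w n * (nu1 w z n - 1)) =
        av X (fun n => nu0 w n * (nu1 w z n - 1) * ind X n * Φ' n ^ 0) :=
      step_av_congr X fun n hn => by rw [ind_of_mem hn]; ring
    rw [e]; simpa using (abs_le.mp t0).2
  have hI : av X (fun n => nu0 w n * max (-K) (min (c * Φ' n - Φt n) K) * (c * Φ' n - Φt n)) ≤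
      δ / 2 := by
    have t := hIH a g (fun n => ind X n * nu0 w n * (K⁻¹ * max (-K) (min (c * Φ' n - Φt n) K)))
      hA (fun n => by
        have h0 : 0 ≤ ind X n * nu0 w n := mul_nonneg (ind_nonneg X n) (nu0_nonneg w n)
        rw [abs_mul, abs_of_nonneg h0]
        refine mul_le_of_le_one_right h0 ?_
        rw [abs_mul, abs_of_pos (inv_pos.mpr hK0), inv_mul_le_iff₀ hK0, mul_one]
        exact (step_clamp _ K hK0).1)
    have e : av X (fun n => nu0 w n * max (-K) (min (c * Φ' n - Φt n) K) * (c * Φ' n - Φt n)) =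
        K * av X (fun n => ind X n * nu0 w n * (K⁻¹ * max (-K) (min (c * Φ' n - Φt n) K)) *
          (dual D X a (sp X s g) n - Φt n)) := by
      rw [← step_av_mul]
      refine step_av_congr X fun n hn => ?_
      rw [ind_of_mem hn, hΦ]; field_simp
    rw [e]
    calc _ ≤ K * (δ / 2 / K) := mul_le_mul_of_nonneg_left (abs_le.mp t).2 hK0.le
      _ = δ / 2 := by field_simp
  have hP : |av X (fun n => (pr X n - nu0 w n) * Φs n)| ≤ ε / 4 := by
    have t := hpnt (fun n => B⁻¹ * Φs n) (fun n _ => hdiv n) hcd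
    have e : av X (fun n => (pr X n - nu0 w n) * Φs n) =
        B * av X (fun n => (pr X n - nu0 w n) * (B⁻¹ * Φs n)) := by
      rw [← step_av_mul]
      refine step_av_congr X fun n _ => ?_
      field_simp
    rw [e, abs_mul, abs_of_pos hB0]
    calc _ ≤ B * (ε / 4 / B) := mul_le_mul_of_nonneg_left t hB0.le
      _ = ε / 4 := by field_simp
  have hzero : av X (fun n => nu0 w n * (Φt n - Φs n)) = 0 := by
    have := (cellZero_sub (cellM_nu0 w L X) Φt).sum_mul (cellM_ind w.factorial L X)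
    have e : av X (fun n => nu0 w n * (Φt n - Φs n)) =
        av X (fun n => nu0 w n * (Φt n - Φs n) * ind X n) :=
      step_av_congr X fun n hn => by rw [ind_of_mem hn, mul_one]
    rw [e]; unfold av; rw [this, zero_div]
  have key := step_det X (pr X) (nu0 w) (nu1 w z) Φ' Φt Φs u c B M K ε δ (δ / 2) (δ / 2) (ε / 4)
    hu0 hε hK0 hc0.le hB0.le (nu0_nonneg w) (pr_nonneg X)
    (fun n hn => by have := pr_le hu2 hwz n; rwa [ind_of_mem hn, one_mul] at this)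
    hbt hav0 hav1 hslf (hstr 0 a _ (hA.md s)) hI (hMx s a g' hA') hP hzero
  have hfin : 8 * (c ^ 3 * M + 2 * B ^ 3) / K = δ := by
    rw [hKdef]
    have : 0 < c ^ 3 * M + 2 * B ^ 3 := by positivity
    field_simp
  simp only [hΦ]
  refine key.trans (le_of_eq ?_)
  rw [hfin, hδ]; field_simp; ring

end Pool.Agent.Lib.MP_458f0b_nt.Pois
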