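import Pool.Agent.Lib.MP_458f0b_nt.Pois.Defs

open Finset Filter Topology

namespace Pool.Agent.Lib.MP_458f0b_nt.Pois

lemma fej_nonneg (u : ℝ) : 0 ≤ fej u := by
  unfold fej
  split_ifs
  · exact zero_le_one
  · exact div_nonneg (mul_nonneg zero_le_two (sub_nonneg.2 (Real.cos_le_one u))) (sq_nonneg u)

lemma wia_repr (u : ℝ) : fej u = ∫ t in (0 : ℝ)..1, 2 * (1 - t) * Real.cos (t * u) := by
  unfold fej
  split_ifs with hu
  · subst hu
    have hd : ∀ t ∈ Set.uIcc (0 : ℝ) 1,
        HasDerivAt (fun t : ℝ => 2 * t - t * t) (2 * (1 - t) * Real.cos (t * 0)) t := by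
      intro t _
      have := ((hasDerivAt_id t).const_mul 2).fun_sub ((hasDerivAt_id t).fun_mul (hasDerivAt_id t))
      refine this.congr_deriv ?_
      simp only [mul_zero, Real.cos_zero, id]
      ring
    rw [intervalIntegral.integral_eq_sub_of_hasDerivAt hd
      (Continuous.intervalIntegrable (by fun_prop) _ _)]
    norm_num
  · have hd : ∀ t ∈ Set.uIcc (0 : ℝ) 1,
        HasDerivAt (fun t : ℝ => 2 * ((1 - t) * Real.sin (t * u) / u - Real.cos (t * u) / u ^ 2))
          (2 * (1 - t) * Real.cos (t * u)) t := by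
      intro t _
      have h1 : HasDerivAt (fun t : ℝ => t * u) u t := by
        simpa using (hasDerivAt_id t).mul_const u
      have h2 : HasDerivAt (fun t : ℝ => 1 - t) (-1) t := by
        simpa using (hasDerivAt_id t).const_sub 1
      have := (((h2.fun_mul h1.sin).div_const u).fun_sub (h1.cos.div_const (u ^ 2))).const_mul 2
      refine this.congr_deriv ?_
      field_simp
      ring
    rw [intervalIntegral.integral_eq_sub_of_hasDerivAt hd
      (Continuous.intervalIntegrable (by fun_prop) _ _)]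
    simp only [sub_self, zero_mul, one_mul, Real.sin_zero, Real.cos_zero, mul_zero, zero_div]
    ring

lemma wia_cont : Continuous fej := by
  have : fej = fun u => ∫ t in (0 : ℝ)..1, 2 * (1 - t) * Real.cos (t * u) := funext wia_repr
  rw [this]
  exact intervalIntegral.continuous_parametric_intervalIntegral_of_continuous'
    (f := fun u t : ℝ => 2 * (1 - t) * Real.cos (t * u)) (by fun_prop) 0 1

lemma wia_le (u : ℝ) : fej u ≤ 5 * (1 + u ^ 2)⁻¹ := by
  have hp : 0 < 1 + u ^ 2 := by positivity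
  rw [← div_eq_mul_inv, le_div_iff₀ hp]
  unfold fej
  split_ifs with hu
  · subst hu
    norm_num
  · have h2 : 0 < u ^ 2 := by positivity
    have h3 := Real.one_sub_sq_div_two_le_cos (x := u)
    have h4 := Real.neg_one_le_cos u
    have h5 : 2 * (1 - Real.cos u) / u ^ 2 ≤ 1 := by
      rw [div_le_one h2]
      linarith
    have h6 : 2 * (1 - Real.cos u) / u ^ 2 * u ^ 2 = 2 * (1 - Real.cos u) := by field_simp
    rw [mul_add, h6]
    linarith

lemma fej_integrable : MeasureTheory.Integrable fej := by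
  refine (integrable_inv_one_add_sq.const_mul 5).mono' wia_cont.aestronglyMeasurable
    (Eventually.of_forall fun u => ?_)
  rw [Real.norm_eq_abs, abs_of_nonneg (fej_nonneg u)]
  exact wia_le u

lemma fej_integral_pos : 0 < ∫ u, fej u :=
  MeasureTheory.integral_pos_of_integrable_nonneg_nonzero (x := 0) wia_cont fej_integrable
    fej_nonneg (by simp [fej])

lemma wia_inner (B : ℝ → ℝ) (hBm : Measurable B) (C : ℝ) (hB : ∀ u, |B u| ≤ C) {σ : ℝ}
    (hσ : 0 < σ) (τ y : ℝ) :
    ∫ u in Set.Ioi (0 : ℝ), B u * Real.exp (-σ * u) * Real.cos (τ * (u - y)) =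
      (Complex.exp (((-(τ * y) : ℝ) : ℂ) * Complex.I) *
        ∫ u in Set.Ioi (0 : ℝ), (B u : ℂ) * Complex.exp (-(((σ : ℂ) - τ * Complex.I) * u))).re := by
  have e : ∀ u : ℝ, Complex.exp (((-(τ * y) : ℝ) : ℂ) * Complex.I) *
      ((B u : ℂ) * Complex.exp (-(((σ : ℂ) - τ * Complex.I) * u))) =
      ((B u * Real.exp (-σ * u) : ℝ) : ℂ) * Complex.exp (((τ * (u - y) : ℝ) : ℂ) * Complex.I) := by
    intro u
    push_cast
    rw [mul_left_comm, mul_assoc, ← Complex.exp_add, ← Complex.exp_add]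
    congr 2
    ring
  rw [← MeasureTheory.integral_const_mul]
  simp_rw [e]
  have hi : MeasureTheory.Integrable (fun u : ℝ => ((B u * Real.exp (-σ * u) : ℝ) : ℂ) *
      Complex.exp (((τ * (u - y) : ℝ) : ℂ) * Complex.I))
      (MeasureTheory.volume.restrict (Set.Ioi (0 : ℝ))) := by
    refine ((exp_neg_integrableOn_Ioi 0 hσ).const_mul C).mono' ?_ (Eventually.of_forall fun u => ?_)
    · exact Measurable.aestronglyMeasurable (by fun_prop)
    · rw [norm_mul, Complex.norm_exp_ofReal_mul_I, mul_one, Complex.norm_real, Real.norm_eq_abs,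
        abs_mul, abs_of_pos (Real.exp_pos _)]
      exact mul_le_mul_of_nonneg_right (hB u) (Real.exp_pos _).le
  have := Complex.reCLM.integral_comp_comm hi
  simp only [Complex.reCLM_apply] at this
  rw [← this]
  refine MeasureTheory.integral_congr_ae (Eventually.of_forall fun u => ?_)
  simp only [Complex.re_ofReal_mul, Complex.exp_ofReal_mul_I_re]

lemma wia_fubini (B : ℝ → ℝ) (hBm : Measurable B) (C : ℝ) (hB : ∀ u, |B u| ≤ C) {σ : ℝ}
    (hσ : 0 < σ) (lam y : ℝ) :
    ∫ u in Set.Ioi (0 : ℝ), B u * Real.exp (-σ * u) * fej (lam * (u - y)) =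
      ∫ t in (0 : ℝ)..1, 2 * (1 - t) *
        ∫ u in Set.Ioi (0 : ℝ), B u * Real.exp (-σ * u) * Real.cos (t * lam * (u - y)) := by
  simp_rw [wia_repr, intervalIntegral.integral_of_le zero_le_one,
    ← MeasureTheory.integral_const_mul]
  rw [MeasureTheory.integral_integral_swap]
  · refine MeasureTheory.integral_congr_ae (Eventually.of_forall fun t => ?_)
    refine MeasureTheory.integral_congr_ae (Eventually.of_forall fun u => ?_)
    simp only [mul_assoc]
    ring
  · have h1 : MeasureTheory.Integrable (fun t : ℝ => |2 * (1 - t)|)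
        (MeasureTheory.volume.restrict (Set.Ioc (0 : ℝ) 1)) :=
      (Continuous.integrableOn_Icc (by fun_prop)).mono_set Set.Ioc_subset_Icc_self
    refine (((exp_neg_integrableOn_Ioi 0 hσ).const_mul C).mul_prod h1).mono' ?_
      (Eventually.of_forall fun p => ?_)
    · refine Measurable.aestronglyMeasurable ?_
      change Measurable fun p : ℝ × ℝ => B p.1 * Real.exp (-σ * p.1) *
        (2 * (1 - p.2) * Real.cos (p.2 * (lam * (p.1 - y))))
      fun_prop
    · change ‖B p.1 * Real.exp (-σ * p.1) *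
        (2 * (1 - p.2) * Real.cos (p.2 * (lam * (p.1 - y))))‖ ≤ _
      rw [Real.norm_eq_abs, abs_mul, abs_mul, abs_mul (2 * (1 - p.2)), abs_of_pos (Real.exp_pos _)]
      refine mul_le_mul (mul_le_mul_of_nonneg_right (hB _) (Real.exp_pos _).le)
        (mul_le_of_le_one_right (abs_nonneg _) (Real.abs_cos_le_one _)) (by positivity) ?_
      exact mul_nonneg ((abs_nonneg _).trans (hB 0)) (Real.exp_pos _).le

lemma wia_left (B : ℝ → ℝ) (hBm : Measurable B) (C : ℝ) (hB : ∀ u, |B u| ≤ C) {lam : ℝ}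
    (hlam : 0 < lam) (y : ℝ) :
    Tendsto (fun σ : ℝ => ∫ u in Set.Ioi (0 : ℝ), B u * Real.exp (-σ * u) * fej (lam * (u - y)))
      (𝓝[>] 0) (𝓝 (∫ u in Set.Ioi (0 : ℝ), B u * fej (lam * (u - y)))) := by
  have hc := wia_cont.measurable
  refine MeasureTheory.tendsto_integral_filter_of_dominated_convergence
    (fun u => C * fej (lam * (u - y))) (Eventually.of_forall fun σ => ?_) ?_ ?_
    (Eventually.of_forall fun u => ?_)
  · exact Measurable.aestronglyMeasurable (by fun_prop)
  · filter_upwards [self_mem_nhdsWithin] with σ hσ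
    filter_upwards [MeasureTheory.ae_restrict_mem measurableSet_Ioi] with u hu
    rw [Real.norm_eq_abs, abs_mul, abs_mul, abs_of_pos (Real.exp_pos _),
      abs_of_nonneg (fej_nonneg _)]
    refine mul_le_mul_of_nonneg_right ?_ (fej_nonneg _)
    have h1 : Real.exp (-σ * u) ≤ 1 := by
      rw [Real.exp_le_one_iff]
      have := mul_pos (show 0 < σ from hσ) (show 0 < u from hu)
      linarith
    exact (mul_le_of_le_one_right (abs_nonneg _) h1).trans (hB u)
  · exact (((fej_integrable.comp_mul_left' hlam.ne').comp_sub_right y).const_mul C).integrableOn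
  · have h1 : Continuous fun σ : ℝ => B u * Real.exp (-σ * u) * fej (lam * (u - y)) := by fun_prop
    have := (h1.tendsto 0).mono_left (nhdsWithin_le_nhds (s := Set.Ioi 0))
    simpa using this

lemma wia_eq (B : ℝ → ℝ) (hBm : Measurable B) (C : ℝ) (hB : ∀ u, |B u| ≤ C) (G : ℂ → ℂ)
    (hG : ContinuousOn G {s : ℂ | 0 ≤ s.re})
    (hGe : ∀ s : ℂ, 0 < s.re →
      G s = ∫ u in Set.Ioi (0 : ℝ), (B u : ℂ) * Complex.exp (-(s * u)))
    {lam : ℝ} (hlam : 0 < lam) (y : ℝ) :
    ∫ u in Set.Ioi (0 : ℝ), B u * fej (lam * (u - y)) =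
      ∫ t in (0 : ℝ)..1, 2 * (1 - t) * (Complex.exp (((-(t * lam * y) : ℝ) : ℂ) * Complex.I) *
        G (((0 : ℝ) : ℂ) - ((t * lam : ℝ) : ℂ) * Complex.I)).re := by
  have hc : Continuous fun p : ℝ × ℝ =>
      G (((max p.1 0 : ℝ) : ℂ) - ((p.2 * lam : ℝ) : ℂ) * Complex.I) := by
    refine hG.comp_continuous (by fun_prop) fun p => ?_
    simp
  have hR : Continuous fun σ : ℝ => ∫ t in (0 : ℝ)..1, 2 * (1 - t) *
      (Complex.exp (((-(t * lam * y) : ℝ) : ℂ) * Complex.I) *
        G (((max σ 0 : ℝ) : ℂ) - ((t * lam : ℝ) : ℂ) * Complex.I)).re := by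
    refine intervalIntegral.continuous_parametric_intervalIntegral_of_continuous'
      (f := fun σ t : ℝ => 2 * (1 - t) * (Complex.exp (((-(t * lam * y) : ℝ) : ℂ) * Complex.I) *
        G (((max σ 0 : ℝ) : ℂ) - ((t * lam : ℝ) : ℂ) * Complex.I)).re) ?_ 0 1
    exact Continuous.mul (by fun_prop)
      (Complex.continuous_re.comp (Continuous.mul (by fun_prop) hc))
  have h2 := (hR.tendsto 0).mono_left (nhdsWithin_le_nhds (s := Set.Ioi 0))
  rw [max_self] at h2
  refine tendsto_nhds_unique (wia_left B hBm C hB hlam y) (h2.congr' ?_)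
  filter_upwards [self_mem_nhdsWithin] with σ hσ
  have hσ' : 0 < σ := hσ
  rw [wia_fubini B hBm C hB hσ', max_eq_left hσ'.le]
  refine intervalIntegral.integral_congr fun t _ => ?_
  rw [wia_inner B hBm C hB hσ', hGe _ (by simpa using hσ')]

lemma wia_RL (f : ℝ → ℂ) (hf : Continuous f) {lam : ℝ} (hlam : 0 < lam) :
    Tendsto (fun y : ℝ => ∫ t in (0 : ℝ)..1,
      2 * (1 - t) * (Complex.exp (((-(t * lam * y) : ℝ) : ℂ) * Complex.I) * f t).re)
      atTop (𝓝 0) := by
  have h1 := Real.tendsto_integral_exp_smul_cocompact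
    ((Set.Ioc (0 : ℝ) 1).indicator fun t : ℝ => ((2 * (1 - t) : ℝ) : ℂ) * f t)
  have h2 : Tendsto (fun y : ℝ => lam / (2 * Real.pi) * y) atTop (cocompact ℝ) :=
    (tendsto_id.const_mul_atTop (by positivity)).mono_right atTop_le_cocompact
  have h3 := (Complex.continuous_re.tendsto 0).comp (h1.comp h2)
  rw [Complex.zero_re] at h3
  refine h3.congr fun y => ?_
  have e : ∀ t : ℝ, Real.fourierChar (-(t * (lam / (2 * Real.pi) * y))) •
      (Set.Ioc (0 : ℝ) 1).indicator (fun t : ℝ => ((2 * (1 - t) : ℝ) : ℂ) * f t) t =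
      (Set.Ioc (0 : ℝ) 1).indicator (fun t : ℝ => ((2 * (1 - t) : ℝ) : ℂ) *
        (Complex.exp (((-(t * lam * y) : ℝ) : ℂ) * Complex.I) * f t)) t := by
    intro t
    by_cases ht : t ∈ Set.Ioc (0 : ℝ) 1
    · rw [Set.indicator_of_mem ht, Set.indicator_of_mem ht, Circle.smul_def,
        Real.fourierChar_apply, smul_eq_mul, mul_left_comm]
      congr 5
      field_simp
    · rw [Set.indicator_of_notMem ht, Set.indicator_of_notMem ht, smul_zero]
  simp only [Function.comp_apply]
  simp_rw [e]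
  rw [MeasureTheory.integral_indicator measurableSet_Ioc,
    intervalIntegral.integral_of_le zero_le_one]
  have hi : MeasureTheory.Integrable (fun t : ℝ => ((2 * (1 - t) : ℝ) : ℂ) *
      (Complex.exp (((-(t * lam * y) : ℝ) : ℂ) * Complex.I) * f t))
      (MeasureTheory.volume.restrict (Set.Ioc (0 : ℝ) 1)) :=
    (Continuous.integrableOn_Icc (by fun_prop)).mono_set Set.Ioc_subset_Icc_self
  have := Complex.reCLM.integral_comp_comm hi
  simp only [Complex.reCLM_apply] at this
  rw [← this]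
  refine MeasureTheory.integral_congr_ae (Eventually.of_forall fun u => ?_)
  simp only [Complex.re_ofReal_mul]

/-- smoothed Wiener-Ikehara: a bounded function whose Laplace transform extends continuously to the
closed right half plane has vanishing Fejer averages. -/
theorem fejer_limit (B : ℝ → ℝ) (hBm : Measurable B) (C : ℝ) (hB : ∀ u, |B u| ≤ C) (G : ℂ → ℂ)
    (hG : ContinuousOn G {s : ℂ | 0 ≤ s.re})
    (hGe : ∀ s : ℂ, 0 < s.re →
      G s = ∫ u in Set.Ioi (0 : ℝ), (B u : ℂ) * Complex.exp (-(s * u)))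
    (lam : ℝ) (hlam : 0 < lam) :
    Tendsto (fun y : ℝ => ∫ u in Set.Ioi (0 : ℝ), B u * fej (lam * (u - y))) atTop (𝓝 0) := by
  simp_rw [wia_eq B hBm C hB G hG hGe hlam]
  refine wia_RL (fun t => G (((0 : ℝ) : ℂ) - ((t * lam : ℝ) : ℂ) * Complex.I)) ?_ hlam
  refine hG.comp_continuous (by fun_prop) fun t => ?_
  simp

end Pool.Agent.Lib.MP_458f0b_nt.Pois
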