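import Pool.Agent.Lib.MP_458f0b_nt.Pois.WIa

open Finset Filter Topology

namespace Pool.Agent.Lib.MP_458f0b_nt.Pois

open MeasureTheory in
/-- localisation of a weighted integral to a subset carrying most of the weight. -/
lemma wib_loc {g B : ℝ → ℝ} (hg : Integrable g) (hg0 : ∀ u, 0 ≤ g u) (hB : Measurable B) {K a : ℝ}
    (hK : ∀ u, |B u| ≤ K) {s t : Set ℝ} (hs : MeasurableSet s) (ht : MeasurableSet t)
    (hst : s ⊆ t) (ha : ∀ u ∈ s, a ≤ B u) :
    a * ∫ u in s, g u ≤ (∫ u in t, B u * g u) + K * ((∫ u, g u) - ∫ u in s, g u) := by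
  have hK0 : 0 ≤ K := (abs_nonneg _).trans (hK 0)
  have hBg : Integrable fun u => B u * g u :=
    hg.bdd_mul hB.aestronglyMeasurable (Eventually.of_forall fun u => by
      rw [Real.norm_eq_abs]; exact hK u)
  have hd : Integrable fun u => K * (g u - s.indicator g u) :=
    (hg.sub (hg.indicator hs)).const_mul K
  rw [← integral_indicator hs, ← integral_indicator ht, ← integral_sub hg (hg.indicator hs),
    ← integral_const_mul, ← integral_const_mul, ← integral_add (hBg.indicator ht) hd]
  refine integral_mono ((hg.indicator hs).const_mul a) ((hBg.indicator ht).add hd) fun u => ?_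
  have h1 := hg0 u
  have h2 := abs_le.mp (hK u)
  by_cases hu : u ∈ s
  · simp only [Set.indicator_of_mem hu, Set.indicator_of_mem (hst hu)]
    have := mul_le_mul_of_nonneg_right (ha u hu) h1
    linarith
  · by_cases hu' : u ∈ t
    · simp only [Set.indicator_of_notMem hu, Set.indicator_of_mem hu']
      have := mul_le_mul_of_nonneg_right h2.1 h1
      linarith
    · simp only [Set.indicator_of_notMem hu, Set.indicator_of_notMem hu']
      have := mul_nonneg hK0 h1
      linarith

open MeasureTheory in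
lemma wib_loc_fej {B : ℝ → ℝ} (hB : Measurable B) {K a lam d y : ℝ} (hK : ∀ u, |B u| ≤ K)
    (hlam : 0 < lam) (hd : 0 < d) (hy : d ≤ y) (ha : ∀ u, y - d ≤ u → u ≤ y + d → a ≤ B u) :
    a * ∫ v in (-(lam * d))..(lam * d), fej v ≤
      lam * (∫ u in Set.Ioi (0 : ℝ), B u * fej (lam * (u - y))) +
        K * ((∫ v, fej v) - ∫ v in (-(lam * d))..(lam * d), fej v) := by
  have hg : Integrable fun u => fej (lam * (u - y)) :=
    (fej_integrable.comp_mul_left' hlam.ne').comp_sub_right y
  have h := wib_loc hg (fun u => fej_nonneg _) hB hK (s := Set.Ioc (y - d) (y + d))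
    (t := Set.Ioi 0) measurableSet_Ioc measurableSet_Ioi
    (fun u hu => lt_of_le_of_lt (sub_nonneg.mpr hy) hu.1) fun u hu => ha u hu.1.le hu.2
  have e1 : ∫ u, fej (lam * (u - y)) = lam⁻¹ * ∫ v, fej v := by
    rw [integral_sub_right_eq_self (fun u => fej (lam * u)) y, Measure.integral_comp_mul_left,
      abs_of_pos (inv_pos.mpr hlam), smul_eq_mul]
  have e2 : ∫ u in Set.Ioc (y - d) (y + d), fej (lam * (u - y)) =
      lam⁻¹ * ∫ v in (-(lam * d))..(lam * d), fej v := by
    rw [← intervalIntegral.integral_of_le (by linarith),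
      intervalIntegral.integral_comp_sub_right (fun u => fej (lam * u)) y,
      intervalIntegral.integral_comp_mul_left _ hlam.ne', smul_eq_mul]
    congr 2 <;> ring
  rw [e1, e2] at h
  have h2 := mul_le_mul_of_nonneg_left h hlam.le
  have e3 : ∀ x : ℝ, lam * (lam⁻¹ * x) = x := fun x => mul_inv_cancel_left₀ hlam.ne' x
  calc _ = lam * (a * (lam⁻¹ * ∫ v in (-(lam * d))..(lam * d), fej v)) := by
        rw [mul_left_comm, e3]
    _ ≤ _ := h2
    _ = _ := by
        rw [mul_add, ← mul_sub, mul_left_comm lam K, e3]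

lemma wib_exists_lam (K : ℝ) {d : ℝ} (hd : 0 < d) :
    ∃ lam : ℝ, 0 < lam ∧ 0 < ∫ v in (-(lam * d))..(lam * d), fej v ∧
      K * ((∫ v, fej v) - ∫ v in (-(lam * d))..(lam * d), fej v) ≤
        d * ∫ v in (-(lam * d))..(lam * d), fej v := by
  have h1 : Tendsto (fun lam : ℝ => lam * d) atTop atTop := tendsto_id.atTop_mul_const hd
  have h2 : Tendsto (fun lam : ℝ => ∫ v in (-(lam * d))..(lam * d), fej v) atTop
      (𝓝 (∫ v, fej v)) :=
    MeasureTheory.intervalIntegral_tendsto_integral fej_integrable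
      (tendsto_neg_atTop_atBot.comp h1) h1
  have h3 : Tendsto (fun lam : ℝ => d * (∫ v in (-(lam * d))..(lam * d), fej v) -
      K * ((∫ v, fej v) - ∫ v in (-(lam * d))..(lam * d), fej v)) atTop
      (𝓝 (d * (∫ v, fej v) - K * ((∫ v, fej v) - ∫ v, fej v))) :=
    (h2.const_mul d).sub ((tendsto_const_nhds.sub h2).const_mul K)
  rw [sub_self, mul_zero, sub_zero] at h3
  obtain ⟨lam, ⟨ha, hb⟩, hc⟩ := (((eventually_gt_atTop 0).and
    (h2.eventually (lt_mem_nhds fej_integral_pos))).and
    (h3.eventually (lt_mem_nhds (mul_pos hd fej_integral_pos)))).exists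
  exact ⟨lam, ha, hb, by linarith⟩

/-- one sided bound, used for `B` and for `-B`. -/
lemma wib_side {B : ℝ → ℝ} (hB : Measurable B) {K d : ℝ} (hK : ∀ u, |B u| ≤ K) (hd : 0 < d)
    (hlim : ∀ lam : ℝ, 0 < lam →
      Tendsto (fun y : ℝ => ∫ u in Set.Ioi (0 : ℝ), B u * fej (lam * (u - y))) atTop (𝓝 0)) :
    ∀ᶠ y in atTop, ∀ a, (∀ u, y - d ≤ u → u ≤ y + d → a ≤ B u) → a ≤ 2 * d := by
  obtain ⟨lam, hlam, hM, hT⟩ := wib_exists_lam K hd
  have h1 := (hlim lam hlam).const_mul lam
  rw [mul_zero] at h1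
  filter_upwards [eventually_ge_atTop d, h1.eventually (gt_mem_nhds (mul_pos hd hM))]
    with y hy hI a ha
  have h2 := wib_loc_fej hB hK hlam hd hy ha
  exact le_of_mul_le_mul_right (by linarith) hM

lemma wib_exists_small {φ : ℝ → ℝ} (hφ : Continuous φ) {a : ℝ} (h : φ 0 < a) :
    ∃ d, 0 < d ∧ φ d < a := by
  have h1 : ∀ᶠ d in 𝓝[>] (0 : ℝ), φ d < a :=
    ((hφ.tendsto 0).eventually (gt_mem_nhds h)).filter_mono nhdsWithin_le_nhds
  obtain ⟨d, h2, h3⟩ := (h1.and self_mem_nhdsWithin).exists
  exact ⟨d, h3, h2⟩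

/-- Tauberian step. -/
theorem tauber (H : ℝ → ℝ) (hHm : Measurable H) (C A : ℝ) (h0 : ∀ u, 0 ≤ H u) (hC : ∀ u, H u ≤ C)
    (hmono : Monotone fun u => Real.exp u * H u)
    (hlim : ∀ lam : ℝ, 0 < lam →
      Tendsto (fun y : ℝ => ∫ u in Set.Ioi (0 : ℝ), (H u - A) * fej (lam * (u - y))) atTop (𝓝 0)) :
    Tendsto H atTop (𝓝 A) := by
  have hK : ∀ u, |H u - A| ≤ C + |A| := fun u => by
    have h1 := h0 u
    have h2 := hC u
    have h3 := le_abs_self A
    have h4 := neg_abs_le A
    rw [abs_le]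
    constructor <;> linarith
  have hslow : ∀ d u v : ℝ, u ≤ v → v ≤ u + 2 * d → H u ≤ Real.exp (2 * d) * H v := by
    intro d u v huv hv
    have h1 : Real.exp u * H u ≤ Real.exp v * H v := hmono huv
    have h2 : Real.exp v ≤ Real.exp u * Real.exp (2 * d) := by
      rw [← Real.exp_add]
      exact Real.exp_le_exp.mpr hv
    have h3 := mul_le_mul_of_nonneg_right h2 (h0 v)
    refine le_of_mul_le_mul_left ?_ (Real.exp_pos u)
    rw [← mul_assoc]
    exact h1.trans h3
  have hee : ∀ d : ℝ, Real.exp (-(2 * d)) * Real.exp (2 * d) = 1 := fun d => by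
    rw [← Real.exp_add, neg_add_cancel, Real.exp_zero]
  refine tendsto_order.mpr ⟨fun a ha => ?_, fun a ha => ?_⟩
  · obtain ⟨d, hd, hφ⟩ := wib_exists_small (φ := fun d => -(Real.exp (-(2 * d)) * (A - 2 * d)))
      (by fun_prop) (a := -a) (by simpa using ha)
    have h1 := wib_side (B := fun u => -(H u - A)) (hHm.sub_const A).neg (K := C + |A|)
      (fun u => by rw [abs_neg]; exact hK u) hd fun lam hlam => by
        have := (hlim lam hlam).neg
        rw [neg_zero] at this
        refine this.congr fun y => ?_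
        rw [← MeasureTheory.integral_neg]
        simp only [neg_mul]
    have h2 := (tendsto_atTop_add_const_right atTop (-d) tendsto_id).eventually h1
    filter_upwards [h2] with y hy
    have h3 := hy (A - Real.exp (2 * d) * H y) fun u hu1 hu2 => by
      have := hslow d u y (by simp only [id] at hu2; linarith) (by simp only [id] at hu1; linarith)
      linarith
    have h4 : A - 2 * d ≤ Real.exp (2 * d) * H y := by linarith
    have h5 := mul_le_mul_of_nonneg_left h4 (Real.exp_pos (-(2 * d))).le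
    rw [← mul_assoc, hee, one_mul] at h5
    linarith
  · obtain ⟨d, hd, hφ⟩ := wib_exists_small (φ := fun d => Real.exp (2 * d) * (A + 2 * d))
      (by fun_prop) (a := a) (by simpa using ha)
    have h1 := wib_side (B := fun u => H u - A) (hHm.sub_const A) hK hd hlim
    have h2 := (tendsto_atTop_add_const_right atTop d tendsto_id).eventually h1
    filter_upwards [h2] with y hy
    have h3 := hy (Real.exp (-(2 * d)) * H y - A) fun u hu1 hu2 => by
      have h4 := hslow d y u (by simp only [id] at hu1; linarith)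
        (by simp only [id] at hu2; linarith)
      have h5 := mul_le_mul_of_nonneg_left h4 (Real.exp_pos (-(2 * d))).le
      rw [← mul_assoc, hee, one_mul] at h5
      linarith
    have h4 : Real.exp (-(2 * d)) * H y ≤ A + 2 * d := by linarith
    have h5 := mul_le_mul_of_nonneg_left h4 (Real.exp_pos (2 * d)).le
    rw [← mul_assoc, mul_comm (Real.exp (2 * d)), hee, one_mul] at h5
    linarith

end Pool.Agent.Lib.MP_458f0b_nt.Pois
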