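import Pool.Agent.Lib.MP_458f0b_nt.Pois.WIb

open Finset Filter Topology

namespace Pool.Agent.Lib.MP_458f0b_nt.Pois

lemma wic_mono (a : ℕ → ℝ) (ha : ∀ n, 0 ≤ a n) :
    Monotone fun x : ℝ => ∑ i ∈ Icc 1 ⌊x⌋₊, a i := by
  intro x y hxy
  exact sum_le_sum_of_subset_of_nonneg (Icc_subset_Icc_right (Nat.floor_le_floor hxy))
    fun i _ _ => ha i

lemma wic_laplace (a : ℕ → ℝ) (ha : ∀ n, 0 ≤ a n) (C : ℝ)
    (hC : ∀ n : ℕ, ∑ i ∈ Icc 1 n, a i ≤ C * n) (s : ℂ) (hs : 0 < s.re) :
    LSeries (fun n => (a n : ℂ)) (s + 1) = (s + 1) * ∫ u in Set.Ioi (0 : ℝ),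
      ((Real.exp (-u) * ∑ i ∈ Icc 1 ⌊Real.exp u⌋₊, a i : ℝ) : ℂ) * Complex.exp (-(s * u)) := by
  have hO : (fun n : ℕ => ∑ k ∈ Icc 1 n, a k) =O[atTop] fun n : ℕ => (n : ℝ) ^ (1 : ℝ) := by
    refine Asymptotics.IsBigO.of_bound C (Eventually.of_forall fun n => ?_)
    rw [Real.rpow_one, Real.norm_of_nonneg (sum_nonneg fun i _ => ha i),
      Real.norm_of_nonneg (Nat.cast_nonneg n)]
    exact hC n
  have h1 : (1 : ℝ) < (s + 1).re := by
    rw [Complex.add_re, Complex.one_re]; linarith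
  rw [LSeries_eq_mul_integral_of_nonneg a zero_le_one h1 hO ha]
  congr 1
  have h2 := MeasureTheory.integral_comp_exp_Ioi
    (fun t : ℝ => (∑ k ∈ Icc 1 ⌊t⌋₊, (a k : ℂ)) * (t : ℂ) ^ (-(s + 1 + 1))) 0
  rw [Real.exp_zero] at h2
  rw [← h2]
  refine MeasureTheory.setIntegral_congr_fun measurableSet_Ioi fun u _ => ?_
  have h3 : ((Real.exp u : ℝ) : ℂ) ^ (-(s + 1 + 1)) = Complex.exp (u * (-(s + 1 + 1))) := by
    rw [Complex.cpow_def_of_ne_zero (by exact_mod_cast (Real.exp_pos u).ne'),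
      ← Complex.ofReal_log (Real.exp_pos u).le, Real.log_exp]
  simp only [h3, Complex.real_smul]
  push_cast
  have h4 : Complex.exp u * Complex.exp (u * (-(s + 1 + 1))) =
      Complex.exp (-u) * Complex.exp (-(s * u)) := by
    rw [← Complex.exp_add, ← Complex.exp_add]; congr 1; ring
  linear_combination (∑ k ∈ Icc 1 ⌊Real.exp u⌋₊, (a k : ℂ)) * h4

/-- Wiener-Ikehara for Dirichlet series with nonnegative coefficients and a Chebyshev bound. -/
theorem wiener_ikehara (a : ℕ → ℝ) (ha : ∀ n, 0 ≤ a n) (C : ℝ)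
    (hC : ∀ n : ℕ, ∑ i ∈ Icc 1 n, a i ≤ C * n) (A : ℝ) (G : ℂ → ℂ)
    (hG : ContinuousOn G {s : ℂ | 1 ≤ s.re})
    (hGe : ∀ s : ℂ, 1 < s.re → G s = LSeries (fun n => (a n : ℂ)) s - A / (s - 1)) :
    Tendsto (fun x : ℝ => (∑ i ∈ Icc 1 ⌊x⌋₊, a i) / x) atTop (𝓝 A) := by
  set H : ℝ → ℝ := fun u => Real.exp (-u) * ∑ i ∈ Icc 1 ⌊Real.exp u⌋₊, a i with hH
  have hC0 : 0 ≤ C := by
    have := hC 1
    simp only [Icc_self, sum_singleton, Nat.cast_one, mul_one] at this
    exact (ha 1).trans this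
  have hmono : Monotone fun u : ℝ => ∑ i ∈ Icc 1 ⌊Real.exp u⌋₊, a i :=
    (wic_mono a ha).comp Real.exp_monotone
  have hHm : Measurable H := (Real.measurable_exp.comp measurable_neg).mul hmono.measurable
  have h0 : ∀ u, 0 ≤ H u := fun u => mul_nonneg (Real.exp_pos _).le (sum_nonneg fun i _ => ha i)
  have hHC : ∀ u, H u ≤ C := by
    intro u
    have h1 : ∑ i ∈ Icc 1 ⌊Real.exp u⌋₊, a i ≤ C * Real.exp u :=
      (hC _).trans (mul_le_mul_of_nonneg_left (Nat.floor_le (Real.exp_pos u).le) hC0)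
    calc H u ≤ Real.exp (-u) * (C * Real.exp u) :=
          mul_le_mul_of_nonneg_left h1 (Real.exp_pos _).le
      _ = C := by
          rw [Real.exp_neg]; field_simp
  have hmono' : Monotone fun u => Real.exp u * H u := by
    have : (fun u => Real.exp u * H u) = fun u : ℝ => ∑ i ∈ Icc 1 ⌊Real.exp u⌋₊, a i := by
      funext u
      simp only [hH]
      rw [← mul_assoc, ← Real.exp_add, add_neg_cancel, Real.exp_zero, one_mul]
    rw [this]; exact hmono
  have hBm : Measurable fun u => H u - A := hHm.sub_const A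
  have hB : ∀ u, |H u - A| ≤ C + |A| := fun u =>
    (abs_sub _ _).trans (by rw [abs_of_nonneg (h0 u)]; linarith [hHC u])
  have hG' : ContinuousOn (fun s : ℂ => (G (s + 1) - A) / (s + 1)) {s : ℂ | 0 ≤ s.re} := by
    refine ContinuousOn.div (ContinuousOn.sub ?_ continuousOn_const) (by fun_prop) ?_
    · refine hG.comp (by fun_prop) fun s hs => ?_
      have hs' : 0 ≤ s.re := hs
      show 1 ≤ (s + 1).re
      rw [Complex.add_re, Complex.one_re]; linarith
    · intro s hs h
      have hs' : 0 ≤ s.re := hs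
      have := congrArg Complex.re h
      rw [Complex.add_re, Complex.one_re, Complex.zero_re] at this
      linarith
  have hGe' : ∀ s : ℂ, 0 < s.re → (G (s + 1) - A) / (s + 1) =
      ∫ u in Set.Ioi (0 : ℝ), ((H u - A : ℝ) : ℂ) * Complex.exp (-(s * u)) := by
    intro s hs
    have h1 : (1 : ℝ) < (s + 1).re := by
      rw [Complex.add_re, Complex.one_re]; linarith
    have hs0 : s ≠ 0 := fun h => by rw [h, Complex.zero_re] at hs; exact lt_irrefl _ hs
    have hs1 : s + 1 ≠ 0 := fun h => by rw [h, Complex.zero_re] at h1; linarith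
    have hre : (-s).re < 0 := by rw [Complex.neg_re]; linarith
    have hE : MeasureTheory.IntegrableOn (fun u : ℝ => Complex.exp (-(s * u))) (Set.Ioi 0) := by
      simpa only [neg_mul] using integrableOn_exp_mul_complex_Ioi hre 0
    have hEi : ∫ u in Set.Ioi (0 : ℝ), Complex.exp (-(s * u)) = 1 / s := by
      have := integral_exp_mul_complex_Ioi hre 0
      simp only [neg_mul, Complex.ofReal_zero, mul_zero, Complex.exp_zero] at this
      rw [this, neg_div_neg_eq]
    have hHi : MeasureTheory.IntegrableOn (fun u : ℝ => (H u : ℂ) * Complex.exp (-(s * u)))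
        (Set.Ioi 0) := by
      refine MeasureTheory.Integrable.bdd_mul (c := C) hE
        (Complex.measurable_ofReal.comp hHm).aestronglyMeasurable
        (Eventually.of_forall fun u => ?_)
      rw [Complex.norm_real, Real.norm_of_nonneg (h0 u)]
      exact hHC u
    have hsplit : ∫ u in Set.Ioi (0 : ℝ), ((H u - A : ℝ) : ℂ) * Complex.exp (-(s * u)) =
        (∫ u in Set.Ioi (0 : ℝ), (H u : ℂ) * Complex.exp (-(s * u))) - A * (1 / s) := by
      rw [← hEi, ← MeasureTheory.integral_const_mul,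
        ← MeasureTheory.integral_sub hHi (hE.const_mul _)]
      refine MeasureTheory.setIntegral_congr_fun measurableSet_Ioi fun u _ => ?_
      push_cast
      ring
    rw [hsplit, hGe _ h1, wic_laplace a ha C hC s hs, add_sub_cancel_right]
    field_simp
    ring
  have hlim := tauber H hHm C A h0 hHC hmono' fun lam hlam =>
    fejer_limit (fun u => H u - A) hBm (C + |A|) hB _ hG' hGe' lam hlam
  refine (hlim.comp Real.tendsto_log_atTop).congr' ?_
  filter_upwards [eventually_gt_atTop (0 : ℝ)] with x hx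
  simp only [Function.comp, hH]
  rw [Real.exp_neg, Real.exp_log hx, div_eq_inv_mul]

/-- prime number theorem in progressions, von Mangoldt form -/
theorem psi_ap (q : ℕ) [NeZero q] (a : ZMod q) (ha : IsUnit a) :
    Tendsto (fun x : ℝ =>
      (∑ n ∈ Icc 1 ⌊x⌋₊, ArithmeticFunction.vonMangoldt.residueClass a n) / x) atTop
      (𝓝 ((q.totient : ℝ)⁻¹)) := by
  refine wiener_ikehara _ (ArithmeticFunction.vonMangoldt.residueClass_nonneg a) (Real.log 4 + 4)
    (fun n => ?_) _ _ (ArithmeticFunction.vonMangoldt.continuousOn_LFunctionResidueClassAux a)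
    fun s hs => ?_
  · have h := Chebyshev.psi_le_const_mul_self (Nat.cast_nonneg (α := ℝ) n)
    rw [Chebyshev.psi, Nat.floor_natCast] at h
    refine le_trans ?_ h
    rw [← Finset.Icc_add_one_left_eq_Ioc, zero_add]
    exact sum_le_sum fun i _ => ArithmeticFunction.vonMangoldt.residueClass_le a i
  · have h := ArithmeticFunction.vonMangoldt.eqOn_LFunctionResidueClassAux ha hs
    rw [h]
    push_cast
    rfl

end Pool.Agent.Lib.MP_458f0b_nt.Pois
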